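import Pool.Agent.K7x.QC.Test

/-!
# Piece NORM: completeness and soundness of the three tests
-/

set_option autoImplicit false

namespace Pool.Agent.K7x.QC

open Finset

namespace NormP

variable {a h m : ℕ}

theorem toZ_ofZ (z : Fin m → ZMod 2) : toZ (ofZ z) = z := by
  funext k
  unfold toZ ofZ
  rcases z2 (z k) with e | e <;> simp [e]

theorem ofZ_toZ (z : Fin m → Bool) : ofZ (toZ z) = z := by
  funext k
  unfold toZ ofZ
  cases e : z k <;> simp [e]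

theorem vp_append (v : Fin a → Bool) (z : Fin m → Bool) : vp (Fin.append v z) = v := by
  funext k
  simp [vp]

theorem zq_append (v : Fin a → Bool) (z : Fin m → Bool) : zq (Fin.append v z) = z := by
  funext k
  simp [zq]

theorem append_vz (x : Fin (a + m) → Bool) : Fin.append (vp x) (zq x) = x := by
  funext k
  refine Fin.addCases (fun i => ?_) (fun i => ?_) k <;> simp [vp, zq]

theorem sum_vz {M : Type*} [AddCommMonoid M] (f : (Fin (a + m) → Bool) → M) :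
    ∑ x, f x = ∑ v : Fin a → Bool, ∑ z : Fin m → Bool, f (Fin.append v z) := by
  rw [← Fintype.sum_prod_type' (f := fun (v : Fin a → Bool) (z : Fin m → Bool) =>
    f (Fin.append v z))]
  exact (Fintype.sum_equiv (Fin.appendEquiv a m) _ _ fun _ => rfl).symm

theorem ofZ_inj {z w : Fin m → ZMod 2} (e : ofZ z = ofZ w) : z = w := by
  rw [← toZ_ofZ z, ← toZ_ofZ w, e]

open scoped Classical in
theorem sum_pt {M : Type*} [AddCommMonoid M] {p : Par h m} (hp : Inj p)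
    (f : (Fin m → Bool) → M) :
    ∑ z, (if ∃ i, ev p i = toZ z then f z else 0) = ∑ i, f (ofZ (ev p i)) := by
  rw [← Finset.sum_filter]
  have : (univ.filter fun z : Fin m → Bool => ∃ i, ev p i = toZ z) =
      univ.image fun i => ofZ (ev p i) := by
    ext z
    simp only [mem_filter, mem_univ, true_and, mem_image]
    constructor
    · rintro ⟨i, hi⟩
      exact ⟨i, by rw [hi, ofZ_toZ]⟩
    · rintro ⟨i, rfl⟩
      exact ⟨i, (toZ_ofZ _).symm⟩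
  rw [this, Finset.sum_image]
  intro i _ j _ hij
  exact hp (ofZ_inj hij)

/-- the port as a basis state -/
def pt (Ω : Dat (Fin a → Bool) h m) (v : Fin a → Bool) (i : Ix h) : Fin (a + m) → Bool :=
  Fin.append v (ofZ (ev (Ω v) i))

variable {nb : Ix h → (Fin a → Bool) → (Fin a → Bool)} {r : ℕ} {Ω : Dat (Fin a → Bool) h m}
  {U : Finset (Fin a → Bool)}

theorem isPt_pt {v : Fin a → Bool} {i : Ix h} :
    IsPt nb Ω U (pt Ω v i) i ↔ (v ∈ U ∨ nb i v ∈ U) := by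
  unfold IsPt pt
  rw [vp_append, zq_append, toZ_ofZ]
  simp

theorem eq_pt {x : Fin (a + m) → Bool} {i : Ix h} (hi : ev (Ω (vp x)) i = toZ (zq x)) :
    pt Ω (vp x) i = x := by
  unfold pt
  rw [hi, ofZ_toZ, append_vz]

theorem oth_eq (hΩ : ∀ v, Inj (Ω v)) {x : Fin (a + m) → Bool} {i : Ix h}
    (hi : IsPt nb Ω U x i) : oth nb Ω U x = pt Ω (nb i (vp x)) i := by
  have hx : ∃ i, IsPt nb Ω U x i := ⟨i, hi⟩
  have e : hx.choose = i := hΩ _ (hx.choose_spec.1.trans hi.1.symm)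
  unfold oth
  rw [dif_pos hx, e]
  rfl

theorem tS_iff {x : Fin (a + m) → Bool} : tS nb Ω U x = true ↔ ∃ i, IsPt nb Ω U x i := by
  simp [tS]

theorem vp_pt {v : Fin a → Bool} {i : Ix h} : vp (pt Ω v i) = v := vp_append _ _

theorem part0 (hg : Good r nb) (hΩ : ∀ v, Inj (Ω v)) (U : Finset (Fin a → Bool))
    (x : Fin (a + m) → Bool) (hx : tS nb Ω U x = true) :
    tS nb Ω U (oth nb Ω U x) = true ∧ oth nb Ω U (oth nb Ω U x) = x := by
  obtain ⟨i, hi⟩ := tS_iff.1 hx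
  have h2 : IsPt nb Ω U (pt Ω (nb i (vp x)) i) i :=
    isPt_pt.2 (by rw [hg.invol]; exact hi.2.symm)
  rw [oth_eq hΩ hi]
  refine ⟨tS_iff.2 ⟨i, h2⟩, ?_⟩
  rw [oth_eq hΩ h2, vp_pt, hg.invol]
  exact eq_pt hi.1

theorem oth_pt (hΩ : ∀ v, Inj (Ω v)) {v : Fin a → Bool} {i : Ix h} (hv : v ∈ U ∨ nb i v ∈ U) :
    oth nb Ω U (pt Ω v i) = pt Ω (nb i v) i := by
  rw [oth_eq hΩ (isPt_pt.2 hv), vp_pt]

theorem hadZ_append (φ : (Fin (a + m) → Bool) → ℂ) (v : Fin a → Bool) (z : Fin m → Bool) :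
    hadZ φ (Fin.append v z) = hadT (fun y => φ (Fin.append v y)) z := by
  unfold hadZ
  rw [vp_append, zq_append]

open scoped Classical in
/-- the first test at a vertex of `U` -/
theorem kA_in (ht : P_test) (hΩ : ∀ v, Inj (Ω v)) {v : Fin a → Bool} (hv : v ∈ U)
    (φ : (Fin (a + m) → Bool) → ℂ) (z : Fin m → Bool) :
    kA (tS nb Ω U) (tD Ω U) φ (Fin.append v z) =
      if ∃ i, ev (Ω v) i = toZ z then (∑ i, φ (pt Ω v i)) / 2 ^ h else 0 := by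
  have h1 := ht.1 h m (Ω v) (hΩ v) (fun z' => φ (Fin.append v z')) z
  rw [sum_pt (hΩ v) (fun z' => φ (Fin.append v z'))] at h1
  refine Eq.trans ?_ h1
  unfold kA
  rw [hadZ_append]
  congr 1
  funext y
  have e1 : tD Ω U (Fin.append v y) = true ↔ Perp (Ω v) (toZ y) := by
    unfold tD
    rw [decide_eq_true_iff, vp_append, zq_append]
    constructor
    · rintro (e | e)
      · intro i j
        rw [e]
        simp
      · exact e.2
    · exact fun e => Or.inr ⟨hv, e⟩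
  have e2 : (fun y' => if tS nb Ω U (Fin.append v y') = true then φ (Fin.append v y') else 0) =
      fun z' => if ∃ i, ev (Ω v) i = toZ z' then φ (Fin.append v z') else 0 := by
    funext z'
    have : tS nb Ω U (Fin.append v z') = true ↔ ∃ i, ev (Ω v) i = toZ z' := by
      rw [tS_iff]
      unfold IsPt
      rw [vp_append, zq_append]
      simp [hv]
    by_cases e : ∃ i, ev (Ω v) i = toZ z'
    · rw [if_pos e, if_pos (this.2 e)]
    · rw [if_neg e, if_neg fun e' => e (this.1 e')]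
  rw [hadZ_append, e2]
  by_cases e : Perp (Ω v) (toZ y)
  · rw [if_pos e, if_pos (e1.2 e)]
  · rw [if_neg e, if_neg fun e' => e (e1.1 e')]

/-- the first test at the other vertices -/
theorem kA_out (ht : P_test) {v : Fin a → Bool} (hv : v ∉ U)
    (φ : (Fin (a + m) → Bool) → ℂ) (z : Fin m → Bool) :
    kA (tS nb Ω U) (tD Ω U) φ (Fin.append v z) =
      (∑ z', if tS nb Ω U (Fin.append v z') = true then φ (Fin.append v z') else 0) / 2 ^ m := by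
  classical
  rw [← ht.2.1 m (fun z' => if tS nb Ω U (Fin.append v z') = true then φ (Fin.append v z') else 0) z]
  unfold kA
  rw [hadZ_append]
  congr 1
  funext y
  have e1 : tD Ω U (Fin.append v y) = true ↔ toZ y = 0 := by
    unfold tD
    rw [decide_eq_true_iff, vp_append, zq_append]
    constructor
    · rintro (e | e)
      · exact e
      · exact absurd e.1 hv
    · exact Or.inl
  rw [hadZ_append]
  by_cases e : toZ y = 0
  · rw [if_pos e, if_pos (e1.2 e)]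
  · rw [if_neg e, if_neg fun e' => e (e1.1 e')]

theorem kA_pt (ht : P_test) (hΩ : ∀ v, Inj (Ω v)) {v : Fin a → Bool} (hv : v ∈ U)
    (φ : (Fin (a + m) → Bool) → ℂ) (i : Ix h) :
    kA (tS nb Ω U) (tD Ω U) φ (pt Ω v i) = (∑ i, φ (pt Ω v i)) / 2 ^ h := by
  unfold pt
  rw [kA_in ht hΩ hv, if_pos ⟨i, (toZ_ofZ _).symm⟩]
  rfl

theorem kB_pt (hΩ : ∀ v, Inj (Ω v)) {v : Fin a → Bool} {i : Ix h} (hv : v ∈ U ∨ nb i v ∈ U)
    (φ : (Fin (a + m) → Bool) → ℂ) :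
    kB (tS nb Ω U) (oth nb Ω U) φ (pt Ω v i) = (φ (pt Ω v i) + φ (pt Ω (nb i v) i)) / 2 := by
  unfold kB
  rw [if_pos (tS_iff.2 ⟨i, isPt_pt.2 hv⟩), oth_pt hΩ hv]

theorem card_Ix : Fintype.card (Ix h) = 2 ^ h := by
  rw [Fintype.card_fun, ZMod.card, Fintype.card_fin]

/-! ### Completeness -/

/-- the uniform superposition of all the ports -/
noncomputable def uni (nb : Ix h → (Fin a → Bool) → (Fin a → Bool)) (Ω : Dat (Fin a → Bool) h m) :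
    (Fin (a + m) → Bool) → ℂ := fun x =>
  if tS nb Ω univ x = true then (((Real.sqrt (2 ^ (a + h)))⁻¹ : ℝ) : ℂ) else 0

theorem complete_uni (ht : P_test) (hΩ : ∀ v, Inj (Ω v)) :
    ∑ x, ‖uni nb Ω x‖ ^ 2 = 1 ∧
    ∑ x, ‖kV (tS nb Ω univ) (tD Ω univ) (oth nb Ω univ) (uni nb Ω) x‖ ^ 2 = 1 := by
  classical
  unfold uni
  set c : ℝ := (Real.sqrt (2 ^ (a + h)))⁻¹ with hc
  have hc2 : c ^ 2 = (2 ^ (a + h))⁻¹ := by
    rw [hc, inv_pow, Real.sq_sqrt (by positivity)]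
  set φ : (Fin (a + m) → Bool) → ℂ := fun x => if tS nb Ω univ x = true then (c : ℂ) else 0 with hφ
  have hval : ∀ v i, φ (pt Ω v i) = c := by
    intro v i
    rw [hφ]
    exact if_pos (tS_iff.2 ⟨i, isPt_pt.2 (Or.inl (mem_univ _))⟩)
  have hS : ∀ (v : Fin a → Bool) (z : Fin m → Bool),
      tS nb Ω univ (Fin.append v z) = true ↔ ∃ i, ev (Ω v) i = toZ z := by
    intro v z
    rw [tS_iff]
    unfold IsPt
    rw [vp_append, zq_append]
    simp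
  have hval2 : ∀ v z, φ (Fin.append v z) = if ∃ i, ev (Ω v) i = toZ z then (c : ℂ) else 0 := by
    intro v z
    show (if tS nb Ω univ (Fin.append v z) = true then (c : ℂ) else 0) = _
    by_cases e : ∃ i, ev (Ω v) i = toZ z
    · rw [if_pos e, if_pos ((hS v z).2 e)]
    · rw [if_neg e, if_neg fun e' => e ((hS v z).1 e')]
  have h2h : (2 : ℂ) ^ h ≠ 0 := pow_ne_zero _ two_ne_zero
  have hA : kA (tS nb Ω univ) (tD Ω univ) φ = φ := by
    funext x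
    rw [← append_vz x, kA_in ht hΩ (mem_univ _), hval2]
    simp only [hval, sum_const, card_univ, card_Ix, nsmul_eq_mul]
    push_cast
    rw [mul_div_cancel_left₀ _ h2h]
  have hB : kB (tS nb Ω univ) (oth nb Ω univ) φ = φ := by
    funext x
    by_cases e : tS nb Ω univ x = true
    · obtain ⟨i, hi⟩ := tS_iff.1 e
      rw [← eq_pt hi.1, kB_pt hΩ (Or.inl (mem_univ _)), hval, hval]
      ring
    · unfold kB
      rw [if_neg e]
      show 0 = if tS nb Ω univ x = true then (c : ℂ) else 0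
      rw [if_neg e]
  have hn : ∑ x, ‖φ x‖ ^ 2 = 1 := by
    rw [sum_vz]
    have : ∀ v : Fin a → Bool, ∑ z : Fin m → Bool, ‖φ (Fin.append v z)‖ ^ 2 = 2 ^ h * c ^ 2 := by
      intro v
      have h3 := sum_pt (hΩ v) (fun _ : Fin m → Bool => c ^ 2)
      rw [sum_const, card_univ, card_Ix, nsmul_eq_mul] at h3
      push_cast at h3
      rw [← h3]
      refine sum_congr rfl fun z _ => ?_
      rw [hval2]
      split_ifs
      · rw [Complex.norm_real, Real.norm_eq_abs, sq_abs]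
      · simp
    simp only [this]
    rw [sum_const, card_univ, Fintype.card_fun, Fintype.card_bool, Fintype.card_fin, nsmul_eq_mul,
      hc2, pow_add]
    push_cast
    field_simp
  refine ⟨hn, ?_⟩
  unfold kV
  rw [hA, hB, hA]
  exact hn

theorem complete (ht : P_test) (hΩ : ∀ v, Inj (Ω v)) :
    ∃ φ : (Fin (a + m) → Bool) → ℂ, ∑ x, ‖φ x‖ ^ 2 = 1 ∧
    ∑ x, ‖kV (tS nb Ω univ) (tD Ω univ) (oth nb Ω univ) φ x‖ ^ 2 = 1 :=
  ⟨uni nb Ω, complete_uni ht hΩ⟩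

/-! ### Soundness -/

theorem norm_add_sq (x y : ℂ) {t : ℝ} (ht : 0 < t) :
    ‖x + y‖ ^ 2 ≤ (1 + t) * ‖x‖ ^ 2 + (1 + t⁻¹) * ‖y‖ ^ 2 := by
  have h1 : ‖x + y‖ ^ 2 ≤ (‖x‖ + ‖y‖) ^ 2 := by gcongr; exact norm_add_le x y
  have h2 : 0 ≤ t⁻¹ * (t * ‖x‖ - ‖y‖) ^ 2 := by positivity
  have h3 : t⁻¹ * (t * ‖x‖ - ‖y‖) ^ 2 = t * ‖x‖ ^ 2 - 2 * ‖x‖ * ‖y‖ + t⁻¹ * ‖y‖ ^ 2 := by
    field_simp
    ring
  nlinarith

theorem norm_sum_sq {ι : Type} (s : Finset ι) (f : ι → ℂ) :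
    ‖∑ i ∈ s, f i‖ ^ 2 ≤ #s * ∑ i ∈ s, ‖f i‖ ^ 2 := by
  calc ‖∑ i ∈ s, f i‖ ^ 2 ≤ (∑ i ∈ s, ‖f i‖) ^ 2 := by
        gcongr
        exact norm_sum_le _ _
    _ ≤ _ := sq_sum_le_card_mul_sum_sq

theorem pt_le (hΩ : ∀ v, Inj (Ω v)) (v : Fin a → Bool) (f : (Fin (a + m) → Bool) → ℝ)
    (hf : ∀ x, 0 ≤ f x) :
    ∑ i, f (pt Ω v i) ≤ ∑ z : Fin m → Bool, f (Fin.append v z) := by
  classical
  have := sum_pt (hΩ v) (fun z => f (Fin.append v z))
  unfold pt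
  rw [← this]
  refine sum_le_sum fun z _ => ?_
  split_ifs
  · exact le_rfl
  · exact hf _

/-- the number of the ports which are visible at a vertex outside of `U` -/
theorem card_vis (hg : Good r nb) {v : Fin a → Bool} (hv : v ∉ U) :
    #{z' : Fin m → Bool | tS nb Ω U (Fin.append v z') = true} ≤ #U := by
  classical
  have h1 : ({z' : Fin m → Bool | tS nb Ω U (Fin.append v z') = true} : Finset _) ⊆
      ({i | nb i v ∈ U} : Finset (Ix h)).image fun i => ofZ (ev (Ω v) i) := by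
    intro z' hz
    rw [mem_filter] at hz
    obtain ⟨i, hi⟩ := tS_iff.1 hz.2
    unfold IsPt at hi
    rw [vp_append, zq_append] at hi
    rw [mem_image]
    refine ⟨i, ?_, by rw [hi.1, ofZ_toZ]⟩
    rw [mem_filter]
    exact ⟨mem_univ _, hi.2.resolve_left hv⟩
  refine (card_le_card h1).trans (card_image_le.trans ?_)
  refine card_le_card_of_injOn (fun i => nb i v) (fun i hi => ?_) fun i _ j _ e => hg.inj v i j e
  simpa using hi

theorem out_le (ht : P_test) (hg : Good r nb) (hhm : h ≤ m) (hU : 1000 * #U ≤ 2 ^ h)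
    {v : Fin a → Bool} (hv : v ∉ U) (φ : (Fin (a + m) → Bool) → ℂ) :
    ∑ z : Fin m → Bool, ‖kA (tS nb Ω U) (tD Ω U) φ (Fin.append v z)‖ ^ 2 ≤
      1 / 1000 * ∑ z : Fin m → Bool, ‖φ (Fin.append v z)‖ ^ 2 := by
  classical
  simp only [kA_out ht hv, ← sum_filter]
  rw [sum_const, card_univ, Fintype.card_fun, Fintype.card_bool, Fintype.card_fin, nsmul_eq_mul,
    norm_div, norm_pow, Complex.norm_ofNat, div_pow]
  push_cast
  set s := ({z' : Fin m → Bool | tS nb Ω U (Fin.append v z') = true} : Finset _) with hs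
  have h1 : ‖∑ z' ∈ s, φ (Fin.append v z')‖ ^ 2 ≤ #U * ∑ z, ‖φ (Fin.append v z)‖ ^ 2 := by
    refine (norm_sum_sq _ _).trans ?_
    have h2 : (#s : ℝ) ≤ #U := by exact_mod_cast card_vis (Ω := Ω) hg hv
    have h3 : ∑ z' ∈ s, ‖φ (Fin.append v z')‖ ^ 2 ≤ ∑ z, ‖φ (Fin.append v z)‖ ^ 2 :=
      sum_le_sum_of_subset_of_nonneg (subset_univ _) fun _ _ _ => by positivity
    exact mul_le_mul h2 h3 (sum_nonneg fun _ _ => by positivity) (Nat.cast_nonneg _)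
  have h4 : (1000 : ℝ) * #U ≤ 2 ^ m := by
    have : 1000 * #U ≤ 2 ^ m := hU.trans (Nat.pow_le_pow_right (by norm_num) hhm)
    exact_mod_cast this
  have h5 : (0 : ℝ) < 2 ^ m := by positivity
  have h6 : (0 : ℝ) ≤ ∑ z : Fin m → Bool, ‖φ (Fin.append v z)‖ ^ 2 :=
    sum_nonneg fun _ _ => by positivity
  calc (2 : ℝ) ^ m * (‖∑ z' ∈ s, φ (Fin.append v z')‖ ^ 2 / (2 ^ m) ^ 2)
      = ‖∑ z' ∈ s, φ (Fin.append v z')‖ ^ 2 / 2 ^ m := by field_simp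
    _ ≤ (#U * ∑ z, ‖φ (Fin.append v z)‖ ^ 2) / 2 ^ m := by gcongr
    _ ≤ 1 / 1000 * ∑ z : Fin m → Bool, ‖φ (Fin.append v z)‖ ^ 2 := by
        rw [div_le_iff₀ h5]
        nlinarith

theorem kB_le (hg : Good r nb) (hΩ : ∀ v, Inj (Ω v)) (ψ : (Fin (a + m) → Bool) → ℂ) :
    ∑ x, ‖kB (tS nb Ω U) (oth nb Ω U) ψ x‖ ^ 2 ≤ ∑ x, ‖ψ x‖ ^ 2 := by
  classical
  set s := ({x | tS nb Ω U x = true} : Finset (Fin (a + m) → Bool)) with hs
  have h1 : ∑ x ∈ s, ‖ψ (oth nb Ω U x)‖ ^ 2 = ∑ x ∈ s, ‖ψ x‖ ^ 2 := by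
    refine sum_nbij' (oth nb Ω U) (oth nb Ω U) ?_ ?_ ?_ ?_ fun _ _ => rfl
    · intro x hx
      rw [hs, mem_filter] at hx ⊢
      exact ⟨mem_univ _, (part0 hg hΩ U x hx.2).1⟩
    · intro x hx
      rw [hs, mem_filter] at hx ⊢
      exact ⟨mem_univ _, (part0 hg hΩ U x hx.2).1⟩
    · intro x hx
      rw [hs, mem_filter] at hx
      exact (part0 hg hΩ U x hx.2).2
    · intro x hx
      rw [hs, mem_filter] at hx
      exact (part0 hg hΩ U x hx.2).2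
  have h2 : ∀ x, ‖kB (tS nb Ω U) (oth nb Ω U) ψ x‖ ^ 2 ≤
      if tS nb Ω U x = true then (‖ψ x‖ ^ 2 + ‖ψ (oth nb Ω U x)‖ ^ 2) / 2 else 0 := by
    intro x
    unfold kB
    split_ifs
    · have h3 := norm_add_sq (ψ x) (ψ (oth nb Ω U x)) one_pos
      rw [norm_div, Complex.norm_ofNat, div_pow]
      norm_num at h3 ⊢
      linarith
    · simp
  calc ∑ x, ‖kB (tS nb Ω U) (oth nb Ω U) ψ x‖ ^ 2
      ≤ ∑ x, if tS nb Ω U x = true then (‖ψ x‖ ^ 2 + ‖ψ (oth nb Ω U x)‖ ^ 2) / 2 else 0 :=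
        sum_le_sum fun x _ => h2 x
    _ = ∑ x ∈ s, (‖ψ x‖ ^ 2 + ‖ψ (oth nb Ω U x)‖ ^ 2) / 2 := by rw [← sum_filter]
    _ = ∑ x ∈ s, ‖ψ x‖ ^ 2 := by
        rw [← sum_div, sum_add_distrib, h1]
        ring
    _ ≤ ∑ x, ‖ψ x‖ ^ 2 :=
        sum_le_sum_of_subset_of_nonneg (subset_univ _) fun _ _ _ => by positivity

/-- the part of the norm which belongs to the vertices of `U` and to the others -/
theorem nsq_split (f : (Fin (a + m) → Bool) → ℂ) : ∑ x, ‖f x‖ ^ 2 =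
    ∑ v ∈ U, ∑ z : Fin m → Bool, ‖f (Fin.append v z)‖ ^ 2 +
      ∑ v ∈ Uᶜ, ∑ z : Fin m → Bool, ‖f (Fin.append v z)‖ ^ 2 := by
  rw [sum_vz, sum_add_sum_compl]

/-- the mean over the ports -/
noncomputable def mn (Ω : Dat (Fin a → Bool) h m) (φ : (Fin (a + m) → Bool) → ℂ)
    (v : Fin a → Bool) : ℂ := (∑ i, φ (pt Ω v i)) / 2 ^ h

theorem in_eq (ht : P_test) (hΩ : ∀ v, Inj (Ω v)) {v : Fin a → Bool} (hv : v ∈ U)
    (φ : (Fin (a + m) → Bool) → ℂ) :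
    ∑ z : Fin m → Bool, ‖kA (tS nb Ω U) (tD Ω U) φ (Fin.append v z)‖ ^ 2 =
      2 ^ h * ‖mn Ω φ v‖ ^ 2 := by
  classical
  have h3 := sum_pt (hΩ v) (fun _ : Fin m → Bool => ‖mn Ω φ v‖ ^ 2)
  rw [sum_const, card_univ, card_Ix, nsmul_eq_mul] at h3
  push_cast at h3
  rw [← h3]
  refine sum_congr rfl fun z _ => ?_
  rw [kA_in ht hΩ hv]
  split_ifs
  · rfl
  · simp

theorem mn_le (Ω : Dat (Fin a → Bool) h m) (φ : (Fin (a + m) → Bool) → ℂ) (v : Fin a → Bool) :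
    2 ^ h * ‖mn Ω φ v‖ ^ 2 ≤ ∑ i, ‖φ (pt Ω v i)‖ ^ 2 := by
  unfold mn
  have h1 := norm_sum_sq (univ : Finset (Ix h)) (fun i => φ (pt Ω v i))
  rw [card_univ, card_Ix] at h1
  push_cast at h1
  rw [norm_div, norm_pow, Complex.norm_ofNat, div_pow]
  have h2 : (0 : ℝ) < 2 ^ h := by positivity
  calc (2 : ℝ) ^ h * (‖∑ i, φ (pt Ω v i)‖ ^ 2 / (2 ^ h) ^ 2)
      = ‖∑ i, φ (pt Ω v i)‖ ^ 2 / 2 ^ h := by field_simp
    _ ≤ _ := by
        rw [div_le_iff₀ h2]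
        linarith

theorem sound (ht : P_test) (hg : Good r nb) (hΩ : ∀ v, Inj (Ω v)) (hhm : h ≤ m)
    (hU : 1000 * #U ≤ 2 ^ h) (φ : (Fin (a + m) → Bool) → ℂ) (hφ : ∑ x, ‖φ x‖ ^ 2 = 1) :
    ∑ x, ‖kV (tS nb Ω U) (tD Ω U) (oth nb Ω U) φ x‖ ^ 2 ≤ 1 / 3 := by
  classical
  have hnn : ∀ (s : Finset (Fin a → Bool)) (f : (Fin (a + m) → Bool) → ℂ),
      0 ≤ ∑ v ∈ s, ∑ z : Fin m → Bool, ‖f (Fin.append v z)‖ ^ 2 := fun s f =>
    sum_nonneg fun _ _ => sum_nonneg fun _ _ => by positivity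
  have hin : ∀ f : (Fin (a + m) → Bool) → ℂ,
      ∑ v ∈ U, 2 ^ h * ‖mn Ω f v‖ ^ 2 ≤ ∑ v ∈ U, ∑ z : Fin m → Bool, ‖f (Fin.append v z)‖ ^ 2 :=
    fun f => sum_le_sum fun v _ => (mn_le Ω f v).trans
      (pt_le hΩ v (fun x => ‖f x‖ ^ 2) fun _ => by positivity)
  have hout : ∀ f : (Fin (a + m) → Bool) → ℂ, ∑ v ∈ Uᶜ, ∑ z : Fin m → Bool,
      ‖kA (tS nb Ω U) (tD Ω U) f (Fin.append v z)‖ ^ 2 ≤
        1 / 1000 * ∑ v ∈ Uᶜ, ∑ z : Fin m → Bool, ‖f (Fin.append v z)‖ ^ 2 := by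
    intro f
    rw [mul_sum]
    exact sum_le_sum fun v hv => out_le ht hg hhm hU (by simpa using hv) f
  set ψ := kA (tS nb Ω U) (tD Ω U) φ with hψ
  set χ := kB (tS nb Ω U) (oth nb Ω U) ψ with hχ
  -- the norms of the parts
  have hφ2 := nsq_split (U := U) φ
  rw [hφ] at hφ2
  set b := ∑ v ∈ U, 2 ^ h * ‖mn Ω φ v‖ ^ 2 with hb
  have hb1 : b ≤ 1 := by
    have := hin φ
    have := hnn Uᶜ φ
    linarith
  have hb0 : 0 ≤ b := sum_nonneg fun _ _ => by positivity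
  have hr1 : ∑ v ∈ Uᶜ, ∑ z : Fin m → Bool, ‖ψ (Fin.append v z)‖ ^ 2 ≤ 1 / 1000 := by
    have h1 := hout φ
    have := hnn U φ
    linarith
  have hψn : ∑ x, ‖ψ x‖ ^ 2 ≤ 1 + 1 / 1000 := by
    rw [nsq_split (U := U) ψ]
    have : ∑ v ∈ U, ∑ z : Fin m → Bool, ‖ψ (Fin.append v z)‖ ^ 2 = b := by
      rw [hb]
      exact sum_congr rfl fun v hv => in_eq ht hΩ hv φ
    linarith
  have hχn : ∑ x, ‖χ x‖ ^ 2 ≤ 1 + 1 / 1000 := (kB_le hg hΩ ψ).trans hψn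
  -- the means of the second state
  have hψpt : ∀ v ∈ U, ∀ i, ψ (pt Ω v i) = mn Ω φ v := fun v hv i => kA_pt ht hΩ hv φ i
  set y : (Fin a → Bool) → ℂ := fun v =>
    (∑ i with nb i v ∈ U, mn Ω φ (nb i v)) / 2 ^ h / 2 with hy
  set w : (Fin a → Bool) → ℂ := fun v =>
    (∑ i with nb i v ∉ U, ψ (pt Ω (nb i v) i)) / 2 ^ h / 2 with hw
  have h2h : (2 : ℂ) ^ h ≠ 0 := pow_ne_zero _ two_ne_zero
  have hmn : ∀ v ∈ U, mn Ω χ v = mn Ω φ v / 2 + (y v + w v) := by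
    intro v hv
    have e1 : ∀ i, χ (pt Ω v i) = (mn Ω φ v + ψ (pt Ω (nb i v) i)) / 2 := by
      intro i
      rw [hχ, kB_pt hΩ (Or.inl hv), hψpt v hv]
    have e2 : ∑ i, ψ (pt Ω (nb i v) i) = (∑ i with nb i v ∈ U, mn Ω φ (nb i v)) +
        ∑ i with nb i v ∉ U, ψ (pt Ω (nb i v) i) := by
      rw [← sum_filter_add_sum_filter_not univ (fun i => nb i v ∈ U)]
      congr 1
      refine sum_congr rfl fun i hi => ?_
      rw [mem_filter] at hi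
      exact hψpt _ hi.2 i
    have e3 : mn Ω χ v = (2 ^ h * mn Ω φ v + ∑ i, ψ (pt Ω (nb i v) i)) / 2 / 2 ^ h := by
      show (∑ i, χ (pt Ω v i)) / 2 ^ h = _
      simp only [e1]
      rw [← sum_div, sum_add_distrib, sum_const, card_univ, card_Ix, nsmul_eq_mul]
      push_cast
      rfl
    rw [e3, e2, hy, hw]
    field_simp
  have hy2 : ∑ v ∈ U, 2 ^ h * ‖y v‖ ^ 2 ≤ 1 / 4000000 := by
    have h1 : ∀ v, ‖y v‖ ≤ (∑ u ∈ U, ‖mn Ω φ u‖) / 2 ^ h / 2 := by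
      intro v
      rw [hy]
      simp only [norm_div, norm_pow, Complex.norm_ofNat]
      gcongr
      refine (norm_sum_le _ _).trans ?_
      have h3 : ∑ i with nb i v ∈ U, ‖mn Ω φ (nb i v)‖ =
          ∑ u ∈ ({i | nb i v ∈ U} : Finset (Ix h)).image fun i => nb i v, ‖mn Ω φ u‖ := by
        rw [sum_image fun i _ j _ e => hg.inj v i j e]
      rw [h3]
      refine sum_le_sum_of_subset_of_nonneg ?_ fun _ _ _ => norm_nonneg _
      intro u hu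
      rw [mem_image] at hu
      obtain ⟨i, hi, rfl⟩ := hu
      rw [mem_filter] at hi
      exact hi.2
    have h2 : (∑ u ∈ U, ‖mn Ω φ u‖) ^ 2 ≤ #U * (b / 2 ^ h) := by
      refine sq_sum_le_card_mul_sum_sq.trans ?_
      have : ∑ u ∈ U, ‖mn Ω φ u‖ ^ 2 = b / 2 ^ h := by
        rw [hb, ← mul_sum, mul_div_cancel_left₀ _ (by positivity)]
      rw [this]
    have hU' : (1000 : ℝ) * #U ≤ 2 ^ h := by exact_mod_cast hU
    have hU0 : (0 : ℝ) ≤ #U := Nat.cast_nonneg _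
    have hp : (0 : ℝ) < 2 ^ h := by positivity
    calc ∑ v ∈ U, 2 ^ h * ‖y v‖ ^ 2
        ≤ ∑ _v ∈ U, 2 ^ h * ((∑ u ∈ U, ‖mn Ω φ u‖) / 2 ^ h / 2) ^ 2 :=
          sum_le_sum fun v _ => by gcongr; exact h1 v
      _ = #U * (2 ^ h * ((∑ u ∈ U, ‖mn Ω φ u‖) ^ 2 / (2 ^ h) ^ 2 / 4)) := by
          rw [sum_const, nsmul_eq_mul]
          ring
      _ ≤ #U * (2 ^ h * ((#U * (b / 2 ^ h)) / (2 ^ h) ^ 2 / 4)) := by gcongr
      _ = (#U / 2 ^ h) ^ 2 * b / 4 := by field_simp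
      _ ≤ (1 / 1000) ^ 2 * 1 / 4 := by
          have : (#U : ℝ) / 2 ^ h ≤ 1 / 1000 := by
            rw [div_le_iff₀ hp]
            linarith
          gcongr
      _ = 1 / 4000000 := by norm_num
  have hw2 : ∑ v ∈ U, 2 ^ h * ‖w v‖ ^ 2 ≤ 1 / 4000 := by
    have h1 : ∀ v, 2 ^ h * ‖w v‖ ^ 2 ≤ (∑ i with nb i v ∉ U, ‖ψ (pt Ω (nb i v) i)‖ ^ 2) / 4 := by
      intro v
      rw [hw]
      simp only [norm_div, norm_pow, Complex.norm_ofNat]
      have hp : (0 : ℝ) < 2 ^ h := by positivity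
      have h3 := norm_sum_sq ({i | nb i v ∉ U} : Finset (Ix h)) (fun i => ψ (pt Ω (nb i v) i))
      have h4 : (#({i | nb i v ∉ U} : Finset (Ix h)) : ℝ) ≤ 2 ^ h := by
        have : #({i | nb i v ∉ U} : Finset (Ix h)) ≤ 2 ^ h := by
          refine (card_le_univ _).trans ?_
          rw [card_Ix]
        exact_mod_cast this
      have h5 : (0 : ℝ) ≤ ∑ i with nb i v ∉ U, ‖ψ (pt Ω (nb i v) i)‖ ^ 2 :=
        sum_nonneg fun _ _ => by positivity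
      calc (2 : ℝ) ^ h * (‖∑ i with nb i v ∉ U, ψ (pt Ω (nb i v) i)‖ / 2 ^ h / 2) ^ 2
          = ‖∑ i with nb i v ∉ U, ψ (pt Ω (nb i v) i)‖ ^ 2 / 2 ^ h / 4 := by
            field_simp
            ring
        _ ≤ (2 ^ h * ∑ i with nb i v ∉ U, ‖ψ (pt Ω (nb i v) i)‖ ^ 2) / 2 ^ h / 4 := by
            gcongr
            exact h3.trans (by gcongr)
        _ = _ := by
            rw [mul_div_cancel_left₀ _ (ne_of_gt hp)]
    have h2 : ∑ v ∈ U, ∑ i with nb i v ∉ U, ‖ψ (pt Ω (nb i v) i)‖ ^ 2 ≤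
        ∑ v ∈ Uᶜ, ∑ z : Fin m → Bool, ‖ψ (Fin.append v z)‖ ^ 2 := by
      calc ∑ v ∈ U, ∑ i with nb i v ∉ U, ‖ψ (pt Ω (nb i v) i)‖ ^ 2
          = ∑ v ∈ U, ∑ i, (if nb i v ∉ U then ‖ψ (pt Ω (nb i v) i)‖ ^ 2 else 0) := by
            refine sum_congr rfl fun v _ => ?_
            rw [sum_filter]
        _ = ∑ i, ∑ v ∈ U, (if nb i v ∉ U then ‖ψ (pt Ω (nb i v) i)‖ ^ 2 else 0) := sum_comm
        _ ≤ ∑ i : Ix h, ∑ v, (if nb i v ∉ U then ‖ψ (pt Ω (nb i v) i)‖ ^ 2 else 0) := by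
            refine sum_le_sum fun i _ => ?_
            refine sum_le_sum_of_subset_of_nonneg (subset_univ _) fun v _ _ => ?_
            split_ifs
            · exact le_rfl
            · positivity
        _ = ∑ i : Ix h, ∑ v, (if v ∉ U then ‖ψ (pt Ω v i)‖ ^ 2 else 0) := by
            refine sum_congr rfl fun i _ => ?_
            exact Equiv.sum_comp (Function.Involutive.toPerm (nb i) (hg.invol i))
              (fun v => if v ∉ U then ‖ψ (pt Ω v i)‖ ^ 2 else 0)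
        _ = ∑ v, ∑ i : Ix h, (if v ∉ U then ‖ψ (pt Ω v i)‖ ^ 2 else 0) := sum_comm
        _ = ∑ v ∈ Uᶜ, ∑ i : Ix h, ‖ψ (pt Ω v i)‖ ^ 2 := by
            rw [← sum_add_sum_compl U, sum_eq_zero (s := U), zero_add]
            · refine sum_congr rfl fun v hv => sum_congr rfl fun i _ => ?_
              rw [if_pos (by simpa using hv)]
            · intro v hv
              simp [hv]
        _ ≤ _ := sum_le_sum fun v _ => pt_le hΩ v (fun x => ‖ψ x‖ ^ 2) fun _ => by positivity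
    calc ∑ v ∈ U, 2 ^ h * ‖w v‖ ^ 2
        ≤ ∑ v ∈ U, (∑ i with nb i v ∉ U, ‖ψ (pt Ω (nb i v) i)‖ ^ 2) / 4 :=
          sum_le_sum fun v _ => h1 v
      _ = (∑ v ∈ U, ∑ i with nb i v ∉ U, ‖ψ (pt Ω (nb i v) i)‖ ^ 2) / 4 := by rw [← sum_div]
      _ ≤ 1 / 1000 / 4 := by
          have := h2.trans hr1
          linarith
      _ = 1 / 4000 := by norm_num
  -- the end
  have hfin : ∑ v ∈ U, 2 ^ h * ‖mn Ω χ v‖ ^ 2 ≤ 11 / 40 + 22 / 4000000 + 22 / 4000 := by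
    have h1 : ∀ v ∈ U, 2 ^ h * ‖mn Ω χ v‖ ^ 2 ≤ 11 / 40 * (2 ^ h * ‖mn Ω φ v‖ ^ 2) +
        22 * (2 ^ h * ‖y v‖ ^ 2) + 22 * (2 ^ h * ‖w v‖ ^ 2) := by
      intro v hv
      have h3 := norm_add_sq (mn Ω φ v / 2) (y v + w v) (t := 1 / 10) (by norm_num)
      have h4 := norm_add_sq (y v) (w v) one_pos
      rw [hmn v hv]
      rw [norm_div, Complex.norm_ofNat, div_pow] at h3
      have hp : (0 : ℝ) < 2 ^ h := by positivity
      have h5 : ‖mn Ω φ v / 2 + (y v + w v)‖ ^ 2 ≤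
          11 / 40 * ‖mn Ω φ v‖ ^ 2 + 22 * ‖y v‖ ^ 2 + 22 * ‖w v‖ ^ 2 := by
        norm_num at h3 h4
        linarith
      calc (2 : ℝ) ^ h * ‖mn Ω φ v / 2 + (y v + w v)‖ ^ 2
          ≤ 2 ^ h * (11 / 40 * ‖mn Ω φ v‖ ^ 2 + 22 * ‖y v‖ ^ 2 + 22 * ‖w v‖ ^ 2) := by gcongr
        _ = _ := by ring
    refine (sum_le_sum h1).trans ?_
    have m1 : ∑ v ∈ U, 11 / 40 * (2 ^ h * ‖mn Ω φ v‖ ^ 2) = 11 / 40 * b := by rw [hb, mul_sum]
    have m2 : ∑ v ∈ U, 22 * (2 ^ h * ‖y v‖ ^ 2) = 22 * ∑ v ∈ U, 2 ^ h * ‖y v‖ ^ 2 := by rw [mul_sum]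
    have m3 : ∑ v ∈ U, 22 * (2 ^ h * ‖w v‖ ^ 2) = 22 * ∑ v ∈ U, 2 ^ h * ‖w v‖ ^ 2 := by rw [mul_sum]
    rw [sum_add_distrib, sum_add_distrib, m1, m2, m3]
    linarith
  unfold kV
  rw [nsq_split (U := U)]
  have h1 : ∑ v ∈ U, ∑ z : Fin m → Bool, ‖kA (tS nb Ω U) (tD Ω U) χ (Fin.append v z)‖ ^ 2 =
      ∑ v ∈ U, 2 ^ h * ‖mn Ω χ v‖ ^ 2 := sum_congr rfl fun v hv => in_eq ht hΩ hv χ
  have h2 := hout χ
  have h3 := nsq_split (U := U) χ
  have h4 := hnn U χ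
  rw [← hψ, ← hχ, h1]
  linarith

end NormP

open NormP in
theorem p_norm (ht : P_test) : P_norm := fun _ h _ _ hg _ hΩ =>
  ⟨part0 hg hΩ, complete ht hΩ, fun _ hU φ hφ => sound ht hg hΩ (by omega) hU φ hφ⟩

end Pool.Agent.K7x.QC
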