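import Pool.Agent.K7x.QC.Stm2

/-!
# Pieces for adaptive questions to `QCMA`

(Project K7x/QC, helper7.) As before: please prove `theorem p_... : P_...` in your own file
`Pool/Agent/K7x/QC/<Piece>.lean`, do not edit this file.
-/

set_option autoImplicit false

namespace Pool.Agent.K7x.QC

open Finset

section Graph

variable {V I : Type} [Fintype V] [DecidableEq V] [Fintype I] [DecidableEq I]

/-- every set of less than `2 ^ r` vertices has average degree at most `5 / 2` -/
def Spa (r : ℕ) (nb : I → V → V) : Prop := ∀ W : Finset V, #W < 2 ^ r → 2 * inner nb W ≤ 5 * #W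

/-- like `Bud`, with another potential -/
def Bud2 (nb : I → V → V) (F : Finset V) (j : ℕ) : Prop := 7 * #F ≤ 2 * inner nb F + 7 * j

end Graph

/-- **Piece GRAPH3** (the same graph as in `P_graph`, see `Graph.lean`). Let `W` be a counterexample with
as few elements as possible, `#W < 2 ^ (N / 8)`, `2 * inner nb W > 5 * #W`. (i) Every vertex of `W` has at
least two neighbours in `W`: removing a vertex of degree at most one decreases `inner` by at most two,
and `2 * 2 ≤ 5`. (ii) There are no four different vertices `v₁, v₂, v₃, v₄` in `W`, each one adjacent to the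
next one, all of degree two in `W`: removing them destroys at most five edges, so it decreases `2 * inner`
by at most `20 = 5 * 4`. (iii) So from every directed edge in `W` one comes, without turning back, after
at most three forced steps to a vertex of degree at least three (a walk without turning back along
less than `2 N` edges does not repeat a vertex, by the girth), where there are two choices. So for every
list of `N / 8` bits there is a walk without turning back of length at most `N / 2 + 1` from a fixed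
directed edge, different lists have different ends by the girth (`2 N`; as in part (c) of GRAPH: two
different walks with the same end would give a closed walk without turning back of length at most
`N + 2 ≤ 2 N`), and `2 ^ (N / 8) ≤ #W`. (For `N < 8` the set `W` is empty. The constant `8` leaves
some room.) -/
def P_graph3 : Prop := ∀ N : ℕ, 1 ≤ N →
  ∃ nb : Ix N → (Fin (8 * N ^ 2) → Bool) → (Fin (8 * N ^ 2) → Bool), Good N nb ∧ Spa (N / 8) nb

/-- **Piece SHRINK.** Let `D = G \ F` and `e` be the number of pairs `(v, i)` with `v ∈ D`, `nb i v ∈ F`. Then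
`e + inner D = ∑_{v ∈ D} #{i | nb i v ∈ G} ≥ 3 (#D - s)`, `inner G = inner F + 2 e + inner D` (`nb i` is an
involution) and `2 * inner D ≤ 5 * #D`. So `2 (inner G - inner F) = 4 (e + inner D) - 2 inner D ≥
12 (#D - s) - 5 #D = 7 #D - 12 s`, and `7 #G = 7 #F + 7 #D ≤ 2 inner G + 7 j + 12 s`. -/
def P_shrink : Prop := ∀ {V I : Type} [Fintype V] [DecidableEq V] [Fintype I] [DecidableEq I]
    (nb : I → V → V) (r r' j s : ℕ) (F G : Finset V), Good r' nb → Spa r nb → F ⊆ G → #G < 2 ^ r →
    Bud2 nb F j → #{v ∈ G \ F | #{i | nb i v ∈ G} ≤ 2} ≤ s → Bud2 nb G (j + 2 * s)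

open scoped Classical in
/-- **Piece CORE3**: `P_core2` with `Bud2`, `Spa` instead of `Bud`, `sparse`. The only changes: (1) closing a set:
adding a vertex with at least three neighbours in the set increases `inner` by at least six, and
`7 ≤ 2 * 6`; (2) `Bud2 nb F j` and `#F < 2 ^ r` give `7 #F ≤ 5 #F + 7 j`, so `#F ≤ 4 j`. -/
def P_core3 : Prop := ∀ {V : Type} [Fintype V] [DecidableEq V] (h m r r' ℓ j₀ : ℕ)
    (nb : Ix h → V → V) (F₀ : Finset V) (Ω₁ : Dat V h m) (E : Finset (Dat V h m)) (δ : ℝ),
    Good r' nb → Spa r nb → 1 ≤ h → 2 * h ≤ m → (∀ v, Inj (Ω₁ v)) → Bud2 nb F₀ j₀ → Closed nb F₀ →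
    #F₀ ≤ 4 * j₀ → (∀ Ω ∈ E, (∀ v, Inj (Ω v)) ∧ Agr nb F₀ Ω Ω₁) → E.Nonempty →
    #{Ω : Dat V h m | (∀ v, Inj (Ω v)) ∧ Agr nb F₀ Ω Ω₁} ≤ 2 ^ ℓ * #E →
    4 * (j₀ + ℓ + 1) + 1 < 2 ^ r → 8 / 2 ^ h ≤ δ →
    ∃ (F : Finset V) (Ω₀ : Dat V h m) (j : ℕ), F₀ ⊆ F ∧ Closed nb F ∧ Bud2 nb F j ∧
      j ≤ j₀ + ℓ ∧ #F ≤ 4 * j ∧ Ω₀ ∈ E ∧
      ∀ l, (#{Ω ∈ E | Agr nb F Ω Ω₀ ∧ Live nb F Ω l} : ℝ) ≤ δ * #{Ω ∈ E | Agr nb F Ω Ω₀}

open scoped Classical in
/-- **Piece DENS.** A nonempty subset of a class which is insensitive to the changes of most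
coordinates is dense in the class. The class is a product: `Ω` is in it iff every `Ω v` is in
`S v = {p | Inj p ∧ (v ∈ F → p = Ω₁ v) ∧ ∀ i, nb i v ∈ F → ev p i = ev (Ω₁ v) i}`. General lemma: for finite
sets `S v ⊆ P` with at most `q` elements each, and a nonempty set `E` of functions `Ω` with `Ω v ∈ S v` for
all `v`, such that for every `Ω ∈ E` there are at most `s` coordinates `v` for which some
`Function.update Ω v p` with `p ∈ S v` is not in `E`, we have `∏ v, #(S v) ≤ q ^ s * #E`. Proof by induction on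
the set `A` of the free coordinates (the others are fixed; the claim is `∏ v ∈ A, #(S v) ≤ q ^ s * #E`, the
coordinates `v ∈ A` only are counted): for a new coordinate `v` let `E_c = {Ω ∈ E | Ω v = c}`; if no `E_c`
(`c ∈ S v`) is empty, add the inequalities for all `c`; if one is empty, then every element of another
nonempty `E_c` is sensitive at `v`, so use the inequality for `E_c` with `s - 1`. Here
`q = 2 ^ (m * (h + 1))` is the number of all parameters. -/
def P_dens : Prop := ∀ {V : Type} [Fintype V] [DecidableEq V] (h m s : ℕ)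
    (nb : Ix h → V → V) (F : Finset V) (Ω₁ : Dat V h m) (E : Finset (Dat V h m)), E.Nonempty →
    (∀ Ω ∈ E, (∀ v, Inj (Ω v)) ∧ Agr nb F Ω Ω₁) →
    (∀ Ω ∈ E, #{v | ∃ p : Par h m, ((∀ u, Inj (Function.update Ω v p u)) ∧
      Agr nb F (Function.update Ω v p) Ω₁) ∧ Function.update Ω v p ∉ E} ≤ s) →
    #{Ω : Dat V h m | (∀ v, Inj (Ω v)) ∧ Agr nb F Ω Ω₁} ≤ 2 ^ (m * (h + 1) * s) * #E

end Pool.Agent.K7x.QC
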