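import Pool.Agent.K7x.QC.Tt
import Pool.Agent.K7x.QC.Stm3
import Pool.Agent.K7x.QC.Norm

/-!
# Adaptive questions: few vertices are heavy
-/

set_option autoImplicit false

namespace Pool.Agent.K7x.QC

open Finset Pool.Agent.NPC Pool.Agent.H620R2.Gauge Pool.Agent.H9x.Q
open Pool.Agent.R562.QH (nrm nrm_sq nrm_nonneg nrm_add_le nrm_congr)

/-- Circuits with their start states, for every question and every witness. -/
structure Rns (ι : Type) : Type 1 where
  C : ι → List Gate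
  M : ι → ℕ
  q : ι → ℕ
  K : ι → Type
  fin : ∀ i, Fintype (K i)
  non : ∀ i, Nonempty (K i)
  ψ : ∀ i, K i → Basis (M i) → ℂ
  nrm_ψ : ∀ i κ, nrm (ψ i κ) = 1

attribute [instance] Rns.fin Rns.non

variable {ι : Type}

/-- the acceptance probability -/
noncomputable def Rns.acc (X : Rns ι) (A : Oracle) (i : ι) (κ : X.K i) : ℝ :=
  accS A (X.C i) (X.q i) (X.ψ i κ)

/-- the answer is yes -/
def Rns.Yes (X : Rns ι) (A : Oracle) (i : ι) : Prop := ∃ κ, 2 / 3 ≤ X.acc A i κ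

/-- the answer is no -/
def Rns.No (X : Rns ι) (A : Oracle) (i : ι) : Prop := ∀ κ, X.acc A i κ ≤ 1 / 3

open scoped Classical in
/-- **Only few changes of an oracle at disjoint places are noticed by a run.** -/
theorem heavy (X : Rns ι) (i : ι) (κ : X.K i) {T Bd : ℕ} (hT : (X.C i).length ≤ T)
    (hBd : Short Bd (X.C i)) (A : Oracle) {V : Type} (S : Finset V) (A' : V → Oracle)
    (h2 : ∀ y, (S.filter fun v => A' v y ≠ A y).card ≤ 2)
    (hd : ∀ v ∈ S, 1 / 3 ≤ |X.acc (A' v) i κ - X.acc A i κ|) : S.card ≤ 288 * T ^ 2 := by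
  have h1 := sum_tot (ι := {v // v ∈ S}) A (fun v => A' v.1) 2 Bd (by norm_num)
    (fun y _ => by
      refine le_trans ?_ (Nat.cast_le.2 (h2 y))
      norm_cast
      refine card_le_card_of_injOn (fun v : {v // v ∈ S} => v.1) (fun v hv => ?_)
        (fun v _ v' _ h => Subtype.ext h)
      exact mem_coe.2 (mem_filter.2 ⟨v.2, (mem_filter.1 (mem_coe.1 hv)).2⟩))
    (X.C i) hBd (X.ψ i κ)
  have hψ2 : ∑ z, ‖X.ψ i κ z‖ ^ 2 = 1 := by rw [← nrm_sq, X.nrm_ψ, one_pow]
  rw [hψ2, mul_one] at h1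
  have hT' : ((X.C i).length : ℝ) ≤ T := by exact_mod_cast hT
  have hl0 : (0 : ℝ) ≤ (X.C i).length := Nat.cast_nonneg _
  have h3 : ∀ v : {v // v ∈ S}, 1 / 36 ≤ 4 * T * tot A (A' v.1) (X.C i) (X.ψ i κ) := by
    intro v
    have h4 := accS_diff A (A' v.1) (X.C i) (X.q i) (X.ψ i κ) (X.nrm_ψ i κ)
    have h5 := hybrid A (A' v.1) (X.C i) (X.ψ i κ)
    have h6 := hd v.1 v.2
    unfold Rns.acc at h6
    have h7 : 1 / 6 ≤ nrm (run (A' v.1) (X.C i) (X.ψ i κ) - run A (X.C i) (X.ψ i κ)) := by linarith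
    have h8 : (1 / 6 : ℝ) ^ 2 ≤
        nrm (run (A' v.1) (X.C i) (X.ψ i κ) - run A (X.C i) (X.ψ i κ)) ^ 2 :=
      pow_le_pow_left₀ (by norm_num) h7 2
    have h9 := tot_nonneg A (A' v.1) (X.C i) (X.ψ i κ)
    have h10 : 4 * ((X.C i).length : ℝ) * tot A (A' v.1) (X.C i) (X.ψ i κ) ≤
        4 * T * tot A (A' v.1) (X.C i) (X.ψ i κ) := by gcongr
    norm_num at h8
    linarith
  have h4 : (S.card : ℝ) * (1 / 36) ≤ 4 * T * (T * 2) := by
    calc (S.card : ℝ) * (1 / 36) = ∑ _v : {v // v ∈ S}, (1 / 36 : ℝ) := by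
          rw [sum_const, card_univ, Fintype.card_coe, nsmul_eq_mul]
      _ ≤ ∑ v : {v // v ∈ S}, 4 * T * tot A (A' v.1) (X.C i) (X.ψ i κ) :=
          sum_le_sum fun v _ => h3 v
      _ = 4 * T * ∑ v : {v // v ∈ S}, tot A (A' v.1) (X.C i) (X.ψ i κ) := by rw [mul_sum]
      _ ≤ 4 * T * (T * 2) := by
          have : ((X.C i).length : ℝ) * 2 ≤ T * 2 := by linarith
          exact mul_le_mul_of_nonneg_left (h1.trans this) (by positivity)
  have h5 : (S.card : ℝ) ≤ 288 * T ^ 2 := by nlinarith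
  exact_mod_cast h5

open scoped Classical in
theorem heavyY (X : Rns ι) (Y : Finset ι) (u : ∀ i, X.K i) {T Bd : ℕ}
    (hT : ∀ i ∈ Y, (X.C i).length ≤ T) (hBd : ∀ i ∈ Y, Short Bd (X.C i)) (A : Oracle) {V : Type}
    (S : Finset V) (A' : V → Oracle) (h2 : ∀ y, (S.filter fun v => A' v y ≠ A y).card ≤ 2)
    (hd : ∀ v ∈ S, ∃ i ∈ Y, 1 / 3 ≤ |X.acc (A' v) i (u i) - X.acc A i (u i)|) :
    S.card ≤ Y.card * (288 * T ^ 2) := by
  have h1 : S ⊆ Y.biUnion fun i => S.filter fun v =>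
      1 / 3 ≤ |X.acc (A' v) i (u i) - X.acc A i (u i)| := by
    intro v hv
    obtain ⟨i, hi, h3⟩ := hd v hv
    exact mem_biUnion.2 ⟨i, hi, mem_filter.2 ⟨hv, h3⟩⟩
  refine (card_le_card h1).trans (card_biUnion_le_card_mul _ _ _ fun i hi => ?_)
  refine heavy X i (u i) (hT i hi) (hBd i hi) A _ A' (fun y => ?_) fun v hv => (mem_filter.1 hv).2
  refine (card_le_card ?_).trans (h2 y)
  exact filter_subset_filter _ (filter_subset _ _)

open scoped Classical in
/-- **Many members of a family of oracles are not noticed by any of the runs.** -/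
theorem multi_close' (X : Rns ι) {T Bd k : ℕ} (Y : Finset ι) (hY : #Y ≤ k)
    (hT : ∀ i ∈ Y, (X.C i).length ≤ T) (hBd : ∀ i ∈ Y, Short Bd (X.C i)) {ι' : Type}
    (S : Finset ι') (A : Oracle) (F : ι' → Oracle) (δ : ℝ) (hδ : 0 < δ)
    (hK : ∀ y : List Bool, ((S.filter fun i => F i y ≠ A y).card : ℝ) ≤ δ * #S)
    (u : ∀ i, X.K i) :
    4 * #{ω ∈ S | ∃ i ∈ Y, 8 * (T + 1) * Real.sqrt ((k + 1) * δ) <
      |X.acc (F ω) i (u i) - X.acc A i (u i)|} ≤ #S := by
  set bad := {ω ∈ S | ∃ i ∈ Y, 8 * (T + 1) * Real.sqrt ((k + 1) * δ) <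
      |X.acc (F ω) i (u i) - X.acc A i (u i)|} with hbad
  have h1 : ∀ i ∈ Y, ∑ ω : {ω // ω ∈ S}, tot A (F ω.1) (X.C i) (X.ψ i (u i)) ≤ T * (δ * #S) := by
    intro i hi
    have h2 := sum_tot (ι := {ω // ω ∈ S}) A (fun ω => F ω.1) (δ * #S) Bd (by positivity)
      (fun y _ => by
        refine le_trans ?_ (hK y)
        norm_cast
        refine card_le_card_of_injOn (fun ω : {ω // ω ∈ S} => ω.1) (fun ω hω => ?_)
          (fun ω _ ω' _ h => Subtype.ext h)
        exact mem_coe.2 (mem_filter.2 ⟨ω.2, (mem_filter.1 (mem_coe.1 hω)).2⟩))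
      (X.C i) (hBd i hi) (X.ψ i (u i))
    have hψ2 : ∑ z, ‖X.ψ i (u i) z‖ ^ 2 = 1 := by rw [← nrm_sq, X.nrm_ψ, one_pow]
    rw [hψ2, mul_one] at h2
    refine h2.trans ?_
    have h3 : ((X.C i).length : ℝ) ≤ T := by exact_mod_cast hT i hi
    exact mul_le_mul_of_nonneg_right h3 (by positivity)
  have h2 : ∀ i ∈ Y, ∑ ω ∈ S, tot A (F ω) (X.C i) (X.ψ i (u i)) ≤ T * (δ * #S) := by
    intro i hi
    refine le_trans (le_of_eq ?_) (h1 i hi)
    rw [← sum_coe_sort]
  have h3 : ∀ ω ∈ bad, 4 * ((k + 1) * (T + 1)) * δ ≤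
      ∑ i ∈ Y, tot A (F ω) (X.C i) (X.ψ i (u i)) := by
    intro ω hω
    obtain ⟨i, hi, h4⟩ := (mem_filter.1 hω).2
    refine le_trans ?_ (single_le_sum (f := fun i => tot A (F ω) (X.C i) (X.ψ i (u i)))
      (fun i _ => tot_nonneg _ _ _ _) hi)
    by_contra h5
    push Not at h5
    have h6 := accS_diff A (F ω) (X.C i) (X.q i) (X.ψ i (u i)) (X.nrm_ψ i (u i))
    have h7 := hybrid A (F ω) (X.C i) (X.ψ i (u i))
    have h8 : ((X.C i).length : ℝ) ≤ T := by exact_mod_cast hT i hi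
    have h9 : nrm (run (F ω) (X.C i) (X.ψ i (u i)) - run A (X.C i) (X.ψ i (u i))) ^ 2 ≤
        (4 * (T + 1) * Real.sqrt ((k + 1) * δ)) ^ 2 := by
      refine h7.trans ?_
      rw [mul_pow, Real.sq_sqrt (by positivity)]
      have h10 := tot_nonneg A (F ω) (X.C i) (X.ψ i (u i))
      have hT0 : (0 : ℝ) ≤ T := Nat.cast_nonneg _
      calc 4 * ((X.C i).length : ℝ) * tot A (F ω) (X.C i) (X.ψ i (u i)) ≤
          4 * (T + 1) * (4 * ((k + 1) * (T + 1)) * δ) := by
            refine mul_le_mul ?_ h5.le h10 (by positivity)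
            linarith
        _ = (4 * (T + 1)) ^ 2 * ((k + 1) * δ) := by ring
    have h11 := abs_le_of_sq_le_sq h9 (by positivity)
    have h12 := le_abs_self (nrm (run (F ω) (X.C i) (X.ψ i (u i)) - run A (X.C i) (X.ψ i (u i))))
    unfold Rns.acc at h4
    linarith
  have hY' : (#Y : ℝ) ≤ k := by exact_mod_cast hY
  have hT0 : (0 : ℝ) ≤ T := Nat.cast_nonneg _
  have hk0 : (0 : ℝ) ≤ k := Nat.cast_nonneg _
  have hS0 : (0 : ℝ) ≤ #S := Nat.cast_nonneg _
  have h4 : (bad.card : ℝ) * (4 * ((k + 1) * (T + 1)) * δ) ≤ k * (T * (δ * #S)) := by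
    calc (bad.card : ℝ) * (4 * ((k + 1) * (T + 1)) * δ) =
        ∑ _ω ∈ bad, 4 * ((k + 1) * (T + 1)) * δ := by rw [sum_const, nsmul_eq_mul]
      _ ≤ ∑ ω ∈ bad, ∑ i ∈ Y, tot A (F ω) (X.C i) (X.ψ i (u i)) := sum_le_sum h3
      _ ≤ ∑ ω ∈ S, ∑ i ∈ Y, tot A (F ω) (X.C i) (X.ψ i (u i)) :=
          sum_le_sum_of_subset_of_nonneg (filter_subset _ _) fun ω _ _ =>
            sum_nonneg fun i _ => tot_nonneg _ _ _ _
      _ = ∑ i ∈ Y, ∑ ω ∈ S, tot A (F ω) (X.C i) (X.ψ i (u i)) := sum_comm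
      _ ≤ ∑ _i ∈ Y, T * (δ * #S) := sum_le_sum fun i hi => h2 i hi
      _ = #Y * (T * (δ * #S)) := by rw [sum_const, nsmul_eq_mul]
      _ ≤ k * (T * (δ * #S)) := by
          refine mul_le_mul_of_nonneg_right hY' ?_
          positivity
  have h5 : (bad.card : ℝ) * 4 * (((k + 1) * (T + 1)) * δ) ≤ #S * (((k + 1) * (T + 1)) * δ) := by
    have h6 : (k : ℝ) * T ≤ (k + 1) * (T + 1) := by nlinarith
    have h7 : (k : ℝ) * (T * (δ * #S)) ≤ #S * (((k + 1) * (T + 1)) * δ) := by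
      have := mul_le_mul_of_nonneg_right h6 (mul_nonneg hδ.le hS0)
      nlinarith
    nlinarith
  have h6 : (0 : ℝ) < ((k + 1) * (T + 1)) * δ := by positivity
  have h7 : (bad.card : ℝ) * 4 ≤ #S := le_of_mul_le_mul_right h5 h6
  have h8 : bad.card * 4 ≤ #S := by exact_mod_cast h7
  omega

/-! ### The places which depend on a vertex -/

section Tables

variable {a h m : ℕ} {nb : Ix h → (Fin a → Bool) → (Fin a → Bool)}
  {Ω : Dat (Fin a → Bool) h m} {U : Finset (Fin a → Bool)}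

/-- the vertices which concern the place `x` -/
def Con (nb : Ix h → (Fin a → Bool) → (Fin a → Bool)) (Ω : Dat (Fin a → Bool) h m)
    (x : Fin (a + m) → Bool) (v : Fin a → Bool) : Prop :=
  v = vp x ∨ ∃ i, ev (Ω (vp x)) i = toZ (zq x) ∧ nb i (vp x) = v

open scoped Classical in
theorem card_con (x : Fin (a + m) → Bool) (hinj : Inj (Ω (vp x))) (S : Finset (Fin a → Bool)) :
    #{v ∈ S | Con nb Ω x v} ≤ 2 := by
  by_cases hx : ∃ i, ev (Ω (vp x)) i = toZ (zq x)
  · obtain ⟨i, hi⟩ := hx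
    refine (card_le_card (t := {vp x, nb i (vp x)}) fun v hv => ?_).trans card_le_two
    rcases (mem_filter.1 hv).2 with h1 | ⟨j, hj, h1⟩
    · simp [h1]
    · have : j = i := hinj (hj.trans hi.symm)
      subst this
      simp [h1]
  · refine (card_le_card (t := {vp x}) fun v hv => ?_).trans (by simp)
    rcases (mem_filter.1 hv).2 with h1 | ⟨j, hj, h1⟩
    · simp [h1]
    · exact absurd ⟨j, hj⟩ hx

theorem oth_congr {U' : Finset (Fin a → Bool)} {x : Fin (a + m) → Bool}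
    (e : ∀ i, IsPt nb Ω U x i = IsPt nb Ω U' x i) : oth nb Ω U x = oth nb Ω U' x := by
  unfold oth
  by_cases hx : ∃ i, IsPt nb Ω U x i
  · have hx' : ∃ i, IsPt nb Ω U' x i := hx.imp fun i hi => (e i) ▸ hi
    rw [dif_pos hx, dif_pos hx']
    have hc : hx.choose = hx'.choose := by
      have e' : (fun i => IsPt nb Ω U x i) = fun i => IsPt nb Ω U' x i := funext e
      congr 1
    rw [hc]
  · have hx' : ¬ ∃ i, IsPt nb Ω U' x i := fun h => hx (h.imp fun i hi => (e i) ▸ hi)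
    rw [dif_neg hx, dif_neg hx']

theorem tS_congr {Ω' : Dat (Fin a → Bool) h m} {U' : Finset (Fin a → Bool)}
    {x : Fin (a + m) → Bool} (e : ∀ i, IsPt nb Ω U x i = IsPt nb Ω' U' x i) :
    tS nb Ω U x = tS nb Ω' U' x := by
  unfold tS
  have e1 : (fun i => IsPt nb Ω U x i) = fun i => IsPt nb Ω' U' x i := funext e
  have e2 : (∃ i, IsPt nb Ω U x i) = ∃ i, IsPt nb Ω' U' x i := congrArg Exists e1
  exact decide_eq_decide.2 (iff_of_eq e2)

theorem isPt_erase {v : Fin a → Bool} {x : Fin (a + m) → Bool} (hc : ¬ Con nb Ω x v) (i : Ix h) :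
    IsPt nb Ω (U.erase v) x i = IsPt nb Ω U x i := by
  unfold IsPt Con at *
  push Not at hc
  refine propext ⟨fun hx => ⟨hx.1, hx.2.imp (fun h => mem_of_mem_erase h) fun h =>
    mem_of_mem_erase h⟩, fun hx => ⟨hx.1, hx.2.imp (fun h => ?_) fun h => ?_⟩⟩
  · exact mem_erase.2 ⟨fun h' => hc.1 h'.symm, h⟩
  · exact mem_erase.2 ⟨hc.2 i hx.1, h⟩

theorem tD_erase {v : Fin a → Bool} {x : Fin (a + m) → Bool} (hc : ¬ Con nb Ω x v) :
    tD Ω (U.erase v) x = tD Ω U x := by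
  unfold tD Con at *
  push Not at hc
  congr 1
  refine propext (or_congr_right (and_congr_left fun _ => ?_))
  rw [mem_erase]
  exact ⟨fun h => h.2, fun h => ⟨fun h' => hc.1 h'.symm, h⟩⟩

theorem isPt_upd {v : Fin a → Bool} {p : Par h m} {x : Fin (a + m) → Bool}
    (hc : ¬ Con nb Ω x v) (i : Ix h) :
    IsPt nb (Function.update Ω v p) U x i = IsPt nb Ω U x i := by
  unfold IsPt Con at *
  push Not at hc
  rw [Function.update_of_ne (fun h' => hc.1 h'.symm)]

theorem oth_upd {v : Fin a → Bool} {p : Par h m} {x : Fin (a + m) → Bool}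
    (hc : ¬ Con nb Ω x v) : oth nb (Function.update Ω v p) U x = oth nb Ω U x := by
  have e := fun i => isPt_upd (U := U) (p := p) hc i
  unfold oth
  by_cases hx : ∃ i, IsPt nb Ω U x i
  · have hx' : ∃ i, IsPt nb (Function.update Ω v p) U x i := hx.imp fun i hi => (e i).symm ▸ hi
    rw [dif_pos hx, dif_pos hx']
    have hch : hx'.choose = hx.choose := by
      have e' : (fun i => IsPt nb (Function.update Ω v p) U x i) = fun i => IsPt nb Ω U x i :=
        funext e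
      congr 1
    have hp := hx.choose_spec
    rw [hch]
    have hne : nb hx.choose (vp x) ≠ v := by
      unfold Con at hc
      push Not at hc
      exact hc.2 _ hp.1
    rw [Function.update_of_ne hne]
  · have hx' : ¬ ∃ i, IsPt nb (Function.update Ω v p) U x i :=
      fun h => hx (h.imp fun i hi => (e i) ▸ hi)
    rw [dif_neg hx, dif_neg hx']

theorem tD_upd {v : Fin a → Bool} {p : Par h m} {x : Fin (a + m) → Bool}
    (hc : ¬ Con nb Ω x v) : tD (Function.update Ω v p) U x = tD Ω U x := by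
  unfold tD Con at *
  push Not at hc
  rw [Function.update_of_ne (fun h' => hc.1 h'.symm)]

end Tables

variable {nb : Gr} {n : ℕ}

theorem tb_erase {Ω : Dn n} {U : Finset (Vn n)} {v : Vn n} (i : ℕ) (c : Bool)
    {x : Fin (bN n) → Bool} (hc : ¬ Con (a := aN n) (m := 2 * hN n) (nb n) Ω x v) :
    tb nb n (Ω, U.erase v) i c x = tb nb n (Ω, U) i c x := by
  have e1 := tS_congr (a := aN n) (m := 2 * hN n) (x := x) fun j => isPt_erase (U := U) hc j
  have e2 := tD_erase (a := aN n) (m := 2 * hN n) (U := U) hc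
  have e3 := oth_congr (a := aN n) (m := 2 * hN n) (x := x) fun j => isPt_erase (U := U) hc j
  unfold tb
  simp only
  rw [e1, e2, e3]

theorem tb_upd {Ω : Dn n} {U : Finset (Vn n)} {v : Vn n} {p : Par (hN n) (2 * hN n)} (i : ℕ)
    (c : Bool) {x : Fin (bN n) → Bool}
    (hc : ¬ Con (a := aN n) (m := 2 * hN n) (nb n) Ω x v) :
    tb nb n (Function.update Ω v p, U) i c x = tb nb n (Ω, U) i c x := by
  have e1 := tS_congr (a := aN n) (m := 2 * hN n) (x := x) fun j => isPt_upd (U := U) (p := p) hc j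
  have e2 := tD_upd (a := aN n) (m := 2 * hN n) (U := U) (p := p) hc
  have e3 := oth_upd (a := aN n) (m := 2 * hN n) (U := U) (p := p) hc
  unfold tb
  simp only
  rw [e1, e2, e3]

open scoped Classical in
/-- a question notices the change of at most two vertices -/
theorem card_lev_con {B : Oracle} {W : ∀ n, Wd n} {w : Wd n} {b : Bool} {Ω : Dn n}
    {U : Finset (Vn n)} (hw : w b = (Ω, U)) (hinj : ∀ v, Inj (Ω v))
    (P : Vn n → Dn n × Finset (Vn n)) (S : Finset (Vn n))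
    (hP : ∀ v ∈ S, ∀ i c x, ¬ Con (a := aN n) (m := 2 * hN n) (nb n) Ω x v →
      tb nb n (P v) i c x = tb nb n (Ω, U) i c x) (y : List Bool) :
    (S.filter fun v => lev nb B W n (Function.update w b (P v)) y ≠ lev nb B W n w y).card ≤ 2 := by
  set j := y.tail.length - (bN n + 2) ^ 2 with hj
  set c := y.tail.getD 0 false with hc
  set x : Fin (bN n) → Bool := fun t => y.tail.getD (t + 1) false with hx
  refine (card_le_card (t := {v ∈ S | Con (a := aN n) (m := 2 * hN n) (nb n) Ω x v})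
    fun v hv => ?_).trans (card_con (a := aN n) (m := 2 * hN n) x (hinj _) S)
  rw [mem_filter] at hv ⊢
  refine ⟨hv.1, ?_⟩
  by_contra hcon
  refine orc_ne hv.2 ?_
  unfold tab
  by_cases hb : decide (j % 2 = 1) = b
  · rw [hb, Function.update_self, hw]
    exact hP v hv.1 _ _ _ hcon
  · rw [Function.update_of_ne hb]

end Pool.Agent.K7x.QC
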