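import Pool.Agent.K7x.QC.Ad1

/-!
# Adaptive questions: paths of a decision tree
-/

set_option autoImplicit false

namespace Pool.Agent.K7x.QC

open Finset Pool.Agent.NPC Pool.Agent.H620R2.Gauge Pool.Agent.H9x.Q

variable {ι : Type}

open scoped Classical in
/-- the lists of answers which occur on the way, with the oracle `A` -/
inductive Pth (X : Rns ι) (ask : List Bool → Option ι) (A : Oracle) : List Bool → Prop
  | nil : Pth X ask A []
  | snoc {α : List Bool} {q : ι} : Pth X ask A α → ask α = some q →
      Pth X ask A (α ++ [decide (X.Yes A q)])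

variable {X : Rns ι} {ask : List Bool → Option ι} {A : Oracle}

open scoped Classical in
theorem pth_snoc {α : List Bool} {c : Bool} : Pth X ask A (α ++ [c]) ↔
    Pth X ask A α ∧ ∃ q, ask α = some q ∧ c = decide (X.Yes A q) := by
  constructor
  · intro h
    generalize hβ : α ++ [c] = β at h
    cases h with
    | nil => simp at hβ
    | @snoc α' q h1 h2 =>
      obtain ⟨e1, e2⟩ := List.append_inj' hβ rfl
      subst e1
      simp only [List.cons.injEq, and_true] at e2
      exact ⟨h1, q, h2, e2⟩
  · rintro ⟨h1, q, h2, rfl⟩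
    exact Pth.snoc h1 h2

theorem snoc_prefix {α β : List Bool} {c d : Bool} (h : β ++ [c] <+: α ++ [d]) :
    (β = α ∧ c = d) ∨ β ++ [c] <+: α := by
  rcases List.prefix_concat_iff.1 (by simpa using h) with h1 | h1
  · obtain ⟨e1, e2⟩ := List.append_inj' h1 rfl
    exact Or.inl ⟨e1, by simpa using e2⟩
  · exact Or.inr h1

theorem pth_prefix {α β : List Bool} (h : Pth X ask A α) (hβ : β <+: α) : Pth X ask A β := by
  induction α using List.reverseRecOn generalizing β with
  | nil =>
    rw [List.prefix_nil.1 hβ]
    exact Pth.nil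
  | append_singleton α c ih =>
    rcases List.prefix_concat_iff.1 (by simpa using hβ) with h1 | h1
    · rw [h1]
      exact h
    · exact ih (pth_snoc.1 h).1 h1

theorem yes_of_pth {α β : List Bool} {q : ι} (h : Pth X ask A α) (hβ : β ++ [true] <+: α)
    (hq : ask β = some q) : X.Yes A q := by
  classical
  obtain ⟨_, q', h1, h2⟩ := pth_snoc.1 (pth_prefix h hβ)
  rw [hq] at h1
  cases h1
  exact of_decide_eq_true h2.symm

open scoped Classical in
/-- the questions which are answered with yes on the way `α` -/
noncomputable def yesQ (ask : List Bool → Option ι) (α : List Bool) : Finset ι :=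
  (range α.length).biUnion fun i =>
    if α.getD i false = true then (ask (α.take i)).toFinset else ∅

theorem card_yesQ (α : List Bool) : #(yesQ ask α) ≤ α.length := by
  classical
  unfold yesQ
  refine (card_biUnion_le_card_mul _ _ 1 fun i _ => ?_).trans (by simp)
  split_ifs
  · rcases ask (α.take i) with _ | q <;> simp
  · simp

theorem mem_yesQ {α : List Bool} {q : ι} :
    q ∈ yesQ ask α ↔ ∃ β, β ++ [true] <+: α ∧ ask β = some q := by
  classical
  unfold yesQ
  rw [mem_biUnion]
  constructor
  · rintro ⟨i, hi, h⟩
    rw [mem_range] at hi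
    split_ifs at h with h1
    · rw [Option.mem_toFinset, Option.mem_def] at h
      refine ⟨α.take i, ?_, h⟩
      have h2 : α.take i ++ [true] = α.take (i + 1) := by
        rw [List.take_add_one, ← h1, List.getD_eq_getElem _ _ hi, List.getElem?_eq_getElem hi]
        rfl
      rw [h2]
      exact List.take_prefix _ _
    · simp at h
  · rintro ⟨β, hβ, hq⟩
    obtain ⟨γ, rfl⟩ := hβ
    refine ⟨β.length, ?_, ?_⟩
    · rw [mem_range]
      simp
    · have h1 : (β ++ [true] ++ γ).getD β.length false = true := by
        rw [List.getD_append _ _ _ _ (by simp), List.getD_append_right _ _ _ _ le_rfl]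
        simp
      rw [if_pos h1]
      have h2 : (β ++ [true] ++ γ).take β.length = β := by
        rw [List.append_assoc, List.take_left' rfl]
      rw [h2, hq]
      simp

/-- the questions are asked -/
def Asked (ask : List Bool → Option ι) (α : List Bool) : Prop :=
  ∀ β c, β ++ [c] <+: α → ∃ q, ask β = some q

theorem asked_nil : Asked ask [] := fun β c h => by simp at h

theorem asked_snoc {α : List Bool} {c : Bool} {q : ι} (h : Asked ask α) (hq : ask α = some q) :
    Asked ask (α ++ [c]) := by
  intro β d hβ
  rcases snoc_prefix hβ with ⟨rfl, -⟩ | h1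
  · exact ⟨q, hq⟩
  · exact h β d h1

theorem pth_asked {α : List Bool} (h : Pth X ask A α) : Asked ask α := by
  intro β c hβ
  obtain ⟨_, q, h1, -⟩ := pth_snoc.1 (pth_prefix h hβ)
  exact ⟨q, h1⟩

/-- **The first deviation from a path.** -/
theorem dev {A' : Oracle} {α : List Bool} (h : Asked ask α) (h' : ¬ Pth X ask A' α)
    (hprom : ∀ β q, Pth X ask A' β → ask β = some q → X.Yes A' q ∨ X.No A' q)
    (hfx : ∀ β q, β ++ [false] <+: α → ask β = some q → Pth X ask A' β → ¬ X.Yes A' q) :
    ∃ q ∈ yesQ ask α, X.No A' q := by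
  classical
  induction α using List.reverseRecOn with
  | nil => exact absurd Pth.nil h'
  | append_singleton α c ih =>
    by_cases h1 : Pth X ask A' α
    · obtain ⟨q, h2⟩ := h α c List.prefix_rfl
      have h4 : c ≠ decide (X.Yes A' q) := fun e => h' (pth_snoc.2 ⟨h1, q, h2, e⟩)
      cases c with
      | false =>
        have h5 : X.Yes A' q := by
          by_contra h6
          exact h4 (decide_eq_false h6).symm
        exact absurd h5 (hfx α q List.prefix_rfl h2 h1)
      | true =>
        have h5 : ¬ X.Yes A' q := fun h6 => h4 (decide_eq_true h6).symm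
        exact ⟨q, mem_yesQ.2 ⟨α, List.prefix_rfl, h2⟩, (hprom α q h1 h2).resolve_left h5⟩
    · obtain ⟨q, h2, h3⟩ := ih (fun β c hβ => h β c (hβ.trans (List.prefix_append _ _))) h1
        fun β q hβ => hfx β q (hβ.trans (List.prefix_append _ _))
      obtain ⟨β, hβ, h4⟩ := mem_yesQ.1 h2
      exact ⟨q, mem_yesQ.2 ⟨β, hβ.trans (List.prefix_append _ _), h4⟩, h3⟩

/-- a path is followed if the questions in `yesQ` are not answered with no -/
theorem pth_of {A' : Oracle} {α : List Bool} (h : Asked ask α)
    (hprom : ∀ β q, Pth X ask A' β → ask β = some q → X.Yes A' q ∨ X.No A' q)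
    (hfx : ∀ β q, β ++ [false] <+: α → ask β = some q → Pth X ask A' β → ¬ X.Yes A' q)
    (hno : ∀ q ∈ yesQ ask α, ¬ X.No A' q) : Pth X ask A' α := by
  by_contra h'
  obtain ⟨q, hq, h1⟩ := dev h h' hprom hfx
  exact hno q hq h1

end Pool.Agent.K7x.QC
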