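import Pool.Agent.K7x.QC.Ad2

/-!
# Adaptive questions are fooled at one level
-/

set_option autoImplicit false

namespace Pool.Agent.K7x.QC

open Finset Pool.Agent.NPC Pool.Agent.H620R2.Gauge Pool.Agent.H9x.Q
open Pool.Agent.R562.QH (nrm nrm_sq nrm_nonneg nrm_add_le nrm_congr)

variable {ι : Type} {nb : Gr} {n : ℕ}

/-- the worlds of a state of the construction -/
structure InW (nb : Gr) (n : ℕ) (Ω : Bool → Dn n) (F : Bool → Finset (Vn n)) (r : ℕ) (b : Bool)
    (w : Wd n) : Prop where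
  full : (w b).2 = univ
  mem : ∀ s, (w s).1 ∈ clsT nb n (F s) (Ω s)
  sub : F (!b) ⊆ (w (!b)).2
  closed : Closed (nb n) (w (!b)).2
  small : #(w (!b)).2 < 2 ^ r

theorem bne (b : Bool) : (!b) ≠ b := by cases b <;> simp

theorem InW.legit {Ω : Bool → Dn n} {F : Bool → Finset (Vn n)} {r : ℕ} {b : Bool} {w : Wd n}
    (h : InW nb n Ω F r b w) (hr : 1000 * 2 ^ r ≤ 2 ^ hN n) : Legit n w :=
  ⟨fun s v => (mem_clsT.1 (h.mem s)).1 v, b, h.full, by have := h.small; omega⟩

theorem InW.mono {Ω Ω' : Bool → Dn n} {F F' : Bool → Finset (Vn n)} {r : ℕ} {b : Bool} {w : Wd n}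
    (h : InW nb n Ω' F' r b w) (hF : ∀ s, F s ⊆ F' s) (hΩ : ∀ s, Ω' s ∈ clsT nb n (F s) (Ω s)) :
    InW nb n Ω F r b w where
  full := h.full
  mem s := by
    obtain ⟨h1, h2⟩ := mem_clsT.1 (h.mem s)
    obtain ⟨-, h3⟩ := mem_clsT.1 (hΩ s)
    exact mem_clsT.2 ⟨h1, fun v hv => (h2.1 v (hF s hv)).trans (h3.1 v hv),
      fun v i hv => (h2.2 v i (hF s hv)).trans (h3.2 v i hv)⟩
  sub := (hF _).trans h.sub
  closed := h.closed
  small := h.small

/-- changing the full side -/
theorem InW.upd_full {Ω : Bool → Dn n} {F : Bool → Finset (Vn n)} {r : ℕ} {b : Bool} {w : Wd n}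
    (h : InW nb n Ω F r b w) {Ω' : Dn n} (hΩ' : Ω' ∈ clsT nb n (F b) (Ω b)) :
    InW nb n Ω F r b (Function.update w b (Ω', univ)) where
  full := by rw [Function.update_self]
  mem s := by
    by_cases hs : s = b
    · subst hs
      rw [Function.update_self]
      exact hΩ'
    · rw [Function.update_of_ne hs]
      exact h.mem s
  sub := by rw [Function.update_of_ne (bne b)]; exact h.sub
  closed := by rw [Function.update_of_ne (bne b)]; exact h.closed
  small := by rw [Function.update_of_ne (bne b)]; exact h.small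

/-- changing the vertices which are switched on on the other side -/
theorem InW.upd_part {Ω : Bool → Dn n} {F : Bool → Finset (Vn n)} {r : ℕ} {b : Bool} {w : Wd n}
    (h : InW nb n Ω F r b w) {G : Finset (Vn n)} (h1 : F (!b) ⊆ G) (h2 : Closed (nb n) G)
    (h3 : #G < 2 ^ r) : InW nb n Ω F r b (Function.update w (!b) ((w (!b)).1, G)) where
  full := by rw [Function.update_of_ne (bne b).symm]; exact h.full
  mem s := by
    by_cases hs : s = !b
    · subst hs
      rw [Function.update_self]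
      exact h.mem _
    · rw [Function.update_of_ne hs]
      exact h.mem s
  sub := by rw [Function.update_self]; exact h1
  closed := by rw [Function.update_self]; exact h2
  small := by rw [Function.update_self]; exact h3

/-- the machine is right in the world `w` -/
structure Rgt (nb : Gr) (B : Oracle) (W : ∀ n, Wd n) (n : ℕ) (X : Rns ι)
    (ask : List Bool → Option ι) (accept : List Bool → Prop) (s : Bool) (w : Wd n) : Prop where
  prom : ∀ β q, Pth X ask (lev nb B W n w) β → ask β = some q →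
    X.Yes (lev nb B W n w) q ∨ X.No (lev nb B W n w) q
  fin : ∀ β, Pth X ask (lev nb B W n w) β → ask β = none → ((w s).2 = univ ↔ accept β)

/-- the answers no are the answers in all the worlds of the state -/
def Fx (nb : Gr) (B : Oracle) (W : ∀ n, Wd n) (n : ℕ) (X : Rns ι) (ask : List Bool → Option ι)
    (r : ℕ) (Ω : Bool → Dn n) (F : Bool → Finset (Vn n)) (α : List Bool) : Prop :=
  ∀ b w, InW nb n Ω F r b w → ∀ β q, β ++ [false] <+: α → ask β = some q →
    Pth X ask (lev nb B W n w) β → ¬ X.Yes (lev nb B W n w) q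

variable {B : Oracle} {W : ∀ n, Wd n} {X : Rns ι} {ask : List Bool → Option ι}
  {accept : List Bool → Prop} {s : Bool} {T Bd k r : ℕ}

theorem count_dev (hT : ∀ β q, ask β = some q → (X.C q).length ≤ T)
    (hBd : ∀ β q, ask β = some q → Short Bd (X.C q)) (hr : 1000 * 2 ^ r ≤ 2 ^ hN n)
    (hR : ∀ w, Legit n w → Rgt nb B W n X ask accept s w) {Ω : Bool → Dn n}
    {F : Bool → Finset (Vn n)} {α : List Bool} (hfx : Fx nb B W n X ask r Ω F α)
    {w : Wd n} (hα : Pth X ask (lev nb B W n w) α) {b b' : Bool}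
    (hinj : ∀ v, Inj ((w b').1 v)) (P : Vn n → Dn n × Finset (Vn n)) (S : Finset (Vn n))
    (hP : ∀ v ∈ S, ∀ i c x, ¬ Con (a := aN n) (m := 2 * hN n) (nb n) (w b').1 x v →
      tb nb n (P v) i c x = tb nb n (w b') i c x)
    (hin : ∀ v ∈ S, InW nb n Ω F r b (Function.update w b' (P v)))
    (hn : ∀ v ∈ S, ¬ Pth X ask (lev nb B W n (Function.update w b' (P v))) α) :
    #S ≤ α.length * (288 * T ^ 2) := by
  classical
  have hyes : ∀ q ∈ yesQ ask α, X.Yes (lev nb B W n w) q := by
    intro q hq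
    obtain ⟨β, h1, h2⟩ := mem_yesQ.1 hq
    exact yes_of_pth hα h1 h2
  set u : ∀ q, X.K q := fun q =>
    if h : X.Yes (lev nb B W n w) q then h.choose else Classical.choice (X.non q) with hu
  have hu2 : ∀ q ∈ yesQ ask α, 2 / 3 ≤ X.acc (lev nb B W n w) q (u q) := by
    intro q hq
    rw [hu]
    simp only
    rw [dif_pos (hyes q hq)]
    exact (hyes q hq).choose_spec
  refine (heavyY X (yesQ ask α) u (T := T) (Bd := Bd) (fun q hq => ?_) (fun q hq => ?_)
    (lev nb B W n w) S (fun v => lev nb B W n (Function.update w b' (P v))) (fun y => ?_)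
    (fun v hv => ?_)).trans (Nat.mul_le_mul_right _ (card_yesQ α))
  · obtain ⟨β, -, h2⟩ := mem_yesQ.1 hq
    exact hT β q h2
  · obtain ⟨β, -, h2⟩ := mem_yesQ.1 hq
    exact hBd β q h2
  · exact card_lev_con (w := w) (b := b') (Ω := (w b').1) (U := (w b').2) rfl hinj P S hP y
  · have h1 := hin v hv
    obtain ⟨q, hq, h2⟩ := dev (pth_asked hα) (hn v hv) (hR _ (h1.legit hr)).prom
      (fun β q hβ hq hp => hfx b _ h1 β q hβ hq hp)
    refine ⟨q, hq, ?_⟩
    have h3 := h2 (u q)
    have h4 := hu2 q hq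
    rw [abs_sub_comm]
    refine le_trans ?_ (le_abs_self _)
    linarith

theorem closed_erase {G : Finset (Vn n)} {v : Vn n} (hG : Closed (nb n) G)
    (hv : #{i | nb n i v ∈ G} ≤ 2) : Closed (nb n) (G.erase v) := by
  intro u hu
  have h1 : #{i | nb n i u ∈ G.erase v} ≤ #{i | nb n i u ∈ G} := by
    refine card_le_card fun i hi => ?_
    rw [mem_filter] at hi ⊢
    exact ⟨hi.1, mem_of_mem_erase hi.2⟩
  by_cases h2 : u = v
  · subst h2
    exact h1.trans hv
  · exact h1.trans (hG u fun h3 => hu (mem_erase.2 ⟨h2, h3⟩))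

theorem bud2_le {G : Finset (Vn n)} {j : ℕ} (hspa : Spa r (nb n)) (hG : #G < 2 ^ r)
    (hb : Bud2 (nb n) G j) : #G ≤ 4 * j := by
  have h1 := hspa G hG
  unfold Bud2 at hb
  omega

/-- **The other side may be made small.** -/
theorem shrink_world (hshr : P_shrink) (hnb : Good (hN n) (nb n)) (hspa : Spa r (nb n))
    (hT : ∀ β q, ask β = some q → (X.C q).length ≤ T)
    (hBd : ∀ β q, ask β = some q → Short Bd (X.C q)) (hr : 1000 * 2 ^ r ≤ 2 ^ hN n)
    (hR : ∀ w, Legit n w → Rgt nb B W n X ask accept s w) {Ω : Bool → Dn n}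
    {F : Bool → Finset (Vn n)} {α : List Bool} (hfx : Fx nb B W n X ask r Ω F α)
    (hαk : α.length ≤ k) {b : Bool} {w : Wd n} (hw : InW nb n Ω F r b w)
    (hα : Pth X ask (lev nb B W n w) α) {j₀ : ℕ} (hj : Bud2 (nb n) (F (!b)) j₀) :
    ∃ w', InW nb n Ω F r b w' ∧ Pth X ask (lev nb B W n w') α ∧
      Bud2 (nb n) (w' (!b)).2 (j₀ + 2 * (k * (288 * T ^ 2))) := by
  classical
  set G₀ : Finset (Finset (Vn n)) := {G | F (!b) ⊆ G ∧ Closed (nb n) G ∧ #G < 2 ^ r ∧
    Pth X ask (lev nb B W n (Function.update w (!b) ((w (!b)).1, G))) α} with hG₀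
  have hself : Function.update w (!b) ((w (!b)).1, (w (!b)).2) = w := by
    rw [Prod.mk.eta, Function.update_eq_self]
  have hne : G₀.Nonempty := ⟨(w (!b)).2, by
    rw [hG₀, mem_filter, hself]
    exact ⟨mem_univ _, hw.sub, hw.closed, hw.small, hα⟩⟩
  obtain ⟨G, hG, hmin⟩ := exists_min_image G₀ (fun G => #G) hne
  obtain ⟨-, h1, h2, h3, h4⟩ := mem_filter.1 hG
  refine ⟨Function.update w (!b) ((w (!b)).1, G), hw.upd_part h1 h2 h3, h4, ?_⟩
  rw [Function.update_self]
  refine hshr (nb n) r (hN n) j₀ _ (F (!b)) G hnb hspa h1 h3 hj ?_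
  set S : Finset (Vn n) := {v ∈ G \ F (!b) | #{i | nb n i v ∈ G} ≤ 2} with hS
  have hS1 : ∀ v ∈ S, v ∈ G ∧ v ∉ F (!b) ∧ #{i | nb n i v ∈ G} ≤ 2 := by
    intro v hv
    obtain ⟨h5, h6⟩ := mem_filter.1 hv
    obtain ⟨h7, h8⟩ := mem_sdiff.1 h5
    exact ⟨h7, h8, h6⟩
  have hupd : ∀ v, Function.update (Function.update w (!b) ((w (!b)).1, G)) (!b)
      ((w (!b)).1, G.erase v) = Function.update w (!b) ((w (!b)).1, G.erase v) := fun v =>
    Function.update_idem _ _ _
  have hsub : ∀ v ∈ S, F (!b) ⊆ G.erase v := fun v hv x hx =>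
    mem_erase.2 ⟨fun h => (hS1 v hv).2.1 (h ▸ hx), h1 hx⟩
  have hcl : ∀ v ∈ S, Closed (nb n) (G.erase v) := fun v hv => closed_erase h2 (hS1 v hv).2.2
  have hlt : ∀ v ∈ S, #(G.erase v) < #G := fun v hv => card_erase_lt_of_mem (hS1 v hv).1
  have h5 := count_dev (w := Function.update w (!b) ((w (!b)).1, G)) (b := b) (b' := !b) hT hBd hr
    hR hfx h4 (by
      intro v
      rw [Function.update_self]
      exact (mem_clsT.1 (hw.mem _)).1 v) (fun v => ((w (!b)).1, G.erase v)) S (by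
      intro v _ i c x hc
      rw [Function.update_self] at hc ⊢
      exact tb_erase i c hc) (by
      intro v hv
      rw [hupd]
      exact hw.upd_part (hsub v hv) (hcl v hv) ((hlt v hv).trans h3)) (by
      intro v hv hp
      rw [hupd] at hp
      have h6 := hmin (G.erase v) (mem_filter.2 ⟨mem_univ _, hsub v hv, hcl v hv,
        (hlt v hv).trans h3, hp⟩)
      exact absurd h6 (not_le.2 (hlt v hv)))
  exact h5.trans (Nat.mul_le_mul_right _ hαk)

open scoped Classical in
/-- **Many members of the class of the full side lead to the same answers.** -/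
theorem dens_world (hdens : P_dens)
    (hT : ∀ β q, ask β = some q → (X.C q).length ≤ T)
    (hBd : ∀ β q, ask β = some q → Short Bd (X.C q)) (hr : 1000 * 2 ^ r ≤ 2 ^ hN n)
    (hR : ∀ w, Legit n w → Rgt nb B W n X ask accept s w) {Ω : Bool → Dn n}
    {F : Bool → Finset (Vn n)} {α : List Bool} (hfx : Fx nb B W n X ask r Ω F α)
    (hαk : α.length ≤ k) {b : Bool} {w : Wd n} (hw : InW nb n Ω F r b w)
    (hα : Pth X ask (lev nb B W n w) α) :
    ({Ω' ∈ clsT nb n (F b) (Ω b) | Pth X ask (lev nb B W n (Function.update w b (Ω', univ))) α} :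
      Finset (Dn n)).Nonempty ∧
    #(clsT nb n (F b) (Ω b)) ≤ 2 ^ (2 * hN n * (hN n + 1) * (k * (288 * T ^ 2))) *
      #{Ω' ∈ clsT nb n (F b) (Ω b) |
        Pth X ask (lev nb B W n (Function.update w b (Ω', univ))) α} := by
  set E : Finset (Dn n) := {Ω' ∈ clsT nb n (F b) (Ω b) |
    Pth X ask (lev nb B W n (Function.update w b (Ω', univ))) α} with hE
  have hself : Function.update w b ((w b).1, univ) = w := by
    rw [← hw.full, Prod.mk.eta, Function.update_eq_self]
  have hne : E.Nonempty := ⟨(w b).1, by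
    rw [hE, mem_filter, hself]
    exact ⟨hw.mem b, hα⟩⟩
  refine ⟨hne, ?_⟩
  have h1 := hdens (hN n) (2 * hN n) (k * (288 * T ^ 2)) (nb n) (F b) (Ω b) E hne
    (fun Ω' h => mem_clsT.1 (mem_filter.1 h).1) (fun Ω' hΩ' => by
      obtain ⟨h2, h3⟩ := mem_filter.1 hΩ'
      set S : Finset (Vn n) := {v | ∃ p : Par (hN n) (2 * hN n),
        ((∀ u, Inj (Function.update Ω' v p u)) ∧ Agr (nb n) (F b) (Function.update Ω' v p) (Ω b)) ∧
          Function.update Ω' v p ∉ E} with hS
      have hS1 : ∀ v ∈ S, ∃ p : Par (hN n) (2 * hN n),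
          Function.update Ω' v p ∈ clsT nb n (F b) (Ω b) ∧ Function.update Ω' v p ∉ E := by
        intro v hv
        obtain ⟨p, h4, h5⟩ := (mem_filter.1 hv).2
        exact ⟨p, mem_clsT.2 h4, h5⟩
      set p : Vn n → Par (hN n) (2 * hN n) := fun v =>
        if h : ∃ p : Par (hN n) (2 * hN n), Function.update Ω' v p ∈ clsT nb n (F b) (Ω b) ∧
          Function.update Ω' v p ∉ E then h.choose else Ω' v with hp
      have hp1 : ∀ v ∈ S, Function.update Ω' v (p v) ∈ clsT nb n (F b) (Ω b) ∧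
          Function.update Ω' v (p v) ∉ E := by
        intro v hv
        have h4 := hS1 v hv
        have h5 : p v = h4.choose := by
          rw [hp]
          simp only
          rw [dif_pos h4]
        rw [h5]
        exact h4.choose_spec
      have hw1 := hw.upd_full h2
      have hupd : ∀ q : Dn n × Finset (Vn n), Function.update (Function.update w b (Ω', univ)) b q =
          Function.update w b q := fun q => Function.update_idem _ _ _
      have h5 := count_dev (w := Function.update w b (Ω', univ)) (b := b) (b' := b) hT hBd hr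
        hR hfx h3 (by
          intro v
          rw [Function.update_self]
          exact (mem_clsT.1 h2).1 v) (fun v => (Function.update Ω' v (p v), univ)) S (by
          intro v _ i c x hc
          rw [Function.update_self] at hc ⊢
          exact tb_upd i c hc) (by
          intro v hv
          rw [hupd]
          exact hw.upd_full (hp1 v hv).1) (by
          intro v hv hpth
          rw [hupd] at hpth
          exact (hp1 v hv).2 (mem_filter.2 ⟨(hp1 v hv).1, hpth⟩))
      refine (card_le_card fun v hv => ?_).trans (h5.trans (Nat.mul_le_mul_right _ hαk))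
      simp only [mem_filter, mem_univ, true_and] at hv
      exact mem_filter.2 ⟨mem_univ _, hv⟩)
  refine (card_le_card fun Ω' hΩ' => ?_).trans h1
  exact mem_filter.2 ⟨mem_univ _, mem_clsT.1 hΩ'⟩

open scoped Classical in
/-- **Pigeonhole for the witnesses.** -/
theorem pigeon {ι' : Type} (E : Finset ι') (A : ι' → Oracle) (Y : Finset ι) {ℓ : ℕ} (hY : #Y ≤ k)
    (hK : ∀ q ∈ Y, Fintype.card (X.K q) ≤ 2 ^ ℓ) (hyes : ∀ ω ∈ E, ∀ q ∈ Y, X.Yes (A ω) q) :
    ∃ u : ∀ q, X.K q, #E ≤ 2 ^ (k * ℓ) * #{ω ∈ E | ∀ q ∈ Y, 2 / 3 ≤ X.acc (A ω) q (u q)} := by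
  set Φ := ∀ q : {q // q ∈ Y}, X.K q.1 with hΦ
  set Z : Φ → Finset ι' := fun f => {ω ∈ E | ∀ q : {q // q ∈ Y}, 2 / 3 ≤ X.acc (A ω) q.1 (f q)}
    with hZ
  obtain ⟨f, -, hf⟩ := exists_max_image (univ : Finset Φ) (fun f => #(Z f)) univ_nonempty
  have h1 : #E ≤ ∑ f : Φ, #(Z f) := by
    refine (card_le_card (t := univ.biUnion Z) fun ω hω => ?_).trans card_biUnion_le
    rw [mem_biUnion]
    refine ⟨fun q => (hyes ω hω q.1 q.2).choose, mem_univ _, mem_filter.2 ⟨hω, fun q => ?_⟩⟩
    exact (hyes ω hω q.1 q.2).choose_spec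
  have h2 : Fintype.card Φ ≤ 2 ^ (k * ℓ) := by
    rw [Fintype.card_pi]
    calc ∏ q : {q // q ∈ Y}, Fintype.card (X.K q.1) ≤ ∏ _q : {q // q ∈ Y}, 2 ^ ℓ :=
          prod_le_prod' fun q _ => hK q.1 q.2
      _ = 2 ^ (ℓ * #Y) := by rw [prod_const, card_univ, Fintype.card_coe, ← pow_mul]
      _ ≤ 2 ^ (k * ℓ) := by
          refine Nat.pow_le_pow_right (by norm_num) ?_
          rw [mul_comm]
          exact Nat.mul_le_mul_right _ hY
  refine ⟨fun q => if h : q ∈ Y then f ⟨q, h⟩ else Classical.choice (X.non q), ?_⟩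
  have h3 : Z f ⊆ {ω ∈ E | ∀ q ∈ Y, 2 / 3 ≤ X.acc (A ω) q
      (if h : q ∈ Y then f ⟨q, h⟩ else Classical.choice (X.non q))} := by
    intro ω hω
    obtain ⟨h4, h5⟩ := mem_filter.1 hω
    refine mem_filter.2 ⟨h4, fun q hq => ?_⟩
    rw [dif_pos hq]
    exact h5 ⟨q, hq⟩
  calc #E ≤ ∑ f : Φ, #(Z f) := h1
    _ ≤ ∑ _f : Φ, #(Z f) := sum_le_sum fun g _ => hf g (mem_univ _)
    _ = Fintype.card Φ * #(Z f) := by rw [sum_const, card_univ, smul_eq_mul]
    _ ≤ 2 ^ (k * ℓ) * #{ω ∈ E | ∀ q ∈ Y, 2 / 3 ≤ X.acc (A ω) q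
      (if h : q ∈ Y then f ⟨q, h⟩ else Classical.choice (X.non q))} :=
        Nat.mul_le_mul h2 (card_le_card h3)

end Pool.Agent.K7x.QC
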