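import Pool.Agent.K7x.QC.Ad3

/-!
# Adaptive questions are fooled at one level: the main step
-/

set_option autoImplicit false

namespace Pool.Agent.K7x.QC

open Finset Pool.Agent.NPC Pool.Agent.H620R2.Gauge Pool.Agent.H9x.Q
open Pool.Agent.R562.QH (nrm nrm_sq nrm_nonneg nrm_add_le nrm_congr)

variable {ι : Type} {nb : Gr} {n : ℕ}

/-- the state of the construction after the answers `α` -/
def St3 (nb : Gr) (B : Oracle) (W : ∀ n, Wd n) (n : ℕ) (X : Rns ι) (ask : List Bool → Option ι)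
    (r c : ℕ) (η : ℝ) (α : List Bool) : Prop :=
  ∃ (Ω : Bool → Dn n) (F : Bool → Finset (Vn n)) (j : Bool → ℕ) (u : ∀ q, X.K q),
    (∀ b v, Inj (Ω b v)) ∧ (∀ b, Closed (nb n) (F b)) ∧ (∀ b, Bud2 (nb n) (F b) (j b)) ∧
    (∀ b, #(F b) ≤ 4 * j b) ∧ (∀ b, j b ≤ α.length * c) ∧
    (∀ q ∈ yesQ ask α, 2 / 3 - η ≤ X.acc (lev nb B W n (bare Ω F)) q (u q)) ∧
    Fx nb B W n X ask r Ω F α ∧ Asked ask α

variable {B : Oracle} {W : ∀ n, Wd n} {X : Rns ι} {ask : List Bool → Option ι}
  {accept : List Bool → Prop} {s : Bool} {T Bd k r : ℕ}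

/-- the growth in one step -/
def cst (n k ℓ T : ℕ) : ℕ :=
  2 * hN n * (hN n + 1) * (k * (288 * T ^ 2)) + k * ℓ + 2 * (k * (288 * T ^ 2))

theorem bare_self (w : Wd n) : bare (fun s => (w s).1) (fun s => (w s).2) = w := by
  funext s
  rfl

theorem step3 (hshr : P_shrink) (hdens : P_dens) (hcore : P_core3) (hnb : Good (hN n) (nb n))
    (hspa : Spa r (nb n)) (hT : ∀ β q, ask β = some q → (X.C q).length ≤ T)
    (hBd : ∀ β q, ask β = some q → Short Bd (X.C q)) {ℓ : ℕ}
    (hK : ∀ β q, ask β = some q → Fintype.card (X.K q) ≤ 2 ^ ℓ)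
    (hr : 1000 * 2 ^ r ≤ 2 ^ hN n)
    (hsz : 4 * (k * cst n k ℓ T + cst n k ℓ T + 1) + 1 < 2 ^ r) {η : ℝ}
    (hη : 8 * (T + 1) * Real.sqrt ((k + 1) * (8 / 2 ^ hN n)) ≤ η)
    (hR : ∀ w, Legit n w → Rgt nb B W n X ask accept s w) {α : List Bool} {q₀ : ι}
    (hq₀ : ask α = some q₀) (hαk : α.length < k)
    (hst : St3 nb B W n X ask r (cst n k ℓ T) η α) :
    ∃ c', St3 nb B W n X ask r (cst n k ℓ T) η (α ++ [c']) := by
  classical
  obtain ⟨Ω, F, j, u, hinj, hcl, hbud, hF, hj, hacc, hfx, hask⟩ := hst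
  have hhN : 1 ≤ hN n := by unfold hN; omega
  by_cases hex : ∃ b w, InW nb n Ω F r b w ∧ Pth X ask (lev nb B W n w) α ∧
      X.Yes (lev nb B W n w) q₀
  swap
  · refine ⟨false, Ω, F, j, u, hinj, hcl, hbud, hF, fun b => ?_, fun q hq => ?_, ?_,
      asked_snoc hask hq₀⟩
    · rw [List.length_append, List.length_singleton, Nat.add_mul]
      have := hj b
      omega
    · obtain ⟨β, h1, h2⟩ := mem_yesQ.1 hq
      rcases snoc_prefix h1 with ⟨-, h3⟩ | h3
      · exact absurd h3 (by simp)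
      · exact hacc q (mem_yesQ.2 ⟨β, h3, h2⟩)
    · intro b w hw β q hβ hq hp hy
      rcases snoc_prefix hβ with ⟨rfl, -⟩ | h3
      · rw [hq₀] at hq
        cases hq
        exact hex ⟨b, w, hw, hp, hy⟩
      · exact hfx b w hw β q h3 hq hp hy
  obtain ⟨b, w, hw, hp, hy⟩ := hex
  set α' := α ++ [true] with hα'
  have hlen : α'.length = α.length + 1 := by simp [hα']
  have hα'k : α'.length ≤ k := by omega
  have hfx' : Fx nb B W n X ask r Ω F α' := by
    intro b w hw β q hβ hq hp hy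
    rcases snoc_prefix hβ with ⟨-, h3⟩ | h3
    · exact absurd h3 (by simp)
    · exact hfx b w hw β q h3 hq hp hy
  have hp' : Pth X ask (lev nb B W n w) α' := pth_snoc.2 ⟨hp, q₀, hq₀, (decide_eq_true hy).symm⟩
  obtain ⟨w', hw', hpw, hbudw⟩ := shrink_world hshr hnb hspa hT hBd hr hR hfx' hα'k hw hp'
    (hbud (!b))
  obtain ⟨hne, hcard⟩ := dens_world hdens hT hBd hr hR hfx' hα'k hw' hpw
  set E₀ : Finset (Dn n) := {Ω' ∈ clsT nb n (F b) (Ω b) |
    Pth X ask (lev nb B W n (Function.update w' b (Ω', univ))) α'} with hE₀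
  have hYk : #(yesQ ask α') ≤ k := (card_yesQ α').trans hα'k
  have hYask : ∀ q ∈ yesQ ask α', ∃ β, ask β = some q := fun q hq => by
    obtain ⟨β, -, h⟩ := mem_yesQ.1 hq
    exact ⟨β, h⟩
  obtain ⟨u', hu'⟩ := pigeon (X := X) (k := k) E₀
    (fun Ω' => lev nb B W n (Function.update w' b (Ω', univ))) (yesQ ask α') (ℓ := ℓ) hYk
    (fun q hq => by obtain ⟨β, h⟩ := hYask q hq; exact hK β q h) (fun Ω' hΩ' q hq => by
      obtain ⟨β, h1, h2⟩ := mem_yesQ.1 hq
      exact yes_of_pth (mem_filter.1 hΩ').2 h1 h2)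
  set E₁ : Finset (Dn n) := {ω ∈ E₀ | ∀ q ∈ yesQ ask α',
    2 / 3 ≤ X.acc (lev nb B W n (Function.update w' b (ω, univ))) q (u' q)} with hE₁
  set s₀ := k * (288 * T ^ 2) with hs₀
  set ℓ₂ := 2 * hN n * (hN n + 1) * s₀ + k * ℓ with hℓ₂
  have hcst : cst n k ℓ T = ℓ₂ + 2 * s₀ := rfl
  have hE₁c : #(clsT nb n (F b) (Ω b)) ≤ 2 ^ ℓ₂ * #E₁ := by
    calc #(clsT nb n (F b) (Ω b)) ≤ 2 ^ (2 * hN n * (hN n + 1) * s₀) * #E₀ := hcard
      _ ≤ 2 ^ (2 * hN n * (hN n + 1) * s₀) * (2 ^ (k * ℓ) * #E₁) := Nat.mul_le_mul_left _ hu'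
      _ = 2 ^ ℓ₂ * #E₁ := by
          rw [hℓ₂, pow_add]
          exact (mul_assoc _ _ _).symm
  have hE₁ne : E₁.Nonempty := by
    rw [← card_pos]
    have h2 : 0 < #E₀ := card_pos.2 hne
    by_contra h0
    have h0' : #E₁ = 0 := by omega
    rw [h0', mul_zero] at hu'
    omega
  have hE₁cls : ∀ Ω' ∈ E₁, Ω' ∈ clsT nb n (F b) (Ω b) := fun Ω' h =>
    (mem_filter.1 (mem_filter.1 h).1).1
  have hjk : ∀ b, j b ≤ k * cst n k ℓ T := fun b =>
    (hj b).trans (Nat.mul_le_mul_right _ hαk.le)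
  set δ : ℝ := 8 / 2 ^ hN n with hδ
  have hδ0 : 0 < δ := by positivity
  obtain ⟨F', Ω₀, j', hFF', hcl', hbud', hj', hF', hΩ₀, hlive⟩ := hcore (hN n) (2 * hN n) r (hN n)
    ℓ₂ (j b) (nb n) (F b) (Ω b) E₁ δ hnb hspa hhN le_rfl (hinj b) (hbud b) (hcl b) (hF b)
    (fun Ω' h => mem_clsT.1 (hE₁cls Ω' h)) hE₁ne (by
      refine le_trans (card_le_card fun Ω' hΩ' => ?_) hE₁c
      simp only [mem_filter, mem_univ, true_and] at hΩ'
      exact mem_clsT.2 hΩ') (by have := hjk b; omega) le_rfl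
  set S := {Ω' ∈ E₁ | Agr (nb n) F' Ω' Ω₀} with hS
  have hSne : 0 < #S := card_pos.2 ⟨Ω₀, mem_filter.2 ⟨hΩ₀, fun v _ => rfl, fun v i _ => rfl⟩⟩
  have hclose := multi_close' X (k := k) (yesQ ask α') hYk
    (fun q hq => by obtain ⟨β, h⟩ := hYask q hq; exact hT β q h)
    (fun q hq => by obtain ⟨β, h⟩ := hYask q hq; exact hBd β q h) S
    (lev nb B W n (Function.update w' b (Ω₀, F')))
    (fun Ω' => lev nb B W n (Function.update w' b (Ω', univ))) δ hδ0 (fun y => card_lev_ne hnb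
      (fun Ω' h => (mem_filter.1 h).2) (fun l => by
        refine le_trans (le_of_eq ?_) (hlive l)
        congr 2
        ext Ω'
        simp only [hS, mem_filter, and_assoc]) y) u'
  obtain ⟨Ω', hΩ'S, hΩ'⟩ : ∃ Ω' ∈ S, ∀ q ∈ yesQ ask α',
      |X.acc (lev nb B W n (Function.update w' b (Ω', univ))) q (u' q) -
        X.acc (lev nb B W n (Function.update w' b (Ω₀, F'))) q (u' q)| ≤ η := by
    by_contra hno
    push Not at hno
    have h2 : S ⊆ {ω ∈ S | ∃ q ∈ yesQ ask α', 8 * (T + 1) * Real.sqrt ((k + 1) * δ) <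
        |X.acc (lev nb B W n (Function.update w' b (ω, univ))) q (u' q) -
          X.acc (lev nb B W n (Function.update w' b (Ω₀, F'))) q (u' q)|} := by
      intro Ω' h
      obtain ⟨q, hq, h3⟩ := hno Ω' h
      exact mem_filter.2 ⟨h, q, hq, hη.trans_lt h3⟩
    have h3 := card_le_card h2
    omega
  have hΩ'E : Ω' ∈ E₁ := (mem_filter.1 hΩ'S).1
  have hΩ₀c : Ω₀ ∈ clsT nb n (F b) (Ω b) := hE₁cls _ hΩ₀
  have hother : ∀ {t : Bool}, t ≠ b → t = !b := by
    intro t ht
    cases t <;> cases b <;> simp_all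
  refine ⟨true, Function.update (fun t => (w' t).1) b Ω₀, Function.update (fun t => (w' t).2) b F',
    fun t => if t = b then j' else j t + 2 * s₀, u', ?_, ?_, ?_, ?_, ?_, ?_, ?_,
    asked_snoc hask hq₀⟩
  · intro t v
    by_cases h : t = b
    · subst h
      rw [Function.update_self]
      exact (mem_clsT.1 hΩ₀c).1 v
    · rw [Function.update_of_ne h]
      exact (mem_clsT.1 (hw'.mem t)).1 v
  · intro t
    by_cases h : t = b
    · subst h
      rw [Function.update_self]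
      exact hcl'
    · rw [Function.update_of_ne h, hother h]
      exact hw'.closed
  · intro t
    by_cases h : t = b
    · subst h
      rw [Function.update_self]
      beta_reduce
      rw [if_pos rfl]
      exact hbud'
    · rw [Function.update_of_ne h]
      beta_reduce
      rw [if_neg h, hother h]
      exact hbudw
  · intro t
    by_cases h : t = b
    · subst h
      rw [Function.update_self]
      beta_reduce
      rw [if_pos rfl]
      exact hF'
    · rw [Function.update_of_ne h]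
      beta_reduce
      rw [if_neg h, hother h]
      exact bud2_le hspa hw'.small hbudw
  · intro t
    rw [← hα', hlen, Nat.add_mul, Nat.one_mul]
    simp only
    by_cases h : t = b
    · rw [if_pos h]
      have := hj b
      omega
    · rw [if_neg h]
      have := hj t
      omega
  · intro q hq
    rw [bare_update, bare_self]
    have h2 := abs_le.1 (hΩ' q hq)
    have h3 := (mem_filter.1 hΩ'E).2 q hq
    linarith [h2.2]
  · intro b' w'' hw''
    refine hfx' b' w'' (hw''.mono (fun t => ?_) fun t => ?_)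
    · by_cases h : t = b
      · subst h
        rw [Function.update_self]
        exact hFF'
      · rw [Function.update_of_ne h, hother h]
        exact hw'.sub
    · by_cases h : t = b
      · subst h
        rw [Function.update_self]
        exact hΩ₀c
      · rw [Function.update_of_ne h]
        exact hw'.mem t

theorem clsT_self {F : Finset (Vn n)} {Ω : Dn n} (h : ∀ v, Inj (Ω v)) : Ω ∈ clsT nb n F Ω :=
  mem_clsT.2 ⟨h, fun v _ => rfl, fun v i _ => rfl⟩

theorem fin3 (hfew : P_few) (hnb : Good (hN n) (nb n))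
    (hT : ∀ β q, ask β = some q → (X.C q).length ≤ T)
    (hBd : ∀ β q, ask β = some q → Short Bd (X.C q)) {ℓ : ℕ}
    (hr : 1000 * 2 ^ r ≤ 2 ^ hN n)
    (hsz : 4 * (k * cst n k ℓ T + cst n k ℓ T + 1) + 1 < 2 ^ r) {η : ℝ}
    (hη : 8 * (T + 1) * Real.sqrt ((k + 1) * (8 / 2 ^ hN n)) ≤ η) (hη2 : 2 * η < 1 / 3)
    (hR : ∀ w, Legit n w → Rgt nb B W n X ask accept s w) {α : List Bool}
    (hα : ask α = none) (hαk : α.length ≤ k)
    (hst : St3 nb B W n X ask r (cst n k ℓ T) η α) : False := by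
  classical
  obtain ⟨Ω, F, j, u, hinj, hcl, hbud, hF, hj, hacc, hfx, hask⟩ := hst
  have hhN : 1 ≤ hN n := by unfold hN; omega
  have hjk : ∀ b, j b ≤ k * cst n k ℓ T := fun b => (hj b).trans (Nat.mul_le_mul_right _ hαk)
  set δ : ℝ := 8 / 2 ^ hN n with hδ
  have hδ0 : 0 < δ := by positivity
  have hYk : #(yesQ ask α) ≤ k := (card_yesQ α).trans hαk
  have hYask : ∀ q ∈ yesQ ask α, ∃ β, ask β = some q := fun q hq => by
    obtain ⟨β, -, h⟩ := mem_yesQ.1 hq
    exact ⟨β, h⟩
  have key : ∀ b, ∃ Ω', InW nb n Ω F r b (Function.update (bare Ω F) b (Ω', univ)) ∧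
      Pth X ask (lev nb B W n (Function.update (bare Ω F) b (Ω', univ))) α := by
    intro b
    have hclose := multi_close' X (k := k) (yesQ ask α) hYk
      (fun q hq => by obtain ⟨β, h⟩ := hYask q hq; exact hT β q h)
      (fun q hq => by obtain ⟨β, h⟩ := hYask q hq; exact hBd β q h) (clsT nb n (F b) (Ω b))
      (lev nb B W n (Function.update (bare Ω F) b (Ω b, F b)))
      (fun Ω' => lev nb B W n (Function.update (bare Ω F) b (Ω', univ))) δ hδ0
      (fun y => card_lev_ne hnb (fun Ω' h => (mem_clsT.1 h).2) (fun l => by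
        have h3 := hfew (hN n) (2 * hN n) (hN n) (nb n) (F b) (Ω b) hnb hhN le_rfl (hinj b)
          (hcl b) l
        have h4 : #{Ω' ∈ clsT nb n (F b) (Ω b) | Live (nb n) (F b) Ω' l} * 2 ^ hN n ≤
            4 * #(clsT nb n (F b) (Ω b)) := by
          refine le_trans (le_of_eq ?_) h3
          congr 2
          ext Ω'
          simp only [clsT, mem_filter, mem_univ, true_and, and_assoc]
        have h5 : (#{Ω' ∈ clsT nb n (F b) (Ω b) | Live (nb n) (F b) Ω' l} : ℝ) * 2 ^ hN n ≤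
            4 * #(clsT nb n (F b) (Ω b)) := by exact_mod_cast h4
        rw [hδ, div_mul_eq_mul_div, le_div_iff₀ (by positivity)]
        have : (0 : ℝ) ≤ #(clsT nb n (F b) (Ω b)) := Nat.cast_nonneg _
        linarith) y) u
    rw [bare_update_self] at hclose
    have hSne : 0 < #(clsT nb n (F b) (Ω b)) := card_pos.2 ⟨Ω b, clsT_self (hinj b)⟩
    obtain ⟨Ω', hΩ'S, hΩ'⟩ : ∃ Ω' ∈ clsT nb n (F b) (Ω b), ∀ q ∈ yesQ ask α,
        |X.acc (lev nb B W n (Function.update (bare Ω F) b (Ω', univ))) q (u q) -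
          X.acc (lev nb B W n (bare Ω F)) q (u q)| ≤ η := by
      by_contra hno
      push Not at hno
      have h2 : clsT nb n (F b) (Ω b) ⊆ {ω ∈ clsT nb n (F b) (Ω b) | ∃ q ∈ yesQ ask α,
          8 * (T + 1) * Real.sqrt ((k + 1) * δ) <
          |X.acc (lev nb B W n (Function.update (bare Ω F) b (ω, univ))) q (u q) -
            X.acc (lev nb B W n (bare Ω F)) q (u q)|} := by
        intro Ω' h
        obtain ⟨q, hq, h3⟩ := hno Ω' h
        exact mem_filter.2 ⟨h, q, hq, hη.trans_lt h3⟩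
      have h3 := card_le_card h2
      omega
    have hin : InW nb n Ω F r b (Function.update (bare Ω F) b (Ω', univ)) :=
      { full := by rw [Function.update_self]
        mem := by
          intro t
          by_cases h : t = b
          · subst h
            rw [Function.update_self]
            exact hΩ'S
          · rw [Function.update_of_ne h]
            exact clsT_self (hinj t)
        sub := by rw [Function.update_of_ne (bne b)]; exact subset_rfl
        closed := by rw [Function.update_of_ne (bne b)]; exact hcl _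
        small := by
          rw [Function.update_of_ne (bne b)]
          have h1 : #(F (!b)) ≤ 4 * j (!b) := hF _
          have h2 := hjk (!b)
          show #(F (!b)) < 2 ^ r
          omega }
    refine ⟨Ω', hin, pth_of hask (hR _ (hin.legit hr)).prom (fun β q hβ hq hp =>
      hfx b _ hin β q hβ hq hp) fun q hq hno => ?_⟩
    have h1 := hno (u q)
    have h2 := abs_le.1 (hΩ' q hq)
    have h3 := hacc q hq
    linarith [h2.1]
  obtain ⟨Ω₁, hin₁, hp₁⟩ := key s
  obtain ⟨Ω₂, hin₂, hp₂⟩ := key (!s)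
  have h1 := (hR _ (hin₁.legit hr)).fin α hp₁ hα
  have h2 := (hR _ (hin₂.legit hr)).fin α hp₂ hα
  have h3 : accept α := h1.1 hin₁.full
  have h4 := h2.2 h3
  have h5 := hin₂.small
  rw [Bool.not_not, h4] at h5
  refine univ_big n ?_
  have : #(univ : Finset (Vn n)) < 2 ^ r := h5
  show 1000 * #(univ : Finset (Vn n)) ≤ 2 ^ hN n
  omega

/-- **Adaptive questions are fooled by a world of one level.** -/
theorem fool3 (hfew : P_few) (hshr : P_shrink) (hdens : P_dens) (hcore : P_core3)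
    (hnb : Good (hN n) (nb n)) (hspa : Spa r (nb n)) (B : Oracle) (W : ∀ n, Wd n) (X : Rns ι)
    (ask : List Bool → Option ι) (accept : List Bool → Prop)
    (hask : ∀ α, k ≤ α.length → ask α = none)
    (hT : ∀ β q, ask β = some q → (X.C q).length ≤ T)
    (hBd : ∀ β q, ask β = some q → Short Bd (X.C q)) {ℓ : ℕ}
    (hK : ∀ β q, ask β = some q → Fintype.card (X.K q) ≤ 2 ^ ℓ)
    (hr : 1000 * 2 ^ r ≤ 2 ^ hN n)
    (hsz : 4 * (k * cst n k ℓ T + cst n k ℓ T + 1) + 1 < 2 ^ r)
    (h2 : 20000 * ((T + 1) * (k + 1)) ^ 2 < 2 ^ hN n) (s : Bool) :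
    ∃ w, Legit n w ∧ ¬ Rgt nb B W n X ask accept s w := by
  by_contra hcon
  push Not at hcon
  set η : ℝ := 8 * (T + 1) * Real.sqrt ((k + 1) * (8 / 2 ^ hN n)) with hη
  have hη2 : 2 * η < 1 / 3 := by
    have e1 : (2 * η) ^ 2 < (1 / 3) ^ 2 := by
      rw [hη, mul_pow, mul_pow, Real.sq_sqrt (by positivity)]
      have h3 : (20000 : ℝ) * ((T + 1) * (k + 1)) ^ 2 < 2 ^ hN n := by exact_mod_cast h2
      have h4 : (0 : ℝ) < 2 ^ hN n := by positivity
      have hk0 : (0 : ℝ) ≤ k := Nat.cast_nonneg _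
      have hT0 : (0 : ℝ) ≤ T := Nat.cast_nonneg _
      have e2 : (2 : ℝ) ^ 2 * ((8 * (T + 1)) ^ 2 * ((k + 1) * (8 / 2 ^ hN n))) =
          2048 * ((T + 1) ^ 2 * (k + 1)) / 2 ^ hN n := by
        field_simp
        ring
      rw [e2, div_lt_iff₀ h4]
      have h5 : ((T : ℝ) + 1) ^ 2 * (k + 1) ≤ ((T + 1) * (k + 1)) ^ 2 := by
        have h6 : (0 : ℝ) ≤ ((T : ℝ) + 1) ^ 2 := by positivity
        have h7 : (k : ℝ) + 1 ≤ (k + 1) ^ 2 := by nlinarith
        calc ((T : ℝ) + 1) ^ 2 * (k + 1) ≤ (T + 1) ^ 2 * (k + 1) ^ 2 :=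
              mul_le_mul_of_nonneg_left h7 h6
          _ = _ := by ring
      nlinarith
    have e2 := abs_lt_of_sq_lt_sq e1 (by norm_num)
    exact (le_abs_self _).trans_lt e2
  have hbase : St3 nb B W n X ask r (cst n k ℓ T) η [] := by
    obtain ⟨p₀, hp₀⟩ := exists_inj (hN n) (2 * hN n) (by omega)
    refine ⟨fun _ _ => p₀, fun _ => ∅, fun _ => 0, fun i => Classical.choice (X.non i),
      fun _ _ => hp₀, fun _ v _ => by simp, fun _ => by simp [Bud2], fun _ => by simp,
      fun _ => by simp, fun q hq => ?_, fun b w _ β q hβ => by simp at hβ, asked_nil⟩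
    obtain ⟨β, h1, -⟩ := mem_yesQ.1 hq
    simp at h1
  have key : ∀ t ≤ k, ∃ α : List Bool, α.length = t ∧
      St3 nb B W n X ask r (cst n k ℓ T) η α := by
    intro t
    induction t with
    | zero => exact fun _ => ⟨[], rfl, hbase⟩
    | succ t ih =>
      intro ht
      obtain ⟨α, rfl, hst⟩ := ih (by omega)
      rcases h : ask α with _ | q₀
      · exact (fin3 hfew hnb hT hBd hr hsz le_rfl hη2 hcon h (by omega) hst).elim
      · obtain ⟨c', hc'⟩ := step3 hshr hdens hcore hnb hspa hT hBd hK hr hsz le_rfl hcon h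
          (by omega) hst
        exact ⟨α ++ [c'], by simp, hc'⟩
  obtain ⟨α, hα, hst⟩ := key k le_rfl
  exact fin3 hfew hnb hT hBd hr hsz le_rfl hη2 hcon (hask α hα.ge) hα.le hst

end Pool.Agent.K7x.QC
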