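import Pool.Agent.K7x.QC.Stm

/-!
# Counting affine maps over `F_2` with at most two given values (piece AFF)
-/

set_option autoImplicit false

namespace Pool.Agent.K7x.QC

open Finset

namespace Aff

variable {h m : ℕ}

/-- a linear functional times `w` is added -/
def shf (p : Par h m) (f : Fin h → ZMod 2) (c : ZMod 2) (w : Fin m → ZMod 2) : Par h m :=
  (p.1 + c • w, p.2 + Matrix.vecMulVec w f)

theorem ev_shf (p : Par h m) (f : Fin h → ZMod 2) (c : ZMod 2) (w : Fin m → ZMod 2) (k : Ix h) :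
    ev (shf p f c w) k = ev p k + (f ⬝ᵥ k + c) • w := by
  funext x
  simp only [ev, shf, Matrix.add_mulVec, Pi.add_apply, Pi.smul_apply, smul_eq_mul]
  have : (Matrix.vecMulVec w f).mulVec k x = (f ⬝ᵥ k) * w x := by
    simp only [Matrix.mulVec, dotProduct, Matrix.vecMulVec_apply, Finset.sum_mul]
    refine Finset.sum_congr rfl fun j _ => ?_
    ring
  rw [this]
  ring

theorem shf_inj {p q : Par h m} {f : Fin h → ZMod 2} {c : ZMod 2} {w : Fin m → ZMod 2}
    (e : shf p f c w = shf q f c w) : p = q := by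
  unfold shf at e
  rw [Prod.mk.injEq] at e
  exact Prod.ext (add_right_cancel e.1) (add_right_cancel e.2)

theorem ev_sub (p : Par h m) (i j : Ix h) : ev p i - ev p j = p.2.mulVec (i - j) := by
  unfold ev
  rw [Matrix.mulVec_sub]
  abel

/-- two nonzero different vectors are separated by a functional -/
theorem exists_functional {a b : Fin h → ZMod 2} (hb : b ≠ 0) (hab : b ≠ a) :
    ∃ f : Fin h → ZMod 2, f ⬝ᵥ a = 0 ∧ f ⬝ᵥ b = 1 := by
  classical
  have two : ∀ x : ZMod 2, x = 0 ∨ x = 1 := by decide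
  by_cases h1 : ∃ k, b k = 1 ∧ a k = 0
  · obtain ⟨k, h1, h2⟩ := h1
    refine ⟨Pi.single k 1, ?_, ?_⟩
    · rw [single_dotProduct, h2, mul_zero]
    · rw [single_dotProduct, h1, mul_one]
  · push Not at h1
    obtain ⟨k, hk⟩ := Function.ne_iff.1 hb
    have hk1 : b k = 1 := (two _).resolve_left hk
    have hk2 : a k = 1 := (two _).resolve_left (h1 k hk1)
    obtain ⟨l, hl⟩ := Function.ne_iff.1 hab
    have hl1 : b l = 0 := by
      rcases two (b l) with h | h
      · exact h
      · exact absurd (h.trans ((two _).resolve_left (h1 l h)).symm) hl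
    have hl2 : a l = 1 := by
      rcases two (a l) with h | h
      · exact absurd (hl1.trans h.symm) hl
      · exact h
    refine ⟨Pi.single k 1 + Pi.single l 1, ?_, ?_⟩
    · rw [add_dotProduct, single_dotProduct, single_dotProduct, hk2, hl2]
      decide
    · rw [add_dotProduct, single_dotProduct, single_dotProduct, hk1, hl1]
      decide

/-- at most two points, one of them `i₀` -/
theorem exists_dir {J : Finset (Ix h)} (hJ : #J ≤ 2) {i₀ : Ix h} (h0 : i₀ ∈ J) :
    ∃ a : Ix h, (∀ k ∈ J, k = i₀ ∨ k - i₀ = a) ∧ ∀ i ∉ J, i - i₀ ≠ a := by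
  classical
  have h1 : #(J.erase i₀) ≤ 1 := by
    rw [Finset.card_erase_of_mem h0]
    omega
  rcases (J.erase i₀).eq_empty_or_nonempty with h2 | ⟨j, hj⟩
  · refine ⟨0, fun k hk => Or.inl ?_, fun i hi h3 => ?_⟩
    · by_contra h3
      have : k ∈ J.erase i₀ := Finset.mem_erase.2 ⟨h3, hk⟩
      rw [h2] at this
      exact absurd this (Finset.notMem_empty _)
    · rw [sub_eq_zero] at h3
      exact hi (h3 ▸ h0)
  · refine ⟨j - i₀, fun k hk => ?_, fun i hi h3 => ?_⟩
    · by_cases h3 : k = i₀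
      · exact Or.inl h3
      · refine Or.inr ?_
        rw [Finset.card_le_one.1 h1 k (Finset.mem_erase.2 ⟨h3, hk⟩) j hj]
    · rw [sub_left_inj] at h3
      exact hi (h3 ▸ (Finset.mem_erase.1 hj).2)

/-- the functional of step (1) -/
theorem exists_lam {J : Finset (Ix h)} (hJ : #J ≤ 2) {i₀ : Ix h} (h0 : i₀ ∈ J) {i : Ix h}
    (hi : i ∉ J) : ∃ (f : Fin h → ZMod 2) (c : ZMod 2), f ⬝ᵥ i + c = 1 ∧
      ∀ k ∈ J, f ⬝ᵥ k + c = 0 := by
  obtain ⟨a, h1, h2⟩ := exists_dir hJ h0
  obtain ⟨f, hf1, hf2⟩ := exists_functional (a := a) (b := i - i₀)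
    (by rw [sub_ne_zero]; rintro rfl; exact hi h0) (h2 i hi)
  refine ⟨f, -(f ⬝ᵥ i₀), ?_, fun k hk => ?_⟩
  · rw [← sub_eq_add_neg, ← dotProduct_sub, hf2]
  · rw [← sub_eq_add_neg, ← dotProduct_sub]
    rcases h1 k hk with rfl | h3
    · rw [sub_self, dotProduct_zero]
    · rw [h3, hf1]

theorem card_ix (h : ℕ) : #(univ : Finset (Ix h)) = 2 ^ h := by
  rw [Finset.card_univ, Fintype.card_fun, ZMod.card, Fintype.card_fin]

/-- a hyperplane contains at least half of the vectors -/
theorem card_hyp (a : Fin h → ZMod 2) :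
    2 ^ h ≤ 2 * #{f : Fin h → ZMod 2 | f ⬝ᵥ a = 0} := by
  classical
  have two : ∀ x : ZMod 2, x ≠ 0 → x = 1 := by decide
  have h1 := Finset.card_filter_add_card_filter_not (s := (univ : Finset (Fin h → ZMod 2)))
    (fun f => f ⬝ᵥ a = 0)
  rw [card_ix] at h1
  have h2 : #{f : Fin h → ZMod 2 | ¬ f ⬝ᵥ a = 0} ≤ #{f : Fin h → ZMod 2 | f ⬝ᵥ a = 0} := by
    by_cases ha : a = 0
    · subst ha
      rw [Finset.card_eq_zero.2]
      · exact Nat.zero_le _
      · rw [Finset.filter_eq_empty_iff]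
        intro f _ hf
        exact hf (dotProduct_zero f)
    · obtain ⟨k, hk⟩ := Function.ne_iff.1 ha
      have hk1 := two _ hk
      refine Finset.card_le_card_of_injOn (fun f => f + Pi.single k 1) ?_ ?_
      · intro f hf
        have hf1 := (Finset.mem_filter.1 hf).2
        refine Finset.mem_coe.2 (Finset.mem_filter.2 ⟨Finset.mem_univ _, ?_⟩)
        rw [add_dotProduct, single_dotProduct, hk1, two _ hf1]
        decide
      · intro f _ g _ e
        exact add_right_cancel e
  omega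

open scoped Classical in
/-- all the parameters with the given values, injective or not -/
noncomputable def Al (p₀ : Par h m) (J : Finset (Ix h)) : Finset (Par h m) :=
  {p | ∀ i ∈ J, ev p i = ev p₀ i}

theorem mem_Al {p₀ : Par h m} {J : Finset (Ix h)} {p : Par h m} :
    p ∈ Al p₀ J ↔ ∀ i ∈ J, ev p i = ev p₀ i := by
  unfold Al
  simp

/-- the counting argument -/
theorem count {p₀ : Par h m} {J J' : Finset (Ix h)} (hJJ : J ⊆ J') {i : Ix h}
    (hlam : ∃ (f : Fin h → ZMod 2) (c : ZMod 2), f ⬝ᵥ i + c = 1 ∧ ∀ k ∈ J', f ⬝ᵥ k + c = 0)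
    (S : Finset (Par h m)) (hS : S ⊆ Al p₀ J)
    (R : Par h m → Fin m → ZMod 2)
    (hR : ∀ p ∈ S, ∀ q : Par h m, ∀ w, ev q i = ev p i + w → (∀ k ∈ J', ev q k = ev p k) →
      R q = w) : #S * 2 ^ m ≤ #(Al p₀ J) := by
  classical
  obtain ⟨f, c, hf1, hf2⟩ := hlam
  have e1 : ∀ (p : Par h m) (w : Fin m → ZMod 2), ev (shf p f c w) i = ev p i + w := by
    intro p w
    rw [ev_shf, hf1, one_smul]
  have e2 : ∀ (p : Par h m) (w : Fin m → ZMod 2), ∀ k ∈ J', ev (shf p f c w) k = ev p k := by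
    intro p w k hk
    rw [ev_shf, hf2 k hk, zero_smul, add_zero]
  rw [← card_ix m, ← Finset.card_product]
  refine Finset.card_le_card_of_injOn (fun x => shf x.1 f c x.2) ?_ ?_
  · intro x hx
    have hx1 := (Finset.mem_product.1 hx).1
    refine Finset.mem_coe.2 (mem_Al.2 fun k hk => ?_)
    rw [e2 _ _ k (hJJ hk)]
    exact mem_Al.1 (hS hx1) k hk
  · intro x hx y hy e
    dsimp only at e
    have hx1 := (Finset.mem_product.1 hx).1
    have hy1 := (Finset.mem_product.1 hy).1
    have h1 := hR _ hx1 (shf x.1 f c x.2) x.2 (e1 _ _) (e2 _ _)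
    have h2 := hR _ hy1 (shf y.1 f c y.2) y.2 (e1 _ _) (e2 _ _)
    have h3 : x.2 = y.2 := by rw [← h1, ← h2, e]
    rw [h3] at e
    exact Prod.ext (shf_inj e) h3

theorem insert_card {J : Finset (Ix h)} (hJ : #J ≤ 2) :
    ∃ i₀ : Ix h, #(insert i₀ J) ≤ 2 ∧ (J = ∅ ∨ i₀ ∈ J) := by
  classical
  rcases J.eq_empty_or_nonempty with h1 | ⟨j, hj⟩
  · exact ⟨0, by rw [h1]; simp, Or.inl h1⟩
  · exact ⟨j, by rw [Finset.insert_eq_of_mem hj]; exact hJ, Or.inr hj⟩

open scoped Classical in
/-- at least half of the parameters are injective -/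
theorem half (hm : h + 1 ≤ m) {J : Finset (Ix h)} (hJ : #J ≤ 2) {p₀ : Par h m} (hp₀ : Inj p₀) :
    #(Al p₀ J) ≤ 2 * #{p : Par h m | Cons p₀ J p} := by
  obtain ⟨i₀, hi1, hi2⟩ := insert_card hJ
  have hsub : J ⊆ insert i₀ J := Finset.subset_insert _ _
  -- the noninjective ones
  have h1 : Al p₀ J ⊆ (univ.filter fun p : Par h m => Cons p₀ J p) ∪
      ((univ : Finset (Ix h)).filter fun i => i ∉ insert i₀ J).biUnion
        fun i => (Al p₀ J).filter fun p => ev p i = ev p i₀ := by
    intro p hp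
    have hp1 := mem_Al.1 hp
    by_cases hin : Inj p
    · exact Finset.mem_union_left _ (Finset.mem_filter.2 ⟨Finset.mem_univ _, hin, hp1⟩)
    · refine Finset.mem_union_right _ ?_
      unfold Inj Function.Injective at hin
      push Not at hin
      obtain ⟨i, j, hij, hne⟩ := hin
      have h2 : ev p (i₀ + (i - j)) = ev p i₀ := by
        rw [← sub_eq_zero, ev_sub, add_sub_cancel_left, ← ev_sub, hij, sub_self]
      have h3 : i₀ + (i - j) ≠ i₀ := by
        intro h4
        rw [add_eq_left, sub_eq_zero] at h4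
        exact hne h4
      refine Finset.mem_biUnion.2 ⟨i₀ + (i - j), ?_, Finset.mem_filter.2 ⟨hp, h2⟩⟩
      refine Finset.mem_filter.2 ⟨Finset.mem_univ _, fun h4 => ?_⟩
      rcases Finset.mem_insert.1 h4 with h5 | h5
      · exact h3 h5
      · rcases hi2 with h6 | h6
        · rw [h6] at h5
          exact absurd h5 (Finset.notMem_empty _)
        · rw [hp1 _ h5, hp1 _ h6] at h2
          exact h3 (hp₀ h2)
  have h2 : ∀ i ∈ (univ : Finset (Ix h)).filter (fun i => i ∉ insert i₀ J),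
      #((Al p₀ J).filter fun p => ev p i = ev p i₀) * 2 ^ m ≤ #(Al p₀ J) := by
    intro i hi
    refine count hsub (exists_lam hi1 (Finset.mem_insert_self i₀ J) (Finset.mem_filter.1 hi).2) _
      (Finset.filter_subset _ _) (fun q => ev q i - ev q i₀) ?_
    intro p hp q w h3 h4
    have h5 := (Finset.mem_filter.1 hp).2
    rw [h3, h4 i₀ (Finset.mem_insert_self _ _), h5, add_sub_cancel_left]
  have h3 : #(((univ : Finset (Ix h)).filter fun i => i ∉ insert i₀ J).biUnion
        fun i => (Al p₀ J).filter fun p => ev p i = ev p i₀) * 2 ^ m ≤ 2 ^ h * #(Al p₀ J) := by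
    calc _ ≤ (∑ i ∈ (univ : Finset (Ix h)).filter (fun i => i ∉ insert i₀ J),
          #((Al p₀ J).filter fun p => ev p i = ev p i₀)) * 2 ^ m :=
          Nat.mul_le_mul_right _ Finset.card_biUnion_le
      _ = ∑ i ∈ (univ : Finset (Ix h)).filter (fun i => i ∉ insert i₀ J),
          #((Al p₀ J).filter fun p => ev p i = ev p i₀) * 2 ^ m := Finset.sum_mul _ _ _
      _ ≤ ∑ i ∈ (univ : Finset (Ix h)).filter (fun i => i ∉ insert i₀ J), #(Al p₀ J) :=
          Finset.sum_le_sum h2
      _ ≤ ∑ _i ∈ (univ : Finset (Ix h)), #(Al p₀ J) :=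
          Finset.sum_le_sum_of_subset (Finset.filter_subset _ _)
      _ = 2 ^ h * #(Al p₀ J) := by rw [Finset.sum_const, card_ix, smul_eq_mul]
  have h4 := (Finset.card_le_card h1).trans (Finset.card_union_le _ _)
  have h5 : 2 * 2 ^ h ≤ 2 ^ m := by
    rw [← pow_succ']
    exact Nat.pow_le_pow_right (by norm_num) hm
  generalize #(((univ : Finset (Ix h)).filter fun i => i ∉ insert i₀ J).biUnion
        fun i => (Al p₀ J).filter fun p => ev p i = ev p i₀) = B at h3 h4
  have h6 : 2 * B ≤ #(Al p₀ J) := by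
    have h7 : 2 ^ h * (2 * B) ≤ 2 ^ h * #(Al p₀ J) := by
      calc 2 ^ h * (2 * B) = B * (2 * 2 ^ h) := by ring
        _ ≤ B * 2 ^ m := Nat.mul_le_mul_left _ h5
        _ ≤ _ := h3
    exact Nat.le_of_mul_le_mul_left h7 (by positivity)
  omega

end Aff

open Aff

open scoped Classical in
/-- Piece AFF. -/
theorem p_aff : P_aff := by
  intro h m hm J hJ p₀ hp₀
  have hhalf := half hm hJ hp₀
  constructor
  · intro z
    -- for one index
    have h2 : ∀ i ∈ (univ : Finset (Ix h)).filter (fun i => i ∉ J),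
        #((Al p₀ J).filter fun p => ev p i = z) * 2 ^ m ≤ #(Al p₀ J) := by
      intro i hi
      have hi3 := (Finset.mem_filter.1 hi).2
      have hlam : ∃ (f : Fin h → ZMod 2) (c : ZMod 2), f ⬝ᵥ i + c = 1 ∧
          ∀ k ∈ J, f ⬝ᵥ k + c = 0 := by
        rcases J.eq_empty_or_nonempty with h1 | ⟨j, hj⟩
        · refine ⟨0, 1, by rw [zero_dotProduct, zero_add], fun k hk => ?_⟩
          rw [h1] at hk
          exact absurd hk (Finset.notMem_empty _)
        · exact exists_lam hJ hj hi3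
      refine count (Finset.Subset.refl J) hlam _ (Finset.filter_subset _ _)
        (fun q => ev q i - z) ?_
      intro p hp q w h3 _
      have h5 := (Finset.mem_filter.1 hp).2
      rw [h3, h5, add_sub_cancel_left]
    have h3 : (univ.filter fun p : Par h m => Cons p₀ J p ∧ ∃ i ∉ J, ev p i = z) ⊆
        ((univ : Finset (Ix h)).filter fun i => i ∉ J).biUnion
          fun i => (Al p₀ J).filter fun p => ev p i = z := by
      intro p hp
      obtain ⟨⟨-, h4⟩, i, hi, h5⟩ := (Finset.mem_filter.1 hp).2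
      exact Finset.mem_biUnion.2 ⟨i, Finset.mem_filter.2 ⟨Finset.mem_univ _, hi⟩,
        Finset.mem_filter.2 ⟨mem_Al.2 h4, h5⟩⟩
    calc #(univ.filter fun p : Par h m => Cons p₀ J p ∧ ∃ i ∉ J, ev p i = z) * 2 ^ m
        ≤ (∑ i ∈ (univ : Finset (Ix h)).filter (fun i => i ∉ J),
          #((Al p₀ J).filter fun p => ev p i = z)) * 2 ^ m :=
          Nat.mul_le_mul_right _ ((Finset.card_le_card h3).trans Finset.card_biUnion_le)
      _ = ∑ i ∈ (univ : Finset (Ix h)).filter (fun i => i ∉ J),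
          #((Al p₀ J).filter fun p => ev p i = z) * 2 ^ m := Finset.sum_mul _ _ _
      _ ≤ ∑ i ∈ (univ : Finset (Ix h)).filter (fun i => i ∉ J), #(Al p₀ J) :=
          Finset.sum_le_sum h2
      _ ≤ ∑ _i ∈ (univ : Finset (Ix h)), #(Al p₀ J) :=
          Finset.sum_le_sum_of_subset (Finset.filter_subset _ _)
      _ = 2 ^ h * #(Al p₀ J) := by rw [Finset.sum_const, card_ix, smul_eq_mul]
      _ ≤ 2 ^ h * (2 * #(univ.filter fun p : Par h m => Cons p₀ J p)) :=
          Nat.mul_le_mul_left _ hhalf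
      _ = 2 ^ (h + 1) * #(univ.filter fun p : Par h m => Cons p₀ J p) := by ring
  · intro y hy
    obtain ⟨i₀, hi1, hi2⟩ := insert_card hJ
    obtain ⟨a, ha, -⟩ := exists_dir hi1 (Finset.mem_insert_self i₀ J)
    have two : ∀ x : ZMod 2, x ≠ 0 → x = 1 := by decide
    obtain ⟨u, hu⟩ : ∃ u : Fin m → ZMod 2, y ⬝ᵥ u = 1 := by
      obtain ⟨k, hk⟩ := Function.ne_iff.1 hy
      exact ⟨Pi.single k 1, by rw [dotProduct_single, mul_one]; exact two _ hk⟩
    have h1 : #((univ.filter fun p : Par h m => Cons p₀ J p ∧ Perp p y) ×ˢ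
        (univ.filter fun f : Fin h → ZMod 2 => f ⬝ᵥ a = 0)) ≤ #(Al p₀ J) := by
      refine Finset.card_le_card_of_injOn (fun x => shf x.1 x.2 (-(x.2 ⬝ᵥ i₀)) u) ?_ ?_
      · intro x hx
        obtain ⟨hx1, hx2⟩ := Finset.mem_product.1 hx
        have hx3 := (Finset.mem_filter.1 hx1).2
        have hx4 := (Finset.mem_filter.1 hx2).2
        refine Finset.mem_coe.2 (mem_Al.2 fun k hk => ?_)
        rw [ev_shf, ← sub_eq_add_neg, ← dotProduct_sub]
        have h5 : x.2 ⬝ᵥ (k - i₀) = 0 := by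
          rcases ha k (Finset.mem_insert_of_mem hk) with h6 | h6
          · rw [h6, sub_self, dotProduct_zero]
          · rw [h6, hx4]
        rw [h5, zero_smul, add_zero]
        exact hx3.1.2 k hk
      · intro x hx x' hx' e
        dsimp only at e
        have key : ∀ x ∈ ((univ.filter fun p : Par h m => Cons p₀ J p ∧ Perp p y) ×ˢ
            (univ.filter fun f : Fin h → ZMod 2 => f ⬝ᵥ a = 0)), ∀ k : Ix h,
            y ⬝ᵥ ev (shf x.1 x.2 (-(x.2 ⬝ᵥ i₀)) u) (i₀ + k) -
              y ⬝ᵥ ev (shf x.1 x.2 (-(x.2 ⬝ᵥ i₀)) u) i₀ = x.2 ⬝ᵥ k := by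
          intro x hx k
          have hx1 := (Finset.mem_filter.1 (Finset.mem_product.1 hx).1).2.2
          rw [ev_shf, ev_shf]
          simp only [dotProduct_add, dotProduct_smul]
          rw [hu, hx1 (i₀ + k) i₀]
          simp only [smul_eq_mul, mul_one]
          ring
        have h6 : x.2 = x'.2 := by
          funext k
          have h7 := key x hx (Pi.single k 1)
          have h8 := key x' hx' (Pi.single k 1)
          rw [e, h8, dotProduct_single, dotProduct_single, mul_one, mul_one] at h7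
          exact h7.symm
        rw [h6] at e
        exact Prod.ext (shf_inj e) h6
    rw [Finset.card_product] at h1
    have h2 := card_hyp a
    calc #(univ.filter fun p : Par h m => Cons p₀ J p ∧ Perp p y) * 2 ^ h
        ≤ #(univ.filter fun p : Par h m => Cons p₀ J p ∧ Perp p y) *
          (2 * #(univ.filter fun f : Fin h → ZMod 2 => f ⬝ᵥ a = 0)) :=
          Nat.mul_le_mul_left _ h2
      _ = 2 * (#(univ.filter fun p : Par h m => Cons p₀ J p ∧ Perp p y) *
          #(univ.filter fun f : Fin h → ZMod 2 => f ⬝ᵥ a = 0)) := by ring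
      _ ≤ 2 * #(Al p₀ J) := Nat.mul_le_mul_left _ h1
      _ ≤ 2 * (2 * #(univ.filter fun p : Par h m => Cons p₀ J p)) := Nat.mul_le_mul_left _ hhalf
      _ = 4 * #(univ.filter fun p : Par h m => Cons p₀ J p) := by ring

end Pool.Agent.K7x.QC
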