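import Pool.Agent.K7x.QC.DefsT

/-!
# Adaptive questions to `QCMA`, and Arthur–Merlin games with perfect completeness
-/

set_option autoImplicit false

namespace Pool.Agent.K7x.QC

open Pool.Agent.NPC Pool.Agent.H620R2.Gauge Pool.Agent.H9x.Q Finset

/-- All the questions which the algorithm `M` asks on input `x` with the oracle `O`, within `n` further
rounds, when the answers received so far are `a`, satisfy `G`. -/
def Asks (M : Alg) (O : Oracle) (G : List Bool → Prop) (x : List Bool) : ℕ → List Bool → Prop
  | 0, _ => True
  | n + 1, a =>
    match M.D (pairBits x a) with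
    | false :: q => G q ∧ Asks M O G x n (a ++ [O q])
    | _ => True

open scoped Classical in
/-- The language `L` is decided in time `2 ^ O(t n)` with (adaptive) questions to `QCMA`, relative to `A`:
a deterministic algorithm `M`, started with the input `x` together with `2 ^ t |x|` ones, asks questions
about the promise problem of the verifier `F` (which has access to `A`) and accepts iff `x` is in `L`; all
its questions satisfy the promise. (For `t = 0` this is `P` with an oracle for `QCMA` relative to `A`.) -/
def IsPQCMATime (t : ℕ → ℕ) (A : Oracle) (L : Set (List Bool)) : Prop :=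
  ∃ (F : Verifier) (M : Alg), ∀ x,
    Asks M (fun q => decide (F.Yes A q)) (fun q => F.Yes A q ∨ F.No A q) (padT t x)
      (M.p.eval (padT t x).length) [] ∧
    (x ∈ L ↔ M.out (fun q => decide (F.Yes A q)) (padT t x) = some [true])

open scoped Classical in
/-- The language `L` is in `AM` with perfect completeness, relative to `A`: `r` are the public coins, `w`
is the answer of the prover, and the verdict is computed in polynomial time relative to `A`. -/
def IsAM1 (A : Oracle) (L : Set (List Bool)) : Prop :=
  ∃ (V : List Bool → List Bool) (p : Polynomial ℕ), IsFP A V ∧ ∀ x,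
    (x ∈ L → ∀ r : Fin (p.eval x.length) → Bool, ∃ w : List Bool, w.length ≤ p.eval x.length ∧
      V (pairBits x (pairBits (List.ofFn r) w)) = [true]) ∧
    (x ∉ L → 3 * #{r : Fin (p.eval x.length) → Bool | ∃ w : List Bool, w.length ≤ p.eval x.length ∧
      V (pairBits x (pairBits (List.ofFn r) w)) = [true]} ≤ 2 ^ p.eval x.length)

end Pool.Agent.K7x.QC
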