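import Pool.Agent.K7x.QC.Ver
import Pool.Agent.K7x.QC.DefsP
import Pool.Agent.TH678.WP.Down
import Pool.Agent.H620R2.GaugeR.R1

/-!
# Both sides are in `AM` with perfect completeness

The coins are a vertex, the answer of the prover is a vector, and the verifier asks whether the vector
is a visible port of the vertex. If a side is switched on then every vertex has a visible port, and
otherwise only few vertices have one.
-/

set_option autoImplicit false

namespace Pool.Agent.K7x.QC

open Finset Pool.Agent.NPC Pool.Agent.H620R2.Gauge Pool.Agent.H9x.Q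


/-- the first `m` bits of `w`, completed by zeros -/
def fit (w : List Bool) (m : ℕ) : List Bool := (w ++ List.replicate m false).take m

theorem fit_eq (w : List Bool) (m : ℕ) :
    fit w m = List.ofFn (fun k : Fin m => w.getD k false) := by
  unfold fit
  apply List.ext_getElem
  · simp
  · intro i h1 h2
    have hi : i < m := by simpa using h2
    rw [List.getElem_take, List.getElem_ofFn]
    by_cases hw : i < w.length
    · rw [List.getElem_append_left hw]
      simp [hw]
    · rw [List.getElem_append_right (by omega)]
      simp [hw]

/-- the question of the verifier -/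
noncomputable def qam (s : Bool) (y : List Bool) : List Bool :=
  false :: false :: ((fit (unpair (unpair y).2).1 (aN (unpair y).1.length) ++
    fit (unpair (unpair y).2).2 (2 * hN (unpair y).1.length)) ++
    List.replicate (pd s (unpair y).1.length 0) false)

theorem poly_qam (s : Bool) : Poly (qam s) := by
  have hx : Poly (fun y : List Bool => (unpair y).1) := Poly.fst poly_unpair
  have hy : Poly (fun y : List Bool => (unpair y).2) := Poly.snd poly_unpair
  have hr : Poly (fun y : List Bool => (unpair (unpair y).2).1) := Poly.fst (poly_unpair.comp hy)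
  have hw : Poly (fun y : List Bool => (unpair (unpair y).2).2) := Poly.snd (poly_unpair.comp hy)
  have hlen : UPoly (fun y : List Bool => (unpair y).1.length) := UPoly.length hx
  have ha : UPoly (fun y : List Bool => aN (unpair y).1.length) :=
    (hlen.eval pa).congr fun u => by simp only [pa_eval]
  have hm : UPoly (fun y : List Bool => 2 * hN (unpair y).1.length) :=
    (hlen.eval pm).congr fun u => by simp only [pm_eval]
  have hb : UPoly (fun y : List Bool => bN (unpair y).1.length) := UPoly.add ha hm
  have h2 : UPoly (fun y : List Bool => (bN (unpair y).1.length + 2) ^ 2) :=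
    (UPoly.mul (UPoly.add hb (UPoly.const 2)) (UPoly.add hb (UPoly.const 2))).congr fun u => by
      simp only [sq]
  have h3 : UPoly (fun y : List Bool => (bN (unpair y).1.length + 2) ^ 2 -
      (1 + bN (unpair y).1.length)) :=
    UPoly.of_le (Poly.sub h2.toPoly (UPoly.add (UPoly.const 1) hb).toPoly) h2 fun u =>
      Nat.sub_le _ _
  have h4 : UPoly (fun y : List Bool => pd s (unpair y).1.length 0) :=
    (UPoly.add h3 (UPoly.const s.toNat)).congr fun u => by
      simp only [pd, Nat.mul_zero, Nat.zero_add]
  have hf : ∀ {l : List Bool → List Bool} {m : List Bool → ℕ}, Poly l → UPoly m →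
      Poly (fun y => fit (l y) (m y)) := by
    intro l m hl hm'
    unfold fit
    exact R1.poly_take (Poly.append hl (poly_replicate hm' (NPC.Poly.const false))) hm'
  exact Poly.cons (NPC.Poly.const false) (Poly.cons (NPC.Poly.const false)
    (Poly.append (Poly.append (hf hr ha) (hf hw hm)) (poly_replicate h4 (NPC.Poly.const false))))

theorem qam_eq (s : Bool) (x w : List Bool) (r : Fin (aN x.length + 2 * hN x.length) → Bool) :
    qam s (pairBits x (pairBits (List.ofFn r) w)) =
      qs false (Fin.append (fun k => r (Fin.castAdd (2 * hN x.length) k))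
        (fun k : Fin (2 * hN x.length) => w.getD k false)) (pd s x.length 0) := by
  unfold qam qs
  rw [unpair_pairBits, unpair_pairBits]
  simp only
  rw [List.ofFn_fin_append, fit_eq, fit_eq]
  congr 4
  congr 1
  funext k
  have hk : (k : ℕ) < (List.ofFn r).length := by
    rw [List.length_ofFn]
    have := k.2
    omega
  rw [List.getD_eq_getElem _ _ hk, List.getElem_ofFn]
  rfl

section Count

variable {a h m : ℕ} {r : ℕ} {nb : Ix h → (Fin a → Bool) → (Fin a → Bool)}

open scoped Classical in
theorem card_near (hnb : Good r nb) (U : Finset (Fin a → Bool)) :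
    #{v : Fin a → Bool | v ∈ U ∨ ∃ i, nb i v ∈ U} ≤ (1 + 2 ^ h) * #U := by
  have h1 : ({v : Fin a → Bool | v ∈ U ∨ ∃ i, nb i v ∈ U} : Finset _) ⊆
      U ∪ (univ : Finset (Ix h)).biUnion fun i => U.image (nb i) := by
    intro v hv
    simp only [mem_filter, mem_univ, true_and] at hv
    rw [mem_union, mem_biUnion]
    rcases hv with hv | ⟨i, hi⟩
    · exact Or.inl hv
    · exact Or.inr ⟨i, mem_univ _, mem_image.2 ⟨_, hi, hnb.invol i v⟩⟩
  refine (card_le_card h1).trans ((card_union_le _ _).trans ?_)
  have h2 : #((univ : Finset (Ix h)).biUnion fun i => U.image (nb i)) ≤ 2 ^ h * #U := by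
    refine card_biUnion_le.trans ?_
    refine (sum_le_card_nsmul _ _ #U fun i _ => card_image_le).trans ?_
    rw [card_univ, Fintype.card_fun, ZMod.card, Fintype.card_fin, smul_eq_mul]
  rw [add_mul, one_mul]
  omega

open scoped Classical in
theorem card_first (S : Finset (Fin a → Bool)) :
    #{r : Fin (a + m) → Bool | (fun k => r (Fin.castAdd m k)) ∈ S} = #S * 2 ^ m := by
  have h1 : #{r : Fin (a + m) → Bool | (fun k => r (Fin.castAdd m k)) ∈ S} =
      #(S ×ˢ (univ : Finset (Fin m → Bool))) := by
    refine Finset.card_bij' (fun r _ => ((fun k => r (Fin.castAdd m k)),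
      (fun k => r (Fin.natAdd a k)))) (fun q _ => Fin.append q.1 q.2) ?_ ?_ ?_ ?_
    · intro r hr
      simpa using hr
    · intro q hq
      simp only [mem_product, mem_univ, and_true] at hq
      simpa using hq
    · intro r _
      exact Fin.append_castAdd_natAdd
    · intro q _
      simp
  rw [h1, card_product, card_univ, Fintype.card_fun, Fintype.card_bool, Fintype.card_fin]

end Count

variable {nb : Gr}

theorem isAM1 (hnb : ∀ n, Good (hN n) (nb n)) (B : Oracle) {W : ∀ n, Wd n}
    (hW : ∀ n, Legit n (W n)) (s : Bool) : IsAM1 (orc nb B W) (lang W s) := by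
  classical
  refine ⟨fun y => [orc nb B W (qam s y)], pa + pm, TH678.WP.isFP_ask' _ (poly_qam s),
    fun x => ?_⟩
  have hk : (pa + pm).eval x.length = aN x.length + 2 * hN x.length := by
    simp [pa_eval, pm_eval]
  generalize (pa + pm).eval x.length = k at hk ⊢
  subst hk
  have key : ∀ (r : Fin (aN x.length + 2 * hN x.length) → Bool) (w : List Bool),
      orc nb B W (qam s (pairBits x (pairBits (List.ofFn r) w))) =
        tS (nb x.length) (W x.length s).1 (W x.length s).2
          (Fin.append (fun k => r (Fin.castAdd (2 * hN x.length) k))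
            (fun k : Fin (2 * hN x.length) => w.getD k false)) := by
    intro r w
    rw [qam_eq]
    refine (orc_qs (n := x.length) (i := 0) s false (Nat.zero_le _) _).trans ?_
    unfold tb
    rw [if_pos rfl]
  constructor
  · intro hx r
    have hx' : (W x.length s).2 = univ := hx
    set v : Fin (aN x.length) → Bool := fun k => r (Fin.castAdd (2 * hN x.length) k) with hv
    set z : Fin (2 * hN x.length) → ZMod 2 := ev ((W x.length s).1 v) 0 with hz
    refine ⟨List.ofFn (ofZ z), by rw [List.length_ofFn]; omega, ?_⟩
    show [orc nb B W (qam s (pairBits x (pairBits (List.ofFn r) (List.ofFn (ofZ z)))))] = [true]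
    rw [key, List.cons.injEq]
    refine ⟨?_, rfl⟩
    unfold tS
    rw [decide_eq_true_eq]
    refine ⟨0, ?_, Or.inl (by rw [hx']; exact mem_univ _)⟩
    have e1 : vp (Fin.append v (fun k : Fin (2 * hN x.length) =>
        (List.ofFn (ofZ z)).getD k false)) = v := by
      funext k
      simp [vp]
    have e2 : zq (Fin.append v (fun k : Fin (2 * hN x.length) =>
        (List.ofFn (ofZ z)).getD k false)) = ofZ z := by
      funext k
      simp only [zq, Fin.append_right]
      rw [List.getD_eq_getElem _ _ (by simp)]
      simp
    rw [e1, e2]
    funext k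
    show z k = if ofZ z k = true then 1 else 0
    have h2 : ∀ u : ZMod 2, u = if decide (u = 1) = true then 1 else 0 := by decide
    exact h2 (z k)
  · intro hx
    obtain ⟨_, r, h5, h6⟩ := hW x.length
    have hx' : (W x.length s).2 ≠ univ := hx
    have : r = !s := by
      cases s <;> cases r <;> simp_all
    subst this
    rw [Bool.not_not] at h6
    set U := (W x.length s).2 with hU
    have h7 : #{r : Fin (aN x.length + 2 * hN x.length) → Bool |
        ∃ w : List Bool, w.length ≤ aN x.length + 2 * hN x.length ∧
          [orc nb B W (qam s (pairBits x (pairBits (List.ofFn r) w)))] = [true]} ≤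
        #{r : Fin (aN x.length + 2 * hN x.length) → Bool |
          (fun k => r (Fin.castAdd (2 * hN x.length) k)) ∈
            ({v : Fin (aN x.length) → Bool | v ∈ U ∨ ∃ i, nb x.length i v ∈ U} : Finset _)} := by
      refine card_le_card fun r hr => ?_
      simp only [mem_filter, mem_univ, true_and] at hr ⊢
      obtain ⟨w, _, hw⟩ := hr
      rw [key, List.cons.injEq] at hw
      have hw1 := hw.1
      unfold tS at hw1
      rw [decide_eq_true_eq] at hw1
      obtain ⟨i, _, hi⟩ := hw1
      have e1 : vp (Fin.append (fun k => r (Fin.castAdd (2 * hN x.length) k))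
          (fun k : Fin (2 * hN x.length) => w.getD k false)) =
          fun k => r (Fin.castAdd (2 * hN x.length) k) := by
        funext k
        simp [vp]
      rw [e1] at hi
      rcases hi with hi | hi
      · exact Or.inl hi
      · exact Or.inr ⟨i, hi⟩
    refine (Nat.mul_le_mul_left 3 h7).trans ?_
    rw [card_first, pow_add, ← mul_assoc]
    refine Nat.mul_le_mul_right _ ?_
    have h8 := card_near (hnb x.length) U
    have h9 : 2 ^ (2 * hN x.length) ≤ 2 ^ aN x.length := Nat.pow_le_pow_right (by norm_num) (by
      unfold hN aN
      nlinarith)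
    have h10 : (2 : ℕ) ^ (2 * hN x.length) = 2 ^ hN x.length * 2 ^ hN x.length := by
      rw [two_mul, pow_add]
    have h11 : 1 ≤ 2 ^ hN x.length := Nat.one_le_two_pow
    nlinarith

end Pool.Agent.K7x.QC
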