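import Pool.Agent.K7x.QC.Stm

/-!
# The acceptance probability of the circuit (piece CIRC)
-/

set_option autoImplicit false

namespace Pool.Agent.K7x.QC

open Finset Pool.Agent.NPC Pool.Agent.H620R2.Gauge Pool.Agent.H9x.Q

theorem run_append' {m : ℕ} (A : Oracle) (C C' : List Gate) : ∀ ψ : Basis m → ℂ,
    run A (C ++ C') ψ = run A C' (run A C ψ) := by
  induction C with
  | nil => intro ψ; rfl
  | cons g C ih => intro ψ; simp only [List.cons_append, run]; rw [ih]

/-! ### The Hadamard transform of the last `m` qubits -/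

/-- the sign of two bits -/
noncomputable def sgb (u v : Bool) : ℂ := if u && v then -1 else 1

theorem hadT_eq {m : ℕ} (φ : (Fin m → Bool) → ℂ) (z : Fin m → Bool) :
    hadT φ z = (∑ y : Fin m → Bool, (∏ k, sgb (z k) (y k)) * φ y) / (Real.sqrt 2 : ℂ) ^ m := rfl

/-- `x` with the qubits `a, …, a + k - 1` replaced by `y` -/
def ovr {N : ℕ} (a : ℕ) {k : ℕ} (x : Basis N) (y : Fin k → Bool) : Basis N := fun i =>
  if h : a ≤ i.1 ∧ i.1 - a < k then y ⟨i.1 - a, h.2⟩ else x i

theorem ovr_snoc {N : ℕ} (a : ℕ) {k : ℕ} (x : Basis N) (y : Fin k → Bool) (b : Bool) :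
    ovr a (put x (a + k) b) y = ovr a x (Fin.snoc y b : Fin (k + 1) → Bool) := by
  funext i
  unfold ovr put
  by_cases h1 : a ≤ i.1 ∧ i.1 - a < k
  · rw [dif_pos h1, dif_pos ⟨h1.1, by omega⟩]
    have e : (⟨i.1 - a, by omega⟩ : Fin (k + 1)) = Fin.castSucc ⟨i.1 - a, h1.2⟩ := rfl
    rw [e, Fin.snoc_castSucc]
  · rw [dif_neg h1]
    by_cases h2 : i.1 = a + k
    · rw [if_pos h2, dif_pos ⟨by omega, by omega⟩]
      have e : (⟨i.1 - a, by omega⟩ : Fin (k + 1)) = Fin.last k := by
        apply Fin.ext
        simp only [Fin.val_last]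
        omega
      rw [e, Fin.snoc_last]
    · rw [if_neg h2, dif_neg (by omega)]

theorem run_had {N : ℕ} (A : Oracle) (a : ℕ) : ∀ k : ℕ, a + k ≤ N → ∀ (φ : Basis N → ℂ)
    (x : Basis N), run A ((List.range k).map fun t => Gate.had (a + t)) φ x =
      (∑ y : Fin k → Bool, (∏ j : Fin k, sgb (bit x (a + j)) (y j)) * φ (ovr a x y)) /
        (Real.sqrt 2 : ℂ) ^ k := by
  intro k
  induction k with
  | zero =>
    intro _ φ x
    simp only [List.range_zero, List.map_nil, run, pow_zero, div_one]
    rw [Fintype.sum_unique]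
    have : ∀ y : Fin 0 → Bool, ovr a x y = x := fun y => by
      funext i
      unfold ovr
      rw [dif_neg (by omega)]
    rw [this]
    simp
  | succ k ih =>
    intro hk φ x
    rw [List.range_succ, List.map_append, run_append']
    simp only [List.map_cons, List.map_nil, run, Gate.act]
    rw [if_pos (by omega), ih (by omega), ih (by omega)]
    have h1 : ∀ b : Bool, ∑ y : Fin k → Bool, (∏ j : Fin k, sgb (bit (put x (a + k) b) (a + j))
        (y j)) * φ (ovr a (put x (a + k) b) y) = ∑ y : Fin k → Bool,
        (∏ j : Fin k, sgb (bit x (a + j)) (y j)) *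
          φ (ovr a x (Fin.snoc y b : Fin (k + 1) → Bool)) := by
      intro b
      refine sum_congr rfl fun y _ => ?_
      rw [ovr_snoc]
      congr 1
      refine prod_congr rfl fun j _ => ?_
      have := j.2
      rw [bit_put_ne (by omega)]
    rw [h1, h1]
    have h2 : ∑ y : Fin (k + 1) → Bool, (∏ j : Fin (k + 1), sgb (bit x (a + j)) (y j)) *
        φ (ovr a x y) = ∑ b : Bool, ∑ y : Fin k → Bool, (∏ j : Fin k, sgb (bit x (a + j)) (y j)) *
          sgb (bit x (a + k)) b * φ (ovr a x (Fin.snoc y b : Fin (k + 1) → Bool)) := by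
      rw [← Fintype.sum_prod_type']
      symm
      refine Fintype.sum_equiv (Fin.snocEquiv fun _ => Bool) _ _ fun p => ?_
      obtain ⟨b, y⟩ := p
      simp only [Fin.snocEquiv, Equiv.coe_fn_mk]
      rw [Fin.prod_univ_castSucc]
      simp only [Fin.snoc_castSucc, Fin.snoc_last, Fin.val_castSucc, Fin.val_last]
    rw [h2, Fintype.sum_bool]
    have h3 : ∀ b : Bool, ∑ y : Fin k → Bool, (∏ j : Fin k, sgb (bit x (a + j)) (y j)) *
          sgb (bit x (a + k)) b * φ (ovr a x (Fin.snoc y b : Fin (k + 1) → Bool)) =
        sgb (bit x (a + k)) b * ∑ y : Fin k → Bool, (∏ j : Fin k, sgb (bit x (a + j)) (y j)) *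
          φ (ovr a x (Fin.snoc y b : Fin (k + 1) → Bool)) := by
      intro b
      rw [mul_sum]
      exact sum_congr rfl fun y _ => by ring
    rw [h3, h3]
    have h4 : sgb (bit x (a + k)) false = 1 := by simp [sgb]
    have h5 : sgb (bit x (a + k)) true = if bit x (a + k) then -1 else 1 := by simp [sgb]
    rw [h4, h5, pow_succ]
    have h6 : (Real.sqrt 2 : ℂ) ≠ 0 := by
      have : Real.sqrt 2 ≠ 0 := by positivity
      exact_mod_cast this
    field_simp
    ring

theorem run_hadZ {a m : ℕ} (A : Oracle) (φ : Basis (a + m) → ℂ) :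
    run A ((List.range m).map fun t => Gate.had (a + t)) φ = hadZ φ := by
  funext x
  rw [run_had A a m le_rfl]
  unfold hadZ
  rw [hadT_eq]
  congr 1
  refine sum_congr rfl fun y _ => ?_
  congr 1
  · refine prod_congr rfl fun j _ => ?_
    congr 1
    unfold bit zq
    rw [dif_pos (by have := j.2; omega)]
    congr 1
  · congr 1
    funext i
    unfold ovr
    by_cases h : a ≤ i.1
    · have hi := i.2
      rw [dif_pos ⟨h, by omega⟩]
      have e : i = Fin.natAdd a (⟨i.1 - a, by omega⟩ : Fin m) := by
        apply Fin.ext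
        simp only [Fin.val_natAdd]
        omega
      conv_rhs => rw [e]
      rw [Fin.append_right]
    · rw [dif_neg (by omega)]
      have e : i = Fin.castAdd m (⟨i.1, by omega⟩ : Fin a) := by
        apply Fin.ext
        rfl
      conv_rhs => rw [e]
      rw [Fin.append_left]
      unfold vp
      congr 1

/-! ### The registers -/

section Registers

variable (n B : ℕ) {M : ℕ}

/-- the witness register -/
def rW (z : Basis M) : Basis B := fun t => bit z (n + 1 + t)

/-- the second register -/
def rR (z : Basis M) : Basis B := fun t => bit z (n + 8 + B + t)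

/-- the flags -/
def rF (z : Basis M) : Basis 5 := fun t => bit z (n + 3 + B + t)

/-- the control -/
def rC (z : Basis M) : Bool := bit z (n + 2 + B)

/-- the other qubits contain the input and zeros -/
def Fr (x : List Bool) (z : Basis M) : Prop :=
  ∀ i, (i < n + 1 ∨ i = n + 1 + B ∨ n + 8 + 2 * B ≤ i) → bit z i = x.getD i false

theorem bit_put (z : Basis M) (r q : ℕ) (b : Bool) (hr : r < M) :
    bit (put z r b) q = if q = r then b else bit z q := by
  split_ifs with h
  · subst h
    exact bit_put_self hr b
  · exact bit_put_ne h b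

theorem put_apply {k : ℕ} (f : Basis k) (i : ℕ) (b : Bool) (j : Fin k) :
    put f i b j = if j.1 = i then b else f j := rfl

variable {n B}

theorem rW_putW (z : Basis M) (t : ℕ) (b : Bool) (hM : n + 8 + 2 * B ≤ M) (ht : t < B) :
    rW n B (put z (n + 1 + t) b) = put (rW n B z) t b := by
  funext j
  have := j.2
  rw [put_apply]
  unfold rW
  rw [bit_put _ _ _ _ (by omega)]
  split_ifs <;> first | rfl | omega

theorem rW_ne (z : Basis M) (r : ℕ) (b : Bool) (hr : r < M) (h : r < n + 1 ∨ n + 1 + B ≤ r) :
    rW n B (put z r b) = rW n B z := by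
  funext j
  have := j.2
  unfold rW
  rw [bit_put _ _ _ _ hr, if_neg (by omega)]

theorem rR_putR (z : Basis M) (t : ℕ) (b : Bool) (hM : n + 8 + 2 * B ≤ M) (ht : t < B) :
    rR n B (put z (n + 8 + B + t) b) = put (rR n B z) t b := by
  funext j
  have := j.2
  rw [put_apply]
  unfold rR
  rw [bit_put _ _ _ _ (by omega)]
  split_ifs <;> first | rfl | omega

theorem rR_ne (z : Basis M) (r : ℕ) (b : Bool) (hr : r < M)
    (h : r < n + 8 + B ∨ n + 8 + 2 * B ≤ r) : rR n B (put z r b) = rR n B z := by
  funext j
  have := j.2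
  unfold rR
  rw [bit_put _ _ _ _ hr, if_neg (by omega)]

theorem rF_putF (z : Basis M) (t : ℕ) (b : Bool) (hM : n + 8 + 2 * B ≤ M) (ht : t < 5) :
    rF n B (put z (n + 3 + B + t) b) = put (rF n B z) t b := by
  funext j
  have := j.2
  rw [put_apply]
  unfold rF
  rw [bit_put _ _ _ _ (by omega)]
  split_ifs <;> first | rfl | omega

theorem rF_ne (z : Basis M) (r : ℕ) (b : Bool) (hr : r < M)
    (h : r < n + 3 + B ∨ n + 8 + B ≤ r) : rF n B (put z r b) = rF n B z := by
  funext j
  have := j.2
  unfold rF
  rw [bit_put _ _ _ _ hr, if_neg (by omega)]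

theorem rC_ne (z : Basis M) (r : ℕ) (b : Bool) (hr : r < M) (h : r ≠ n + 2 + B) :
    rC n B (put z r b) = rC n B z := by
  unfold rC
  rw [bit_put _ _ _ _ hr, if_neg (by omega)]

theorem rC_put (z : Basis M) (b : Bool) (hM : n + 8 + 2 * B ≤ M) :
    rC n B (put z (n + 2 + B) b) = b := by
  unfold rC
  rw [bit_put _ _ _ _ (by omega), if_pos rfl]

theorem Fr_put {x : List Bool} (z : Basis M) (r : ℕ) (b : Bool) (hr : r < M)
    (h : n + 1 ≤ r ∧ r ≠ n + 1 + B ∧ r < n + 8 + 2 * B) : Fr n B x (put z r b) ↔ Fr n B x z := by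
  unfold Fr
  refine forall_congr' fun i => ?_
  refine imp_congr_right fun hi => ?_
  rw [bit_put _ _ _ _ hr, if_neg (by omega)]

open scoped Classical in
/-- the state with the input `x` and the amplitudes `Φ` -/
noncomputable def St (n : ℕ) {B : ℕ} (M : ℕ) (x : List Bool)
    (Φ : Basis 5 → Bool → Basis B → Basis B → ℂ) : Basis M → ℂ := fun z =>
  if Fr n B x z then Φ (rF n B z) (rC n B z) (rR n B z) (rW n B z) else 0

variable {x : List Bool} {Φ : Basis 5 → Bool → Basis B → Basis B → ℂ} {A : Oracle}

theorem St_pos {z : Basis M} (hz : Fr n B x z) :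
    St n M x Φ z = Φ (rF n B z) (rC n B z) (rR n B z) (rW n B z) := if_pos hz

theorem St_neg {z : Basis M} (hz : ¬ Fr n B x z) : St n M x Φ z = 0 := if_neg hz

theorem St_put_pos {z : Basis M} (hz : Fr n B x z) (r : ℕ) (b : Bool) (hr : r < M)
    (h : n + 1 ≤ r ∧ r ≠ n + 1 + B ∧ r < n + 8 + 2 * B) :
    St n M x Φ (put z r b) = Φ (rF n B (put z r b)) (rC n B (put z r b)) (rR n B (put z r b))
      (rW n B (put z r b)) := St_pos ((Fr_put z r b hr h).2 hz)

theorem St_put_neg {z : Basis M} (hz : ¬ Fr n B x z) (r : ℕ) (b : Bool) (hr : r < M)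
    (h : n + 1 ≤ r ∧ r ≠ n + 1 + B ∧ r < n + 8 + 2 * B) : St n M x Φ (put z r b) = 0 :=
  St_neg fun h' => hz ((Fr_put z r b hr h).1 h')

/-- the question of a gate -/
theorem map_lq {pad : ℕ} (hx : x.length = n) {z : Basis M} (hz : Fr n B x z) (c : ℕ) :
    (lq n B c pad).map (bit z) = qs (bit z c) (rW n B z) pad := by
  have h0 : bit z (n + 1 + B) = false := by
    rw [hz _ (by omega), List.getD_eq_default _ _ (by omega)]
  unfold lq qs
  rw [List.map_cons, List.map_cons, List.map_append, List.map_map, List.map_replicate, h0]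
  congr 3
  apply List.ext_getElem
  · simp
  · intro i h1 h2
    simp [rW]

theorem bit_Z (hx : x.length = n) {z : Basis M} (hz : Fr n B x z) : bit z (n + 1 + B) = false := by
  rw [hz _ (by omega), List.getD_eq_default _ _ (by omega)]

theorem not_mem_lq {c pad r : ℕ} (h1 : r ≠ n + 1 + B) (h2 : r ≠ c)
    (h3 : r < n + 1 ∨ n + 1 + B ≤ r) : r ∉ lq n B c pad := by
  unfold lq
  simp only [List.mem_cons, List.mem_append, List.mem_map, List.mem_range, List.mem_replicate,
    not_or]
  refine ⟨h1, h2, ?_, fun h => h1 h.2⟩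
  rintro ⟨t, ht, rfl⟩
  omega

theorem bit_rW (z : Basis M) {t : ℕ} (ht : t < B) : bit (rW n B z) t = bit z (n + 1 + t) := by
  conv_lhs => unfold bit
  rw [dif_pos ht]
  rfl

theorem bit_rR (z : Basis M) {t : ℕ} (ht : t < B) : bit (rR n B z) t = bit z (n + 8 + B + t) := by
  conv_lhs => unfold bit
  rw [dif_pos ht]
  rfl

theorem bit_rF (z : Basis M) {t : ℕ} (ht : t < 5) : bit (rF n B z) t = bit z (n + 3 + B + t) := by
  conv_lhs => unfold bit
  rw [dif_pos ht]
  rfl

/-- a question with a flag as the target -/
theorem act_flag {T : Basis B → Bool} {pad : ℕ} (hx : x.length = n) (hM : n + 8 + 2 * B ≤ M)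
    (hT : ∀ c y, A (qs c y pad) = T y) (i : ℕ) (hi : i < 5) :
    (Gate.query (lq n B (n + 1 + B) pad) (n + 3 + B + i)).act A (St n M x Φ) =
      St n M x fun f c R W => Φ (put f i (xor (bit f i) (T W))) c R W := by
  funext z
  simp only [Gate.act]
  rw [if_neg (not_mem_lq (by omega) (by omega) (by omega))]
  by_cases hz : Fr n B x z
  · rw [St_put_pos hz _ _ (by omega) (by omega), St_pos hz, rF_putF _ _ _ hM hi,
      rC_ne _ _ _ (by omega) (by omega), rR_ne _ _ _ (by omega) (by omega),
      rW_ne _ _ _ (by omega) (by omega), map_lq hx hz, hT, bit_rF z hi]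
  · rw [St_put_neg hz _ _ (by omega) (by omega), St_neg hz]

/-- a question with the second register as the target -/
theorem act_reg {δ : Bool → Basis B → Bool} {pad : ℕ} (hx : x.length = n)
    (hM : n + 8 + 2 * B ≤ M) (hT : ∀ c y, A (qs c y pad) = δ c y) (t : ℕ) (ht : t < B) :
    (Gate.query (lq n B (n + 2 + B) pad) (n + 8 + B + t)).act A (St n M x Φ) =
      St n M x fun f c R W => Φ f c (put R t (xor (bit R t) (δ c W))) W := by
  funext z
  simp only [Gate.act]
  rw [if_neg (not_mem_lq (by omega) (by omega) (by omega))]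
  by_cases hz : Fr n B x z
  · rw [St_put_pos hz _ _ (by omega) (by omega), St_pos hz, rF_ne _ _ _ (by omega) (by omega),
      rC_ne _ _ _ (by omega) (by omega), rR_putR _ _ _ hM ht, rW_ne _ _ _ (by omega) (by omega),
      map_lq hx hz, hT, bit_rR z ht]
    rfl
  · rw [St_put_neg hz _ _ (by omega) (by omega), St_neg hz]

/-- a Hadamard gate on the witness register -/
theorem act_hadW (hM : n + 8 + 2 * B ≤ M) (t : ℕ) (ht : t < B) :
    (Gate.had (n + 1 + t)).act A (St n M x Φ) =
      St n M x fun f c R => (Gate.had t).act A (Φ f c R) := by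
  funext z
  simp only [Gate.act]
  rw [if_pos (by omega)]
  by_cases hz : Fr n B x z
  · rw [St_put_pos hz _ _ (by omega) (by omega), St_put_pos hz _ _ (by omega) (by omega),
      St_pos hz, rF_ne _ _ _ (by omega) (by omega),
      rC_ne _ _ _ (by omega) (by omega), rR_ne _ _ _ (by omega) (by omega), rW_putW _ _ _ hM ht,
      rF_ne _ _ _ (by omega) (by omega), rC_ne _ _ _ (by omega) (by omega),
      rR_ne _ _ _ (by omega) (by omega), rW_putW _ _ _ hM ht, if_pos ht, bit_rW z ht]
  · rw [St_put_neg hz _ _ (by omega) (by omega), St_put_neg hz _ _ (by omega) (by omega),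
      St_neg hz]
    simp

/-- a Hadamard gate on the control -/
theorem act_hadC (hM : n + 8 + 2 * B ≤ M) :
    (Gate.had (n + 2 + B)).act A (St n M x Φ) =
      St n M x fun f c R W => (Φ f false R W + (if c then -1 else 1) * Φ f true R W) /
        (Real.sqrt 2 : ℂ) := by
  funext z
  simp only [Gate.act]
  rw [if_pos (by omega)]
  by_cases hz : Fr n B x z
  · rw [St_put_pos hz _ _ (by omega) (by omega), St_put_pos hz _ _ (by omega) (by omega),
      St_pos hz, rF_ne _ _ _ (by omega) (by omega), rC_put _ _ hM,
      rR_ne _ _ _ (by omega) (by omega), rW_ne _ _ _ (by omega) (by omega),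
      rF_ne _ _ _ (by omega) (by omega), rC_put _ _ hM,
      rR_ne _ _ _ (by omega) (by omega), rW_ne _ _ _ (by omega) (by omega)]
    rfl
  · rw [St_put_neg hz _ _ (by omega) (by omega), St_put_neg hz _ _ (by omega) (by omega),
      St_neg hz]
    simp

/-- a controlled negation between the registers -/
theorem act_cnotW (hM : n + 8 + 2 * B ≤ M) (t : ℕ) (ht : t < B) :
    (Gate.cnot (n + 8 + B + t) (n + 1 + t)).act A (St n M x Φ) =
      St n M x fun f c R W => Φ f c R (put W t (xor (bit W t) (bit R t))) := by
  funext z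
  simp only [Gate.act]
  rw [if_neg (by omega)]
  by_cases hz : Fr n B x z
  · rw [St_put_pos hz _ _ (by omega) (by omega), St_pos hz, rF_ne _ _ _ (by omega) (by omega),
      rC_ne _ _ _ (by omega) (by omega), rR_ne _ _ _ (by omega) (by omega), rW_putW _ _ _ hM ht,
      bit_rW z ht, bit_rR z ht]
  · rw [St_put_neg hz _ _ (by omega) (by omega), St_neg hz]

end Registers

/-! ### The parts of the circuit -/

section Parts

variable {n a m M : ℕ} {x : List Bool} {A : Oracle}
  {Φ : Basis 5 → Bool → Basis (a + m) → Basis (a + m) → ℂ}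

/-- the question with the flag `i` as the target -/
def oF (T : Basis (a + m) → Bool) (i : ℕ) (Φ : Basis 5 → Bool → Basis (a + m) → Basis (a + m) → ℂ) :
    Basis 5 → Bool → Basis (a + m) → Basis (a + m) → ℂ := fun f c R W =>
  Φ (put f i (xor (bit f i) (T W))) c R W

/-- the first test -/
noncomputable def oA (S D : Basis (a + m) → Bool) (i j : ℕ)
    (Φ : Basis 5 → Bool → Basis (a + m) → Basis (a + m) → ℂ) :
    Basis 5 → Bool → Basis (a + m) → Basis (a + m) → ℂ := fun f c R =>
  hadZ (oF D j (fun f c R => hadZ (oF S i Φ f c R)) f c R)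

theorem run_cH (hM : n + 8 + 2 * (a + m) ≤ M) : run A (cH n a m) (St n M x Φ) =
    St n M x fun f c R => hadZ (Φ f c R) := by
  have key : ∀ k ≤ m, run A ((List.range k).map fun t => Gate.had (n + 1 + a + t)) (St n M x Φ) =
      St n M x fun f c R => run A ((List.range k).map fun t => Gate.had (a + t)) (Φ f c R) := by
    intro k
    induction k with
    | zero => intro _; rfl
    | succ k ih =>
      intro hk
      rw [List.range_succ, List.map_append, run_append', ih (by omega)]
      simp only [List.map_cons, List.map_nil, run]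
      rw [show n + 1 + a + k = n + 1 + (a + k) by omega, act_hadW hM _ (by omega)]
      congr 1
      funext f c R
      rw [List.map_append, run_append']
      rfl
  unfold cH
  rw [key m le_rfl]
  congr 1
  funext f c R
  exact run_hadZ A _

theorem run_cA {S D : Basis (a + m) → Bool} {pd : ℕ → ℕ} (hx : x.length = n)
    (hM : n + 8 + 2 * (a + m) ≤ M) (hS : ∀ c y, A (qs c y (pd 0)) = S y)
    (hD : ∀ c y, A (qs c y (pd 1)) = D y) {i j : ℕ} (hi : i < 5) (hj : j < 5) :
    run A (cA n a m pd (n + 3 + (a + m) + i) (n + 3 + (a + m) + j)) (St n M x Φ) =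
      St n M x (oA S D i j Φ) := by
  unfold cA
  simp only [run]
  rw [act_flag hx hM hS i hi, run_append', run_cH hM]
  simp only [run]
  rw [act_flag hx hM hD j hj, run_cH hM]
  rfl

/-- the differences -/
def dl (σ : Basis (a + m) → Basis (a + m)) (c : Bool) (W : Basis (a + m)) : Basis (a + m) :=
  fun t => c && xor (W t) (σ W t)

theorem run_cQ {σ : Basis (a + m) → Basis (a + m)} {pd : ℕ → ℕ} (hx : x.length = n)
    (hM : n + 8 + 2 * (a + m) ≤ M)
    (hσ : ∀ (t : Fin (a + m)) c y, A (qs c y (pd (2 + t))) = (c && xor (y t) (σ y t))) :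
    run A (cQ n (a + m) pd) (St n M x Φ) =
      St n M x fun f c R W => Φ f c (fun t => xor (R t) (dl σ c W t)) W := by
  have key : ∀ k ≤ a + m, run A ((List.range k).map fun t =>
      Gate.query (lq n (a + m) (n + 2 + (a + m)) (pd (2 + t))) (n + 8 + (a + m) + t))
      (St n M x Φ) = St n M x fun f c R W =>
        Φ f c (fun t => if t.1 < k then xor (R t) (dl σ c W t) else R t) W := by
    intro k
    induction k with
    | zero =>
      intro _
      simp only [List.range_zero, List.map_nil, run]
      congr 1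
    | succ k ih =>
      intro hk
      rw [List.range_succ, List.map_append, run_append', ih (by omega)]
      simp only [List.map_cons, List.map_nil, run]
      rw [act_reg (δ := fun c y => c && xor (y ⟨k, by omega⟩) (σ y ⟨k, by omega⟩)) hx hM
        (fun c y => hσ ⟨k, by omega⟩ c y) k (by omega)]
      congr 1
      funext f c R W
      congr 1
      funext t
      rw [put_apply]
      unfold dl
      by_cases h1 : t.1 < k
      · rw [if_pos h1, if_neg (by omega), if_pos (by omega)]
      · by_cases h2 : t.1 = k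
        · rw [if_neg h1, if_pos h2, if_pos (by omega)]
          have e : t = ⟨k, by omega⟩ := Fin.ext h2
          unfold bit
          rw [dif_pos (by omega), ← e]
        · rw [if_neg h1, if_neg h2, if_neg (by omega)]
  unfold cQ
  rw [key (a + m) le_rfl]
  congr 1
  funext f c R W
  congr 1
  funext t
  rw [if_pos t.2]

theorem run_cnots (hM : n + 8 + 2 * (a + m) ≤ M) :
    run A ((List.range (a + m)).map fun t => Gate.cnot (n + 8 + (a + m) + t) (n + 1 + t))
      (St n M x Φ) = St n M x fun f c R W => Φ f c R (fun t => xor (W t) (R t)) := by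
  have key : ∀ k ≤ a + m, run A ((List.range k).map fun t =>
      Gate.cnot (n + 8 + (a + m) + t) (n + 1 + t))
      (St n M x Φ) = St n M x fun f c R W =>
        Φ f c R (fun t => if t.1 < k then xor (W t) (R t) else W t) := by
    intro k
    induction k with
    | zero =>
      intro _
      simp only [List.range_zero, List.map_nil, run]
      congr 1
    | succ k ih =>
      intro hk
      rw [List.range_succ, List.map_append, run_append', ih (by omega)]
      simp only [List.map_cons, List.map_nil, run]
      rw [act_cnotW hM k (by omega)]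
      congr 1
      funext f c R W
      congr 1
      funext t
      rw [put_apply]
      by_cases h1 : t.1 < k
      · rw [if_pos h1, if_neg (by omega), if_pos (by omega)]
      · by_cases h2 : t.1 = k
        · rw [if_neg h1, if_pos h2, if_pos (by omega)]
          have e : t = ⟨k, by omega⟩ := Fin.ext h2
          unfold bit
          rw [dif_pos (by omega), dif_pos (by omega), ← e]
        · rw [if_neg h1, if_neg h2, if_neg (by omega)]
  rw [key (a + m) le_rfl]
  congr 1
  funext f c R W
  congr 1
  funext t
  rw [if_pos t.2]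

/-- a Hadamard gate on the control -/
noncomputable def oC (Φ : Basis 5 → Bool → Basis (a + m) → Basis (a + m) → ℂ) :
    Basis 5 → Bool → Basis (a + m) → Basis (a + m) → ℂ := fun f c R W =>
  (Φ f false R W + (if c then -1 else 1) * Φ f true R W) / (Real.sqrt 2 : ℂ)

/-- the middle part of the second test -/
def oM (σ : Basis (a + m) → Basis (a + m))
    (Φ : Basis 5 → Bool → Basis (a + m) → Basis (a + m) → ℂ) :
    Basis 5 → Bool → Basis (a + m) → Basis (a + m) → ℂ := fun f c R W =>
  Φ f c (fun t => xor (xor (R t) (dl σ c W t)) (dl σ c (fun t => xor (W t) (xor (R t)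
    (dl σ c W t))) t)) (fun t => xor (W t) (xor (R t) (dl σ c W t)))

/-- the second test -/
noncomputable def oB (S : Basis (a + m) → Bool) (σ : Basis (a + m) → Basis (a + m))
    (Φ : Basis 5 → Bool → Basis (a + m) → Basis (a + m) → ℂ) :
    Basis 5 → Bool → Basis (a + m) → Basis (a + m) → ℂ := oC (oM σ (oC (oF S 2 Φ)))

theorem run_cB {S : Basis (a + m) → Bool} {σ : Basis (a + m) → Basis (a + m)} {pd : ℕ → ℕ}
    (hx : x.length = n) (hM : n + 8 + 2 * (a + m) ≤ M) (hS : ∀ c y, A (qs c y (pd 0)) = S y)
    (hσ : ∀ (t : Fin (a + m)) c y, A (qs c y (pd (2 + t))) = (c && xor (y t) (σ y t))) :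
    run A (cB n (a + m) pd) (St n M x Φ) = St n M x (oB S σ Φ) := by
  unfold cB
  simp only [run]
  rw [show n + 5 + (a + m) = n + 3 + (a + m) + 2 by omega, act_flag hx hM hS 2 (by omega),
    act_hadC hM, run_append', run_cQ hx hM hσ, run_append', run_cnots hM, run_append',
    run_cQ hx hM hσ]
  simp only [run]
  rw [act_hadC hM]
  rfl

/-! ### The amplitudes with all flags one -/

/-- the amplitudes vanish if the flag `i` is one -/
def Van (i : ℕ) (Φ : Basis 5 → Bool → Basis (a + m) → Basis (a + m) → ℂ) : Prop :=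
  ∀ f c R W, bit f i = true → Φ f c R W = 0

/-- the amplitudes vanish unless the control and the second register are zero -/
def Sup (Φ : Basis 5 → Bool → Basis (a + m) → Basis (a + m) → ℂ) : Prop :=
  ∀ f c R W, ¬ (c = false ∧ R = fun _ => false) → Φ f c R W = 0

theorem hadZ_zero : hadZ (fun _ : Basis (a + m) => (0 : ℂ)) = fun _ => 0 := by
  funext x
  unfold hadZ hadT
  simp

theorem bit_put5 (f : Basis 5) (i k : ℕ) (b : Bool) (hi : i < 5) :
    bit (put f i b) k = if k = i then b else bit f k := bit_put f i k b hi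

theorem oF_van {T : Basis (a + m) → Bool} {i k : ℕ} (hi : i < 5) (hk : k ≠ i) (h : Van k Φ) :
    Van k (oF T i Φ) := by
  intro f c R W hf
  refine h _ _ _ _ ?_
  rw [bit_put5 _ _ _ _ hi, if_neg hk, hf]

theorem had_van {k : ℕ} (h : Van k Φ) : Van k fun f c R => hadZ (Φ f c R) := by
  intro f c R W hf
  have h1 : Φ f c R = fun _ => 0 := funext fun W => h f c R W hf
  simp only
  rw [h1, hadZ_zero]

theorem oA_van {S D : Basis (a + m) → Bool} {i j k : ℕ} (hi : i < 5) (hj : j < 5) (hki : k ≠ i)
    (hkj : k ≠ j) (h : Van k Φ) : Van k (oA S D i j Φ) :=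
  had_van (oF_van hj hkj (had_van (oF_van hi hki h)))

theorem oF_sup {T : Basis (a + m) → Bool} {i : ℕ} (h : Sup Φ) : Sup (oF T i Φ) :=
  fun _ _ _ _ hf => h _ _ _ _ hf

theorem had_sup (h : Sup Φ) : Sup fun f c R => hadZ (Φ f c R) := by
  intro f c R W hf
  have h1 : Φ f c R = fun _ => 0 := funext fun W => h f c R W hf
  simp only
  rw [h1, hadZ_zero]

theorem oA_sup {S D : Basis (a + m) → Bool} {i j : ℕ} (h : Sup Φ) : Sup (oA S D i j Φ) :=
  had_sup (oF_sup (had_sup (oF_sup h)))

theorem oC_van {k : ℕ} (h : Van k Φ) : Van k (oC Φ) := by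
  intro f c R W hf
  unfold oC
  rw [h f _ _ _ hf, h f _ _ _ hf]
  simp

theorem oM_van {σ : Basis (a + m) → Basis (a + m)} {k : ℕ} (h : Van k Φ) : Van k (oM σ Φ) :=
  fun f _ _ _ hf => h f _ _ _ hf

theorem oB_van {S : Basis (a + m) → Bool} {σ : Basis (a + m) → Basis (a + m)} {k : ℕ}
    (hk : k ≠ 2) (h : Van k Φ) : Van k (oB S σ Φ) :=
  oC_van (oM_van (oC_van (oF_van (by omega) hk h)))

/-- **The first test.** -/
theorem oA_slice {S D : Basis (a + m) → Bool} {i j : ℕ} (hi : i < 5) (hj : j < 5) (hij : i ≠ j)
    (h1 : Van i Φ) (h2 : Van j Φ) {f : Basis 5} (hfi : bit f i = true) (hfj : bit f j = true)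
    (c : Bool) (R : Basis (a + m)) :
    oA S D i j Φ f c R = kA S D (Φ (put (put f j false) i false) c R) := by
  unfold oA kA
  congr 1
  funext y
  unfold oF
  simp only
  rw [hfj]
  by_cases hD : D y = true
  · rw [hD, if_pos rfl]
    simp only [Bool.xor_self]
    congr 1
    funext x
    rw [bit_put5 _ _ _ _ hj, if_neg hij, hfi]
    by_cases hS : S x = true
    · rw [hS, if_pos rfl]
      simp
    · rw [if_neg hS]
      rw [Bool.not_eq_true] at hS
      rw [hS]
      refine h1 _ _ _ _ ?_
      rw [bit_put5 _ _ _ _ hi, if_pos rfl]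
      rfl
  · rw [if_neg hD]
    rw [Bool.not_eq_true] at hD
    rw [hD]
    have h3 : (fun W => Φ (put (put f j (xor true false)) i (xor (bit (put f j (xor true false)) i)
        (S W))) c R W) = fun _ => 0 := by
      funext W
      refine h2 _ _ _ _ ?_
      rw [bit_put5 _ _ _ _ hi, if_neg (Ne.symm hij), bit_put5 _ _ _ _ hj, if_pos rfl]
      rfl
    rw [h3, hadZ_zero]

theorem sqrt_two_sq : (Real.sqrt 2 : ℂ) * (Real.sqrt 2 : ℂ) = 2 := by
  rw [← Complex.ofReal_mul, Real.mul_self_sqrt (by norm_num)]
  norm_num

/-- **The second test.** -/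
theorem oB_slice {S : Basis (a + m) → Bool} {σ : Basis (a + m) → Basis (a + m)}
    (hσ : ∀ y, S y = true → S (σ y) = true ∧ σ (σ y) = y) (h1 : Van 2 Φ) (h2 : Sup Φ)
    {f : Basis 5} (hf : bit f 2 = true) (R W : Basis (a + m)) :
    oB S σ Φ f false R W = if R = fun _ => false then
      kB S σ (Φ (put f 2 false) false fun _ => false) W else 0 := by
  classical
  set Θ : Basis (a + m) → ℂ := Φ (put f 2 false) false fun _ => false with hΘ
  have e1 : ∀ c R W, oF S 2 Φ f c R W = if c = false ∧ R = (fun _ => false) then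
      (if S W then Θ W else 0) else 0 := by
    intro c R W
    unfold oF
    rw [hf]
    by_cases hc : c = false ∧ R = fun _ => false
    · rw [if_pos hc, hc.1, hc.2]
      by_cases hS : S W = true
      · rw [hS, if_pos rfl]
        rfl
      · rw [if_neg hS]
        rw [Bool.not_eq_true] at hS
        rw [hS]
        refine h1 _ _ _ _ ?_
        rw [bit_put5 _ _ _ _ (by omega), if_pos rfl]
        rfl
    · rw [if_neg hc]
      exact h2 _ _ _ _ hc
  have e2 : ∀ c R W, oC (oF S 2 Φ) f c R W = if R = (fun _ => false) then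
      (if S W then Θ W else 0) / (Real.sqrt 2 : ℂ) else 0 := by
    intro c R W
    unfold oC
    rw [e1, e1]
    have ht : ¬ (true = false ∧ R = fun _ => false) := by simp
    rw [if_neg ht]
    by_cases hR : R = fun _ => false
    · rw [if_pos ⟨rfl, hR⟩, if_pos hR]
      ring
    · rw [if_neg (fun h => hR h.2), if_neg hR]
      simp
  have e3 : ∀ R W, oM σ (oC (oF S 2 Φ)) f false R W = if R = (fun _ => false) then
      (if S W then Θ W else 0) / (Real.sqrt 2 : ℂ) else 0 := by
    intro R W
    unfold oM dl
    rw [e2]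
    simp only [Bool.false_and, Bool.xor_false]
    by_cases hR : R = fun _ => false
    · rw [if_pos hR, if_pos hR, hR]
      simp only [Bool.xor_false]
    · rw [if_neg hR, if_neg hR]
  have e4 : ∀ R W, oM σ (oC (oF S 2 Φ)) f true R W =
      if W = σ (fun t => xor (R t) (σ W t)) then
      (if S (fun t => xor (R t) (σ W t)) then Θ (fun t => xor (R t) (σ W t)) else 0) /
        (Real.sqrt 2 : ℂ) else 0 := by
    intro R W
    unfold oM dl
    rw [e2]
    have hV : (fun t => xor (W t) (xor (R t) (true && xor (W t) (σ W t)))) =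
        fun t => xor (R t) (σ W t) := by
      funext t
      cases W t <;> cases R t <;> cases σ W t <;> rfl
    rw [hV]
    simp only [Bool.true_and]
    refine if_congr ?_ rfl rfl
    rw [funext_iff, funext_iff]
    refine forall_congr' fun t => ?_
    cases W t <;> cases R t <;> cases σ W t <;> cases σ (fun t => xor (R t) (σ W t)) t <;> simp
  have hs : (Real.sqrt 2 : ℂ) ≠ 0 := by
    have : Real.sqrt 2 ≠ 0 := by positivity
    exact_mod_cast this
  unfold oB
  show oC (oM σ (oC (oF S 2 Φ))) f false R W = _
  unfold oC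
  have e3' := e3 R W
  have e4' := e4 R W
  unfold oC at e3' e4'
  rw [e3', e4']
  simp only [Bool.false_eq_true, if_false, one_mul]
  by_cases hR : R = fun _ => false
  · rw [if_pos hR, if_pos hR, hR]
    simp only [Bool.false_xor]
    unfold kB
    by_cases hS : S W = true
    · obtain ⟨h3, h4⟩ := hσ W hS
      rw [if_pos hS, if_pos hS, if_pos h4.symm, if_pos h3]
      rw [← add_div, div_div, sqrt_two_sq]
    · rw [if_neg hS, if_neg hS]
      split_ifs with h5 h6
      · exfalso
        have h7 := (hσ (σ W) h6).1
        rw [← h5] at h7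
        exact hS h7
      · simp
      · simp
  · rw [if_neg hR, if_neg hR]
    split_ifs with h5 h6
    · exfalso
      have h7 := (hσ _ h6).2
      rw [← h5] at h7
      apply hR
      funext t
      have h8 := congrFun h7 t
      cases hRt : R t
      · rfl
      · rw [hRt] at h8
        cases hst : σ W t <;> rw [hst] at h8 <;> simp at h8
    · simp
    · simp

/-! ### The whole circuit -/

/-- the initial amplitudes -/
noncomputable def ini (φ : Basis (a + m) → ℂ) :
    Basis 5 → Bool → Basis (a + m) → Basis (a + m) → ℂ := fun f c R W =>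
  open scoped Classical in
  if (f = fun _ => false) ∧ c = false ∧ R = (fun _ => false) then φ W else 0

theorem ini_van (φ : Basis (a + m) → ℂ) {k : ℕ} (hk : k < 5) : Van k (ini φ) := by
  intro f c R W hf
  unfold ini
  rw [if_neg]
  rintro ⟨h1, _⟩
  rw [h1] at hf
  unfold bit at hf
  rw [dif_pos hk] at hf
  exact absurd hf (by simp)

theorem ini_sup (φ : Basis (a + m) → ℂ) : Sup (ini φ) := by
  intro f c R W hf
  unfold ini
  rw [if_neg]
  rintro ⟨_, h2⟩
  exact hf h2

theorem start_eq (hx : x.length = n) (hM : n + 8 + 2 * (a + m) ≤ M) (φ : Basis (a + m) → ℂ) :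
    start M (a + m) x φ = St n M x (ini φ) := by
  subst hx
  funext z
  have key : (∀ i, (i < x.length + 1 ∨ x.length + 1 + (a + m) ≤ i) → bit z i = x.getD i false) ↔
      Fr x.length (a + m) x z ∧ (rF x.length (a + m) z = fun _ => false) ∧
        rC x.length (a + m) z = false ∧ (rR x.length (a + m) z = fun _ => false) := by
    constructor
    · intro h
      have hz : ∀ i, x.length + 1 + (a + m) ≤ i → bit z i = false := fun i hi => by
        rw [h i (Or.inr hi), List.getD_eq_default _ _ (by omega)]
      refine ⟨fun i hi => h i (by omega), funext fun t => hz _ (by omega), hz _ (by omega),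
        funext fun t => hz _ (by omega)⟩
    · rintro ⟨h1, h2, h3, h4⟩ i hi
      by_cases hc : i < x.length + 1 ∨ i = x.length + 1 + (a + m) ∨ x.length + 8 + 2 * (a + m) ≤ i
      · exact h1 i hc
      · rw [List.getD_eq_default _ _ (by omega)]
        by_cases h5 : i = x.length + 2 + (a + m)
        · rw [h5]
          exact h3
        · by_cases h6 : i < x.length + 8 + (a + m)
          · have h7 := congrFun h2 ⟨i - (x.length + 3 + (a + m)), by omega⟩
            unfold rF at h7
            simp only at h7
            rw [← h7]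
            congr 1
            omega
          · have h7 := congrFun h4 ⟨i - (x.length + 8 + (a + m)), by omega⟩
            unfold rR at h7
            simp only at h7
            rw [← h7]
            congr 1
            omega
  unfold start
  by_cases hc : ∀ i, (i < x.length + 1 ∨ x.length + 1 + (a + m) ≤ i) → bit z i = x.getD i false
  · obtain ⟨h1, h2⟩ := key.1 hc
    rw [if_pos hc, St_pos h1]
    unfold ini
    rw [if_pos h2]
    rfl
  · rw [if_neg hc]
    by_cases hz : Fr x.length (a + m) x z
    · rw [St_pos hz]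
      unfold ini
      rw [if_neg fun h => hc (key.2 ⟨hz, h⟩)]
    · rw [St_neg hz]

/-- all flags are one -/
def one5 : Basis 5 := fun _ => true

/-- the final amplitudes -/
noncomputable def fnl (S D : Basis (a + m) → Bool) (σ : Basis (a + m) → Basis (a + m))
    (φ : Basis (a + m) → ℂ) : Basis 5 → Bool → Basis (a + m) → Basis (a + m) → ℂ :=
  oA S D 3 4 (oB S σ (oA S D 0 1 (ini φ)))

theorem fnl_one {S D : Basis (a + m) → Bool} {σ : Basis (a + m) → Basis (a + m)}
    (hσ : ∀ y, S y = true → S (σ y) = true ∧ σ (σ y) = y) (φ : Basis (a + m) → ℂ)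
    (R W : Basis (a + m)) :
    fnl S D σ φ one5 false R W = if R = fun _ => false then kV S D σ φ W else 0 := by
  have b5 : ∀ (f : Basis 5) (i k : ℕ) (b : Bool), i < 5 →
      bit (put f i b) k = if k = i then b else bit f k := fun f i k b hi => bit_put5 f i k b hi
  have hone : ∀ k, k < 5 → bit one5 k = true := fun k hk => by
    unfold bit one5
    rw [dif_pos hk]
  unfold fnl
  rw [oA_slice (by omega) (by omega) (by omega)
    (oB_van (by omega) (oA_van (by omega) (by omega) (by omega) (by omega)
      (ini_van φ (by omega))))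
    (oB_van (by omega) (oA_van (by omega) (by omega) (by omega) (by omega)
      (ini_van φ (by omega)))) (hone 3 (by omega)) (hone 4 (by omega))]
  set f := put (put one5 4 false) 3 false with hf
  have hf2 : bit f 2 = true := by
    rw [hf, b5 _ _ _ _ (by omega), if_neg (by omega), b5 _ _ _ _ (by omega), if_neg (by omega),
      hone 2 (by omega)]
  have h1 : oB S σ (oA S D 0 1 (ini φ)) f false R = if R = (fun _ => false) then
      kB S σ (oA S D 0 1 (ini φ) (put f 2 false) false fun _ => false) else fun _ => 0 := by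
    funext W
    rw [oB_slice hσ (oA_van (by omega) (by omega) (by omega) (by omega) (ini_van φ (by omega)))
      (oA_sup (ini_sup φ)) hf2]
    split_ifs <;> rfl
  rw [h1]
  have hf0 : bit (put f 2 false) 0 = true := by
    rw [b5 _ _ _ _ (by omega), if_neg (by omega), hf, b5 _ _ _ _ (by omega), if_neg (by omega),
      b5 _ _ _ _ (by omega), if_neg (by omega), hone 0 (by omega)]
  have hf1 : bit (put f 2 false) 1 = true := by
    rw [b5 _ _ _ _ (by omega), if_neg (by omega), hf, b5 _ _ _ _ (by omega), if_neg (by omega),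
      b5 _ _ _ _ (by omega), if_neg (by omega), hone 1 (by omega)]
  rw [oA_slice (by omega) (by omega) (by omega) (ini_van φ (by omega)) (ini_van φ (by omega))
    hf0 hf1]
  have h2 : ini φ (put (put (put f 2 false) 1 false) 0 false) false (fun _ => false) = φ := by
    funext W
    unfold ini
    rw [if_pos]
    refine ⟨?_, rfl, rfl⟩
    funext i
    rw [hf]
    simp only [put_apply]
    have := i.2
    split_ifs <;> first | rfl | omega
  rw [h2]
  split_ifs
  · rfl
  · unfold kA
    have h3 : (fun y : Basis (a + m) => if D y = true then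
        hadZ (fun x => if S x = true then (0 : ℂ) else 0) y else 0) = fun _ => 0 := by
      funext y
      simp only [ite_self, hadZ_zero]
    rw [h3, hadZ_zero]

/-- the accepting basis states -/
def emb (n M : ℕ) (x : List Bool) (W : Basis (a + m)) : Basis M := fun i =>
  if i.1 < n then x.getD i.1 false
  else if i.1 = n then true
  else if h : i.1 - (n + 1) < a + m then W ⟨i.1 - (n + 1), h⟩
  else if i.1 < n + 3 + (a + m) then false
  else decide (i.1 < n + 8 + (a + m))

theorem bit_emb (_hx : x.length = n) (W : Basis (a + m)) (i : ℕ)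
    (hM : n + 8 + 2 * (a + m) ≤ M) : bit (emb n M x W) i =
      if i < n then x.getD i false
      else if i = n then true
      else if h : i - (n + 1) < a + m then W ⟨i - (n + 1), h⟩
      else if i < n + 3 + (a + m) then false
      else decide (i < n + 8 + (a + m)) := by
  by_cases h : i < M
  · conv_lhs => unfold bit
    rw [dif_pos h]
    rfl
  · conv_lhs => unfold bit
    rw [dif_neg h, if_neg (by omega), if_neg (by omega), dif_neg (by omega), if_neg (by omega)]
    symm
    rw [decide_eq_false_iff_not]
    omega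

theorem rW_emb (hx : x.length = n) (hM : n + 8 + 2 * (a + m) ≤ M) (W : Basis (a + m)) :
    rW n (a + m) (emb n M x W) = W := by
  funext t
  have := t.2
  unfold rW
  rw [bit_emb hx _ _ hM, if_neg (by omega), if_neg (by omega), dif_pos (by omega)]
  congr 1
  apply Fin.ext
  simp only
  omega

theorem emb_inj (hx : x.length = n) (hM : n + 8 + 2 * (a + m) ≤ M) {W W' : Basis (a + m)}
    (h : emb n M x W = emb n M x W') : W = W' := by
  rw [← rW_emb hx hM W, h, rW_emb hx hM W']

/-- the last gate -/
def lastG (n B : ℕ) : Gate := Gate.query [n + 1 + B, n + 3 + B, n + 4 + B, n + 5 + B,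
  n + 6 + B, n + 7 + B, n + 2 + B] n

theorem map_last (z : Basis M) : [n + 1 + (a + m), n + 3 + (a + m), n + 4 + (a + m),
    n + 5 + (a + m), n + 6 + (a + m), n + 7 + (a + m), n + 2 + (a + m)].map (bit z) =
    [bit z (n + 1 + (a + m)), bit z (n + 3 + (a + m)), bit z (n + 4 + (a + m)),
      bit z (n + 5 + (a + m)), bit z (n + 6 + (a + m)), bit z (n + 7 + (a + m)),
      bit z (n + 2 + (a + m))] := rfl

theorem act_last (Ψ : Basis M → ℂ) (z : Basis M) : (lastG n (a + m)).act A Ψ z =
    Ψ (put z n (xor (bit z n) (A [bit z (n + 1 + (a + m)), bit z (n + 3 + (a + m)),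
      bit z (n + 4 + (a + m)), bit z (n + 5 + (a + m)), bit z (n + 6 + (a + m)),
      bit z (n + 7 + (a + m)), bit z (n + 2 + (a + m))]))) := by
  unfold lastG
  simp only [Gate.act]
  rw [if_neg, map_last]
  simp only [List.mem_cons, List.not_mem_nil, or_false, not_or]
  omega

/-- **The acceptance probability.** -/
theorem acc_last {S D : Basis (a + m) → Bool} {σ : Basis (a + m) → Basis (a + m)}
    (hx : x.length = n) (hM : n + 8 + 2 * (a + m) ≤ M)
    (hA : ∀ f₁ f₂ f₃ f₄ f₅ c : Bool, A [false, f₁, f₂, f₃, f₄, f₅, c] =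
      (f₁ && f₂ && f₃ && f₄ && f₅ && !c))
    (hσ : ∀ y, S y = true → S (σ y) = true ∧ σ (σ y) = y) (φ : Basis (a + m) → ℂ) :
    (∑ z, if bit z n then ‖(lastG n (a + m)).act A (St n M x (fnl S D σ φ)) z‖ ^ 2 else 0) =
      ∑ y, ‖kV S D σ φ y‖ ^ 2 := by
  symm
  have hval : ∀ z : Basis M, bit z n = true →
      (lastG n (a + m)).act A (St n M x (fnl S D σ φ)) z ≠ 0 →
      ∃ W : Basis (a + m), z = emb n M x W := by
    intro z hz hne
    rw [act_last, hz] at hne
    set b := xor true (A [bit z (n + 1 + (a + m)), bit z (n + 3 + (a + m)),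
      bit z (n + 4 + (a + m)), bit z (n + 5 + (a + m)), bit z (n + 6 + (a + m)),
      bit z (n + 7 + (a + m)), bit z (n + 2 + (a + m))]) with hb
    have hFr : Fr n (a + m) x (put z n b) := by
      by_contra hcon
      exact hne (St_neg hcon)
    have hbn : b = false := by
      have h1 := hFr n (by omega)
      rw [bit_put _ _ _ _ (by omega), if_pos rfl, List.getD_eq_default _ _ (by omega)] at h1
      exact h1
    have hfr : ∀ i, i ≠ n → (i < n + 1 ∨ i = n + 1 + (a + m) ∨ n + 8 + 2 * (a + m) ≤ i) →
        bit z i = x.getD i false := by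
      intro i hi h
      have h1 := hFr i h
      rw [bit_put _ _ _ _ (by omega), if_neg hi] at h1
      exact h1
    have hZ : bit z (n + 1 + (a + m)) = false := by
      rw [hfr _ (by omega) (by omega), List.getD_eq_default _ _ (by omega)]
    rw [hZ, hA] at hb
    rw [hbn] at hb
    have hall : bit z (n + 3 + (a + m)) = true ∧ bit z (n + 4 + (a + m)) = true ∧
        bit z (n + 5 + (a + m)) = true ∧ bit z (n + 6 + (a + m)) = true ∧
        bit z (n + 7 + (a + m)) = true ∧ bit z (n + 2 + (a + m)) = false := by
      revert hb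
      cases bit z (n + 3 + (a + m)) <;> cases bit z (n + 4 + (a + m)) <;>
        cases bit z (n + 5 + (a + m)) <;> cases bit z (n + 6 + (a + m)) <;>
        cases bit z (n + 7 + (a + m)) <;> cases bit z (n + 2 + (a + m)) <;> simp
    obtain ⟨h3, h4, h5, h6, h7, h2⟩ := hall
    rw [St_pos hFr, rF_ne _ _ _ (by omega) (by omega), rC_ne _ _ _ (by omega) (by omega),
      rR_ne _ _ _ (by omega) (by omega), rW_ne _ _ _ (by omega) (by omega)] at hne
    have hF : rF n (a + m) z = one5 := by
      funext t
      unfold rF one5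
      obtain ⟨t, ht⟩ := t
      interval_cases t
      · exact h3
      · exact (show n + 3 + (a + m) + 1 = n + 4 + (a + m) by omega) ▸ h4
      · exact (show n + 3 + (a + m) + 2 = n + 5 + (a + m) by omega) ▸ h5
      · exact (show n + 3 + (a + m) + 3 = n + 6 + (a + m) by omega) ▸ h6
      · exact (show n + 3 + (a + m) + 4 = n + 7 + (a + m) by omega) ▸ h7
    have hC : rC n (a + m) z = false := h2
    rw [hF, hC, fnl_one hσ] at hne
    have hR : rR n (a + m) z = fun _ => false := by
      by_contra hcon
      rw [if_neg hcon] at hne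
      exact hne rfl
    refine ⟨rW n (a + m) z, ?_⟩
    funext i
    have hi := i.2
    have hzi : z i = bit z i.1 := by
      unfold bit
      rw [dif_pos hi]
    unfold emb
    split_ifs with c1 c2 c3 c4
    · rw [hzi]
      exact hfr _ (by omega) (by omega)
    · rw [hzi, c2, hz]
    · rw [hzi]
      unfold rW
      congr 1
      simp only
      omega
    · rw [hzi]
      by_cases c5 : i.1 = n + 1 + (a + m)
      · rw [c5, hZ]
      · have c6 : i.1 = n + 2 + (a + m) := by omega
        rw [c6, h2]
    · rw [hzi]
      by_cases c5 : i.1 < n + 8 + (a + m)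
      · rw [decide_eq_true c5]
        have c6 := congrFun hF ⟨i.1 - (n + 3 + (a + m)), by omega⟩
        unfold rF one5 at c6
        simp only at c6
        rw [← c6]
        congr 1
        omega
      · rw [decide_eq_false c5]
        by_cases c7 : i.1 < n + 8 + 2 * (a + m)
        · have c6 := congrFun hR ⟨i.1 - (n + 8 + (a + m)), by omega⟩
          unfold rR at c6
          simp only at c6
          rw [← c6]
          congr 1
          omega
        · rw [hfr _ (by omega) (by omega), List.getD_eq_default _ _ (by omega)]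
  refine sum_of_injOn (emb n M x) (fun W _ W' _ h => emb_inj hx hM h) (fun _ _ => mem_univ _)
    ?_ ?_
  · intro z _ hz
    split_ifs with h
    · have h0 : (lastG n (a + m)).act A (St n M x (fnl S D σ φ)) z = 0 := by
        by_contra hne
        obtain ⟨W, hW⟩ := hval z h hne
        exact hz ⟨W, by simp, hW.symm⟩
      rw [h0, norm_zero, zero_pow two_ne_zero]
    · rfl
  · intro W _
    have hb : ∀ i, bit (emb n M x W) i = _ := fun i => bit_emb hx W i hM
    have hn : bit (emb n M x W) n = true := by
      rw [hb, if_neg (by omega), if_pos rfl]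
    rw [if_pos hn]
    have h1 : bit (emb n M x W) (n + 1 + (a + m)) = false := by
      rw [hb, if_neg (by omega), if_neg (by omega), dif_neg (by omega), if_pos (by omega)]
    have h2 : bit (emb n M x W) (n + 2 + (a + m)) = false := by
      rw [hb, if_neg (by omega), if_neg (by omega), dif_neg (by omega), if_pos (by omega)]
    have h3 : ∀ t, t < 5 → bit (emb n M x W) (n + 3 + (a + m) + t) = true := by
      intro t ht
      rw [hb, if_neg (by omega), if_neg (by omega), dif_neg (by omega), if_neg (by omega),
        decide_eq_true (by omega)]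
    have hF : rF n (a + m) (emb n M x W) = one5 := funext fun t => h3 t.1 t.2
    have hR : rR n (a + m) (emb n M x W) = fun _ => false := by
      funext t
      have := t.2
      unfold rR
      rw [hb, if_neg (by omega), if_neg (by omega), dif_neg (by omega), if_neg (by omega),
        decide_eq_false (by omega)]
    rw [act_last, hn, h1, h2, show n + 4 + (a + m) = n + 3 + (a + m) + 1 by omega,
      show n + 5 + (a + m) = n + 3 + (a + m) + 2 by omega,
      show n + 6 + (a + m) = n + 3 + (a + m) + 3 by omega,
      show n + 7 + (a + m) = n + 3 + (a + m) + 4 by omega, h3 1 (by omega), h3 2 (by omega),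
      h3 3 (by omega), h3 4 (by omega),
      show n + 3 + (a + m) = n + 3 + (a + m) + 0 by omega, h3 0 (by omega), hA]
    have hFr : Fr n (a + m) x (put (emb n M x W) n false) := by
      intro i hi
      rw [bit_put _ _ _ _ (by omega)]
      split_ifs with c1
      · rw [c1, List.getD_eq_default _ _ (by omega)]
      · rw [hb]
        by_cases c2 : i < n
        · rw [if_pos c2]
        · rw [if_neg c2, if_neg c1, dif_neg (by omega), List.getD_eq_default _ _ (by omega)]
          split_ifs
          · rfl
          · exact decide_eq_false (by omega)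
    simp only [Bool.and_self, Bool.not_false, Bool.and_true, Bool.xor_self]
    rw [St_pos hFr, rF_ne _ _ _ (by omega) (by omega), rC_ne _ _ _ (by omega) (by omega),
      rR_ne _ _ _ (by omega) (by omega), rW_ne _ _ _ (by omega) (by omega), hF, hR,
      rW_emb hx hM]
    have hC : rC n (a + m) (emb n M x W) = false := h2
    rw [hC, fnl_one hσ, if_pos rfl]

end Parts

/-- **Piece CIRC.** -/
theorem p_circ : P_circ := by
  intro n a m M pd A S D σ x φ hx hM hS hD hT hA hσ
  unfold accS
  rw [start_eq hx hM]
  have hrun : run A (cV n a m pd) (St n M x (ini φ)) =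
      (lastG n (a + m)).act A (St n M x (fnl S D σ φ)) := by
    have e1 := run_cA (Φ := ini φ) (i := 0) (j := 1) hx hM hS hD (by omega) (by omega)
    rw [Nat.add_zero, show n + 3 + (a + m) + 1 = n + 4 + (a + m) by omega] at e1
    have e2 := run_cA (Φ := oB S σ (oA S D 0 1 (ini φ))) (i := 3) (j := 4) hx hM hS hD (by omega)
      (by omega)
    rw [show n + 3 + (a + m) + 3 = n + 6 + (a + m) by omega,
      show n + 3 + (a + m) + 4 = n + 7 + (a + m) by omega] at e2
    unfold cV
    rw [run_append', e1, run_append', run_cB hx hM hS hT, run_append', e2]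
    rfl
  rw [hrun]
  exact acc_last hx hM hA hσ φ

end Pool.Agent.K7x.QC
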