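import Pool.Agent.K7x.QC.Stm

/-!
# Piece CLOSE
-/

set_option autoImplicit false

namespace Pool.Agent.K7x.QC

open Finset

section Graph

variable {V I : Type} [Fintype V] [DecidableEq V] [Fintype I] [DecidableEq I]

theorem inner_mono {nb : I → V → V} {F F' : Finset V} (h : F ⊆ F') :
    inner nb F ≤ inner nb F' := by
  unfold inner
  refine card_le_card fun p hp => ?_
  rw [mem_filter, mem_product] at hp ⊢
  exact ⟨⟨h hp.1.1, hp.1.2⟩, h hp.2⟩

theorem bud_card {nb : I → V → V} {r j : ℕ} {F : Finset V} (hg : Good r nb) (hb : Bud nb F j)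
    (hF : #F < 2 ^ r) : #F ≤ 3 * j := by
  have h1 := hg.sparse F hF
  unfold Bud at hb
  omega

theorem bud_insert {nb : I → V → V} {r j : ℕ} {F : Finset V} (hg : Good r nb)
    (hb : Bud nb F j) {v : V} (hv : v ∉ F) (h3 : 3 ≤ #{i | nb i v ∈ F}) :
    Bud nb (insert v F) j := by
  classical
  unfold Bud at hb ⊢
  rw [card_insert_of_notMem hv]
  set J : Finset I := {i | nb i v ∈ F} with hJ
  have h1 : inner nb F + #J + #J ≤ inner nb (insert v F) := by
    unfold inner
    set A : Finset (V × I) := {p ∈ F ×ˢ (univ : Finset I) | nb p.2 p.1 ∈ F} with hA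
    set B : Finset (V × I) := J.image fun i => (v, i) with hB
    set C : Finset (V × I) := J.image fun i => (nb i v, i) with hC
    have hBc : #B = #J := card_image_of_injective _ fun i i' h => (Prod.mk.inj h).2
    have hCc : #C = #J := card_image_of_injective _ fun i i' h => (Prod.mk.inj h).2
    have hAB : Disjoint A B := by
      rw [disjoint_left]
      intro p hp hp'
      rw [hA, mem_filter, mem_product] at hp
      rw [hB, mem_image] at hp'
      obtain ⟨i, _, rfl⟩ := hp'
      exact hv hp.1.1
    have hABC : Disjoint (A ∪ B) C := by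
      rw [disjoint_left]
      intro p hp hp'
      rw [hC, mem_image] at hp'
      obtain ⟨i, hi, rfl⟩ := hp'
      rw [hJ, mem_filter] at hi
      rw [mem_union] at hp
      rcases hp with hp | hp
      · rw [hA, mem_filter] at hp
        have := hp.2
        simp only [hg.invol] at this
        exact hv this
      · rw [hB, mem_image] at hp
        obtain ⟨i', _, he⟩ := hp
        have h2 := (Prod.mk.inj he).1
        rw [h2] at hv
        exact hv hi.2
    have h2 : #(A ∪ B ∪ C) = #A + #J + #J := by
      rw [card_union_of_disjoint hABC, card_union_of_disjoint hAB, hBc, hCc]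
    rw [← h2]
    refine card_le_card fun p hp => ?_
    rw [mem_filter, mem_product]
    rw [mem_union, mem_union] at hp
    rcases hp with (hp | hp) | hp
    · rw [hA, mem_filter, mem_product] at hp
      exact ⟨⟨mem_insert_of_mem hp.1.1, mem_univ _⟩, mem_insert_of_mem hp.2⟩
    · rw [hB, mem_image] at hp
      obtain ⟨i, hi, rfl⟩ := hp
      rw [hJ, mem_filter] at hi
      exact ⟨⟨mem_insert_self _ _, mem_univ _⟩, mem_insert_of_mem hi.2⟩
    · rw [hC, mem_image] at hp
      obtain ⟨i, hi, rfl⟩ := hp
      rw [hJ, mem_filter] at hi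
      refine ⟨⟨mem_insert_of_mem hi.2, mem_univ _⟩, ?_⟩
      simp only [hg.invol]
      exact mem_insert_self _ _
  omega

end Graph

theorem p_close : P_close := by
  classical
  intro V I _ _ _ _ nb r j F hg hb hF hj
  set S : Finset (Finset V) := (univ : Finset (Finset V)).filter fun F' =>
    F ⊆ F' ∧ Bud nb F' j ∧ #F' < 2 ^ r with hS
  have hne : S.Nonempty := ⟨F, by rw [hS, mem_filter]; exact ⟨mem_univ _, Subset.refl _, hb, hF⟩⟩
  obtain ⟨F', hF', hmax⟩ := S.exists_max_image card hne
  rw [hS, mem_filter] at hF'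
  obtain ⟨_, h1, h2, h3⟩ := hF'
  have hc := bud_card hg h2 h3
  refine ⟨F', h1, fun v hv => ?_, h2, hc⟩
  by_contra hcon
  rw [not_le] at hcon
  have h4 := bud_insert hg h2 hv hcon
  have h5 : #(insert v F') = #F' + 1 := card_insert_of_notMem hv
  have h6 := hmax (insert v F') (by
    rw [hS, mem_filter]
    exact ⟨mem_univ _, h1.trans (subset_insert _ _), h4, by omega⟩)
  omega

end Pool.Agent.K7x.QC
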