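import Pool.Agent.K7x.QC.Close

/-!
# Piece CORE
-/

set_option autoImplicit false
set_option linter.unusedSectionVars false

namespace Pool.Agent.K7x.QC

open Finset

/-- averaging over classes -/
theorem avg {α β : Type} [DecidableEq α] [DecidableEq β] (g : α → β) (L E : Finset α) (a b : ℕ)
    (hE : E ⊆ L) (hL : L.Nonempty)
    (h : ∀ x ∈ L, a * #{y ∈ E | g y = g x} < b * #{y ∈ L | g y = g x}) :
    a * #E < b * #L := by
  have e1 : #L = ∑ c ∈ L.image g, #{y ∈ L | g y = c} :=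
    card_eq_sum_card_image g L
  have e2 : #E = ∑ c ∈ L.image g, #{y ∈ E | g y = c} := by
    refine card_eq_sum_card_fiberwise fun x hx => ?_
    exact mem_coe.2 (mem_image_of_mem g (hE (mem_coe.1 hx)))
  rw [e1, e2, mul_sum, mul_sum]
  refine sum_lt_sum_of_nonempty (hL.image g) fun c hc => ?_
  obtain ⟨x, hx, rfl⟩ := mem_image.1 hc
  exact h x hx

section Core

variable {V : Type} [Fintype V] [DecidableEq V] {h m : ℕ}

/-- everything that is visible near `F` -/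
def view (nb : Ix h → V → V) (F : Finset V) (Ω : Dat V h m) :
    (V → Par h m) × (V → Ix h → Fin m → ZMod 2) :=
  (fun v => if v ∈ F then Ω v else 0, fun v i => if nb i v ∈ F then ev (Ω v) i else 0)

theorem agr_iff {nb : Ix h → V → V} {F : Finset V} {Ω Ω' : Dat V h m} :
    Agr nb F Ω Ω' ↔ view nb F Ω = view nb F Ω' := by
  unfold Agr view
  rw [Prod.mk.injEq]
  refine and_congr ⟨fun h => ?_, fun h v hv => ?_⟩ ⟨fun h => ?_, fun h v i hv => ?_⟩
  · funext v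
    split_ifs with hv
    · exact h v hv
    · rfl
  · have := congrFun h v
    simpa [hv] using this
  · funext v i
    split_ifs with hv
    · exact h v i hv
    · rfl
  · have := congrFun (congrFun h v) i
    simpa [hv] using this

theorem Agr.mono {nb : Ix h → V → V} {F F' : Finset V} (hF : F ⊆ F') {Ω Ω' : Dat V h m}
    (H : Agr nb F' Ω Ω') : Agr nb F Ω Ω' :=
  ⟨fun v hv => H.1 v (hF hv), fun v i hv => H.2 v i (hF hv)⟩

theorem live_congr {nb : Ix h → V → V} {F : Finset V} {Ω Ω' : Dat V h m}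
    {l : Bool × V × (Fin m → ZMod 2)} (e : Ω l.2.1 = Ω' l.2.1) :
    Live nb F Ω l ↔ Live nb F Ω' l := by
  unfold Live
  rw [e]

open scoped Classical in
/-- the class of `Ω₀` -/
noncomputable def cls (nb : Ix h → V → V) (F : Finset V) (Ω₀ : Dat V h m) : Finset (Dat V h m) :=
  {Ω | (∀ v, Inj (Ω v)) ∧ Agr nb F Ω Ω₀}

open scoped Classical in
/-- the possible columns -/
noncomputable def colm (nb : Ix h → V → V) (F : Finset V) (Ω₀ : Dat V h m) (u : V) :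
    Finset (Par h m) :=
  {p | Inj p ∧ (u ∈ F → p = Ω₀ u) ∧ ∀ i, nb i u ∈ F → ev p i = ev (Ω₀ u) i}

open scoped Classical in
theorem mem_cls {nb : Ix h → V → V} {F : Finset V} {Ω₀ Ω : Dat V h m} :
    Ω ∈ cls nb F Ω₀ ↔ (∀ v, Inj (Ω v)) ∧ Agr nb F Ω Ω₀ := by
  unfold cls
  rw [mem_filter, and_iff_right (mem_univ _)]

open scoped Classical in
theorem mem_colm {nb : Ix h → V → V} {F : Finset V} {Ω₀ : Dat V h m} {u : V} {p : Par h m} :
    p ∈ colm nb F Ω₀ u ↔ Inj p ∧ (u ∈ F → p = Ω₀ u) ∧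
      ∀ i, nb i u ∈ F → ev p i = ev (Ω₀ u) i := by
  unfold colm
  rw [mem_filter, and_iff_right (mem_univ _)]

theorem cls_eq (nb : Ix h → V → V) (F : Finset V) (Ω₀ : Dat V h m) :
    cls nb F Ω₀ = Fintype.piFinset (colm nb F Ω₀) := by
  ext Ω
  rw [mem_cls, Fintype.mem_piFinset]
  constructor
  · rintro ⟨h1, h2, h3⟩ u
    exact mem_colm.2 ⟨h1 u, h2 u, h3 u⟩
  · intro H
    exact ⟨fun v => (mem_colm.1 (H v)).1, fun v => (mem_colm.1 (H v)).2.1,
      fun v => (mem_colm.1 (H v)).2.2⟩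

theorem card_live {nb : Ix h → V → V} {F : Finset V} {Ω₀ : Dat V h m} {v : V} {q : Par h m → Prop}
    [DecidablePred q] {q' : Dat V h m → Prop} [DecidablePred q'] (hqq : ∀ Ω, q' Ω ↔ q (Ω v))
    {a b : ℕ} (hq : #{p ∈ colm nb F Ω₀ v | q p} * a ≤ b * #(colm nb F Ω₀ v)) :
    #{Ω ∈ cls nb F Ω₀ | q' Ω} * a ≤ b * #(cls nb F Ω₀) := by
  have e1 : {Ω ∈ cls nb F Ω₀ | q' Ω} = Fintype.piFinset
      (Function.update (colm nb F Ω₀) v {p ∈ colm nb F Ω₀ v | q p}) := by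
    ext Ω
    rw [cls_eq, mem_filter, Fintype.mem_piFinset, Fintype.mem_piFinset, hqq]
    constructor
    · rintro ⟨h1, h2⟩ u
      by_cases hu : u = v
      · subst hu
        rw [Function.update_self, mem_filter]
        exact ⟨h1 u, h2⟩
      · rw [Function.update_of_ne hu]
        exact h1 u
    · intro H
      refine ⟨fun u => ?_, ?_⟩
      · by_cases hu : u = v
        · subst hu
          have := H u
          rw [Function.update_self, mem_filter] at this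
          exact this.1
        · have := H u
          rwa [Function.update_of_ne hu] at this
      · have := H v
        rw [Function.update_self, mem_filter] at this
        exact this.2
  rw [e1, cls_eq, Fintype.card_piFinset, Fintype.card_piFinset]
  have e2 : ∏ u, #(Function.update (colm nb F Ω₀) v {p ∈ colm nb F Ω₀ v | q p} u) =
      #{p ∈ colm nb F Ω₀ v | q p} * ∏ u ∈ univ.erase v, #(colm nb F Ω₀ u) := by
    rw [← mul_prod_erase univ _ (mem_univ v), Function.update_self]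
    congr 1
    refine prod_congr rfl fun u hu => ?_
    rw [Function.update_of_ne (ne_of_mem_erase hu)]
  rw [e2, ← mul_prod_erase univ (fun u => #(colm nb F Ω₀ u)) (mem_univ v)]
  calc #{p ∈ colm nb F Ω₀ v | q p} * (∏ u ∈ univ.erase v, #(colm nb F Ω₀ u)) * a
      = (#{p ∈ colm nb F Ω₀ v | q p} * a) * ∏ u ∈ univ.erase v, #(colm nb F Ω₀ u) := by ring
    _ ≤ (b * #(colm nb F Ω₀ v)) * ∏ u ∈ univ.erase v, #(colm nb F Ω₀ u) :=
        Nat.mul_le_mul_right _ hq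
    _ = _ := by ring

open scoped Classical in
/-- a class whose density is large -/
structure Rch (nb : Ix h → V → V) (r ℓ : ℕ) (E : Finset (Dat V h m)) (j : ℕ) (F : Finset V)
    (Ω₀ : Dat V h m) : Prop where
  mem : Ω₀ ∈ E
  bud : Bud nb F j
  closed : Closed nb F
  card : #F < 2 ^ r
  dens : 2 ^ j * #(cls nb F Ω₀) ≤ 2 ^ ℓ * #{Ω ∈ E | view nb F Ω = view nb F Ω₀}

theorem Rch.le {nb : Ix h → V → V} {r ℓ : ℕ} {E : Finset (Dat V h m)} {j : ℕ} {F : Finset V}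
    {Ω₀ : Dat V h m} (hE : ∀ Ω ∈ E, ∀ v, Inj (Ω v)) (H : Rch nb r ℓ E j F Ω₀) : j ≤ ℓ := by
  classical
  have h1 : #{Ω ∈ E | view nb F Ω = view nb F Ω₀} ≤ #(cls nb F Ω₀) := by
    refine card_le_card fun Ω hΩ => ?_
    rw [mem_filter] at hΩ
    exact mem_cls.2 ⟨hE Ω hΩ.1, agr_iff.2 hΩ.2⟩
  have h2 : 0 < #(cls nb F Ω₀) := by
    rw [card_pos]
    exact ⟨Ω₀, mem_cls.2 ⟨hE Ω₀ H.mem, agr_iff.2 rfl⟩⟩
  have h3 : 2 ^ j * #(cls nb F Ω₀) ≤ 2 ^ ℓ * #(cls nb F Ω₀) :=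
    H.dens.trans (Nat.mul_le_mul_left _ h1)
  exact (Nat.pow_le_pow_iff_right (by norm_num)).1 (Nat.le_of_mul_le_mul_right h3 h2)

open scoped Classical in
/-- the columns of a vertex outside of `F` -/
theorem colm_eq {nb : Ix h → V → V} {F : Finset V} {Ω₀ : Dat V h m} {v : V} (hv : v ∉ F)
    (q : Par h m → Prop) [DecidablePred q]
    [DecidablePred fun p => Cons (Ω₀ v) ({i | nb i v ∈ F} : Finset (Ix h)) p ∧ q p] :
    {p ∈ colm nb F Ω₀ v | q p} =
      ({p | Cons (Ω₀ v) ({i | nb i v ∈ F} : Finset (Ix h)) p ∧ q p} : Finset (Par h m)) := by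
  ext p
  rw [mem_filter, mem_colm, mem_filter, and_iff_right (mem_univ _)]
  unfold Cons
  constructor
  · rintro ⟨⟨h1, _, h2⟩, h3⟩
    exact ⟨⟨h1, fun i hi => h2 i (mem_filter.1 hi).2⟩, h3⟩
  · rintro ⟨⟨h1, h2⟩, h3⟩
    exact ⟨⟨h1, fun h => absurd h hv, fun i hi => h2 i (mem_filter.2 ⟨mem_univ _, hi⟩)⟩, h3⟩

open scoped Classical in
theorem card_colm {nb : Ix h → V → V} {F : Finset V} {Ω₀ : Dat V h m} {v : V} (hv : v ∉ F)
    [DecidablePred fun p => Cons (Ω₀ v) ({i | nb i v ∈ F} : Finset (Ix h)) p] :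
    #(colm nb F Ω₀ v) =
      #{p : Par h m | Cons (Ω₀ v) ({i | nb i v ∈ F} : Finset (Ix h)) p} := by
  congr 1
  ext p
  rw [mem_colm, mem_filter, and_iff_right (mem_univ _)]
  unfold Cons
  constructor
  · rintro ⟨h1, _, h2⟩
    exact ⟨h1, fun i hi => h2 i (mem_filter.1 hi).2⟩
  · rintro ⟨h1, h2⟩
    exact ⟨h1, fun h => absurd h hv, fun i hi => h2 i (mem_filter.2 ⟨mem_univ _, hi⟩)⟩

open scoped Classical in
theorem aff_live (ha : P_aff) {nb : Ix h → V → V} {F : Finset V} {Ω₀ : Dat V h m} (h1 : 1 ≤ h)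
    (hm : 2 * h ≤ m) (hcl : Closed nb F) (hΩ : ∀ v, Inj (Ω₀ v))
    (l : Bool × V × (Fin m → ZMod 2)) :
    #{Ω ∈ cls nb F Ω₀ | Live nb F Ω l} * 2 ^ h ≤ 4 * #(cls nb F Ω₀) := by
  obtain ⟨b, v, y⟩ := l
  by_cases hv : v ∈ F
  · have : #{Ω ∈ cls nb F Ω₀ | Live nb F Ω (b, v, y)} = 0 := by
      rw [card_eq_zero, filter_eq_empty_iff]
      intro Ω _ hl
      exact hl.1 hv
    rw [this]
    simp
  obtain ⟨k1, k2⟩ := ha h m (by omega) {i | nb i v ∈ F} (hcl v hv) (Ω₀ v) (hΩ v)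
  have hcol := card_colm (nb := nb) (Ω₀ := Ω₀) hv
  cases b with
  | false =>
    have e : ∀ Ω : Dat V h m, Live nb F Ω (false, v, y) ↔
        ∃ i ∉ ({i | nb i v ∈ F} : Finset (Ix h)), ev (Ω v) i = y := by
      intro Ω
      simp [Live, hv]
    refine card_live (nb := nb) (F := F) (Ω₀ := Ω₀) (v := v)
      (q := fun p => ∃ i ∉ ({i | nb i v ∈ F} : Finset (Ix h)), ev p i = y)
      (q' := fun Ω => Live nb F Ω (false, v, y)) e (a := 2 ^ h) (b := 4) (by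
        rw [colm_eq hv, hcol]
        have h4 := k1 y
        have h5 : (2 : ℕ) ^ (h + h) ≤ 2 ^ m := Nat.pow_le_pow_right (by norm_num) (by omega)
        have h6 : (2 : ℕ) ^ h * (#{p | Cons (Ω₀ v) ({i | nb i v ∈ F} : Finset (Ix h)) p ∧
            ∃ i ∉ ({i | nb i v ∈ F} : Finset (Ix h)), ev p i = y} * 2 ^ h) ≤
            2 ^ h * (2 * #{p : Par h m | Cons (Ω₀ v) ({i | nb i v ∈ F} : Finset (Ix h)) p}) := by
          calc _ = #{p | Cons (Ω₀ v) ({i | nb i v ∈ F} : Finset (Ix h)) p ∧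
                ∃ i ∉ ({i | nb i v ∈ F} : Finset (Ix h)), ev p i = y} * 2 ^ (h + h) := by
                rw [pow_add]; ring
            _ ≤ _ := Nat.mul_le_mul_left _ h5
            _ ≤ _ := h4
            _ = _ := by rw [pow_succ]; ring
        have h7 := Nat.le_of_mul_le_mul_left h6 (by positivity)
        omega)
  | true =>
    by_cases hy : y = 0
    · have : #{Ω ∈ cls nb F Ω₀ | Live nb F Ω (true, v, y)} = 0 := by
        rw [card_eq_zero, filter_eq_empty_iff]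
        intro Ω _ hl
        have := hl.2
        simp only [if_true] at this
        exact this.1 hy
      rw [this]
      simp
    have e : ∀ Ω : Dat V h m, Live nb F Ω (true, v, y) ↔ Perp (Ω v) y := by
      intro Ω
      simp [Live, hv, hy]
    exact card_live (nb := nb) (F := F) (Ω₀ := Ω₀) (v := v)
      (q := fun p => Perp p y) (q' := fun Ω => Live nb F Ω (true, v, y)) e (a := 2 ^ h) (b := 4) (by
        rw [colm_eq hv, hcol]
        exact k2 y hy)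

end Core

theorem p_core (hc : P_close) (ha : P_aff) : P_core := by
  classical
  intro V _ _ h m r ℓ nb E δ hg h1 hm hE hne hd hr hδ
  -- a reachable class
  have hex : ∃ j, ∃ F Ω₀, Rch nb r ℓ E j F Ω₀ := by
    obtain ⟨Ω₀, hΩ₀⟩ := hne
    refine ⟨0, ∅, Ω₀, hΩ₀, by simp [Bud], fun v _ => by simp, by simp, ?_⟩
    have e1 : cls nb ∅ Ω₀ = ({Ω : Dat V h m | ∀ v, Inj (Ω v)} : Finset _) := by
      ext Ω
      rw [mem_cls, mem_filter, and_iff_right (mem_univ _)]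
      simp [Agr]
    have e2 : {Ω ∈ E | view nb ∅ Ω = view nb ∅ Ω₀} = E := by
      refine filter_true_of_mem fun Ω _ => ?_
      simp [view]
    rw [e1, e2, pow_zero, one_mul]
    exact hd
  -- the last one
  obtain ⟨j, ⟨F, Ω₀, hR⟩, hlast⟩ : ∃ j, (∃ F Ω₀, Rch nb r ℓ E j F Ω₀) ∧
      ¬ ∃ F Ω₀, Rch nb r ℓ E (j + 1) F Ω₀ := by
    by_contra hcon
    push Not at hcon
    obtain ⟨j₀, hj₀⟩ := hex
    have hall : ∀ k, ∃ F Ω₀, Rch nb r ℓ E (j₀ + k) F Ω₀ := by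
      intro k
      induction k with
      | zero => exact hj₀
      | succ k ih => exact hcon _ ih
    obtain ⟨F, Ω₀, hR⟩ := hall (ℓ + 1)
    have := hR.le hE
    omega
  have hjℓ := hR.le hE
  have hF3 : #F ≤ 3 * j := bud_card hg hR.bud hR.card
  refine ⟨F, Ω₀, hR.mem, by omega, fun l => ?_⟩
  by_contra hcon
  rw [not_le] at hcon
  have hΩinj : ∀ v, Inj (Ω₀ v) := hE Ω₀ hR.mem
  set v := l.2.1 with hv
  set C := cls nb F Ω₀ with hC
  set L := {Ω ∈ C | Live nb F Ω l} with hL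
  set EC := {Ω ∈ E | view nb F Ω = view nb F Ω₀} with hEC
  have eEC : {Ω ∈ E | Agr nb F Ω Ω₀} = EC := filter_congr fun Ω _ => agr_iff
  set EL := {Ω ∈ E | Agr nb F Ω Ω₀ ∧ Live nb F Ω l} with hEL
  rw [eEC] at hcon
  have hδ0 : 0 < δ := lt_of_lt_of_le (by positivity) hδ
  have hELpos : 0 < #EL := by
    have : (0 : ℝ) < #EL := lt_of_le_of_lt (by positivity) hcon
    exact_mod_cast this
  have hvF : v ∉ F := by
    obtain ⟨Ω, hΩ⟩ := card_pos.1 hELpos
    rw [hEL, mem_filter] at hΩ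
    exact hΩ.2.2.1
  -- the larger set
  have hb1 : Bud nb (insert v F) (j + 1) := by
    have h2 := inner_mono (nb := nb) (subset_insert v F)
    have h3 := hR.bud
    unfold Bud at h3 ⊢
    rw [card_insert_of_notMem hvF]
    omega
  obtain ⟨F', hF'1, hF'2, hF'3, hF'4⟩ := hc nb r (j + 1) (insert v F) hg hb1
    (by rw [card_insert_of_notMem hvF]; omega) (by omega)
  have hFF' : F ⊆ F' := (subset_insert v F).trans hF'1
  have hvF' : v ∈ F' := hF'1 (mem_insert_self v F)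
  have hELL : EL ⊆ L := by
    intro Ω hΩ
    rw [hEL, mem_filter] at hΩ
    rw [hL, mem_filter, hC, mem_cls]
    exact ⟨⟨hE Ω hΩ.1, hΩ.2.1⟩, hΩ.2.2⟩
  have hLne : L.Nonempty := (card_pos.1 hELpos).mono hELL
  -- the classes of `F'`
  have hcl : ∀ Ω ∈ L, {Ω' ∈ L | view nb F' Ω' = view nb F' Ω} = cls nb F' Ω := by
    intro Ω hΩ
    rw [hL, mem_filter, hC, mem_cls] at hΩ
    obtain ⟨⟨k1, k2⟩, k3⟩ := hΩ
    ext Ω'
    rw [mem_filter, hL, mem_filter, hC, mem_cls, mem_cls]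
    constructor
    · rintro ⟨⟨⟨k4, _⟩, _⟩, k5⟩
      exact ⟨k4, agr_iff.2 k5⟩
    · rintro ⟨k4, k5⟩
      refine ⟨⟨⟨k4, ?_⟩, ?_⟩, agr_iff.1 k5⟩
      · exact agr_iff.2 ((agr_iff.1 (k5.mono hFF')).trans (agr_iff.1 k2))
      · exact (live_congr (k5.1 v hvF')).2 k3
  have hno : ∀ Ω ∈ L, 2 ^ ℓ * #{Ω' ∈ EL | view nb F' Ω' = view nb F' Ω} <
      2 ^ (j + 1) * #{Ω' ∈ L | view nb F' Ω' = view nb F' Ω} := by
    intro Ω hΩ
    by_contra hge
    rw [not_lt] at hge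
    have hpos : 0 < #{Ω' ∈ L | view nb F' Ω' = view nb F' Ω} :=
      card_pos.2 ⟨Ω, mem_filter.2 ⟨hΩ, rfl⟩⟩
    have hpos2 : 0 < #{Ω' ∈ EL | view nb F' Ω' = view nb F' Ω} := by
      by_contra h0
      have h0' : #{Ω' ∈ EL | view nb F' Ω' = view nb F' Ω} = 0 := by omega
      rw [h0', mul_zero] at hge
      have : 0 < 2 ^ (j + 1) * #{Ω' ∈ L | view nb F' Ω' = view nb F' Ω} := by positivity
      omega
    obtain ⟨Ω₁, hΩ₁⟩ := card_pos.1 hpos2
    rw [mem_filter] at hΩ₁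
    have hΩ₁E : Ω₁ ∈ E := (mem_filter.1 hΩ₁.1).1
    apply hlast
    refine ⟨F', Ω₁, hΩ₁E, hF'3, hF'2, by omega, ?_⟩
    have e3 : cls nb F' Ω₁ = cls nb F' Ω := by
      ext Ω'
      rw [mem_cls, mem_cls, agr_iff, agr_iff, hΩ₁.2]
    rw [e3, ← hcl Ω hΩ]
    refine hge.trans (Nat.mul_le_mul_left _ (card_le_card fun Ω' hΩ' => ?_))
    rw [mem_filter] at hΩ' ⊢
    exact ⟨(mem_filter.1 hΩ'.1).1, hΩ'.2.trans hΩ₁.2.symm⟩
  have havg := avg (view nb F') L EL (2 ^ ℓ) (2 ^ (j + 1)) hELL hLne hno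
  have hLc : #L * 2 ^ h ≤ 4 * #C := aff_live ha h1 hm hR.closed hΩinj l
  have hdens : 2 ^ j * #C ≤ 2 ^ ℓ * #EC := hR.dens
  -- the numbers
  have r1 : (2 : ℝ) ^ ℓ * #EL < 2 ^ (j + 1) * #L := by exact_mod_cast havg
  have r2 : (#L : ℝ) * 2 ^ h ≤ 4 * #C := by exact_mod_cast hLc
  have r3 : (2 : ℝ) ^ j * #C ≤ 2 ^ ℓ * #EC := by exact_mod_cast hdens
  have p1 : (0 : ℝ) < 2 ^ ℓ := by positivity
  have p2 : (0 : ℝ) < 2 ^ j := by positivity
  have p3 : (0 : ℝ) < 2 ^ h := by positivity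
  have r4 : (2 : ℝ) ^ ℓ * (δ * #EC) < 2 ^ ℓ * #EL := mul_lt_mul_of_pos_left hcon p1
  have r5 : δ * (2 ^ j * #C) ≤ δ * (2 ^ ℓ * #EC) := mul_le_mul_of_nonneg_left r3 hδ0.le
  have r6 : (8 / 2 ^ h) * (2 ^ j * #C) ≤ δ * (2 ^ j * #C) :=
    mul_le_mul_of_nonneg_right hδ (by positivity)
  have r7 : (8 / 2 ^ h) * ((2 : ℝ) ^ j * #C) < 2 ^ (j + 1) * #L := by
    calc (8 / 2 ^ h) * ((2 : ℝ) ^ j * #C) ≤ δ * (2 ^ ℓ * #EC) := r6.trans r5
      _ = 2 ^ ℓ * (δ * #EC) := by ring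
      _ < _ := r4.trans r1
  have r8 : (8 : ℝ) * #C < 2 * (#L * 2 ^ h) := by
    have e4 : (8 / 2 ^ h) * ((2 : ℝ) ^ j * #C) = (2 ^ j / 2 ^ h) * (8 * #C) := by ring
    have e5 : (2 : ℝ) ^ (j + 1) * #L = (2 ^ j / 2 ^ h) * (2 * (#L * 2 ^ h)) := by
      rw [pow_succ]
      field_simp
    rw [e4, e5] at r7
    exact lt_of_mul_lt_mul_left r7 (by positivity)
  linarith

end Pool.Agent.K7x.QC
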