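import Pool.Agent.K7x.QC.Stm

/-!
# The relative version of the piece CORE
-/

set_option autoImplicit false

namespace Pool.Agent.K7x.QC

open Finset

open scoped Classical in
/-- **Piece FEW** (a step of the proof of `P_core`; uses `P_aff`). Every place is live for few members
of the class of a closed set. -/
def P_few : Prop := ∀ {V : Type} [Fintype V] [DecidableEq V] (h m r : ℕ)
    (nb : Ix h → V → V) (F₀ : Finset V) (Ω₁ : Dat V h m), Good r nb → 1 ≤ h → 2 * h ≤ m →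
    (∀ v, Inj (Ω₁ v)) → Closed nb F₀ → ∀ l,
      #{Ω : Dat V h m | (∀ v, Inj (Ω v)) ∧ Agr nb F₀ Ω Ω₁ ∧ Live nb F₀ Ω l} * 2 ^ h ≤
        4 * #{Ω : Dat V h m | (∀ v, Inj (Ω v)) ∧ Agr nb F₀ Ω Ω₁}

open scoped Classical in
/-- **Piece CORE2** (uses `P_close` and `P_aff`). The relative version of `P_core`: the density
increment started at the class of `Ω₁` near the closed set `F₀`. Same proof. (`P_core` is the case
`F₀ = ∅`, `j₀ = 0`.) -/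
def P_core2 : Prop := ∀ {V : Type} [Fintype V] [DecidableEq V] (h m r ℓ j₀ : ℕ)
    (nb : Ix h → V → V) (F₀ : Finset V) (Ω₁ : Dat V h m) (E : Finset (Dat V h m)) (δ : ℝ),
    Good r nb → 1 ≤ h → 2 * h ≤ m → (∀ v, Inj (Ω₁ v)) → Bud nb F₀ j₀ → Closed nb F₀ →
    #F₀ ≤ 3 * j₀ → (∀ Ω ∈ E, (∀ v, Inj (Ω v)) ∧ Agr nb F₀ Ω Ω₁) → E.Nonempty →
    #{Ω : Dat V h m | (∀ v, Inj (Ω v)) ∧ Agr nb F₀ Ω Ω₁} ≤ 2 ^ ℓ * #E →
    3 * (j₀ + ℓ + 1) + 1 < 2 ^ r → 8 / 2 ^ h ≤ δ →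
    ∃ (F : Finset V) (Ω₀ : Dat V h m) (j : ℕ), F₀ ⊆ F ∧ Closed nb F ∧ Bud nb F j ∧
      j ≤ j₀ + ℓ ∧ #F ≤ 3 * j ∧ Ω₀ ∈ E ∧
      ∀ l, (#{Ω ∈ E | Agr nb F Ω Ω₀ ∧ Live nb F Ω l} : ℝ) ≤ δ * #{Ω ∈ E | Agr nb F Ω Ω₀}

end Pool.Agent.K7x.QC
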