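import Pool.Agent.K7x.QC.Core
import Pool.Agent.K7x.QC.Stm2

/-!
# The relative version of the piece CORE
-/

set_option autoImplicit false
set_option linter.unusedSectionVars false

namespace Pool.Agent.K7x.QC

open Finset

theorem p_few (ha : P_aff) : P_few := by
  classical
  intro V _ _ h m r nb F₀ Ω₁ hg h1 hm hΩ hcl l
  have h2 := aff_live ha (nb := nb) (Ω₀ := Ω₁) h1 hm hcl hΩ l
  have e1 : {Ω ∈ cls nb F₀ Ω₁ | Live nb F₀ Ω l} =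
      ({Ω : Dat V h m | (∀ v, Inj (Ω v)) ∧ Agr nb F₀ Ω Ω₁ ∧ Live nb F₀ Ω l} : Finset _) := by
    ext Ω
    rw [mem_filter, mem_cls, mem_filter, and_iff_right (mem_univ _), and_assoc]
  have e2 : cls nb F₀ Ω₁ =
      ({Ω : Dat V h m | (∀ v, Inj (Ω v)) ∧ Agr nb F₀ Ω Ω₁} : Finset _) := by
    ext Ω
    rw [mem_cls, mem_filter, and_iff_right (mem_univ _)]
  rw [e1, e2] at h2
  convert h2

section Core

variable {V : Type} [Fintype V] [DecidableEq V] {h m : ℕ}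

open scoped Classical in
/-- a class whose density is large -/
structure Rch2 (nb : Ix h → V → V) (r ℓ j₀ : ℕ) (F₀ : Finset V) (E : Finset (Dat V h m)) (j : ℕ)
    (F : Finset V) (Ω₀ : Dat V h m) : Prop where
  mem : Ω₀ ∈ E
  sub : F₀ ⊆ F
  bud : Bud nb F (j₀ + j)
  closed : Closed nb F
  card : #F < 2 ^ r
  dens : 2 ^ j * #(cls nb F Ω₀) ≤ 2 ^ ℓ * #{Ω ∈ E | view nb F Ω = view nb F Ω₀}

theorem Rch2.le {nb : Ix h → V → V} {r ℓ j₀ : ℕ} {F₀ : Finset V} {E : Finset (Dat V h m)} {j : ℕ}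
    {F : Finset V} {Ω₀ : Dat V h m} (hE : ∀ Ω ∈ E, ∀ v, Inj (Ω v))
    (H : Rch2 nb r ℓ j₀ F₀ E j F Ω₀) : j ≤ ℓ := by
  classical
  have h1 : #{Ω ∈ E | view nb F Ω = view nb F Ω₀} ≤ #(cls nb F Ω₀) := by
    refine card_le_card fun Ω hΩ => ?_
    rw [mem_filter] at hΩ
    exact mem_cls.2 ⟨hE Ω hΩ.1, agr_iff.2 hΩ.2⟩
  have h2 : 0 < #(cls nb F Ω₀) := by
    rw [card_pos]
    exact ⟨Ω₀, mem_cls.2 ⟨hE Ω₀ H.mem, agr_iff.2 rfl⟩⟩
  have h3 : 2 ^ j * #(cls nb F Ω₀) ≤ 2 ^ ℓ * #(cls nb F Ω₀) :=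
    H.dens.trans (Nat.mul_le_mul_left _ h1)
  exact (Nat.pow_le_pow_iff_right (by norm_num)).1 (Nat.le_of_mul_le_mul_right h3 h2)

end Core

theorem p_core2 (hc : P_close) (ha : P_aff) : P_core2 := by
  classical
  intro V _ _ h m r ℓ j₀ nb F₀ Ω₁ E δ hg h1 hm hΩ₁i hbud₀ hcl₀ hF₀ hEE hne hd hr hδ
  have hE : ∀ Ω ∈ E, ∀ v, Inj (Ω v) := fun Ω hΩ => (hEE Ω hΩ).1
  -- a reachable class
  have hex : ∃ j, ∃ F Ω₀, Rch2 nb r ℓ j₀ F₀ E j F Ω₀ := by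
    obtain ⟨Ω₀, hΩ₀⟩ := hne
    refine ⟨0, F₀, Ω₀, hΩ₀, Subset.refl _, hbud₀, hcl₀, by omega, ?_⟩
    have h2 : view nb F₀ Ω₀ = view nb F₀ Ω₁ := agr_iff.1 (hEE Ω₀ hΩ₀).2
    have e1 : cls nb F₀ Ω₀ =
        ({Ω : Dat V h m | (∀ v, Inj (Ω v)) ∧ Agr nb F₀ Ω Ω₁} : Finset _) := by
      ext Ω
      rw [mem_cls, mem_filter, and_iff_right (mem_univ _), agr_iff, agr_iff, h2]
    have e2 : {Ω ∈ E | view nb F₀ Ω = view nb F₀ Ω₀} = E := by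
      refine filter_true_of_mem fun Ω hΩ => ?_
      rw [h2]
      exact agr_iff.1 (hEE Ω hΩ).2
    rw [e1, e2, pow_zero, one_mul]
    exact hd
  -- the last one
  obtain ⟨j, ⟨F, Ω₀, hR⟩, hlast⟩ : ∃ j, (∃ F Ω₀, Rch2 nb r ℓ j₀ F₀ E j F Ω₀) ∧
      ¬ ∃ F Ω₀, Rch2 nb r ℓ j₀ F₀ E (j + 1) F Ω₀ := by
    by_contra hcon
    push Not at hcon
    obtain ⟨i₀, hi₀⟩ := hex
    have hall : ∀ k, ∃ F Ω₀, Rch2 nb r ℓ j₀ F₀ E (i₀ + k) F Ω₀ := by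
      intro k
      induction k with
      | zero => exact hi₀
      | succ k ih => exact hcon _ ih
    obtain ⟨F, Ω₀, hR⟩ := hall (ℓ + 1)
    have := hR.le hE
    omega
  have hjℓ := hR.le hE
  have hF3 : #F ≤ 3 * (j₀ + j) := bud_card hg hR.bud hR.card
  refine ⟨F, Ω₀, j₀ + j, hR.sub, hR.closed, hR.bud, by omega, hF3, hR.mem, fun l => ?_⟩
  by_contra hcon
  rw [not_le] at hcon
  have hΩinj : ∀ v, Inj (Ω₀ v) := hE Ω₀ hR.mem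
  set v := l.2.1 with hv
  set C := cls nb F Ω₀ with hC
  set L := {Ω ∈ C | Live nb F Ω l} with hL
  set EC := {Ω ∈ E | view nb F Ω = view nb F Ω₀} with hEC
  have eEC : {Ω ∈ E | Agr nb F Ω Ω₀} = EC := filter_congr fun Ω _ => agr_iff
  set EL := {Ω ∈ E | Agr nb F Ω Ω₀ ∧ Live nb F Ω l} with hEL
  rw [eEC] at hcon
  have hδ0 : 0 < δ := lt_of_lt_of_le (by positivity) hδ
  have hELpos : 0 < #EL := by
    have : (0 : ℝ) < #EL := lt_of_le_of_lt (by positivity) hcon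
    exact_mod_cast this
  have hvF : v ∉ F := by
    obtain ⟨Ω, hΩ⟩ := card_pos.1 hELpos
    rw [hEL, mem_filter] at hΩ
    exact hΩ.2.2.1
  -- the larger set
  have hb1 : Bud nb (insert v F) (j₀ + (j + 1)) := by
    have h2 := inner_mono (nb := nb) (subset_insert v F)
    have h3 := hR.bud
    unfold Bud at h3 ⊢
    rw [card_insert_of_notMem hvF]
    omega
  obtain ⟨F', hF'1, hF'2, hF'3, hF'4⟩ := hc nb r (j₀ + (j + 1)) (insert v F) hg hb1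
    (by rw [card_insert_of_notMem hvF]; omega) (by omega)
  have hFF' : F ⊆ F' := (subset_insert v F).trans hF'1
  have hvF' : v ∈ F' := hF'1 (mem_insert_self v F)
  have hELL : EL ⊆ L := by
    intro Ω hΩ
    rw [hEL, mem_filter] at hΩ
    rw [hL, mem_filter, hC, mem_cls]
    exact ⟨⟨hE Ω hΩ.1, hΩ.2.1⟩, hΩ.2.2⟩
  have hLne : L.Nonempty := (card_pos.1 hELpos).mono hELL
  -- the classes of `F'`
  have hcl : ∀ Ω ∈ L, {Ω' ∈ L | view nb F' Ω' = view nb F' Ω} = cls nb F' Ω := by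
    intro Ω hΩ
    rw [hL, mem_filter, hC, mem_cls] at hΩ
    obtain ⟨⟨k1, k2⟩, k3⟩ := hΩ
    ext Ω'
    rw [mem_filter, hL, mem_filter, hC, mem_cls, mem_cls]
    constructor
    · rintro ⟨⟨⟨k4, _⟩, _⟩, k5⟩
      exact ⟨k4, agr_iff.2 k5⟩
    · rintro ⟨k4, k5⟩
      refine ⟨⟨⟨k4, ?_⟩, ?_⟩, agr_iff.1 k5⟩
      · exact agr_iff.2 ((agr_iff.1 (k5.mono hFF')).trans (agr_iff.1 k2))
      · exact (live_congr (k5.1 v hvF')).2 k3
  have hno : ∀ Ω ∈ L, 2 ^ ℓ * #{Ω' ∈ EL | view nb F' Ω' = view nb F' Ω} <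
      2 ^ (j + 1) * #{Ω' ∈ L | view nb F' Ω' = view nb F' Ω} := by
    intro Ω hΩ
    by_contra hge
    rw [not_lt] at hge
    have hpos : 0 < #{Ω' ∈ L | view nb F' Ω' = view nb F' Ω} :=
      card_pos.2 ⟨Ω, mem_filter.2 ⟨hΩ, rfl⟩⟩
    have hpos2 : 0 < #{Ω' ∈ EL | view nb F' Ω' = view nb F' Ω} := by
      by_contra h0
      have h0' : #{Ω' ∈ EL | view nb F' Ω' = view nb F' Ω} = 0 := by omega
      rw [h0', mul_zero] at hge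
      have : 0 < 2 ^ (j + 1) * #{Ω' ∈ L | view nb F' Ω' = view nb F' Ω} := by positivity
      omega
    obtain ⟨Ω₂, hΩ₂⟩ := card_pos.1 hpos2
    rw [mem_filter] at hΩ₂
    have hΩ₂E : Ω₂ ∈ E := (mem_filter.1 hΩ₂.1).1
    apply hlast
    refine ⟨F', Ω₂, hΩ₂E, hR.sub.trans hFF', hF'3, hF'2, by omega, ?_⟩
    have e3 : cls nb F' Ω₂ = cls nb F' Ω := by
      ext Ω'
      rw [mem_cls, mem_cls, agr_iff, agr_iff, hΩ₂.2]
    rw [e3, ← hcl Ω hΩ]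
    refine hge.trans (Nat.mul_le_mul_left _ (card_le_card fun Ω' hΩ' => ?_))
    rw [mem_filter] at hΩ' ⊢
    exact ⟨(mem_filter.1 hΩ'.1).1, hΩ'.2.trans hΩ₂.2.symm⟩
  have havg := avg (view nb F') L EL (2 ^ ℓ) (2 ^ (j + 1)) hELL hLne hno
  have hLc : #L * 2 ^ h ≤ 4 * #C := aff_live ha h1 hm hR.closed hΩinj l
  have hdens : 2 ^ j * #C ≤ 2 ^ ℓ * #EC := hR.dens
  -- the numbers
  have r1 : (2 : ℝ) ^ ℓ * #EL < 2 ^ (j + 1) * #L := by exact_mod_cast havg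
  have r2 : (#L : ℝ) * 2 ^ h ≤ 4 * #C := by exact_mod_cast hLc
  have r3 : (2 : ℝ) ^ j * #C ≤ 2 ^ ℓ * #EC := by exact_mod_cast hdens
  have p1 : (0 : ℝ) < 2 ^ ℓ := by positivity
  have p2 : (0 : ℝ) < 2 ^ j := by positivity
  have p3 : (0 : ℝ) < 2 ^ h := by positivity
  have r4 : (2 : ℝ) ^ ℓ * (δ * #EC) < 2 ^ ℓ * #EL := mul_lt_mul_of_pos_left hcon p1
  have r5 : δ * (2 ^ j * #C) ≤ δ * (2 ^ ℓ * #EC) := mul_le_mul_of_nonneg_left r3 hδ0.le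
  have r6 : (8 / 2 ^ h) * (2 ^ j * #C) ≤ δ * (2 ^ j * #C) :=
    mul_le_mul_of_nonneg_right hδ (by positivity)
  have r7 : (8 / 2 ^ h) * ((2 : ℝ) ^ j * #C) < 2 ^ (j + 1) * #L := by
    calc (8 / 2 ^ h) * ((2 : ℝ) ^ j * #C) ≤ δ * (2 ^ ℓ * #EC) := r6.trans r5
      _ = 2 ^ ℓ * (δ * #EC) := by ring
      _ < _ := r4.trans r1
  have r8 : (8 : ℝ) * #C < 2 * (#L * 2 ^ h) := by
    have e4 : (8 / 2 ^ h) * ((2 : ℝ) ^ j * #C) = (2 ^ j / 2 ^ h) * (8 * #C) := by ring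
    have e5 : (2 : ℝ) ^ (j + 1) * #L = (2 ^ j / 2 ^ h) * (2 * (#L * 2 ^ h)) := by
      rw [pow_succ]
      field_simp
    rw [e4, e5] at r7
    exact lt_of_mul_lt_mul_left r7 (by positivity)
  linarith

end Pool.Agent.K7x.QC
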