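import Pool.Agent.K7x.QC.Stm
import Mathlib.FieldTheory.Finite.GaloisField
import Mathlib.Tactic

/-!
# Piece GRAPH: explicit graphs of high girth and of high degree on the bit strings
-/

set_option autoImplicit false

namespace Pool.Agent.K7x.QC.GraphP

open Finset

section Abstract

variable {V I : Type} [Fintype V] [DecidableEq V] [Fintype I] [DecidableEq I]

/-- there is no closed walk without turning back of length at most `g` -/
def Girth (nb : I → V → V) (g : ℕ) : Prop :=
  ∀ (v : V) (l : List I), l ≠ [] → l.length ≤ g → l.IsChain (· ≠ ·) → l.foldr nb v ≠ v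

omit [Fintype V] [DecidableEq V] [Fintype I] [DecidableEq I] in
theorem foldr_reverse_cancel {nb : I → V → V} (hi : ∀ i v, nb i (nb i v) = v) (l : List I) (v : V) :
    (l.reverse).foldr nb (l.foldr nb v) = v := by
  induction l with
  | nil => rfl
  | cons i l ih =>
    rw [List.reverse_cons, List.foldr_append, List.foldr_cons, List.foldr_cons, List.foldr_nil,
      hi, ih]

omit [Fintype V] [DecidableEq V] [Fintype I] [DecidableEq I] in
theorem uniq {nb : I → V → V} {g : ℕ} (hi : ∀ i v, nb i (nb i v) = v) (hg : Girth nb g) (v : V) :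
    ∀ l1 l2 : List I, l1.IsChain (· ≠ ·) → l2.IsChain (· ≠ ·) → l1.length + l2.length ≤ g →
      l1.foldr nb v = l2.foldr nb v → l1 = l2 := by
  intro l1
  induction l1 with
  | nil =>
    intro l2 _ h2 hl h
    by_contra hne
    exact hg v l2 (fun h' => hne h'.symm) (by simpa using hl) h2 h.symm
  | cons i l1 ih =>
    intro l2 h1 h2 hl h
    cases l2 with
    | nil => exact absurd h (hg v (i :: l1) (by simp) (by simpa using hl) h1)
    | cons j l2 =>
      by_cases hij : i = j
      · subst hij
        rw [ih l2 h1.of_cons h2.of_cons (by simp at hl; omega) ?_]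
        rw [List.foldr_cons, List.foldr_cons] at h
        rw [← hi i (l1.foldr nb v), h, hi]
      · exfalso
        apply hg v ((j :: l2).reverse ++ (i :: l1)) (by simp)
          (by simp at hl ⊢; omega) ?_ ?_
        · rw [List.isChain_append]
          refine ⟨?_, h1, ?_⟩
          · rw [List.isChain_reverse]
            exact h2.imp (fun a b hab => hab.symm)
          · intro x hx y hy
            simp at hx hy
            rw [← hx, ← hy]
            exact fun h => hij h.symm
        · rw [List.foldr_append, h, foldr_reverse_cancel hi]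

/-- growth: a nonempty set of vertices with inner degrees at least three is large -/
theorem growth {nb : I → V → V} {N : ℕ} (hi : ∀ i v, nb i (nb i v) = v) (hg : Girth nb (2 * N))
    (W : Finset V) (hW : W.Nonempty) (h3 : ∀ v ∈ W, 3 ≤ #{i | nb i v ∈ W}) : 2 ^ N ≤ #W := by
  classical
  obtain ⟨v0, hv0⟩ := hW
  have hstep : ∀ v ∈ W, ∀ o : Option I, ∃ c : Bool → I, c true ≠ c false ∧
      ∀ b, nb (c b) v ∈ W ∧ ∀ j ∈ o, c b ≠ j := by
    intro v hv o
    have hcard : 2 ≤ #(({i | nb i v ∈ W} : Finset I).filter (fun i => ∀ j ∈ o, i ≠ j)) := by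
      cases o with
      | none =>
        have h := h3 v hv
        simp only [Option.mem_def, reduceCtorEq, false_implies, implies_true, Finset.filter_true]
        omega
      | some j =>
        have h := h3 v hv
        have h' : (({i | nb i v ∈ W} : Finset I).filter (fun i => ∀ j' ∈ some j, i ≠ j')) =
            ({i | nb i v ∈ W} : Finset I).erase j := by
          ext i
          simp only [Option.mem_def, Option.some.injEq, Finset.mem_filter, Finset.mem_univ,
            true_and, Finset.mem_erase]
          constructor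
          · rintro ⟨h1, h2⟩
            exact ⟨h2 j rfl, h1⟩
          · rintro ⟨h1, h2⟩
            refine ⟨h2, ?_⟩
            rintro _ rfl
            exact h1
        rw [h']
        have := Finset.pred_card_le_card_erase (s := ({i | nb i v ∈ W} : Finset I)) (a := j)
        omega
    obtain ⟨a, ha, b, hb, hab⟩ := Finset.one_lt_card.1 (show 1 < _ from hcard)
    refine ⟨fun t => if t then a else b, by simpa using hab, ?_⟩
    intro t
    cases t
    · simp only [Finset.mem_filter, Finset.mem_univ, true_and] at hb
      simpa using hb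
    · simp only [Finset.mem_filter, Finset.mem_univ, true_and] at ha
      simpa using ha
  have hI : Nonempty I := by
    have h := h3 v0 hv0
    have h' : 0 < #({i | nb i v0 ∈ W} : Finset I) := by omega
    obtain ⟨i, _⟩ := Finset.card_pos.1 h'
    exact ⟨i⟩
  choose! c hc using hstep
  let word : List Bool → List I := fun bs =>
    List.rec [] (fun b _ w => c (w.foldr nb v0) w.head? b :: w) bs
  have w0 : word [] = [] := rfl
  have w1 : ∀ b bs, word (b :: bs) =
      c ((word bs).foldr nb v0) (word bs).head? b :: word bs := fun _ _ => rfl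
  have hlen : ∀ bs, (word bs).length = bs.length := by
    intro bs
    induction bs with
    | nil => rfl
    | cons b bs ih => rw [w1, List.length_cons, List.length_cons, ih]
  have hmem : ∀ bs, (word bs).foldr nb v0 ∈ W := by
    intro bs
    induction bs with
    | nil => exact hv0
    | cons b bs ih =>
      rw [w1, List.foldr_cons]
      exact ((hc _ ih (word bs).head?).2 b).1
  have hchain : ∀ bs, (word bs).IsChain (· ≠ ·) := by
    intro bs
    induction bs with
    | nil => exact List.isChain_nil
    | cons b bs ih =>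
      rw [w1, List.isChain_cons]
      exact ⟨fun y hy => ((hc _ (hmem bs) (word bs).head?).2 b).2 y hy, ih⟩
  have hinj : ∀ bs bs', bs.length = bs'.length → word bs = word bs' → bs = bs' := by
    intro bs
    induction bs with
    | nil =>
      intro bs' h _
      cases bs' with
      | nil => rfl
      | cons _ _ => simp at h
    | cons b bs ih =>
      intro bs' h hw
      cases bs' with
      | nil => simp at h
      | cons b' bs' =>
        rw [w1, w1, List.cons.injEq] at hw
        have h1 := ih bs' (by simpa using h) hw.2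
        subst h1
        congr 1
        by_contra hbb
        have h2 := (hc _ (hmem bs) (word bs).head?).1
        cases b <;> cases b' <;> simp_all
  let F : List.Vector Bool N → W := fun bs => ⟨(word bs.1).foldr nb v0, hmem _⟩
  have hF : Function.Injective F := by
    intro bs bs' h
    have h1 : (word bs.1).foldr nb v0 = (word bs'.1).foldr nb v0 := congrArg Subtype.val h
    have h2 := uniq hi hg v0 _ _ (hchain _) (hchain _) (by
      rw [hlen, hlen, bs.2, bs'.2]
      omega) h1
    exact Subtype.ext (hinj _ _ (by rw [bs.2, bs'.2]) h2)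
  have := Fintype.card_le_of_injective F hF
  rw [card_vector, Fintype.card_bool, Fintype.card_coe] at this
  exact this

/-- the girth bounds the average degree of small sets -/
theorem sparse_of {nb : I → V → V} {N : ℕ} (hi : ∀ i v, nb i (nb i v) = v)
    (hg : Girth nb (2 * N)) : ∀ (n : ℕ) (W : Finset V), #W = n → n < 2 ^ N →
    #{p ∈ W ×ˢ (univ : Finset I) | nb p.2 p.1 ∈ W} ≤ 4 * #W := by
  intro n
  induction n with
  | zero =>
    intro W hW _
    rw [Finset.card_eq_zero] at hW
    subst hW
    simp
  | succ n ih =>
    intro W hW hn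
    by_cases h : ∀ v ∈ W, 3 ≤ #{i | nb i v ∈ W}
    · have := growth hi hg W (Finset.card_pos.1 (by omega)) h
      omega
    · push Not at h
      obtain ⟨v, hv, hv2⟩ := h
      have h1 := ih (W.erase v) (by rw [Finset.card_erase_of_mem hv]; omega) (by omega)
      have h2 : ({p ∈ W ×ˢ (univ : Finset I) | nb p.2 p.1 ∈ W}) ⊆
          ({p ∈ (W.erase v) ×ˢ (univ : Finset I) | nb p.2 p.1 ∈ W.erase v}) ∪
          (({i | nb i v ∈ W} : Finset I).image (fun i => (v, i)) ∪
           ({i | nb i v ∈ W} : Finset I).image (fun i => (nb i v, i))) := by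
        rintro ⟨w, i⟩ hp
        simp only [Finset.mem_filter, Finset.mem_product, Finset.mem_univ, and_true] at hp
        simp only [Finset.mem_union, Finset.mem_filter, Finset.mem_product, Finset.mem_univ,
          and_true, Finset.mem_image, Finset.mem_erase, true_and, Prod.mk.injEq]
        by_cases hw : w = v
        · subst hw
          right
          left
          exact ⟨i, hp.2, rfl, rfl⟩
        · by_cases hw' : nb i w = v
          · right
            right
            refine ⟨i, ?_, ?_, rfl⟩
            · rw [← hw', hi]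
              exact hp.1
            · rw [← hw', hi]
          · left
            exact ⟨⟨hw, hp.1⟩, hw', hp.2⟩
      have h3 := Finset.card_le_card h2
      have h4 := Finset.card_union_le
        ({p ∈ (W.erase v) ×ˢ (univ : Finset I) | nb p.2 p.1 ∈ W.erase v})
        (({i | nb i v ∈ W} : Finset I).image (fun i => (v, i)) ∪
           ({i | nb i v ∈ W} : Finset I).image (fun i => (nb i v, i)))
      have h5 := Finset.card_union_le (({i | nb i v ∈ W} : Finset I).image (fun i => (v, i)))
           (({i | nb i v ∈ W} : Finset I).image (fun i => (nb i v, i)))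
      have h6 := Finset.card_image_le (s := ({i | nb i v ∈ W} : Finset I)) (f := fun i => (v, i))
      have h7 := Finset.card_image_le (s := ({i | nb i v ∈ W} : Finset I))
        (f := fun i => (nb i v, i))
      have h8 := Finset.card_erase_of_mem hv
      omega

end Abstract

section Mat

open Polynomial

variable {K : Type} [Field K] [CharP K 2]

/-- the nilpotent matrix with parameter `x` -/
def nil (x : K) : Matrix (Fin 2) (Fin 2) K := !![x, 1; x ^ 2, x]

theorem nil_sq (x : K) : nil x * nil x = 0 := by
  unfold nil
  ext i j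
  fin_cases i <;> fin_cases j <;>
    simp [Matrix.mul_apply, Fin.sum_univ_two] <;> ring_nf <;>
    simp [CharTwo.two_eq_zero]

theorem add_self_mat (A : Matrix (Fin 2) (Fin 2) K) : A + A = 0 := by
  ext i j
  exact CharTwo.add_self_eq_zero _

/-- the product along a word, the last letter at the head -/
noncomputable def wd {I : Type} (x : I → K) : List I → (Matrix (Fin 2) (Fin 2) K)[X]
  | [] => 1
  | i :: l => wd x l * (1 + C (nil (x i)) * X)

/-- the matrix product along a word -/
noncomputable def tp {I : Type} (x : I → K) : List I → Matrix (Fin 2) (Fin 2) K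
  | [] => 1
  | i :: l => tp x l * nil (x i)

theorem tp_chain {I : Type} (x : I → K) (hx : Function.Injective x) (l : List I) :
    ∀ i, (i :: l).IsChain (· ≠ ·) →
      ∃ c y : K, c ≠ 0 ∧ tp x (i :: l) = c • !![x i, 1; y * x i, y] := by
  induction l with
  | nil =>
    intro i _
    refine ⟨1, x i, one_ne_zero, ?_⟩
    rw [tp, tp, one_mul, one_smul, nil, sq]
  | cons j l ih =>
    intro i h
    rw [List.isChain_cons_cons] at h
    obtain ⟨c, y, hc, h2⟩ := ih j h.2
    refine ⟨c * (x j + x i), y, mul_ne_zero hc ?_, ?_⟩
    · intro h0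
      apply h.1
      apply hx
      rw [CharTwo.add_eq_zero] at h0
      exact h0.symm
    · rw [tp, h2, nil]
      ext a b
      fin_cases a <;> fin_cases b <;>
        simp [Matrix.mul_apply, Fin.sum_univ_two] <;> ring

theorem wd_coeff {I : Type} (x : I → K) (l : List I) :
    (wd x l).coeff l.length = tp x l ∧ ∀ n, l.length < n → (wd x l).coeff n = 0 := by
  induction l with
  | nil =>
    refine ⟨by simp [wd, tp], ?_⟩
    intro n hn
    rw [wd, Polynomial.coeff_one, if_neg]
    simp at hn
    omega
  | cons i l ih =>
    have key : ∀ n, (wd x (i :: l)).coeff (n + 1) =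
        (wd x l).coeff (n + 1) + (wd x l).coeff n * nil (x i) := by
      intro n
      rw [wd, mul_add, mul_one, ← mul_assoc, coeff_add, coeff_mul_X, coeff_mul_C]
    constructor
    · rw [List.length_cons, key, ih.1, ih.2 _ (Nat.lt_succ_self _), zero_add, tp]
    · intro n hn
      rw [List.length_cons] at hn
      obtain ⟨n, rfl⟩ : ∃ n', n = n' + 1 := ⟨n - 1, by omega⟩
      rw [key, ih.2 _ (by omega), ih.2 _ (by omega), zero_mul, add_zero]

theorem wd_ne {I : Type} (x : I → K) (hx : Function.Injective x) (l : List I) (hl : l ≠ [])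
    (h : l.IsChain (· ≠ ·)) : (wd x l).coeff l.length ≠ 0 := by
  cases l with
  | nil => exact absurd rfl hl
  | cons i l =>
    obtain ⟨c, y, hc, h2⟩ := tp_chain x hx l i h
    rw [(wd_coeff x (i :: l)).1, h2]
    intro h0
    have := congrFun (congrFun h0 0) 1
    simp at this
    exact hc this

/-- the sequence with the value `1` at `0` -/
def ext0 {g : ℕ} (X : Fin g → Matrix (Fin 2) (Fin 2) K) : ℕ → Matrix (Fin 2) (Fin 2) K
  | 0 => 1
  | j + 1 => if h : j < g then X ⟨j, h⟩ else 0

/-- the neighbours -/
def nb0 {I : Type} (x : I → K) (g : ℕ) (i : I) (X : Fin g → Matrix (Fin 2) (Fin 2) K) :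
    Fin g → Matrix (Fin 2) (Fin 2) K := fun j => X j + ext0 X j * nil (x i)

theorem ext0_succ {g : ℕ} (X : Fin g → Matrix (Fin 2) (Fin 2) K) (j : Fin g) :
    ext0 X (j + 1) = X j := by
  rw [ext0, dif_pos j.2]

theorem ext0_nb0 {I : Type} (x : I → K) (g : ℕ) (i : I)
    (X : Fin g → Matrix (Fin 2) (Fin 2) K) (j : ℕ) (hj : j < g) :
    ext0 (nb0 x g i X) (j + 1) = ext0 X (j + 1) + ext0 X j * nil (x i) := by
  have h1 := ext0_succ (nb0 x g i X) ⟨j, hj⟩
  have h2 := ext0_succ X ⟨j, hj⟩
  simp only at h1 h2
  rw [h1, h2, nb0]

theorem nb0_invol {I : Type} (x : I → K) (g : ℕ) (i : I)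
    (X : Fin g → Matrix (Fin 2) (Fin 2) K) : nb0 x g i (nb0 x g i X) = X := by
  funext j
  change nb0 x g i X j + ext0 (nb0 x g i X) j * nil (x i) = X j
  rcases j with ⟨j, hj⟩
  cases j with
  | zero =>
    change X ⟨0, hj⟩ + 1 * nil (x i) + 1 * nil (x i) = X ⟨0, hj⟩
    rw [add_assoc, add_self_mat, add_zero]
  | succ j =>
    have h1 := ext0_nb0 x g i X j (by omega)
    change X ⟨j + 1, hj⟩ + ext0 X (j + 1) * nil (x i) +
      ext0 (nb0 x g i X) (j + 1) * nil (x i) = X ⟨j + 1, hj⟩
    rw [h1, add_mul, mul_assoc, nil_sq, mul_zero, add_zero, add_assoc, add_self_mat, add_zero]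

/-- the polynomial of a sequence -/
noncomputable def pol {g : ℕ} (X : Fin g → Matrix (Fin 2) (Fin 2) K) :
    (Matrix (Fin 2) (Fin 2) K)[X] := ∑ j ∈ Finset.range (g + 1), C (ext0 X j) * Polynomial.X ^ j

theorem pol_coeff {g : ℕ} (X : Fin g → Matrix (Fin 2) (Fin 2) K) (j : ℕ) (hj : j ≤ g) :
    (pol X).coeff j = ext0 X j := by
  unfold pol
  rw [Polynomial.finsetSum_coeff]
  simp only [Polynomial.coeff_C_mul, Polynomial.coeff_X_pow]
  simp
  omega

theorem pol_foldr {I : Type} (x : I → K) (g : ℕ) (X : Fin g → Matrix (Fin 2) (Fin 2) K)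
    (l : List I) : ∀ j ≤ g, (pol (l.foldr (nb0 x g) X)).coeff j = (pol X * wd x l).coeff j := by
  induction l with
  | nil =>
    intro j _
    rw [wd, mul_one]
    rfl
  | cons i l ih =>
    intro j hj
    rw [List.foldr_cons, wd, mul_add, mul_one, mul_add, ← mul_assoc, ← mul_assoc, coeff_add,
      pol_coeff _ _ hj]
    cases j with
    | zero =>
      rw [Polynomial.coeff_mul_X_zero, add_zero, ← ih 0 (by omega), pol_coeff _ _ (by omega)]
      rfl
    | succ j =>
      rw [ext0_nb0 x g i _ j (by omega), coeff_mul_X, coeff_mul_C, ← ih (j + 1) hj,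
        ← ih j (by omega), pol_coeff _ _ hj, pol_coeff _ _ (by omega)]

theorem nb0_girth {I : Type} (x : I → K) (hx : Function.Injective x) (g : ℕ) :
    Girth (nb0 x g) g := by
  intro X l hl hlen hch h
  have key : ∀ j ≤ g, (pol X * (wd x l - 1)).coeff j = 0 := by
    intro j hj
    rw [mul_sub, mul_one, coeff_sub, ← pol_foldr x g X l j hj, h, sub_self]
  have h2 : ∀ j ≤ g, (wd x l - 1).coeff j = 0 := by
    intro j
    induction j using Nat.strong_induction_on with
    | _ j ih =>
      intro hj
      have := key j hj
      rw [Polynomial.coeff_mul, Finset.sum_eq_single (0, j)] at this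
      · rw [pol_coeff _ _ (by omega)] at this
        simpa [ext0] using this
      · rintro ⟨a, b⟩ hab hne
        rw [Finset.HasAntidiagonal.mem_antidiagonal] at hab
        simp only at hab ⊢
        rw [ih b ?_ (by omega), mul_zero]
        rcases Nat.eq_zero_or_pos a with rfl | ha
        · exfalso
          apply hne
          rw [zero_add] at hab
          rw [hab]
        · omega
      · intro h0
        exfalso
        apply h0
        simp
  have h3 := h2 l.length hlen
  rw [coeff_sub, Polynomial.coeff_one, if_neg (by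
    intro h0
    exact hl (List.length_eq_zero_iff.1 h0)), sub_zero] at h3
  exact wd_ne x hx l hl hch h3

/-- the required graph -/
theorem exists_graph (N : ℕ) (hN : 1 ≤ N) :
    ∃ nb : (Fin N → ZMod 2) → (Fin (8 * N ^ 2) → Bool) → (Fin (8 * N ^ 2) → Bool),
      (∀ i v, nb i (nb i v) = v) ∧ Girth nb (2 * N) := by
  classical
  have : Fact (Nat.Prime 2) := ⟨Nat.prime_two⟩
  have hcK : Nat.card (GaloisField 2 N) = 2 ^ N := GaloisField.card 2 N (by omega)
  have : Finite (GaloisField 2 N) := Nat.finite_of_card_ne_zero (by rw [hcK]; positivity)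
  have : Fintype (GaloisField 2 N) := Fintype.ofFinite _
  have hcK' : Fintype.card (GaloisField 2 N) = 2 ^ N := by
    rw [← hcK, Nat.card_eq_fintype_card]
  have e1 : (Fin N → ZMod 2) ≃ GaloisField 2 N := Fintype.equivOfCardEq (by
    rw [hcK', Fintype.card_fun, ZMod.card, Fintype.card_fin])
  have e2 : (Fin (2 * N) → Matrix (Fin 2) (Fin 2) (GaloisField 2 N)) ≃
      (Fin (8 * N ^ 2) → Bool) := Fintype.equivOfCardEq (by
    rw [Fintype.card_fun, Fintype.card_fun, Fintype.card_bool, Fintype.card_fin,
      Fintype.card_fin]
    have h4 : Fintype.card (Matrix (Fin 2) (Fin 2) (GaloisField 2 N)) = 2 ^ (4 * N) := by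
      have : Fintype.card (Matrix (Fin 2) (Fin 2) (GaloisField 2 N)) =
          Fintype.card (Fin 2 → Fin 2 → GaloisField 2 N) := rfl
      rw [this, Fintype.card_fun, Fintype.card_fun, hcK', Fintype.card_fin, ← pow_mul, ← pow_mul]
      congr 1
      ring
    rw [h4, ← pow_mul]
    congr 1
    ring)
  let nb : (Fin N → ZMod 2) → (Fin (8 * N ^ 2) → Bool) → (Fin (8 * N ^ 2) → Bool) :=
    fun i v => e2 (nb0 e1 (2 * N) i (e2.symm v))
  have hf : ∀ (l : List (Fin N → ZMod 2)) v,
      l.foldr nb v = e2 (l.foldr (nb0 e1 (2 * N)) (e2.symm v)) := by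
    intro l v
    induction l with
    | nil => simp
    | cons i l ih =>
      rw [List.foldr_cons, List.foldr_cons, ih]
      simp only [nb, Equiv.symm_apply_apply]
  refine ⟨nb, ?_, ?_⟩
  · intro i v
    simp only [nb, Equiv.symm_apply_apply, nb0_invol, Equiv.apply_symm_apply]
  · intro v l hl hlen hch h
    rw [hf] at h
    apply nb0_girth e1 e1.injective (2 * N) (e2.symm v) l hl hlen hch
    apply e2.injective
    rw [h, Equiv.apply_symm_apply]

end Mat

end Pool.Agent.K7x.QC.GraphP

namespace Pool.Agent.K7x.QC

open GraphP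

theorem p_graph : P_graph := by
  intro N hN
  obtain ⟨nb, hi, hg⟩ := exists_graph N hN
  refine ⟨nb, ⟨hi, ?_, ?_, ?_⟩⟩
  · intro i v
    exact hg v [i] (by simp) (by simp; omega) (List.isChain_singleton i)
  · intro v i j h
    have := uniq hi hg v [i] [j] (List.isChain_singleton i) (List.isChain_singleton j)
      (by simp; omega) (by simpa using h)
    simpa using this
  · intro W hW
    exact sparse_of hi hg _ W rfl hW

end Pool.Agent.K7x.QC
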