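import Pool.Agent.K7x.QC.Stm
import Mathlib

/-!
# Piece TEST: Hadamard transforms and affine subspaces

Primal membership, Hadamard transform, dual membership, Hadamard transform is the projection to the
uniform superposition of the affine subspace; Parseval.
-/

set_option autoImplicit false

namespace Pool.Agent.K7x.QC

open Finset

/-- the nontrivial character of `F_2` -/
noncomputable def ch (a : ZMod 2) : ℂ := if a = 0 then 1 else -1

theorem z2 (a : ZMod 2) : a = 0 ∨ a = 1 := by
  revert a; decide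

theorem ch_zero : ch 0 = 1 := by simp [ch]

theorem ch_one : ch 1 = -1 := by simp [ch]

theorem ch_add (a b : ZMod 2) : ch (a + b) = ch a * ch b := by
  have h11 : (1 + 1 : ZMod 2) = 0 := by decide
  rcases z2 a with rfl | rfl <;> rcases z2 b with rfl | rfl <;> simp [ch_zero, ch_one, h11]

theorem ch_sum {ι : Type} [DecidableEq ι] (s : Finset ι) (f : ι → ZMod 2) :
    ch (∑ k ∈ s, f k) = ∏ k ∈ s, ch (f k) := by
  induction s using Finset.induction_on with
  | empty => simp [ch_zero]
  | insert a s ha ih => rw [sum_insert ha, prod_insert ha, ch_add, ih]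

theorem ch_dot {n : ℕ} (u v : Fin n → ZMod 2) : ch (u ⬝ᵥ v) = ∏ k, ch (u k * v k) :=
  ch_sum _ _

/-- orthogonality -/
theorem orth {n : ℕ} (u : Fin n → ZMod 2) :
    ∑ v : Fin n → ZMod 2, ch (v ⬝ᵥ u) = if u = 0 then 2 ^ n else 0 := by
  simp_rw [ch_dot]
  have h1 : ∑ v : Fin n → ZMod 2, ∏ k, ch (v k * u k) = ∏ k, ∑ a : ZMod 2, ch (a * u k) := by
    rw [Finset.prod_univ_sum, Fintype.piFinset_univ]
  have h2 : ∀ k, ∑ a : ZMod 2, ch (a * u k) = if u k = 0 then (2 : ℂ) else 0 := by
    intro k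
    have h3 : (univ : Finset (ZMod 2)) = {0, 1} := by decide
    rw [h3, sum_pair (by decide)]
    rcases z2 (u k) with e | e <;> simp [e, ch_zero, ch_one]
    norm_num
  rw [h1, prod_congr rfl fun k _ => h2 k]
  split_ifs with h
  · subst h
    simp
  · obtain ⟨k, hk⟩ := Function.ne_iff.1 h
    exact prod_eq_zero (mem_univ k) (if_neg hk)

/-- bits and elements of `F_2` -/
def eqZ (m : ℕ) : (Fin m → Bool) ≃ (Fin m → ZMod 2) where
  toFun := toZ
  invFun := fun z k => decide (z k = 1)
  left_inv := fun z => by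
    funext k
    change decide ((if z k then (1 : ZMod 2) else 0) = 1) = z k
    cases z k <;> decide
  right_inv := fun z => by
    funext k
    change (if decide (z k = 1) then (1 : ZMod 2) else 0) = z k
    rcases z2 (z k) with e | e <;> rw [e] <;> decide

theorem sign_eq {m : ℕ} (z y : Fin m → Bool) :
    (∏ k, if z k && y k then (-1 : ℂ) else 1) = ch (toZ z ⬝ᵥ toZ y) := by
  rw [ch_dot]
  refine prod_congr rfl fun k _ => ?_
  unfold toZ
  cases z k <;> cases y k <;> simp [ch_zero, ch_one]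

theorem hadT_eq_ch {m : ℕ} (φ : (Fin m → Bool) → ℂ) (z : Fin m → Bool) :
    hadT φ z = (∑ y, ch (toZ z ⬝ᵥ toZ y) * φ y) / (Real.sqrt 2 : ℂ) ^ m := by
  unfold hadT
  simp_rw [sign_eq]

theorem sqrt_pow (m : ℕ) : (Real.sqrt 2 : ℂ) ^ m * (Real.sqrt 2 : ℂ) ^ m = 2 ^ m := by
  rw [← mul_pow, ← Complex.ofReal_mul, Real.mul_self_sqrt (by norm_num)]
  norm_num

theorem sqrt_ne (m : ℕ) : (Real.sqrt 2 : ℂ) ^ m ≠ 0 := by
  intro h
  have := sqrt_pow m
  rw [h, zero_mul] at this
  exact pow_ne_zero m (two_ne_zero (α := ℂ)) this.symm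

theorem sum_bits {m : ℕ} (f : (Fin m → ZMod 2) → ℂ) :
    ∑ y : Fin m → Bool, f (toZ y) = ∑ v, f v := (eqZ m).sum_comp f

theorem toZ_inj {m : ℕ} : Function.Injective (toZ : (Fin m → Bool) → Fin m → ZMod 2) :=
  (eqZ m).injective

/-- the kernel of two Hadamard transforms with a restriction between them -/
theorem had_had {m : ℕ} (Q : (Fin m → ZMod 2) → Prop) [DecidablePred Q] (ψ : (Fin m → Bool) → ℂ)
    (z : Fin m → Bool) :
    hadT (fun y => if Q (toZ y) then hadT ψ y else 0) z =
      (∑ z', (∑ v : Fin m → ZMod 2, if Q v then ch (v ⬝ᵥ (toZ z + toZ z')) else 0) * ψ z') /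
        2 ^ m := by
  rw [hadT_eq_ch, ← sqrt_pow m, ← div_div]
  congr 1
  have h1 : ∀ y : Fin m → Bool, ch (toZ z ⬝ᵥ toZ y) * (if Q (toZ y) then hadT ψ y else 0) =
      (∑ z', (if Q (toZ y) then ch (toZ y ⬝ᵥ (toZ z + toZ z')) else 0) * ψ z') /
        (Real.sqrt 2 : ℂ) ^ m := by
    intro y
    split_ifs with hq
    · rw [hadT_eq_ch, ← mul_div_assoc, mul_sum]
      congr 1
      refine sum_congr rfl fun z' _ => ?_
      rw [dotProduct_add, ch_add, dotProduct_comm (toZ z) (toZ y)]
      ring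
    · simp
  rw [sum_congr rfl fun y _ => h1 y, ← sum_div, sum_comm]
  congr 1
  refine sum_congr rfl fun z' _ => ?_
  rw [← sum_mul]
  congr 1
  exact sum_bits fun v => if Q v then ch (v ⬝ᵥ (toZ z + toZ z')) else 0

open scoped Classical in
theorem perp_iff {h m : ℕ} (p : Par h m) (y : Fin m → ZMod 2) :
    Perp p y ↔ Matrix.vecMul y p.2 = 0 := by
  constructor
  · intro hy
    funext j
    have h1 := hy (Pi.single j 1) 0
    unfold ev at h1
    rw [dotProduct_add, dotProduct_add, add_right_inj, Matrix.mulVec_zero, dotProduct_zero,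
      Matrix.dotProduct_mulVec, dotProduct_single, mul_one] at h1
    exact h1
  · intro hy i j
    unfold ev
    rw [dotProduct_add, dotProduct_add, Matrix.dotProduct_mulVec, Matrix.dotProduct_mulVec, hy,
      zero_dotProduct, zero_dotProduct]

open scoped Classical in
theorem perp_sum {h m : ℕ} (p : Par h m) (y : Fin m → ZMod 2) :
    (2 ^ h : ℂ) * (if Perp p y then 1 else 0) = ∑ k : Ix h, ch (y ⬝ᵥ p.2.mulVec k) := by
  have h1 : ∀ k : Ix h, ch (y ⬝ᵥ p.2.mulVec k) = ch (k ⬝ᵥ Matrix.vecMul y p.2) := by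
    intro k
    rw [Matrix.dotProduct_mulVec, dotProduct_comm]
  rw [sum_congr rfl fun k _ => h1 k, orth]
  simp only [perp_iff]
  split_ifs <;> simp

theorem mul_inj {h m : ℕ} {p : Par h m} (hp : Inj p) : Function.Injective p.2.mulVec := by
  intro i j hij
  refine hp ?_
  unfold ev
  rw [hij]

theorem self_add {n : ℕ} (u : Fin n → ZMod 2) : u + u = 0 := by
  funext k
  rcases z2 (u k) with e | e <;> simp only [Pi.add_apply, Pi.zero_apply, e] <;> decide

open scoped Classical in
/-- the sum over the orthogonal vectors -/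
theorem perp_total {h m : ℕ} {p : Par h m} (hp : Inj p) (w : Fin m → ZMod 2) :
    (2 ^ h : ℂ) * ∑ v : Fin m → ZMod 2, (if Perp p v then ch (v ⬝ᵥ w) else 0) =
      if ∃ k, p.2.mulVec k = w then 2 ^ m else 0 := by
  have h1 : ∀ v : Fin m → ZMod 2, (2 ^ h : ℂ) * (if Perp p v then ch (v ⬝ᵥ w) else 0) =
      ∑ k : Ix h, ch (v ⬝ᵥ (p.2.mulVec k + w)) := by
    intro v
    have e : (if Perp p v then ch (v ⬝ᵥ w) else 0) = (if Perp p v then 1 else 0) * ch (v ⬝ᵥ w) := by
      split_ifs <;> simp
    rw [e, ← mul_assoc, perp_sum, sum_mul]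
    refine sum_congr rfl fun k _ => ?_
    rw [dotProduct_add, ch_add]
  rw [mul_sum, sum_congr rfl fun v _ => h1 v, sum_comm]
  have h2 : ∀ k : Ix h, ∑ v : Fin m → ZMod 2, ch (v ⬝ᵥ (p.2.mulVec k + w)) =
      if p.2.mulVec k = w then 2 ^ m else 0 := by
    intro k
    rw [orth]
    have : (p.2.mulVec k + w = 0) ↔ p.2.mulVec k = w := by
      constructor
      · intro e
        calc p.2.mulVec k = p.2.mulVec k + (w + w) := by rw [self_add, add_zero]
          _ = w := by rw [← add_assoc, e, zero_add]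
      · rintro rfl
        exact self_add _
    simp only [this]
  rw [sum_congr rfl fun k _ => h2 k]
  split_ifs with hw
  · obtain ⟨k₀, rfl⟩ := hw
    rw [sum_eq_single k₀]
    · simp
    · intro k _ hk
      exact if_neg fun e => hk (mul_inj hp e)
    · intro hk
      exact absurd (mem_univ _) hk
  · exact sum_eq_zero fun k _ => if_neg fun e => hw ⟨k, e⟩

open scoped Classical in
theorem test1 (h m : ℕ) (p : Par h m) (hp : Inj p) (φ : (Fin m → Bool) → ℂ)
    (z : Fin m → Bool) :
    hadT (fun y => if Perp p (toZ y) then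
      hadT (fun z' => if ∃ i, ev p i = toZ z' then φ z' else 0) y else 0) z =
    if ∃ i, ev p i = toZ z then (∑ z', if ∃ i, ev p i = toZ z' then φ z' else 0) / 2 ^ h else 0 := by
  rw [had_had (fun v => Perp p v)]
  have h2 : (2 : ℂ) ^ h ≠ 0 := pow_ne_zero _ two_ne_zero
  have hm : (2 : ℂ) ^ m ≠ 0 := pow_ne_zero _ two_ne_zero
  have key : ∀ z' : Fin m → Bool,
      (2 ^ h : ℂ) * ((∑ v : Fin m → ZMod 2, if Perp p v then ch (v ⬝ᵥ (toZ z + toZ z')) else 0) *
        (if ∃ i, ev p i = toZ z' then φ z' else 0)) =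
      (if ∃ i, ev p i = toZ z then 2 ^ m else 0) * (if ∃ i, ev p i = toZ z' then φ z' else 0) := by
    intro z'
    rw [← mul_assoc, perp_total hp]
    by_cases hz' : ∃ i, ev p i = toZ z'
    · rw [if_pos hz']
      obtain ⟨i', hi'⟩ := hz'
      congr 1
      have : (∃ k, p.2.mulVec k = toZ z + toZ z') ↔ ∃ i, ev p i = toZ z := by
        constructor
        · rintro ⟨k, hk⟩
          refine ⟨k + i', ?_⟩
          unfold ev at hi' ⊢
          rw [Matrix.mulVec_add, hk]
          calc p.1 + (toZ z + toZ z' + p.2.mulVec i') = toZ z + toZ z' + (p.1 + p.2.mulVec i') := by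
                abel
            _ = toZ z := by rw [hi', add_assoc, self_add, add_zero]
        · rintro ⟨i, hi⟩
          refine ⟨i + i', ?_⟩
          rw [← hi, ← hi']
          unfold ev
          rw [Matrix.mulVec_add]
          calc p.2.mulVec i + p.2.mulVec i' = (p.1 + p.1) + (p.2.mulVec i + p.2.mulVec i') := by
                rw [self_add, zero_add]
            _ = _ := by abel
      simp only [this]
    · rw [if_neg hz', mul_zero, mul_zero]
  have h3 := sum_congr rfl fun z' (_ : z' ∈ (univ : Finset (Fin m → Bool))) => key z'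
  rw [← mul_sum, ← mul_sum] at h3
  rw [div_eq_iff hm]
  apply mul_left_cancel₀ h2
  rw [h3]
  split_ifs
  · field_simp
  · simp

open scoped Classical in
theorem test2 (m : ℕ) (φ : (Fin m → Bool) → ℂ) (z : Fin m → Bool) :
    hadT (fun y => if toZ y = 0 then hadT φ y else 0) z = (∑ z', φ z') / 2 ^ m := by
  rw [had_had (fun v => v = 0) φ z]
  congr 1
  refine sum_congr rfl fun z' _ => ?_
  rw [sum_ite_eq' univ (0 : Fin m → ZMod 2), if_pos (mem_univ _), zero_dotProduct, ch_zero,
    one_mul]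

theorem test3 (m : ℕ) (φ : (Fin m → Bool) → ℂ) :
    ∑ z, ‖hadT φ z‖ ^ 2 = ∑ z, ‖φ z‖ ^ 2 := by
  have hc : ∀ a, (starRingEnd ℂ) (ch a) = ch a := by
    intro a
    rcases z2 a with rfl | rfl <;> simp [ch_zero, ch_one]
  have h0 : ((∑ z, ‖hadT φ z‖ ^ 2 : ℝ) : ℂ) = ((∑ z, ‖φ z‖ ^ 2 : ℝ) : ℂ) := by
    push_cast
    have e : ∀ w : ℂ, ((‖w‖ : ℂ)) ^ 2 = w * (starRingEnd ℂ) w := fun w => by
      rw [Complex.mul_conj, Complex.normSq_eq_norm_sq]; push_cast; rfl
    simp_rw [e]
    have h1 : ∀ z : Fin m → Bool, hadT φ z * (starRingEnd ℂ) (hadT φ z) =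
        (∑ y, ∑ y', ch (toZ z ⬝ᵥ (toZ y + toZ y')) * (φ y * (starRingEnd ℂ) (φ y'))) / 2 ^ m := by
      intro z
      rw [hadT_eq_ch, map_div₀, map_pow, Complex.conj_ofReal, map_sum, div_mul_div_comm, sqrt_pow,
        sum_mul_sum]
      congr 1
      refine sum_congr rfl fun y _ => sum_congr rfl fun y' _ => ?_
      rw [map_mul, hc, dotProduct_add, ch_add]
      ring
    rw [sum_congr rfl fun z _ => h1 z, ← sum_div, sum_comm]
    have h2 : ∀ y : Fin m → Bool, ∑ z : Fin m → Bool, ∑ y', ch (toZ z ⬝ᵥ (toZ y + toZ y')) *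
        (φ y * (starRingEnd ℂ) (φ y')) = 2 ^ m * (φ y * (starRingEnd ℂ) (φ y)) := by
      intro y
      rw [sum_comm]
      have h3 : ∀ y' : Fin m → Bool, ∑ z : Fin m → Bool, ch (toZ z ⬝ᵥ (toZ y + toZ y')) *
          (φ y * (starRingEnd ℂ) (φ y')) =
          if y' = y then 2 ^ m * (φ y * (starRingEnd ℂ) (φ y')) else 0 := by
        intro y'
        rw [← sum_mul, sum_bits fun v => ch (v ⬝ᵥ (toZ y + toZ y')), orth]
        have : (toZ y + toZ y' = 0) ↔ y' = y := by
          constructor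
          · intro e
            apply toZ_inj
            calc toZ y' = (toZ y + toZ y) + toZ y' := by rw [self_add, zero_add]
              _ = toZ y := by rw [add_assoc, e, add_zero]
          · rintro rfl
            exact self_add _
        simp only [this]
        split_ifs <;> simp
      rw [sum_congr rfl fun y' _ => h3 y', sum_ite_eq' univ y]
      simp
    rw [sum_congr rfl fun y _ => h2 y, ← mul_sum]
    field_simp
  exact_mod_cast h0

theorem p_test : P_test := by
  refine ⟨fun h m p hp φ z => ?_, fun m φ z => ?_, test3⟩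
  · exact test1 h m p hp φ z
  · exact test2 m φ z

end Pool.Agent.K7x.QC
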