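import Pool.Agent.K7x.QC.World2
import Pool.Agent.K7x.QC.Graph
import Pool.Agent.K7x.QC.Core
import Pool.Agent.K7x.QC.Core2
import Pool.Agent.K7x.QC.Aff
import Pool.Agent.K7x.QC.Close
import Pool.Agent.K7x.QC.Circ
import Pool.Agent.K7x.QC.Test
import Pool.Agent.K7x.QC.Norm

/-!
# A classical oracle for `QMA` with perfect completeness, and its complement, versus `QCMA`

Above every oracle `B` there is a classical oracle `A` and a language `L` such that `L` and its
complement are in `QMA` with perfect completeness relative to `A`, but neither of them is in `QCMA`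
relative to `A`, even if the verifier may use time and classical witnesses of length `2 ^ o(n)`, and
`L` is not even decided by nonadaptive questions to such a `QCMA` verifier.
-/

set_option autoImplicit false

namespace Pool.Agent.K7x.QC.ClassicalOracle

open Pool.Agent.NPC Pool.Agent.H620R2.Gauge Pool.Agent.H9x.Q Pool.Agent.K7x.QC Filter
open scoped Asymptotics

theorem result (B : Oracle) :
    ∃ A : Oracle, Reduces {y | B y = true} {y | A y = true} ∧ ∃ L : Set (List Bool),
      IsQMA1 A L ∧ IsQMA1 A Lᶜ ∧ ∀ t : ℕ → ℕ, Computable t →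
        ((fun n => (t n : ℝ)) =o[atTop] fun n => (n : ℝ)) →
          ¬ IsQCMATime t A L ∧ ¬ IsQCMATime t A Lᶜ ∧ ¬ IsTTQCMATime t A L :=
  world2 p_graph (p_core p_close p_aff) (p_few p_aff) (p_core2 p_close p_aff) p_circ
    (p_norm p_test) B

end Pool.Agent.K7x.QC.ClassicalOracle
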