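import Pool.Agent.K7x.QC.Core2
import Pool.Agent.K7x.QC.Close
import Pool.Agent.K7x.QC.Stm3

/-!
# Piece CORE3
-/

set_option autoImplicit false
set_option linter.unusedSectionVars false

namespace Pool.Agent.K7x.QC

open Finset

section Graph

variable {V I : Type} [Fintype V] [DecidableEq V] [Fintype I] [DecidableEq I]

theorem bud2_card {nb : I → V → V} {r j : ℕ} {F : Finset V} (hg : Spa r nb) (hb : Bud2 nb F j)
    (hF : #F < 2 ^ r) : #F ≤ 4 * j := by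
  have h1 := hg F hF
  unfold Bud2 at hb
  omega

theorem inner_insert {nb : I → V → V} {r : ℕ} {F : Finset V} (hg : Good r nb)
    {v : V} (hv : v ∉ F) (h3 : 3 ≤ #{i | nb i v ∈ F}) :
    inner nb F + 6 ≤ inner nb (insert v F) := by
  classical
  set J : Finset I := {i | nb i v ∈ F} with hJ
  have h1 : inner nb F + #J + #J ≤ inner nb (insert v F) := by
    unfold inner
    set A : Finset (V × I) := {p ∈ F ×ˢ (univ : Finset I) | nb p.2 p.1 ∈ F} with hA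
    set B : Finset (V × I) := J.image fun i => (v, i) with hB
    set C : Finset (V × I) := J.image fun i => (nb i v, i) with hC
    have hBc : #B = #J := card_image_of_injective _ fun i i' h => (Prod.mk.inj h).2
    have hCc : #C = #J := card_image_of_injective _ fun i i' h => (Prod.mk.inj h).2
    have hAB : Disjoint A B := by
      rw [disjoint_left]
      intro p hp hp'
      rw [hA, mem_filter, mem_product] at hp
      rw [hB, mem_image] at hp'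
      obtain ⟨i, _, rfl⟩ := hp'
      exact hv hp.1.1
    have hABC : Disjoint (A ∪ B) C := by
      rw [disjoint_left]
      intro p hp hp'
      rw [hC, mem_image] at hp'
      obtain ⟨i, hi, rfl⟩ := hp'
      rw [hJ, mem_filter] at hi
      rw [mem_union] at hp
      rcases hp with hp | hp
      · rw [hA, mem_filter] at hp
        have := hp.2
        simp only [hg.invol] at this
        exact hv this
      · rw [hB, mem_image] at hp
        obtain ⟨i', _, he⟩ := hp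
        have h2 := (Prod.mk.inj he).1
        rw [h2] at hv
        exact hv hi.2
    have h2 : #(A ∪ B ∪ C) = #A + #J + #J := by
      rw [card_union_of_disjoint hABC, card_union_of_disjoint hAB, hBc, hCc]
    rw [← h2]
    refine card_le_card fun p hp => ?_
    rw [mem_filter, mem_product]
    rw [mem_union, mem_union] at hp
    rcases hp with (hp | hp) | hp
    · rw [hA, mem_filter, mem_product] at hp
      exact ⟨⟨mem_insert_of_mem hp.1.1, mem_univ _⟩, mem_insert_of_mem hp.2⟩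
    · rw [hB, mem_image] at hp
      obtain ⟨i, hi, rfl⟩ := hp
      rw [hJ, mem_filter] at hi
      exact ⟨⟨mem_insert_self _ _, mem_univ _⟩, mem_insert_of_mem hi.2⟩
    · rw [hC, mem_image] at hp
      obtain ⟨i, hi, rfl⟩ := hp
      rw [hJ, mem_filter] at hi
      refine ⟨⟨mem_insert_of_mem hi.2, mem_univ _⟩, ?_⟩
      simp only [hg.invol]
      exact mem_insert_self _ _
  omega

theorem bud2_insert {nb : I → V → V} {r j : ℕ} {F : Finset V} (hg : Good r nb)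
    (hb : Bud2 nb F j) {v : V} (hv : v ∉ F) (h3 : 3 ≤ #{i | nb i v ∈ F}) :
    Bud2 nb (insert v F) j := by
  unfold Bud2 at hb ⊢
  rw [card_insert_of_notMem hv]
  have := inner_insert hg hv h3
  omega

/-- closing a set -/
theorem close3 {nb : I → V → V} {r r' j : ℕ} {F : Finset V} (hg : Good r' nb) (hs : Spa r nb)
    (hb : Bud2 nb F j) (hF : #F < 2 ^ r) (hj : 4 * j + 1 < 2 ^ r) :
    ∃ F' : Finset V, F ⊆ F' ∧ Closed nb F' ∧ Bud2 nb F' j ∧ #F' ≤ 4 * j := by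
  classical
  set S : Finset (Finset V) := (univ : Finset (Finset V)).filter fun F' =>
    F ⊆ F' ∧ Bud2 nb F' j ∧ #F' < 2 ^ r with hS
  have hne : S.Nonempty := ⟨F, by rw [hS, mem_filter]; exact ⟨mem_univ _, Subset.refl _, hb, hF⟩⟩
  obtain ⟨F', hF', hmax⟩ := S.exists_max_image card hne
  rw [hS, mem_filter] at hF'
  obtain ⟨_, h1, h2, h3⟩ := hF'
  have hc := bud2_card hs h2 h3
  refine ⟨F', h1, fun v hv => ?_, h2, hc⟩
  by_contra hcon
  rw [not_le] at hcon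
  have h4 := bud2_insert hg h2 hv hcon
  have h5 : #(insert v F') = #F' + 1 := card_insert_of_notMem hv
  have h6 := hmax (insert v F') (by
    rw [hS, mem_filter]
    exact ⟨mem_univ _, h1.trans (subset_insert _ _), h4, by omega⟩)
  omega

end Graph

section Core

variable {V : Type} [Fintype V] [DecidableEq V] {h m : ℕ}

open scoped Classical in
/-- a class whose density is large -/
structure Rch3 (nb : Ix h → V → V) (r ℓ j₀ : ℕ) (F₀ : Finset V) (E : Finset (Dat V h m)) (j : ℕ)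
    (F : Finset V) (Ω₀ : Dat V h m) : Prop where
  mem : Ω₀ ∈ E
  sub : F₀ ⊆ F
  bud : Bud2 nb F (j₀ + j)
  closed : Closed nb F
  card : #F < 2 ^ r
  dens : 2 ^ j * #(cls nb F Ω₀) ≤ 2 ^ ℓ * #{Ω ∈ E | view nb F Ω = view nb F Ω₀}

theorem Rch3.le {nb : Ix h → V → V} {r ℓ j₀ : ℕ} {F₀ : Finset V} {E : Finset (Dat V h m)} {j : ℕ}
    {F : Finset V} {Ω₀ : Dat V h m} (hE : ∀ Ω ∈ E, ∀ v, Inj (Ω v))
    (H : Rch3 nb r ℓ j₀ F₀ E j F Ω₀) : j ≤ ℓ := by
  classical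
  have h1 : #{Ω ∈ E | view nb F Ω = view nb F Ω₀} ≤ #(cls nb F Ω₀) := by
    refine card_le_card fun Ω hΩ => ?_
    rw [mem_filter] at hΩ
    exact mem_cls.2 ⟨hE Ω hΩ.1, agr_iff.2 hΩ.2⟩
  have h2 : 0 < #(cls nb F Ω₀) := by
    rw [card_pos]
    exact ⟨Ω₀, mem_cls.2 ⟨hE Ω₀ H.mem, agr_iff.2 rfl⟩⟩
  have h3 : 2 ^ j * #(cls nb F Ω₀) ≤ 2 ^ ℓ * #(cls nb F Ω₀) :=
    H.dens.trans (Nat.mul_le_mul_left _ h1)
  exact (Nat.pow_le_pow_iff_right (by norm_num)).1 (Nat.le_of_mul_le_mul_right h3 h2)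

end Core

theorem p_core3 (ha : P_aff) : P_core3 := by
  classical
  intro V _ _ h m r r' ℓ j₀ nb F₀ Ω₁ E δ hg hs h1 hm hΩ₁i hbud₀ hcl₀ hF₀ hEE hne hd hr hδ
  have hE : ∀ Ω ∈ E, ∀ v, Inj (Ω v) := fun Ω hΩ => (hEE Ω hΩ).1
  -- a reachable class
  have hex : ∃ j, ∃ F Ω₀, Rch3 nb r ℓ j₀ F₀ E j F Ω₀ := by
    obtain ⟨Ω₀, hΩ₀⟩ := hne
    refine ⟨0, F₀, Ω₀, hΩ₀, Subset.refl _, hbud₀, hcl₀, by omega, ?_⟩
    have h2 : view nb F₀ Ω₀ = view nb F₀ Ω₁ := agr_iff.1 (hEE Ω₀ hΩ₀).2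
    have e1 : cls nb F₀ Ω₀ =
        ({Ω : Dat V h m | (∀ v, Inj (Ω v)) ∧ Agr nb F₀ Ω Ω₁} : Finset _) := by
      ext Ω
      rw [mem_cls, mem_filter, and_iff_right (mem_univ _), agr_iff, agr_iff, h2]
    have e2 : {Ω ∈ E | view nb F₀ Ω = view nb F₀ Ω₀} = E := by
      refine filter_true_of_mem fun Ω hΩ => ?_
      rw [h2]
      exact agr_iff.1 (hEE Ω hΩ).2
    rw [e1, e2, pow_zero, one_mul]
    exact hd
  -- the last one
  obtain ⟨j, ⟨F, Ω₀, hR⟩, hlast⟩ : ∃ j, (∃ F Ω₀, Rch3 nb r ℓ j₀ F₀ E j F Ω₀) ∧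
      ¬ ∃ F Ω₀, Rch3 nb r ℓ j₀ F₀ E (j + 1) F Ω₀ := by
    by_contra hcon
    push Not at hcon
    obtain ⟨i₀, hi₀⟩ := hex
    have hall : ∀ k, ∃ F Ω₀, Rch3 nb r ℓ j₀ F₀ E (i₀ + k) F Ω₀ := by
      intro k
      induction k with
      | zero => exact hi₀
      | succ k ih => exact hcon _ ih
    obtain ⟨F, Ω₀, hR⟩ := hall (ℓ + 1)
    have := hR.le hE
    omega
  have hjℓ := hR.le hE
  have hF3 : #F ≤ 4 * (j₀ + j) := bud2_card hs hR.bud hR.card
  refine ⟨F, Ω₀, j₀ + j, hR.sub, hR.closed, hR.bud, by omega, hF3, hR.mem, fun l => ?_⟩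
  by_contra hcon
  rw [not_le] at hcon
  have hΩinj : ∀ v, Inj (Ω₀ v) := hE Ω₀ hR.mem
  set v := l.2.1 with hv
  set C := cls nb F Ω₀ with hC
  set L := {Ω ∈ C | Live nb F Ω l} with hL
  set EC := {Ω ∈ E | view nb F Ω = view nb F Ω₀} with hEC
  have eEC : {Ω ∈ E | Agr nb F Ω Ω₀} = EC := filter_congr fun Ω _ => agr_iff
  set EL := {Ω ∈ E | Agr nb F Ω Ω₀ ∧ Live nb F Ω l} with hEL
  rw [eEC] at hcon
  have hδ0 : 0 < δ := lt_of_lt_of_le (by positivity) hδ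
  have hELpos : 0 < #EL := by
    have : (0 : ℝ) < #EL := lt_of_le_of_lt (by positivity) hcon
    exact_mod_cast this
  have hvF : v ∉ F := by
    obtain ⟨Ω, hΩ⟩ := card_pos.1 hELpos
    rw [hEL, mem_filter] at hΩ
    exact hΩ.2.2.1
  -- the larger set
  have hb1 : Bud2 nb (insert v F) (j₀ + (j + 1)) := by
    have h2 := inner_mono (nb := nb) (subset_insert v F)
    have h3 := hR.bud
    unfold Bud2 at h3 ⊢
    rw [card_insert_of_notMem hvF]
    omega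
  obtain ⟨F', hF'1, hF'2, hF'3, hF'4⟩ := close3 hg hs hb1
    (by rw [card_insert_of_notMem hvF]; omega) (by omega)
  have hFF' : F ⊆ F' := (subset_insert v F).trans hF'1
  have hvF' : v ∈ F' := hF'1 (mem_insert_self v F)
  have hELL : EL ⊆ L := by
    intro Ω hΩ
    rw [hEL, mem_filter] at hΩ
    rw [hL, mem_filter, hC, mem_cls]
    exact ⟨⟨hE Ω hΩ.1, hΩ.2.1⟩, hΩ.2.2⟩
  have hLne : L.Nonempty := (card_pos.1 hELpos).mono hELL
  -- the classes of `F'`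
  have hcl : ∀ Ω ∈ L, {Ω' ∈ L | view nb F' Ω' = view nb F' Ω} = cls nb F' Ω := by
    intro Ω hΩ
    rw [hL, mem_filter, hC, mem_cls] at hΩ
    obtain ⟨⟨k1, k2⟩, k3⟩ := hΩ
    ext Ω'
    rw [mem_filter, hL, mem_filter, hC, mem_cls, mem_cls]
    constructor
    · rintro ⟨⟨⟨k4, _⟩, _⟩, k5⟩
      exact ⟨k4, agr_iff.2 k5⟩
    · rintro ⟨k4, k5⟩
      refine ⟨⟨⟨k4, ?_⟩, ?_⟩, agr_iff.1 k5⟩
      · exact agr_iff.2 ((agr_iff.1 (k5.mono hFF')).trans (agr_iff.1 k2))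
      · exact (live_congr (k5.1 v hvF')).2 k3
  have hno : ∀ Ω ∈ L, 2 ^ ℓ * #{Ω' ∈ EL | view nb F' Ω' = view nb F' Ω} <
      2 ^ (j + 1) * #{Ω' ∈ L | view nb F' Ω' = view nb F' Ω} := by
    intro Ω hΩ
    by_contra hge
    rw [not_lt] at hge
    have hpos : 0 < #{Ω' ∈ L | view nb F' Ω' = view nb F' Ω} :=
      card_pos.2 ⟨Ω, mem_filter.2 ⟨hΩ, rfl⟩⟩
    have hpos2 : 0 < #{Ω' ∈ EL | view nb F' Ω' = view nb F' Ω} := by
      by_contra h0
      have h0' : #{Ω' ∈ EL | view nb F' Ω' = view nb F' Ω} = 0 := by omega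
      rw [h0', mul_zero] at hge
      have : 0 < 2 ^ (j + 1) * #{Ω' ∈ L | view nb F' Ω' = view nb F' Ω} := by positivity
      omega
    obtain ⟨Ω₂, hΩ₂⟩ := card_pos.1 hpos2
    rw [mem_filter] at hΩ₂
    have hΩ₂E : Ω₂ ∈ E := (mem_filter.1 hΩ₂.1).1
    apply hlast
    refine ⟨F', Ω₂, hΩ₂E, hR.sub.trans hFF', hF'3, hF'2, by omega, ?_⟩
    have e3 : cls nb F' Ω₂ = cls nb F' Ω := by
      ext Ω'
      rw [mem_cls, mem_cls, agr_iff, agr_iff, hΩ₂.2]
    rw [e3, ← hcl Ω hΩ]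
    refine hge.trans (Nat.mul_le_mul_left _ (card_le_card fun Ω' hΩ' => ?_))
    rw [mem_filter] at hΩ' ⊢
    exact ⟨(mem_filter.1 hΩ'.1).1, hΩ'.2.trans hΩ₂.2.symm⟩
  have havg := avg (view nb F') L EL (2 ^ ℓ) (2 ^ (j + 1)) hELL hLne hno
  have hLc : #L * 2 ^ h ≤ 4 * #C := aff_live ha h1 hm hR.closed hΩinj l
  have hdens : 2 ^ j * #C ≤ 2 ^ ℓ * #EC := hR.dens
  -- the numbers
  have r1 : (2 : ℝ) ^ ℓ * #EL < 2 ^ (j + 1) * #L := by exact_mod_cast havg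
  have r2 : (#L : ℝ) * 2 ^ h ≤ 4 * #C := by exact_mod_cast hLc
  have r3 : (2 : ℝ) ^ j * #C ≤ 2 ^ ℓ * #EC := by exact_mod_cast hdens
  have p1 : (0 : ℝ) < 2 ^ ℓ := by positivity
  have p2 : (0 : ℝ) < 2 ^ j := by positivity
  have p3 : (0 : ℝ) < 2 ^ h := by positivity
  have r4 : (2 : ℝ) ^ ℓ * (δ * #EC) < 2 ^ ℓ * #EL := mul_lt_mul_of_pos_left hcon p1
  have r5 : δ * (2 ^ j * #C) ≤ δ * (2 ^ ℓ * #EC) := mul_le_mul_of_nonneg_left r3 hδ0.le
  have r6 : (8 / 2 ^ h) * (2 ^ j * #C) ≤ δ * (2 ^ j * #C) :=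
    mul_le_mul_of_nonneg_right hδ (by positivity)
  have r7 : (8 / 2 ^ h) * ((2 : ℝ) ^ j * #C) < 2 ^ (j + 1) * #L := by
    calc (8 / 2 ^ h) * ((2 : ℝ) ^ j * #C) ≤ δ * (2 ^ ℓ * #EC) := r6.trans r5
      _ = 2 ^ ℓ * (δ * #EC) := by ring
      _ < _ := r4.trans r1
  have r8 : (8 : ℝ) * #C < 2 * (#L * 2 ^ h) := by
    have e4 : (8 / 2 ^ h) * ((2 : ℝ) ^ j * #C) = (2 ^ j / 2 ^ h) * (8 * #C) := by ring
    have e5 : (2 : ℝ) ^ (j + 1) * #L = (2 ^ j / 2 ^ h) * (2 * (#L * 2 ^ h)) := by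
      rw [pow_succ]
      field_simp
    rw [e4, e5] at r7
    exact lt_of_mul_lt_mul_left r7 (by positivity)
  linarith

end Pool.Agent.K7x.QC
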