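import Pool.Agent.H9x.Q.Defs
import Mathlib.Analysis.Asymptotics.Defs
import Mathlib.Computability.Partrec

/-!
# Quantum verifiers with a classical oracle: `QMA` with perfect completeness, and `QCMA` in time
`2 ^ o(n)`
-/

set_option autoImplicit false

namespace Pool.Agent.K7x.QC

open Pool.Agent.NPC Pool.Agent.H620R2.Gauge Pool.Agent.H9x.Q Finset

/-- A verifier: a polynomial-time uniform family of quantum circuits with oracle gates. The circuit
for the inputs of length `n` has `n` input qubits, one qubit for the answer, `wit n` qubits for the
witness and `anc n` ancillary qubits. -/
structure Verifier : Type where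
  /-- the circuit for the inputs of length `n` -/
  circ : ℕ → List Gate
  /-- its code is computed in polynomial time from any string of length `n` -/
  poly : PolyTime (fun u : List Bool => bits (circ u.length))
  /-- the number of qubits of the witness -/
  wit : Polynomial ℕ
  /-- the number of ancillary qubits -/
  anc : Polynomial ℕ

/-- the number of the qubits of the circuit for the inputs of length `n` -/
def Verifier.qubits (F : Verifier) (n : ℕ) : ℕ := n + 1 + F.wit.eval n + F.anc.eval n

open scoped Classical in
/-- The initial state of `m` qubits for the input `x` and the witness `φ` of `k` qubits: the first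
qubits contain `x`, the qubits after the answer qubit (the qubit number `|x|`) contain the witness,
and all the other qubits are `0`. -/
noncomputable def start (m k : ℕ) (x : List Bool) (φ : Basis k → ℂ) : Basis m → ℂ := fun z =>
  if ∀ i, (i < x.length + 1 ∨ x.length + 1 + k ≤ i) → bit z i = x.getD i false then
    φ (fun j => bit z (x.length + 1 + j))
  else 0

/-- The probability that the answer qubit, the qubit number `n`, is one at the end, when the circuit
`C` is started in the state `ψ`. -/
noncomputable def accS (A : Oracle) (C : List Gate) {m : ℕ} (n : ℕ) (ψ : Basis m → ℂ) : ℝ :=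
  ∑ z, if bit z n then ‖run A C ψ z‖ ^ 2 else 0

/-- The probability that the verifier accepts the input `x` with the witness `φ`. -/
noncomputable def Verifier.acc (F : Verifier) (A : Oracle) (x : List Bool)
    (φ : Basis (F.wit.eval x.length) → ℂ) : ℝ :=
  accS A (F.circ x.length) x.length (start (F.qubits x.length) _ x φ)

/-- The probability that the verifier accepts the input `x` with the classical witness `w`. -/
noncomputable def Verifier.accC (F : Verifier) (A : Oracle) (x w : List Bool) : ℝ :=
  F.acc A x (ket fun i => w.getD i false)

/-- `φ` is a state (a unit vector). -/
def IsState {m : ℕ} (φ : Basis m → ℂ) : Prop := ∑ z, ‖φ z‖ ^ 2 = 1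

/-- The language `L` is in `QMA` with perfect completeness relative to `A`: for `x` in `L` some
witness (a state of `wit |x|` qubits) is accepted with probability one, and for `x` outside `L` every
witness is accepted with probability at most `1 / 3`. -/
def IsQMA1 (A : Oracle) (L : Set (List Bool)) : Prop :=
  ∃ F : Verifier, ∀ x,
    (x ∈ L → ∃ φ, IsState φ ∧ F.acc A x φ = 1) ∧
    (x ∉ L → ∀ φ, IsState φ → F.acc A x φ ≤ 1 / 3)

/-- The input `x` together with `2 ^ t |x|` ones. -/
def padT (t : ℕ → ℕ) (x : List Bool) : List Bool :=
  pairBits x (List.replicate (2 ^ t x.length) true)

/-- The language `L` is in `QCMA` with running time and witness length `2 ^ O(t n)`, relative to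
`A`: a verifier gets the input `x` together with `2 ^ t |x|` ones and a classical witness; for `x`
in `L` some classical witness is accepted with probability at least `2 / 3`, and for `x` outside `L`
every classical witness is accepted with probability at most `1 / 3`. (For `t = 0` this is `QCMA`.) -/
def IsQCMATime (t : ℕ → ℕ) (A : Oracle) (L : Set (List Bool)) : Prop :=
  ∃ F : Verifier, ∀ x,
    (x ∈ L → ∃ w : List Bool, 2 / 3 ≤ F.accC A (padT t x) w) ∧
    (x ∉ L → ∀ w : List Bool, F.accC A (padT t x) w ≤ 1 / 3)

end Pool.Agent.K7x.QC
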