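import Pool.Agent.K7x.QC.DefsT

/-!
# Nonadaptive questions to `QCMA`, also outside of the promise
-/

set_option autoImplicit false

namespace Pool.Agent.K7x.QC

open Pool.Agent.NPC Pool.Agent.H620R2.Gauge Pool.Agent.H9x.Q

/-- The language `L` is decided in time `2 ^ O(t n)` with nonadaptive questions to `QCMA`, relative to
`A`, where questions outside of the promise are allowed and may be answered in any way: from the input
`x` together with `2 ^ t |x|` ones a polynomial-time function `Q` computes a list of questions, and for
every list `a` of answers which are correct for all the questions that the verifier `F` answers with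
yes or with no, the polynomial-time function `R` finds out from the padded input and `a` whether `x`
is in `L`. -/
def IsNAQCMATime (t : ℕ → ℕ) (A : Oracle) (L : Set (List Bool)) : Prop :=
  ∃ (F : Verifier) (Q : List Bool → List (List Bool)) (R : List Bool → List Bool),
    PolyTime (fun u => bits (Q u)) ∧ PolyTime R ∧ ∀ x a,
      List.Forall₂ (fun q c => (F.Yes A q → c = true) ∧ (F.No A q → c = false))
        (Q (padT t x)) a →
      (x ∈ L ↔ R (pairBits (padT t x) a) = [true])

end Pool.Agent.K7x.QC
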