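import Pool.Agent.K7x.QC.DefsP

/-!
# Subset states as witnesses
-/

set_option autoImplicit false

namespace Pool.Agent.K7x.QC

open Pool.Agent.NPC Pool.Agent.H620R2.Gauge Pool.Agent.H9x.Q Finset

/-- `φ` is a subset state: the uniform superposition of the basis states in a nonempty set `S`, with
the amplitudes `1 / √#S`. -/
def IsSubsetState {m : ℕ} (φ : Basis m → ℂ) : Prop :=
  ∃ S : Finset (Basis m), S.Nonempty ∧
    ∀ z, φ z = if z ∈ S then ((1 / Real.sqrt (#S : ℝ) : ℝ) : ℂ) else 0

/-- The language `L` is in `oSQMA`, with perfect completeness, relative to `A`: for `x` in `L` some subset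
state is accepted with probability one (so this state is optimal), and for `x` outside `L` every state
is accepted with probability at most `1 / 3`. -/
def IsOSQMA1 (A : Oracle) (L : Set (List Bool)) : Prop :=
  ∃ F : Verifier, ∀ x,
    (x ∈ L → ∃ φ, IsSubsetState φ ∧ F.acc A x φ = 1) ∧
    (x ∉ L → ∀ φ, IsState φ → F.acc A x φ ≤ 1 / 3)

end Pool.Agent.K7x.QC
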