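import Pool.Agent.K7x.QC.Defs

/-!
# Nonadaptive questions to `QCMA`
-/

set_option autoImplicit false

namespace Pool.Agent.K7x.QC

open Pool.Agent.NPC Pool.Agent.H620R2.Gauge Pool.Agent.H9x.Q

/-- The verifier `F` answers the question `q` with yes: some classical witness is accepted with
probability at least `2 / 3`. -/
def Verifier.Yes (F : Verifier) (A : Oracle) (q : List Bool) : Prop :=
  ∃ w : List Bool, 2 / 3 ≤ F.accC A q w

/-- The verifier `F` answers the question `q` with no: every classical witness is accepted with
probability at most `1 / 3`. -/
def Verifier.No (F : Verifier) (A : Oracle) (q : List Bool) : Prop :=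
  ∀ w : List Bool, F.accC A q w ≤ 1 / 3

open scoped Classical in
/-- The language `L` is decided in time `2 ^ O(t n)` with nonadaptive questions to `QCMA` (a truth
table reduction), relative to `A`: from the input `x` together with `2 ^ t |x|` ones a polynomial-time
function `Q` computes a list of questions, each of which is answered with yes or with no by the
verifier `F`, and whether `x` is in `L` is computed in polynomial time from this padded input and the
list of the answers. -/
def IsTTQCMATime (t : ℕ → ℕ) (A : Oracle) (L : Set (List Bool)) : Prop :=
  ∃ (F : Verifier) (Q : List Bool → List (List Bool)) (R : List Bool → List Bool),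
    PolyTime (fun u => bits (Q u)) ∧ PolyTime R ∧ ∀ x,
      (∀ q ∈ Q (padT t x), F.Yes A q ∨ F.No A q) ∧
      (x ∈ L ↔ R (pairBits (padT t x) ((Q (padT t x)).map fun q => decide (F.Yes A q))) = [true])

end Pool.Agent.K7x.QC
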