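import Pool.Agent.K7x.QC.Stm3

/-! Piece DENS: insensitive sets are dense. -/

set_option autoImplicit false

namespace Pool.Agent.K7x.QC

open Finset

section Gen

variable {V P : Type} [DecidableEq V] [DecidableEq P]

theorem dens_aux (S : V → Finset P) (q : ℕ) (hq : 1 ≤ q) (hS : ∀ v, #(S v) ≤ q) (A : Finset V) :
    ∀ (s : ℕ) (E : Finset (V → P)), E.Nonempty → (∀ Ω ∈ E, ∀ v ∈ A, Ω v ∈ S v) →
      (∀ Ω ∈ E, ∃ T : Finset V, #T ≤ s ∧
        ∀ v ∈ A, (∃ p ∈ S v, Function.update Ω v p ∉ E) → v ∈ T) →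
      ∏ v ∈ A, #(S v) ≤ q ^ s * #E := by
  induction A using Finset.induction_on with
  | empty =>
    intro s E hE _ _
    rw [prod_empty]
    exact Nat.one_le_iff_ne_zero.2 (Nat.mul_ne_zero (pow_ne_zero _ (by omega))
      (card_pos.2 hE).ne')
  | @insert v A hv ih =>
    intro s E hE h1 h2
    rw [prod_insert hv]
    have hsub : ∀ c, ∀ Ω ∈ E.filter (fun Ω => Ω v = c), ∀ u ∈ A,
        (∃ p ∈ S u, Function.update Ω u p ∉ E.filter (fun Ω => Ω v = c)) →
          ∃ p ∈ S u, Function.update Ω u p ∉ E := by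
      rintro c Ω hΩ u hu ⟨p, hp, hnot⟩
      refine ⟨p, hp, fun h => hnot ?_⟩
      rw [mem_filter] at hΩ ⊢
      refine ⟨h, ?_⟩
      have hne : v ≠ u := by
        rintro rfl
        exact hv hu
      rw [Function.update_of_ne hne]
      exact hΩ.2
    by_cases hall : ∀ c ∈ S v, (E.filter (fun Ω => Ω v = c)).Nonempty
    · have h3 : ∀ c ∈ S v, ∏ u ∈ A, #(S u) ≤ q ^ s * #(E.filter (fun Ω => Ω v = c)) := by
        intro c hc
        refine ih s _ (hall c hc) (fun Ω hΩ u hu => h1 Ω (mem_filter.1 hΩ).1 u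
          (mem_insert_of_mem hu)) fun Ω hΩ => ?_
        obtain ⟨T, t1, t2⟩ := h2 Ω (mem_filter.1 hΩ).1
        exact ⟨T, t1, fun u hu hs => t2 u (mem_insert_of_mem hu) (hsub c Ω hΩ u hu hs)⟩
      have h4 : #E = ∑ c ∈ S v, #(E.filter (fun Ω => Ω v = c)) :=
        card_eq_sum_card_fiberwise fun Ω hΩ => h1 Ω hΩ v (mem_insert_self _ _)
      calc #(S v) * ∏ u ∈ A, #(S u) = ∑ _c ∈ S v, ∏ u ∈ A, #(S u) := by
            rw [sum_const, smul_eq_mul]
        _ ≤ ∑ c ∈ S v, q ^ s * #(E.filter (fun Ω => Ω v = c)) := sum_le_sum h3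
        _ = q ^ s * #E := by rw [← mul_sum, ← h4]
    · push Not at hall
      obtain ⟨c₀, hc₀, he₀⟩ := hall
      obtain ⟨Ω₁, hΩ₁⟩ := hE
      have hne : (E.filter (fun Ω => Ω v = Ω₁ v)).Nonempty := ⟨Ω₁, mem_filter.2 ⟨hΩ₁, rfl⟩⟩
      have hsens : ∀ Ω ∈ E, ∃ p ∈ S v, Function.update Ω v p ∉ E := by
        intro Ω hΩ
        refine ⟨c₀, hc₀, fun h => ?_⟩
        have h5 : Function.update Ω v c₀ ∈ E.filter (fun Ω => Ω v = c₀) :=
          mem_filter.2 ⟨h, Function.update_self _ _ _⟩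
        rw [he₀] at h5
        exact absurd h5 (notMem_empty _)
      have hT : ∀ Ω ∈ E, ∃ T : Finset V, #T + 1 ≤ s ∧
          ∀ u ∈ A, (∃ p ∈ S u, Function.update Ω u p ∉ E) → u ∈ T := by
        intro Ω hΩ
        obtain ⟨T, t1, t2⟩ := h2 Ω hΩ
        have t3 : v ∈ T := t2 v (mem_insert_self _ _) (hsens Ω hΩ)
        refine ⟨T.erase v, ?_, fun u hu hs => ?_⟩
        · rw [card_erase_add_one t3]
          exact t1
        · refine mem_erase.2 ⟨?_, t2 u (mem_insert_of_mem hu) hs⟩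
          rintro rfl
          exact hv hu
      obtain ⟨t, rfl⟩ : ∃ t, s = t + 1 := by
        obtain ⟨T, h5, -⟩ := hT Ω₁ hΩ₁
        exact ⟨s - 1, by omega⟩
      have h7 := ih t _ hne (fun Ω hΩ u hu => h1 Ω (mem_filter.1 hΩ).1 u
          (mem_insert_of_mem hu)) fun Ω hΩ => by
        obtain ⟨T, t1, t2⟩ := hT Ω (mem_filter.1 hΩ).1
        exact ⟨T, by omega, fun u hu hs => t2 u hu (hsub _ Ω hΩ u hu hs)⟩
      calc #(S v) * ∏ u ∈ A, #(S u) ≤ q * (q ^ t * #(E.filter (fun Ω => Ω v = Ω₁ v))) :=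
            Nat.mul_le_mul (hS v) h7
        _ ≤ q * (q ^ t * #E) := Nat.mul_le_mul le_rfl (Nat.mul_le_mul le_rfl
            (card_le_card (filter_subset _ _)))
        _ = q ^ (t + 1) * #E := by ring

end Gen

theorem card_par (h m : ℕ) : Fintype.card (Par h m) = 2 ^ (m * (h + 1)) := by
  have e1 : Fintype.card (Matrix (Fin m) (Fin h) (ZMod 2)) = (2 ^ h) ^ m := by
    rw [Fintype.card_congr (Matrix.of (m := Fin m) (n := Fin h) (α := ZMod 2)).symm]
    simp
  rw [Fintype.card_prod, e1]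
  simp only [Fintype.card_fun, ZMod.card, Fintype.card_fin]
  rw [← pow_mul, ← pow_add]
  congr 1
  ring

theorem p_dens : P_dens := by
  classical
  intro V _ _ h m s nb F Ω₁ E hE hcls hsens
  let S : V → Finset (Par h m) := fun v => univ.filter fun p => Inj p ∧ (v ∈ F → p = Ω₁ v) ∧
    ∀ i, nb i v ∈ F → ev p i = ev (Ω₁ v) i
  have hiff : ∀ Ω : Dat V h m, ((∀ v, Inj (Ω v)) ∧ Agr nb F Ω Ω₁) ↔ ∀ v, Ω v ∈ S v := by
    intro Ω
    simp only [S, mem_filter, mem_univ, true_and, Agr]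
    constructor
    · rintro ⟨a1, a2, a3⟩ v
      exact ⟨a1 v, a2 v, a3 v⟩
    · intro a
      exact ⟨fun v => (a v).1, fun v => (a v).2.1, fun v => (a v).2.2⟩
  have hS : ∀ v, #(S v) ≤ 2 ^ (m * (h + 1)) := by
    intro v
    rw [← card_par]
    exact card_le_univ _
  have h1 := dens_aux S (2 ^ (m * (h + 1))) Nat.one_le_two_pow hS univ s E hE
    (fun Ω hΩ v _ => (hiff Ω).1 (hcls Ω hΩ) v) fun Ω hΩ => by
      refine ⟨_, hsens Ω hΩ, fun v _ hv => ?_⟩
      obtain ⟨p, hp, hn⟩ := hv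
      rw [mem_filter]
      refine ⟨mem_univ _, p, (hiff _).2 fun u => ?_, hn⟩
      by_cases hu : u = v
      · subst hu
        rw [Function.update_self]
        exact hp
      · rw [Function.update_of_ne hu]
        exact (hiff Ω).1 (hcls Ω hΩ) u
  have h2 : (univ.filter fun Ω : Dat V h m => (∀ v, Inj (Ω v)) ∧ Agr nb F Ω Ω₁) =
      Fintype.piFinset S := by
    ext Ω
    rw [mem_filter, Fintype.mem_piFinset, ← hiff]
    simp
  rw [h2, Fintype.card_piFinset, pow_mul]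
  exact h1

end Pool.Agent.K7x.QC
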