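import Pool.Agent.K7x.QC.Fool
import Pool.Agent.H622R2.Exp.YAux

/-!
# The stages
-/

set_option autoImplicit false

namespace Pool.Agent.K7x.QC

open Finset Filter Pool.Agent.NPC Pool.Agent.H620R2.Gauge Pool.Agent.H9x.Q
open Pool.Agent.R562.QH (nrm nrm_sq nrm_nonneg nrm_add_le nrm_congr)

/-! ### Infinitely many requirements -/

/-- **A diagonal argument.** The requirements can be met one after the other, each one by a
change at one large place which determines it together with finitely many other places. -/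
theorem diag {X : ℕ → Type} (ok : ∀ n, Set (X n)) (d : ∀ n, X n) (hd : ∀ n, d n ∈ ok n)
    (R : ℕ → (∀ n, X n) → Prop)
    (h : ∀ (k : ℕ) (W : ∀ n, X n) (n₀ : ℕ), (∀ n, W n ∈ ok n) → ∃ n, n₀ ≤ n ∧ ∃ w ∈ ok n,
      ∃ m, n < m ∧ ∀ W' : ∀ n, X n, (∀ i < m, W' i = Function.update W n w i) → R k W') :
    ∃ W : ∀ n, X n, (∀ n, W n ∈ ok n) ∧ ∀ k, R k W := by
  choose f hf w hw m hm hR using h
  -- the states: the choices so far and the bound
  let St := {p : (∀ n, X n) × ℕ // ∀ n, p.1 n ∈ ok n}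
  let nxt : ℕ → St → St := fun k p =>
    ⟨(Function.update p.1.1 (f k p.1.1 p.1.2 p.2) (w k p.1.1 p.1.2 p.2), m k p.1.1 p.1.2 p.2), by
      intro n
      by_cases hn : n = f k p.1.1 p.1.2 p.2
      · subst hn
        simp only [Function.update_self]
        exact hw _ _ _ _
      · simp only [Function.update_of_ne hn]
        exact p.2 n⟩
  let S : ℕ → St := fun k => Nat.rec ⟨(d, 0), hd⟩ (fun k p => nxt k p) k
  have hS : ∀ k, S (k + 1) = nxt k (S k) := fun k => rfl
  have hlt : ∀ k, (S k).1.2 < (S (k + 1)).1.2 := by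
    intro k
    rw [hS]
    exact (hf k _ _ (S k).2).trans_lt (hm k _ _ (S k).2)
  have hmono : StrictMono fun k => (S k).1.2 := strictMono_nat_of_lt_succ hlt
  have hstep : ∀ k i, i < (S k).1.2 → (S (k + 1)).1.1 i = (S k).1.1 i := by
    intro k i hi
    rw [hS]
    exact Function.update_of_ne (hi.trans_le (hf k _ _ (S k).2)).ne _ _
  have hstable : ∀ k l i, k ≤ l → i < (S k).1.2 → (S l).1.1 i = (S k).1.1 i := by
    intro k l i hkl hi
    induction l, hkl using Nat.le_induction with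
    | base => rfl
    | succ l hkl ih => rw [hstep l i (hi.trans_le (hmono.monotone hkl)), ih]
  have hbig : ∀ i, i < (S (i + 1)).1.2 := fun i => (Nat.lt_succ_self i).trans_le (hmono.le_apply)
  refine ⟨fun i => (S (i + 1)).1.1 i, fun n => (S (n + 1)).2 n, fun k => ?_⟩
  refine hR k (S k).1.1 (S k).1.2 (S k).2 _ fun i hi => ?_
  have hi' : i < (S (k + 1)).1.2 := hi
  show (S (i + 1)).1.1 i = (S (k + 1)).1.1 i
  rcases le_total (i + 1) (k + 1) with h1 | h1
  · exact (hstable _ _ i h1 (hbig i)).symm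
  · exact hstable _ _ i h1 hi'

/-! ### Sizes and countability -/

theorem Verifier.size (F : Verifier) : ∃ P : Polynomial ℕ, ∀ n,
    (F.circ n).length ≤ P.eval n ∧ Short (P.eval n) (F.circ n) :=
  QFamily.size ⟨F.circ, F.poly, F.anc⟩

instance : Countable Verifier := by
  have h2 := CC.poly_countable
  let G : Verifier → QFamily × Polynomial ℕ := fun F => (⟨F.circ, F.poly, F.anc⟩, F.wit)
  have hG : Function.Injective G := by
    intro F F' h
    obtain ⟨c, p, a, b⟩ := F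
    obtain ⟨c', p', a', b'⟩ := F'
    simp only [G, Prod.mk.injEq, QFamily.mk.injEq] at h
    obtain ⟨⟨rfl, rfl⟩, rfl⟩ := h
    rfl
  exact hG.countable

instance : Countable {t : ℕ → ℕ // Computable t} := by
  have h : ∀ t : {t : ℕ → ℕ // Computable t}, ∃ c : Nat.Partrec.Code, c.eval = fun n => (t.1 n : Part ℕ) :=
    fun t => Nat.Partrec.Code.exists_code.1 (Partrec.nat_iff.1 t.2)
  choose c hc using h
  have hinj : Function.Injective c := by
    intro t t' h
    have h1 := hc t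
    rw [h, hc t'] at h1
    refine Subtype.ext (funext fun n => ?_)
    have h2 := congrFun h1 n
    exact (Part.some_injective h2).symm
  exact hinj.countable

/-! ### Numbers -/

theorem num {t : ℕ → ℕ} (ht : (fun n => (t n : ℝ)) =o[atTop] fun n => (n : ℝ)) (k : ℕ) (n₀ : ℕ) :
    ∃ n, n₀ ≤ n ∧ ∀ ℓ len : ℕ, ℓ ≤ (2 * n + 1 + 2 ^ t n + 2) ^ k → len ≤ (2 * n + 1 + 2 ^ t n + 2) ^ k →
      3000 * (ℓ + 1) + 1000 ≤ 2 ^ (n + 1) ∧ 5000 * len ^ 2 < 2 ^ (n + 1) := by
  set j : ℕ := 8 * (k + 1) with hj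
  have hj0 : (0 : ℝ) < 1 / j := by
    have : 0 < j := by omega
    positivity
  have h1 := ht.bound hj0
  have h2 : ∀ᶠ u : ℕ in atTop, 2 * (j * (u + 1)) + 3 ≤ 2 ^ u := by
    have h3 : Tendsto (fun u : ℕ => (u : ℝ) / 2 ^ u) atTop (nhds 0) := by
      have := tendsto_pow_const_div_const_pow_of_one_lt 1 (r := (2 : ℝ)) (by norm_num)
      simpa using this
    have h4 := h3.eventually (gt_mem_nhds (show (0 : ℝ) < 1 / (4 * j + 4) by positivity))
    filter_upwards [h4, eventually_ge_atTop 3] with u h5 h6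
    have h7 : (0 : ℝ) < 2 ^ u := by positivity
    rw [div_lt_iff₀ h7, div_mul_eq_mul_div, one_mul, lt_div_iff₀ (by positivity)] at h5
    have h8 : (u : ℝ) * (4 * j + 4) = ((u * (4 * j + 4) : ℕ) : ℝ) := by push_cast; ring
    rw [h8] at h5
    have h9 : u * (4 * j + 4) < 2 ^ u := by exact_mod_cast h5
    nlinarith
  have h3 : ∀ᶠ n : ℕ in atTop, 2 * (j * (n / j + 1)) + 3 ≤ 2 ^ (n / j) := by
    have : Tendsto (fun n : ℕ => n / j) atTop atTop :=
      Nat.tendsto_div_const_atTop (by omega)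
    exact this.eventually h2
  obtain ⟨n, hn⟩ := (((h1.and h3).and (eventually_ge_atTop (n₀ + 100 * j)))).exists
  obtain ⟨⟨hn1, hn2⟩, hn3⟩ := hn
  refine ⟨n, by omega, fun ℓ len hℓ hlen => ?_⟩
  set u := n / j with hu
  have hjpos : 0 < j := by omega
  have hju : j * u ≤ n := Nat.mul_div_le n j
  have hnu : n < j * (u + 1) := by
    rw [mul_comm]
    exact Nat.lt_mul_of_div_lt (Nat.lt_succ_self _) hjpos
  have htn : t n ≤ u := by
    rw [Real.norm_of_nonneg (Nat.cast_nonneg _), Real.norm_of_nonneg (Nat.cast_nonneg _)] at hn1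
    rw [hu, Nat.le_div_iff_mul_le hjpos]
    have h5 : (t n : ℝ) * j ≤ n := by
      have h6 : (0 : ℝ) < j := by exact_mod_cast hjpos
      rw [one_div, inv_mul_eq_div, le_div_iff₀ h6] at hn1
      exact hn1
    exact_mod_cast h5
  have hu100 : 100 ≤ u := by
    rw [hu, Nat.le_div_iff_mul_le hjpos]
    linarith
  have h2t : 2 ^ t n ≤ 2 ^ u := Nat.pow_le_pow_right (by norm_num) htn
  have hL : 2 * n + 1 + 2 ^ t n + 2 ≤ 2 ^ (u + 1) := by
    rw [pow_succ]
    omega
  have hLk : (2 * n + 1 + 2 ^ t n + 2) ^ k ≤ 2 ^ ((u + 1) * k) := by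
    rw [pow_mul]
    exact Nat.pow_le_pow_left hL k
  have e1 : ℓ ≤ 2 ^ ((u + 1) * k) := hℓ.trans hLk
  have e2 : len ≤ 2 ^ ((u + 1) * k) := hlen.trans hLk
  have e3 : (u + 1) * k * 2 + 14 ≤ n := by
    refine le_trans ?_ hju
    rw [hj]
    nlinarith [Nat.zero_le (u * k), Nat.zero_le k]
  constructor
  · have h4 : 1 ≤ 2 ^ ((u + 1) * k) := Nat.one_le_two_pow
    calc 3000 * (ℓ + 1) + 1000 ≤ 2 ^ 13 * 2 ^ ((u + 1) * k) := by
          norm_num
          linarith
      _ = 2 ^ (13 + (u + 1) * k) := by rw [pow_add]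
      _ ≤ 2 ^ (n + 1) := Nat.pow_le_pow_right (by norm_num) (by omega)
  · calc 5000 * len ^ 2 ≤ 5000 * (2 ^ ((u + 1) * k)) ^ 2 := by gcongr
      _ < 2 ^ 13 * (2 ^ ((u + 1) * k)) ^ 2 := by
        have : 0 < (2 ^ ((u + 1) * k)) ^ 2 := by positivity
        omega
      _ = 2 ^ (13 + (u + 1) * k * 2) := by rw [← pow_mul, ← pow_add]
      _ ≤ 2 ^ (n + 1) := Nat.pow_le_pow_right (by norm_num) (by omega)

end Pool.Agent.K7x.QC
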