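import Pool.Agent.K7x.QC.Ver

/-!
# The classical witnesses are fooled at one level
-/

set_option autoImplicit false

namespace Pool.Agent.K7x.QC

open Finset Pool.Agent.NPC Pool.Agent.H620R2.Gauge Pool.Agent.H9x.Q
open Pool.Agent.R562.QH (nrm nrm_sq nrm_nonneg nrm_add_le nrm_congr)

/-! ### The acceptance probability and the hybrid argument -/

theorem accS_diff (A A' : Oracle) (C : List Gate) {m : ℕ} (q : ℕ) (ψ : Basis m → ℂ)
    (hψ : nrm ψ = 1) :
    |accS A' C q ψ - accS A C q ψ| ≤ 2 * nrm (run A' C ψ - run A C ψ) := by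
  set u := run A' C ψ with hu
  set v := run A C ψ with hv
  have hu1 : nrm u = 1 := by rw [hu, nrm_run, hψ]
  have hv1 : nrm v = 1 := by rw [hv, nrm_run, hψ]
  have h1 : |accS A' C q ψ - accS A C q ψ| ≤ ∑ z, ‖u z - v z‖ * (‖u z‖ + ‖v z‖) := by
    unfold accS
    rw [← sum_sub_distrib]
    refine (abs_sum_le_sum_abs _ _).trans (sum_le_sum fun z _ => ?_)
    have h2 : |‖u z‖ ^ 2 - ‖v z‖ ^ 2| ≤ ‖u z - v z‖ * (‖u z‖ + ‖v z‖) := by
      rw [sq_sub_sq, abs_mul, mul_comm]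
      rw [abs_of_nonneg (show 0 ≤ ‖u z‖ + ‖v z‖ by positivity)]
      exact mul_le_mul_of_nonneg_right (abs_norm_sub_norm_le _ _) (by positivity)
    split_ifs
    · exact h2
    · simp
      positivity
  have h2 : ∀ w : Basis m → ℂ, nrm w = 1 → ∑ z, ‖u z - v z‖ * ‖w z‖ ≤ nrm (u - v) := by
    intro w hw
    have h3 := Finset.sum_mul_sq_le_sq_mul_sq univ (fun z => ‖u z - v z‖) (fun z => ‖w z‖)
    rw [← nrm_sq w, hw] at h3
    have h4 : ∑ z, ‖u z - v z‖ ^ 2 = nrm (u - v) ^ 2 := by rw [nrm_sq]; rfl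
    rw [h4] at h3
    have h5 : 0 ≤ ∑ z, ‖u z - v z‖ * ‖w z‖ := sum_nonneg fun z _ => by positivity
    have h6 := nrm_nonneg (u - v)
    nlinarith
  have h3 := h2 u hu1
  have h4 := h2 v hv1
  have h5 : ∑ z, ‖u z - v z‖ * (‖u z‖ + ‖v z‖) =
      ∑ z, ‖u z - v z‖ * ‖u z‖ + ∑ z, ‖u z - v z‖ * ‖v z‖ := by
    rw [← sum_add_distrib]
    exact sum_congr rfl fun z _ => by ring
  linarith

theorem exists_close {ι : Type} [Fintype ι] [Nonempty ι] (A : Oracle) (F : ι → Oracle) (δ : ℝ)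
    (hδ : 0 ≤ δ) {Bd : ℕ}
    (hK : ∀ y : List Bool, ((univ.filter fun i => F i y ≠ A y).card : ℝ) ≤ δ * Fintype.card ι)
    (C : List Gate) (hC : Short Bd C) {m : ℕ} (q : ℕ) (ψ : Basis m → ℂ) (hψ : nrm ψ = 1) :
    ∃ i, |accS (F i) C q ψ - accS A C q ψ| ≤ 4 * C.length * Real.sqrt δ := by
  have h1 := sum_tot A F (δ * Fintype.card ι) Bd (by positivity) (fun y _ => hK y) C hC ψ
  have hψ2 : ∑ z, ‖ψ z‖ ^ 2 = 1 := by rw [← nrm_sq, hψ, one_pow]
  rw [hψ2, mul_one] at h1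
  obtain ⟨i, _, hi⟩ := exists_le_of_sum_le (s := univ) (f := fun i => tot A (F i) C ψ)
    (g := fun _ => C.length * δ) univ_nonempty (by
      rw [sum_const, nsmul_eq_mul, card_univ]
      linarith)
  refine ⟨i, (accS_diff A (F i) C q ψ hψ).trans ?_⟩
  have h2 := hybrid A (F i) C ψ
  have h3 : nrm (run (F i) C ψ - run A C ψ) ^ 2 ≤ (2 * C.length * Real.sqrt δ) ^ 2 := by
    refine h2.trans ?_
    rw [mul_pow, mul_pow, Real.sq_sqrt hδ]
    have : (0 : ℝ) ≤ 4 * C.length := by positivity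
    nlinarith [mul_le_mul_of_nonneg_left hi this]
  have h4 := abs_le_of_sq_le_sq h3 (by positivity)
  have h5 := le_abs_self (nrm (run (F i) C ψ - run A C ψ))
  linarith

/-! ### The tables -/

section Tables

variable {a h m : ℕ} {nb : Ix h → (Fin a → Bool) → (Fin a → Bool)}
  {Ω Ω' : Dat (Fin a → Bool) h m} {F U : Finset (Fin a → Bool)}

theorem isPt_agr (hag : Agr nb F Ω Ω') (x : Fin (a + m) → Bool)
    (i : Ix h) : IsPt nb Ω F x i = IsPt nb Ω' F x i := by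
  unfold IsPt
  refine propext ⟨fun hx => ?_, fun hx => ?_⟩
  · refine ⟨?_, hx.2⟩
    rcases hx.2 with h1 | h1
    · rw [← hag.1 _ h1]; exact hx.1
    · rw [← hag.2 _ _ h1]; exact hx.1
  · refine ⟨?_, hx.2⟩
    rcases hx.2 with h1 | h1
    · rw [hag.1 _ h1]; exact hx.1
    · rw [hag.2 _ _ h1]; exact hx.1

theorem oth_agr (hg : ∀ i v, nb i (nb i v) = v) (hag : Agr nb F Ω Ω') (x : Fin (a + m) → Bool) :
    oth nb Ω F x = oth nb Ω' F x := by
  unfold oth
  have e : (fun i => IsPt nb Ω F x i) = fun i => IsPt nb Ω' F x i :=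
    funext fun i => isPt_agr hag x i
  by_cases hx : ∃ i, IsPt nb Ω F x i
  · have hx' : ∃ i, IsPt nb Ω' F x i := hx.imp fun i hi => (isPt_agr hag x i) ▸ hi
    rw [dif_pos hx, dif_pos hx']
    have hc : hx.choose = hx'.choose := by
      congr 1
    have hp := hx.choose_spec
    rw [← hc]
    congr 2
    rcases hp.2 with h1 | h1
    · refine hag.2 _ _ ?_
      rw [hg]
      exact h1
    · rw [hag.1 _ h1]
  · have hx' : ¬ ∃ i, IsPt nb Ω' F x i := fun h => hx (h.imp fun i hi => (isPt_agr hag x i) ▸ hi)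
    rw [dif_neg hx, dif_neg hx']

theorem tS_agr (hag : Agr nb F Ω Ω') (x : Fin (a + m) → Bool) :
    tS nb Ω F x = tS nb Ω' F x := by
  unfold tS
  have e : (fun i => IsPt nb Ω F x i) = fun i => IsPt nb Ω' F x i :=
    funext fun i => isPt_agr hag x i
  have e2 : (∃ i, IsPt nb Ω F x i) = ∃ i, IsPt nb Ω' F x i := congrArg Exists e
  exact decide_eq_decide.2 (iff_of_eq e2)

theorem tD_agr (hag : Agr nb F Ω Ω') (x : Fin (a + m) → Bool) :
    tD Ω F x = tD Ω' F x := by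
  unfold tD
  congr 1
  refine propext (or_congr_right (and_congr_right fun h1 => ?_))
  rw [hag.1 _ h1]

theorem isPt_mono (hU : F ⊆ U) (x : Fin (a + m) → Bool)
    (hl : ¬ Live nb F Ω (false, vp x, toZ (zq x))) (i : Ix h) :
    IsPt nb Ω U x i = IsPt nb Ω F x i := by
  unfold IsPt
  refine propext ⟨fun hx => ⟨hx.1, ?_⟩, fun hx => ⟨hx.1, hx.2.imp (fun h => hU h) fun h => hU h⟩⟩
  by_contra hc
  push Not at hc
  refine hl ⟨hc.1, ?_⟩
  simp only [Bool.false_eq_true, if_false]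
  exact ⟨i, hc.2, hx.1⟩

theorem tS_mono (hU : F ⊆ U) (x : Fin (a + m) → Bool)
    (hl : ¬ Live nb F Ω (false, vp x, toZ (zq x))) : tS nb Ω U x = tS nb Ω F x := by
  unfold tS
  have e : (fun i => IsPt nb Ω U x i) = fun i => IsPt nb Ω F x i :=
    funext fun i => isPt_mono hU x hl i
  have e2 : (∃ i, IsPt nb Ω U x i) = ∃ i, IsPt nb Ω F x i := congrArg Exists e
  exact decide_eq_decide.2 (iff_of_eq e2)

theorem oth_mono (hU : F ⊆ U) (x : Fin (a + m) → Bool)
    (hl : ¬ Live nb F Ω (false, vp x, toZ (zq x))) : oth nb Ω U x = oth nb Ω F x := by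
  unfold oth
  have e : (fun i => IsPt nb Ω U x i) = fun i => IsPt nb Ω F x i :=
    funext fun i => isPt_mono hU x hl i
  by_cases hx : ∃ i, IsPt nb Ω U x i
  · have hx' : ∃ i, IsPt nb Ω F x i := hx.imp fun i hi => (isPt_mono hU x hl i) ▸ hi
    rw [dif_pos hx, dif_pos hx']
    have hc : hx.choose = hx'.choose := by
      congr 1
    rw [hc]
  · have hx' : ¬ ∃ i, IsPt nb Ω F x i := fun h => hx (h.imp fun i hi => (isPt_mono hU x hl i) ▸ hi)
    rw [dif_neg hx, dif_neg hx']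

theorem tD_mono (hU : F ⊆ U) (x : Fin (a + m) → Bool)
    (hl : ¬ Live nb F Ω (true, vp x, toZ (zq x))) : tD Ω U x = tD Ω F x := by
  unfold tD
  congr 1
  refine propext ⟨fun h => ?_, fun h => h.imp id fun h => ⟨hU h.1, h.2⟩⟩
  by_contra hc
  push Not at hc
  rcases h with h | h
  · exact hc.1 h
  · refine hl ⟨fun h1 => hc.2 h1 h.2, ?_⟩
    simp only [if_true]
    exact ⟨hc.1, h.2⟩

end Tables

variable {nb : Gr}

theorem tb_agr {n : ℕ} (hg : ∀ i v, nb n i (nb n i v) = v)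
    {Ω Ω' : Dat (Fin (aN n) → Bool) (hN n) (2 * hN n)} {F : Finset (Fin (aN n) → Bool)}
    (h : Agr (nb n) F Ω Ω') (i : ℕ) (c : Bool) (x : Fin (bN n) → Bool) :
    tb nb n (Ω, F) i c x = tb nb n (Ω', F) i c x := by
  have e1 := tS_agr (a := aN n) (m := 2 * hN n) h x
  have e2 := tD_agr (a := aN n) (m := 2 * hN n) h x
  have e3 := oth_agr (a := aN n) (m := 2 * hN n) hg h x
  unfold tb
  simp only
  rw [e1, e2, e3]

/-- the place of a question -/
def plc {n : ℕ} (i : ℕ) (x : Fin (bN n) → Bool) :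
    Bool × (Fin (aN n) → Bool) × (Fin (2 * hN n) → ZMod 2) :=
  (decide (i = 1), vp (a := aN n) (m := 2 * hN n) x, toZ (zq (a := aN n) (m := 2 * hN n) x))

theorem tb_mono {n : ℕ} {Ω : Dat (Fin (aN n) → Bool) (hN n) (2 * hN n)}
    {F U : Finset (Fin (aN n) → Bool)} (hU : F ⊆ U) (i : ℕ) (c : Bool) (x : Fin (bN n) → Bool)
    (hl : ¬ Live (nb n) F Ω (plc i x)) :
    tb nb n (Ω, U) i c x = tb nb n (Ω, F) i c x := by
  unfold tb plc at *
  by_cases h1 : i = 1
  · rw [if_neg (by omega), if_pos h1, if_neg (by omega), if_pos h1]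
    refine tD_mono (nb := nb n) hU _ ?_
    simpa [h1] using hl
  · have hl' : ¬ Live (nb n) F Ω (false, vp (a := aN n) (m := 2 * hN n) x,
        toZ (zq (a := aN n) (m := 2 * hN n) x)) := by simpa [h1] using hl
    simp only [if_neg h1]
    rw [tS_mono hU x hl', oth_mono hU x hl']

theorem agr_empty {n : ℕ} (Ω Ω' : Dat (Fin (aN n) → Bool) (hN n) (2 * hN n)) :
    Agr (nb n) ∅ Ω Ω' := ⟨fun v hv => absurd hv (by simp), fun v i hv => absurd hv (by simp)⟩

/-- the difference between two worlds of one level -/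
theorem orc_ne {B : Oracle} {W : ∀ n, Wd n} {n : ℕ} {w w' : Wd n} {y : List Bool}
    (h : orc nb B (Function.update W n w) y ≠ orc nb B (Function.update W n w') y) :
    tab nb n w (y.tail.length - (bN n + 2) ^ 2) (y.tail.getD 0 false)
      (fun t => y.tail.getD (t + 1) false) ≠
    tab nb n w' (y.tail.length - (bN n + 2) ^ 2) (y.tail.getD 0 false)
      (fun t => y.tail.getD (t + 1) false) := by
  by_cases hy : ∃ y', y = false :: y' ∧ ∃ j ≤ 2 * (bN n + 2), y'.length = (bN n + 2) ^ 2 + j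
  · obtain ⟨y', rfl, j, hj, hl⟩ := hy
    intro h2
    refine h ?_
    show hid nb _ y' = hid nb _ y'
    rw [hid_len hj hl, hid_len hj hl, Function.update_self, Function.update_self]
    rw [List.tail_cons, hl, Nat.add_sub_cancel_left] at h2
    exact h2
  · refine absurd (orc_congr' (n := n) (fun k hk => ?_) fun y' hy' j hj hl => hy ⟨y', hy', j, hj, hl⟩) h
    rw [Function.update_of_ne hk, Function.update_of_ne hk]

/-! ### Two-sided worlds -/

/-- the world with `p` on the side `s` and `q` on the other one -/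
def mk {n : ℕ} (s : Bool) (p q : Dat (Fin (aN n) → Bool) (hN n) (2 * hN n) ×
    Finset (Fin (aN n) → Bool)) : Wd n := fun r => if r = s then p else q

@[simp] theorem mk_self {n : ℕ} (s : Bool) (p q : Dat (Fin (aN n) → Bool) (hN n) (2 * hN n) ×
    Finset (Fin (aN n) → Bool)) : mk s p q s = p := if_pos rfl

@[simp] theorem mk_not {n : ℕ} (s : Bool) (p q : Dat (Fin (aN n) → Bool) (hN n) (2 * hN n) ×
    Finset (Fin (aN n) → Bool)) : mk s p q (!s) = q := if_neg (by cases s <;> simp)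

theorem exists_inj (h m : ℕ) (hm : h ≤ m) : ∃ p : Par h m, Inj p := by
  refine ⟨(0, Matrix.of fun k i => if (k : ℕ) = i then 1 else 0), fun i j hij => ?_⟩
  funext t
  have h1 := congrFun hij ⟨t, t.2.trans_le hm⟩
  simp only [ev, zero_add, Matrix.mulVec, dotProduct, Matrix.of_apply] at h1
  have h2 : ∀ i : Ix h, ∑ x : Fin h, (if (t : ℕ) = x then (1 : ZMod 2) else 0) * i x = i t := by
    intro i
    rw [Finset.sum_eq_single t]
    · simp
    · intro b _ hb
      rw [if_neg (fun h => hb (Fin.ext h.symm)), zero_mul]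
    · simp
  rw [h2, h2] at h1
  exact h1

open scoped Classical in
/-- **A verifier with classical witnesses is fooled by a world of one level.** -/
theorem fool (hcore : P_core) {n : ℕ} (hnb : Good (hN n) (nb n)) (B : Oracle) (W : ∀ n, Wd n)
    (C : List Gate) {Bd : ℕ} (hC : Short Bd C) {m : ℕ} (q : ℕ) {K : Type} [Fintype K] [Nonempty K]
    (ψ : K → Basis m → ℂ) (hψ : ∀ k, nrm (ψ k) = 1) (ℓ : ℕ) (hK : Fintype.card K ≤ 2 ^ ℓ)
    (h1 : 3000 * (ℓ + 1) + 1000 ≤ 2 ^ hN n) (h2 : 5000 * C.length ^ 2 < 2 ^ hN n) (s : Bool) :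
    ∃ w : Wd n, Legit n w ∧
      (((w s).2 = univ ∧ ∀ k, accS (orc nb B (Function.update W n w)) C q (ψ k) < 2 / 3) ∨
       ((w s).2 ≠ univ ∧ ∃ k, 1 / 3 < accS (orc nb B (Function.update W n w)) C q (ψ k))) := by
  by_contra hcon
  push Not at hcon
  obtain ⟨p₀, hp₀⟩ := exists_inj (hN n) (2 * hN n) (by omega)
  set Ωs : Dat (Fin (aN n) → Bool) (hN n) (2 * hN n) := fun _ => p₀ with hΩs
  set All : Finset (Dat (Fin (aN n) → Bool) (hN n) (2 * hN n)) := {Ω | ∀ v, Inj (Ω v)} with hAll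
  have hmem : ∀ Ω, Ω ∈ All ↔ ∀ v, Inj (Ω v) := fun Ω => by rw [hAll, mem_filter]; simp
  have hΩsA : Ωs ∈ All := (hmem _).2 fun v => hp₀
  set δ : ℝ := 8 / 2 ^ hN n with hδ
  have hδ0 : 0 ≤ δ := by positivity
  have hsmall : 8 * (C.length * Real.sqrt δ) < 1 / 3 := by
    have e1 : (8 * (C.length * Real.sqrt δ)) ^ 2 < (1 / 3) ^ 2 := by
      rw [mul_pow, mul_pow, Real.sq_sqrt hδ0, hδ]
      have h3 : (5000 : ℝ) * C.length ^ 2 < 2 ^ hN n := by exact_mod_cast h2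
      have h4 : (0 : ℝ) < 2 ^ hN n := by positivity
      rw [← mul_div_assoc, ← mul_div_assoc, div_lt_iff₀ h4]
      nlinarith [sq_nonneg (C.length : ℝ)]
    have e2 := abs_lt_of_sq_lt_sq e1 (by norm_num)
    exact (le_abs_self _).trans_lt e2
  -- the worlds
  let O : Wd n → Oracle := fun w => orc nb B (Function.update W n w)
  have hO : ∀ w, O w = orc nb B (Function.update W n w) := fun _ => rfl
  have hleg : ∀ Ω ∈ All, Legit n (mk s (Ω, univ) (Ωs, ∅)) := by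
    intro Ω hΩ
    refine ⟨fun r v => ?_, s, by simp, by simp⟩
    unfold mk
    split_ifs
    · exact (hmem _).1 hΩ v
    · exact hp₀
  -- pigeonhole
  have hex : ∀ Ω ∈ All, ∃ k, 2 / 3 ≤ accS (O (mk s (Ω, univ) (Ωs, ∅))) C q (ψ k) := by
    intro Ω hΩ
    exact (hcon _ (hleg Ω hΩ)).1 (by simp)
  obtain ⟨k, hk⟩ : ∃ k, #All ≤ 2 ^ ℓ * #{Ω ∈ All | 2 / 3 ≤ accS (O (mk s (Ω, univ) (Ωs, ∅))) C q (ψ k)} := by
    by_contra hno
    push Not at hno
    have e1 : #All ≤ ∑ k, #{Ω ∈ All | 2 / 3 ≤ accS (O (mk s (Ω, univ) (Ωs, ∅))) C q (ψ k)} := by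
      refine (card_le_card (t := univ.biUnion fun k => {Ω ∈ All | 2 / 3 ≤
        accS (O (mk s (Ω, univ) (Ωs, ∅))) C q (ψ k)}) fun Ω hΩ => ?_).trans card_biUnion_le
      obtain ⟨k, hk⟩ := hex Ω hΩ
      exact mem_biUnion.2 ⟨k, mem_univ _, mem_filter.2 ⟨hΩ, hk⟩⟩
    have e2 : ∑ k, 2 ^ ℓ * #{Ω ∈ All | 2 / 3 ≤ accS (O (mk s (Ω, univ) (Ωs, ∅))) C q (ψ k)} <
        ∑ _k : K, #All := sum_lt_sum_of_nonempty univ_nonempty fun k _ => hno k
    rw [← mul_sum, sum_const, card_univ, smul_eq_mul] at e2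
    have e3 : 2 ^ ℓ * #All ≤ 2 ^ ℓ * ∑ k, #{Ω ∈ All | 2 / 3 ≤
        accS (O (mk s (Ω, univ) (Ωs, ∅))) C q (ψ k)} := Nat.mul_le_mul_left _ e1
    have e4 : Fintype.card K * #All ≤ 2 ^ ℓ * #All := Nat.mul_le_mul_right _ hK
    omega
  set E : Finset (Dat (Fin (aN n) → Bool) (hN n) (2 * hN n)) :=
    {Ω ∈ All | 2 / 3 ≤ accS (O (mk s (Ω, univ) (Ωs, ∅))) C q (ψ k)} with hE
  have hEne : E.Nonempty := by
    rw [← card_pos]
    have : 0 < #All := card_pos.2 ⟨_, hΩsA⟩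
    by_contra h0
    have h0' : #E = 0 := by omega
    rw [h0'] at hk
    omega
  have hhN : 1 ≤ hN n := by unfold hN; omega
  obtain ⟨F, Ω₀, hΩ₀, hF, hlive⟩ := hcore (hN n) (2 * hN n) (hN n) ℓ (nb n) E δ hnb hhN le_rfl
    (fun Ω hΩ => (hmem Ω).1 (mem_filter.1 hΩ).1) hEne hk (by omega) le_rfl
  have hΩ₀A : Ω₀ ∈ All := (mem_filter.1 hΩ₀).1
  -- first change: switch off everything far from `F`
  have key1 : 2 / 3 - 4 * (C.length * Real.sqrt δ) ≤
      accS (O (mk s (Ω₀, F) (Ωs, ∅))) C q (ψ k) := by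
    set S : Finset (Dat (Fin (aN n) → Bool) (hN n) (2 * hN n)) :=
      {Ω ∈ E | Agr (nb n) F Ω Ω₀} with hS
    have : Nonempty {Ω // Ω ∈ S} :=
      ⟨⟨Ω₀, mem_filter.2 ⟨hΩ₀, fun v _ => rfl, fun v i _ => rfl⟩⟩⟩
    have hι : Fintype.card {Ω // Ω ∈ S} = #S := Fintype.card_coe S
    obtain ⟨⟨Ω, hΩS⟩, hi⟩ : ∃ i : {Ω // Ω ∈ S}, |accS (O (mk s (i.1, univ) (Ωs, ∅))) C q (ψ k) -
        accS (O (mk s (Ω₀, F) (Ωs, ∅))) C q (ψ k)| ≤ 4 * C.length * Real.sqrt δ := by
      refine exists_close (O (mk s (Ω₀, F) (Ωs, ∅)))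
        (fun i : {Ω // Ω ∈ S} => O (mk s (i.1, univ) (Ωs, ∅))) δ hδ0 (fun y => ?_) C hC q (ψ k)
        (hψ k)
      set j := y.tail.length - (bN n + 2) ^ 2 with hj
      set c := y.tail.getD 0 false with hc
      set x : Fin (bN n) → Bool := fun t => y.tail.getD (t + 1) false with hx
      have hsub : ∀ i : {Ω // Ω ∈ S}, O (mk s (i.1, univ) (Ωs, ∅)) y ≠ O (mk s (Ω₀, F) (Ωs, ∅)) y →
          Live (nb n) F i.1 (plc (j / 2) x) := by
        intro i hi
        by_contra hl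
        refine orc_ne hi ?_
        rw [← hj, ← hc, ← hx]
        unfold tab mk
        split_ifs
        · have e1 := tb_mono (nb := nb) (subset_univ F) (j / 2) c x hl
          rw [e1]
          exact tb_agr hnb.invol (mem_filter.1 i.2).2 _ _ _
        · rfl
      refine le_trans ?_ (hι ▸ hlive (plc (j / 2) x))
      norm_cast
      refine card_le_card_of_injOn (fun i : {Ω // Ω ∈ S} => i.1) (fun i hi => ?_)
        (fun i _ i' _ h => Subtype.ext h)
      have hi2 := (mem_filter.1 (mem_coe.1 hi)).2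
      exact mem_coe.2 (mem_filter.2 ⟨(mem_filter.1 i.2).1, (mem_filter.1 i.2).2, hsub i hi2⟩)
    have e1 := (mem_filter.1 (mem_filter.1 hΩS).1).2
    have e2 := abs_le.1 hi
    simp only at e2
    linarith [e2.2]
  -- second change: switch on the other side
  obtain ⟨F', Ω₁, hΩ₁, hF', hlive'⟩ := hcore (hN n) (2 * hN n) (hN n) 0 (nb n) All δ hnb hhN le_rfl
    (fun Ω hΩ => (hmem Ω).1 hΩ) ⟨_, hΩsA⟩ (by rw [pow_zero, one_mul, hAll]) (by omega) le_rfl
  have hF'0 : F' = ∅ := by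
    rw [Nat.mul_zero, Nat.le_zero, card_eq_zero] at hF'
    exact hF'
  subst hF'0
  have hAgr : ({Ω ∈ All | Agr (nb n) ∅ Ω Ω₁} : Finset _) = All :=
    filter_true_of_mem fun Ω _ => agr_empty _ _
  obtain ⟨⟨Ω, hΩA⟩, hi⟩ : ∃ i : {Ω // Ω ∈ All}, |accS (O (mk s (Ω₀, F) (i.1, univ))) C q (ψ k) -
      accS (O (mk s (Ω₀, F) (Ωs, ∅))) C q (ψ k)| ≤ 4 * C.length * Real.sqrt δ := by
    have : Nonempty {Ω // Ω ∈ All} := ⟨⟨Ωs, hΩsA⟩⟩
    refine exists_close (O (mk s (Ω₀, F) (Ωs, ∅)))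
      (fun i : {Ω // Ω ∈ All} => O (mk s (Ω₀, F) (i.1, univ))) δ hδ0 (fun y => ?_) C hC q (ψ k) (hψ k)
    set j := y.tail.length - (bN n + 2) ^ 2 with hj
    set c := y.tail.getD 0 false with hc
    set x : Fin (bN n) → Bool := fun t => y.tail.getD (t + 1) false with hx
    have hsub : ∀ i : {Ω // Ω ∈ All}, O (mk s (Ω₀, F) (i.1, univ)) y ≠
        O (mk s (Ω₀, F) (Ωs, ∅)) y → Live (nb n) ∅ i.1 (plc (j / 2) x) := by
      intro i hi
      by_contra hl
      refine orc_ne hi ?_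
      rw [← hj, ← hc, ← hx]
      unfold tab mk
      split_ifs
      · rfl
      · have e1 := tb_mono (nb := nb) (empty_subset univ) (j / 2) c x hl
        rw [e1]
        exact tb_agr hnb.invol (agr_empty _ _) _ _ _
    have hcard : Fintype.card {Ω // Ω ∈ All} = #{Ω ∈ All | Agr (nb n) ∅ Ω Ω₁} := by
      rw [hAgr, Fintype.card_coe]
    refine le_trans ?_ (hcard ▸ hlive' (plc (j / 2) x))
    norm_cast
    refine card_le_card_of_injOn (fun i : {Ω // Ω ∈ All} => i.1) (fun i hi => ?_)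
      (fun i _ i' _ h => Subtype.ext h)
    have hi2 := (mem_filter.1 (mem_coe.1 hi)).2
    exact mem_coe.2 (mem_filter.2 ⟨i.2, agr_empty _ _, hsub i hi2⟩)
  have key2 : 1 / 3 < accS (O (mk s (Ω₀, F) (Ω, univ))) C q (ψ k) := by
    have e2 := abs_le.1 hi
    simp only at e2
    linarith [e2.1]
  have hleg2 : Legit n (mk s (Ω₀, F) (Ω, univ)) := by
    refine ⟨fun r v => ?_, !s, by simp, ?_⟩
    · unfold mk
      split_ifs
      · exact (hmem _).1 hΩ₀A v
      · exact (hmem _).1 hΩA v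
    · rw [Bool.not_not, mk_self]
      simp only
      omega
  have h3 := (hcon _ hleg2).2 (by
    rw [mk_self]
    simp only
    intro h
    refine univ_big n ?_
    rw [← h]
    omega) k
  exact absurd h3 (not_le.2 key2)

end Pool.Agent.K7x.QC
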