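import Pool.Agent.K7x.QC.Stm3

/-! Piece SHRINK: adding a set with few vertices of small degree. -/

set_option autoImplicit false

namespace Pool.Agent.K7x.QC

open Finset

section

variable {V I : Type} [Fintype V] [DecidableEq V] [Fintype I] [DecidableEq I]

/-- the number of the pairs `(v, i)` with `v ∈ A` and `nb i v ∈ B` -/
def prs (nb : I → V → V) (A B : Finset V) : ℕ :=
  #{p ∈ A ×ˢ (univ : Finset I) | nb p.2 p.1 ∈ B}

theorem prs_sum (nb : I → V → V) (A B : Finset V) :
    prs nb A B = ∑ v ∈ A, #{i | nb i v ∈ B} := by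
  unfold prs
  rw [card_filter, sum_product]
  exact sum_congr rfl fun v _ => (card_filter _ _).symm

theorem prs_symm {nb : I → V → V} (hinv : ∀ i v, nb i (nb i v) = v) (A B : Finset V) :
    prs nb A B = prs nb B A := by
  unfold prs
  refine card_bij' (fun p _ => (nb p.2 p.1, p.2)) (fun p _ => (nb p.2 p.1, p.2)) ?_ ?_ ?_ ?_
  · rintro ⟨v, i⟩ hp
    simp only [mem_filter, mem_product, mem_univ, and_true] at hp ⊢
    exact ⟨hp.2, by rw [hinv]; exact hp.1⟩
  · rintro ⟨v, i⟩ hp
    simp only [mem_filter, mem_product, mem_univ, and_true] at hp ⊢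
    exact ⟨hp.2, by rw [hinv]; exact hp.1⟩
  · rintro ⟨v, i⟩ _
    simp [hinv]
  · rintro ⟨v, i⟩ _
    simp [hinv]

theorem prs_right (nb : I → V → V) (A : Finset V) {F G : Finset V} (h : F ⊆ G) :
    prs nb A G = prs nb A F + prs nb A (G \ F) := by
  rw [prs_sum, prs_sum, prs_sum, ← sum_add_distrib]
  refine sum_congr rfl fun v _ => ?_
  rw [← card_union_of_disjoint]
  · congr 1
    ext i
    simp only [mem_filter, mem_univ, true_and, mem_union, mem_sdiff]
    constructor
    · intro h1
      by_cases h2 : nb i v ∈ F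
      · exact Or.inl h2
      · exact Or.inr ⟨h1, h2⟩
    · rintro (h1 | h1)
      · exact h h1
      · exact h1.1
  · rw [disjoint_left]
    intro i h1 h2
    simp only [mem_filter, mem_univ, true_and, mem_sdiff] at h1 h2
    exact h2.2 h1

theorem prs_left (nb : I → V → V) (B : Finset V) {F G : Finset V} (h : F ⊆ G) :
    prs nb G B = prs nb F B + prs nb (G \ F) B := by
  rw [prs_sum, prs_sum, prs_sum, add_comm, sum_sdiff h]

end

theorem p_shrink : P_shrink := by
  intro V I _ _ _ _ nb r r' j s F G hg hspa hFG hG hbud hs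
  have h1 : inner nb G = prs nb G G := rfl
  have h2 : inner nb F = prs nb F F := rfl
  have h3 : inner nb (G \ F) = prs nb (G \ F) (G \ F) := rfl
  have e1 := prs_left nb G hFG
  have e2 := prs_right nb F hFG
  have e3 := prs_right nb (G \ F) hFG
  have e4 := prs_symm hg.invol F (G \ F)
  have h4 : #(G \ F) + #F = #G := card_sdiff_add_card_eq_card hFG
  have h5 := hspa (G \ F) (by omega)
  have h6 : 3 * #(G \ F) ≤ prs nb (G \ F) G + 3 * s := by
    rw [prs_sum]
    have h7 : ∀ v ∈ G \ F, 3 ≤ #{i | nb i v ∈ G} +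
        (if #{i | nb i v ∈ G} ≤ 2 then 3 else 0) := by
      intro v _
      split_ifs <;> omega
    have h8 := sum_le_sum h7
    rw [sum_const, smul_eq_mul, sum_add_distrib, ← sum_filter, sum_const, smul_eq_mul] at h8
    have h9 : #{v ∈ G \ F | #{i | nb i v ∈ G} ≤ 2} * 3 ≤ s * 3 := Nat.mul_le_mul hs le_rfl
    omega
  unfold Bud2 at *
  omega

end Pool.Agent.K7x.QC
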