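import Pool.Agent.K7x.QC.Graph
import Pool.Agent.K7x.QC.Shrink

/-! Piece GRAPH3: small sets of vertices have average degree at most `5 / 2`. -/

set_option autoImplicit false

namespace Pool.Agent.K7x.QC

open Finset GraphP

namespace Graph3

section

variable {V I : Type} [Fintype V] [DecidableEq V] [Fintype I] [DecidableEq I]

/-- the state after a walk: the vertex and the last index -/
def run (nb : I → V → V) (s : V × Option I) (l : List I) : V × Option I :=
  l.foldl (fun s i => (nb i s.1, some i)) s

/-- a walk inside `W` without turning back -/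
def Val (nb : I → V → V) (W : Finset V) : V × Option I → List I → Prop
  | _, [] => True
  | s, i :: l => nb i s.1 ∈ W ∧ s.2 ≠ some i ∧ Val nb W (nb i s.1, some i) l

variable {nb : I → V → V} {W : Finset V}

omit [Fintype V] [DecidableEq V] [Fintype I] [DecidableEq I] in
theorem run_cons (s : V × Option I) (i : I) (l : List I) :
    run nb s (i :: l) = run nb (nb i s.1, some i) l := rfl

omit [Fintype V] [DecidableEq V] [Fintype I] [DecidableEq I] in
theorem run_append (s : V × Option I) (l l' : List I) :
    run nb s (l ++ l') = run nb (run nb s l) l' := by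
  unfold run
  rw [List.foldl_append]

omit [Fintype V] [DecidableEq V] [Fintype I] [DecidableEq I] in
theorem val_append (l l' : List I) (s : V × Option I) (h : Val nb W s l)
    (h' : Val nb W (run nb s l) l') : Val nb W s (l ++ l') := by
  induction l generalizing s with
  | nil => exact h'
  | cons i l ih => exact ⟨h.1, h.2.1, ih _ h.2.2 h'⟩

omit [Fintype V] [DecidableEq V] [Fintype I] [DecidableEq I] in
theorem run_mem (l : List I) (s : V × Option I) (hs : s.1 ∈ W) (h : Val nb W s l) :
    (run nb s l).1 ∈ W := by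
  induction l generalizing s with
  | nil => exact hs
  | cons i l ih => exact ih _ h.1 h.2.2

omit [Fintype V] [DecidableEq V] [Fintype I] [DecidableEq I] in
theorem val_chain (l : List I) (s : V × Option I) (h : Val nb W s l) :
    l.IsChain (· ≠ ·) ∧ ∀ i ∈ l.head?, s.2 ≠ some i := by
  induction l generalizing s with
  | nil => exact ⟨List.isChain_nil, by simp⟩
  | cons i l ih =>
    obtain ⟨h1, h2⟩ := ih _ h.2.2
    refine ⟨?_, by simpa using h.2.1⟩
    rw [List.isChain_cons]
    exact ⟨fun y hy hiy => h2 y hy (congrArg some hiy), h1⟩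

omit [Fintype V] [DecidableEq V] [Fintype I] [DecidableEq I] in
theorem run_foldr (l : List I) (s : V × Option I) :
    (run nb s l).1 = l.reverse.foldr nb s.1 := by
  induction l generalizing s with
  | nil => rfl
  | cons i l ih =>
    rw [run_cons, ih, List.reverse_cons, List.foldr_append]
    rfl

/-- every state can be continued -/
theorem exists_val (h2 : ∀ v ∈ W, 2 ≤ #{i | nb i v ∈ W}) (n : ℕ) (s : V × Option I)
    (hs : s.1 ∈ W) : ∃ l : List I, l.length = n ∧ Val nb W s l := by
  induction n generalizing s with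
  | zero => exact ⟨[], rfl, trivial⟩
  | succ n ih =>
    obtain ⟨a, ha, b, hb, hab⟩ := Finset.one_lt_card.1 (show 1 < _ from h2 s.1 hs)
    simp only [mem_filter, mem_univ, true_and] at ha hb
    obtain ⟨i, hi, hi2⟩ : ∃ i, nb i s.1 ∈ W ∧ s.2 ≠ some i := by
      by_cases h : s.2 = some a
      · refine ⟨b, hb, fun h' => hab ?_⟩
        rw [h] at h'
        exact Option.some.inj h'
      · exact ⟨a, ha, h⟩
    obtain ⟨l, l1, l2⟩ := ih (nb i s.1, some i) hi
    exact ⟨i :: l, by rw [List.length_cons, l1], hi, hi2, l2⟩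

/-- two different continuations, or the first vertex has degree two and the first step is forced -/
theorem step (h2 : ∀ v ∈ W, 2 ≤ #{i | nb i v ∈ W}) (n : ℕ) (s : V × Option I)
    (hs : s.1 ∈ W) :
    (∃ l l' : List I, l ≠ l' ∧ l.length = n + 1 ∧ l'.length = n + 1 ∧ Val nb W s l ∧
      Val nb W s l') ∨
    (#{i | nb i s.1 ∈ W} ≤ 2 ∧ ∃ i, nb i s.1 ∈ W ∧ s.2 ≠ some i ∧
      ∀ l l' : List I, l ≠ l' → l.length = n → l'.length = n → Val nb W (nb i s.1, some i) l →
        Val nb W (nb i s.1, some i) l' →
        ∃ l l' : List I, l ≠ l' ∧ l.length = n + 1 ∧ l'.length = n + 1 ∧ Val nb W s l ∧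
          Val nb W s l') := by
  by_cases hb : ∃ a b, a ≠ b ∧ nb a s.1 ∈ W ∧ nb b s.1 ∈ W ∧ s.2 ≠ some a ∧ s.2 ≠ some b
  · left
    obtain ⟨a, b, hab, ha, hb, ha2, hb2⟩ := hb
    obtain ⟨l, l1, l2⟩ := exists_val h2 n (nb a s.1, some a) ha
    obtain ⟨l', l1', l2'⟩ := exists_val h2 n (nb b s.1, some b) hb
    exact ⟨a :: l, b :: l', fun h => hab (List.cons.inj h).1, by rw [List.length_cons, l1],
      by rw [List.length_cons, l1'], ⟨ha, ha2, l2⟩, ⟨hb, hb2, l2'⟩⟩
  · right
    push Not at hb
    constructor
    · by_contra hc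
      push Not at hc
      obtain ⟨a, b, c, ha, hb', hc', hab, hac, hbc⟩ := Finset.two_lt_card_iff.1 hc
      simp only [mem_filter, mem_univ, true_and] at ha hb' hc'
      by_cases h1 : s.2 = some a
      · refine hbc ?_
        have h3 := hb b c hbc hb' hc' (by rw [h1]; exact fun h => hab (Option.some.inj h))
        rw [h1] at h3
        exact absurd (Option.some.inj h3) hac
      · have h3 := hb a b hab ha hb' h1
        have h4 := hb a c hac ha hc' h1
        rw [h3] at h4
        exact hbc (Option.some.inj h4)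
    · obtain ⟨l, l1, l2⟩ := exists_val h2 1 s hs
      obtain ⟨i, rfl⟩ := List.length_eq_one_iff.1 l1
      refine ⟨i, l2.1, l2.2.1, fun l l' h h1 h1' h3 h3' => ?_⟩
      exact ⟨i :: l, i :: l', fun h' => h (List.cons.inj h').2, by rw [List.length_cons, h1],
        by rw [List.length_cons, h1'], ⟨l2.1, l2.2.1, h3⟩, ⟨l2.1, l2.2.1, h3'⟩⟩

/-- four adjacent vertices of degree two -/
def Bad (nb : I → V → V) (W : Finset V) : Prop :=
  ∃ v i j k, i ≠ j ∧ j ≠ k ∧ v ∈ W ∧ nb i v ∈ W ∧ nb j (nb i v) ∈ W ∧ nb k (nb j (nb i v)) ∈ W ∧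
    #{a | nb a v ∈ W} ≤ 2 ∧ #{a | nb a (nb i v) ∈ W} ≤ 2 ∧ #{a | nb a (nb j (nb i v)) ∈ W} ≤ 2 ∧
    #{a | nb a (nb k (nb j (nb i v))) ∈ W} ≤ 2

theorem branch (h2 : ∀ v ∈ W, 2 ≤ #{i | nb i v ∈ W}) (hbad : ¬ Bad nb W) (s : V × Option I)
    (hs : s.1 ∈ W) : ∃ l l' : List I, l ≠ l' ∧ l.length = 4 ∧ l'.length = 4 ∧ Val nb W s l ∧
      Val nb W s l' := by
  rcases step h2 3 s hs with h | ⟨d0, i, i1, i2, hi⟩
  · exact h
  rcases step h2 2 (nb i s.1, some i) i1 with ⟨l, l', a1, a2, a3, a4, a5⟩ | ⟨d1, j, j1, j2, hj⟩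
  · exact hi l l' a1 a2 a3 a4 a5
  rcases step h2 1 (nb j (nb i s.1), some j) j1 with
    ⟨l, l', a1, a2, a3, a4, a5⟩ | ⟨d2, k, k1, k2, hk⟩
  · obtain ⟨m, m', b1, b2, b3, b4, b5⟩ := hj l l' a1 a2 a3 a4 a5
    exact hi m m' b1 b2 b3 b4 b5
  rcases step h2 0 (nb k (nb j (nb i s.1)), some k) k1 with
    ⟨l, l', a1, a2, a3, a4, a5⟩ | ⟨d3, -⟩
  · obtain ⟨m, m', b1, b2, b3, b4, b5⟩ := hk l l' a1 a2 a3 a4 a5
    obtain ⟨p, p', c1, c2, c3, c4, c5⟩ := hj m m' b1 b2 b3 b4 b5
    exact hi p p' c1 c2 c3 c4 c5
  · exact absurd ⟨s.1, i, j, k, fun h => j2 (congrArg some h), fun h => k2 (congrArg some h), hs,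
      i1, j1, k1, d0, d1, d2, d3⟩ hbad

theorem many (h2 : ∀ v ∈ W, 2 ≤ #{i | nb i v ∈ W}) (hbad : ¬ Bad nb W) (k : ℕ) :
    ∀ s : V × Option I, s.1 ∈ W → ∃ S : Finset (List I), #S = 2 ^ k ∧
      ∀ l ∈ S, l.length = 4 * k ∧ Val nb W s l := by
  induction k with
  | zero =>
    intro s _
    exact ⟨{[]}, by simp, fun l hl => by
      rw [mem_singleton] at hl
      subst hl
      exact ⟨rfl, trivial⟩⟩
  | succ k ih =>
    intro s hs
    obtain ⟨l, l', a1, a2, a3, a4, a5⟩ := branch h2 hbad s hs
    obtain ⟨S, s1, s2⟩ := ih (run nb s l) (run_mem l s hs a4)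
    obtain ⟨S', s1', s2'⟩ := ih (run nb s l') (run_mem l' s hs a5)
    refine ⟨S.image (l ++ ·) ∪ S'.image (l' ++ ·), ?_, ?_⟩
    · rw [card_union_of_disjoint, card_image_of_injective _ (List.append_right_injective l),
        card_image_of_injective _ (List.append_right_injective l'), s1, s1', pow_succ]
      · ring
      · rw [disjoint_left]
        intro m hm hm'
        obtain ⟨p, -, rfl⟩ := mem_image.1 hm
        obtain ⟨p', -, h⟩ := mem_image.1 hm'
        exact a1 (List.append_inj_left h (by rw [a2, a3])).symm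
    · intro m hm
      rw [mem_union] at hm
      rcases hm with hm | hm
      · obtain ⟨p, hp, rfl⟩ := mem_image.1 hm
        obtain ⟨b1, b2⟩ := s2 p hp
        exact ⟨by rw [List.length_append, a2, b1]; ring, val_append _ _ _ a4 b2⟩
      · obtain ⟨p, hp, rfl⟩ := mem_image.1 hm
        obtain ⟨b1, b2⟩ := s2' p hp
        exact ⟨by rw [List.length_append, a3, b1]; ring, val_append _ _ _ a5 b2⟩

theorem growth3 {N : ℕ} (hi : ∀ i v, nb i (nb i v) = v) (hg : Girth nb (2 * N))
    (hW : W.Nonempty) (h2 : ∀ v ∈ W, 2 ≤ #{i | nb i v ∈ W}) (hbad : ¬ Bad nb W) :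
    2 ^ (N / 8) ≤ #W := by
  obtain ⟨v, hv⟩ := hW
  obtain ⟨S, s1, s2⟩ := many h2 hbad (N / 8) (v, none) hv
  rw [← s1]
  refine card_le_card_of_injOn (fun l => (run nb (v, none) l).1) (fun l hl => ?_) ?_
  · exact run_mem l (v, none) hv (s2 l hl).2
  · intro l hl l' hl' h
    dsimp only at h
    rw [run_foldr, run_foldr] at h
    obtain ⟨a1, a2⟩ := s2 l hl
    obtain ⟨b1, b2⟩ := s2 l' hl'
    have h3 := uniq hi hg v l.reverse l'.reverse
      (by rw [List.isChain_reverse]; exact (val_chain l _ a2).1.imp fun _ _ h => h.symm)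
      (by rw [List.isChain_reverse]; exact (val_chain l' _ b2).1.imp fun _ _ h => h.symm)
      (by rw [List.length_reverse, List.length_reverse, a1, b1]; omega) h
    exact List.reverse_injective h3

/-- removing vertices -/
theorem inner_remove (hi : ∀ i v, nb i (nb i v) = v) {T : Finset V} (hT : T ⊆ W) :
    inner nb W + inner nb T = inner nb (W \ T) + 2 * ∑ v ∈ T, #{i | nb i v ∈ W} := by
  have h1 : inner nb W = prs nb W W := rfl
  have h2 : inner nb T = prs nb T T := rfl
  have h3 : inner nb (W \ T) = prs nb (W \ T) (W \ T) := rfl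
  have e1 := prs_left nb W hT
  have e2 := prs_right nb (W \ T) hT
  have e3 := prs_right nb T hT
  have e4 := prs_symm hi T (W \ T)
  have e5 := prs_sum nb T W
  rw [← e5]
  omega

theorem spa {N : ℕ} (hi : ∀ i v, nb i (nb i v) = v) (hg : Girth nb (2 * N)) (n : ℕ) :
    ∀ W : Finset V, #W = n → n < 2 ^ (N / 8) → 2 * inner nb W ≤ 5 * #W := by
  induction n using Nat.strong_induction_on with
  | _ n ih =>
    intro W hW hn
    by_contra hcon
    push Not at hcon
    rcases W.eq_empty_or_nonempty with rfl | hne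
    · simp [inner] at hcon
    have hN : 8 ≤ N := by
      by_contra h
      have h0 : N / 8 = 0 := by omega
      rw [h0, pow_zero] at hn
      have := card_pos.2 hne
      omega
    have hrem : ∀ T : Finset V, T ⊆ W → T.Nonempty →
        2 * inner nb (W \ T) + 5 * #T ≤ 5 * #W := by
      intro T hT hTne
      have h1 : #(W \ T) + #T = #W := card_sdiff_add_card_eq_card hT
      have h2 := card_pos.2 hTne
      have h3 := ih #(W \ T) (by omega) (W \ T) rfl (by omega)
      omega
    have h2 : ∀ v ∈ W, 2 ≤ #{i | nb i v ∈ W} := by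
      intro v hv
      by_contra hlt
      have h3 := hrem {v} (singleton_subset_iff.2 hv) (singleton_nonempty v)
      have h4 := inner_remove hi (singleton_subset_iff.2 hv)
      rw [sum_singleton] at h4
      rw [card_singleton] at h3
      omega
    have hbad : ¬ Bad nb W := by
      rintro ⟨v, i, j, k, hij, hjk, v0, v1, v2, v3, d0, d1, d2, d3⟩
      have g : ∀ (u : V) (l : List I), l ≠ [] → l.length ≤ 3 → l.IsChain (· ≠ ·) →
          l.foldr nb u ≠ u := fun u l h1 h3 h4 => hg u l h1 (by omega) h4
      have n01 : nb i v ≠ v := g v [i] (by simp) (by simp) (by simp)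
      have n12 : nb j (nb i v) ≠ nb i v := g _ [j] (by simp) (by simp) (by simp)
      have n23 : nb k (nb j (nb i v)) ≠ nb j (nb i v) := g _ [k] (by simp) (by simp) (by simp)
      have n02 : nb j (nb i v) ≠ v := g v [j, i] (by simp) (by simp) (by simpa using hij.symm)
      have n13 : nb k (nb j (nb i v)) ≠ nb i v :=
        g _ [k, j] (by simp) (by simp) (by simpa using hjk.symm)
      have n03 : nb k (nb j (nb i v)) ≠ v :=
        g v [k, j, i] (by simp) (by simp) (by simpa using ⟨hjk.symm, hij.symm⟩)
      set w1 := nb i v with hw1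
      set w2 := nb j w1 with hw2
      set w3 := nb k w2 with hw3
      have hT : ({v, w1, w2, w3} : Finset V) ⊆ W := by
        intro x hx
        simp only [mem_insert, mem_singleton] at hx
        rcases hx with rfl | rfl | rfl | rfl <;> assumption
      have m1 : v ∉ ({w1, w2, w3} : Finset V) := by
        simp only [mem_insert, mem_singleton, not_or]
        exact ⟨n01.symm, n02.symm, n03.symm⟩
      have m2 : w1 ∉ ({w2, w3} : Finset V) := by
        simp only [mem_insert, mem_singleton, not_or]
        exact ⟨n12.symm, n13.symm⟩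
      have m3 : w2 ∉ ({w3} : Finset V) := by
        simp only [mem_singleton]
        exact n23.symm
      have hc : #({v, w1, w2, w3} : Finset V) = 4 := by
        rw [card_insert_of_notMem m1, card_insert_of_notMem m2, card_insert_of_notMem m3,
          card_singleton]
      have h3 := hrem _ hT (insert_nonempty _ _)
      have h4 := inner_remove hi hT
      rw [sum_insert m1, sum_insert m2, sum_insert m3, sum_singleton] at h4
      have b1 : nb i w1 = v := by rw [hw1, hi]
      have b2 : nb j w2 = w1 := by rw [hw2, hi]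
      have b3 : nb k w3 = w2 := by rw [hw3, hi]
      have h5 : 6 ≤ inner nb ({v, w1, w2, w3} : Finset V) := by
        have hsub : ({(v, i), (w1, i), (w1, j), (w2, j), (w2, k), (w3, k)} : Finset (V × I)) ⊆
            {p ∈ ({v, w1, w2, w3} : Finset V) ×ˢ (univ : Finset I) |
              nb p.2 p.1 ∈ ({v, w1, w2, w3} : Finset V)} := by
          intro p hp
          simp only [mem_insert, mem_singleton] at hp
          simp only [mem_filter, mem_product, mem_univ, and_true, mem_insert, mem_singleton]
          rcases hp with rfl | rfl | rfl | rfl | rfl | rfl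
          · exact ⟨Or.inl rfl, Or.inr (Or.inl rfl)⟩
          · exact ⟨Or.inr (Or.inl rfl), Or.inl b1⟩
          · exact ⟨Or.inr (Or.inl rfl), Or.inr (Or.inr (Or.inl rfl))⟩
          · exact ⟨Or.inr (Or.inr (Or.inl rfl)), Or.inr (Or.inl b2)⟩
          · exact ⟨Or.inr (Or.inr (Or.inl rfl)), Or.inr (Or.inr (Or.inr rfl))⟩
          · exact ⟨Or.inr (Or.inr (Or.inr rfl)), Or.inr (Or.inr (Or.inl b3))⟩
        have h6 := card_le_card hsub
        have h7 : #({(v, i), (w1, i), (w1, j), (w2, j), (w2, k), (w3, k)} :
            Finset (V × I)) = 6 := by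
          rw [card_insert_of_notMem, card_insert_of_notMem, card_insert_of_notMem,
            card_insert_of_notMem, card_insert_of_notMem, card_singleton]
          all_goals
            simp only [mem_insert, mem_singleton, Prod.mk.injEq, not_or, not_and]
          · exact fun h => absurd h n23.symm
          · exact ⟨fun _ => hjk, fun h => absurd h n23.symm⟩
          · exact ⟨fun h => absurd h n12.symm, fun h => absurd h n12.symm,
              fun h => absurd h n13.symm⟩
          · exact ⟨fun _ => hij, fun h => absurd h n12.symm, fun h => absurd h n12.symm,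
              fun h => absurd h n13.symm⟩
          · exact ⟨fun h => absurd h n01.symm, fun h => absurd h n01.symm,
              fun h => absurd h n02.symm, fun h => absurd h n02.symm, fun h => absurd h n03.symm⟩
        rw [h7] at h6
        exact h6
      rw [hc] at h3
      omega
    have := growth3 hi hg hne h2 hbad
    omega

end

end Graph3

theorem p_graph3 : P_graph3 := by
  intro N hN
  obtain ⟨nb, hi, hg⟩ := exists_graph N hN
  refine ⟨nb, ⟨hi, ?_, ?_, ?_⟩, ?_⟩
  · intro i v
    exact hg v [i] (by simp) (by simp; omega) (List.isChain_singleton i)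
  · intro v i j h
    have := uniq hi hg v [i] [j] (List.isChain_singleton i) (List.isChain_singleton j)
      (by simp; omega) (by simpa using h)
    simpa using this
  · intro W hW
    exact sparse_of hi hg _ W rfl hW
  · intro W hW
    exact Graph3.spa hi hg _ W rfl hW

end Pool.Agent.K7x.QC
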