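import Pool.Agent.K7x.QC.Stm

/-!
# The oracle
-/

set_option autoImplicit false

namespace Pool.Agent.K7x.QC

open Finset Pool.Agent.NPC Pool.Agent.H620R2.Gauge Pool.Agent.H9x.Q

/-- the number of bits of a vertex -/
def aN (n : ℕ) : ℕ := 8 * (n + 1) ^ 2

/-- half the number of bits of a vector -/
def hN (n : ℕ) : ℕ := n + 1

/-- the number of bits of a vertex and a vector -/
def bN (n : ℕ) : ℕ := aN n + 2 * hN n

theorem bN_lt {n m : ℕ} (h : n < m) : bN n < bN m := by
  unfold bN aN hN
  have : (n + 1) ^ 2 < (m + 1) ^ 2 := Nat.pow_lt_pow_left (by omega) (by norm_num)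
  omega

theorem bN_inj {n m : ℕ} (h : bN n = bN m) : n = m := by
  rcases lt_trichotomy n m with h' | h' | h'
  · exact absurd h (bN_lt h').ne
  · exact h'
  · exact absurd h.symm (bN_lt h').ne

theorem le_bN (n : ℕ) : n ≤ bN n := by
  unfold bN hN
  omega

theorem ten_le_bN (n : ℕ) : 10 ≤ bN n := by
  unfold bN aN hN
  have : 1 ≤ (n + 1) ^ 2 := Nat.one_le_pow _ _ (by omega)
  omega

/-- the secrets and the vertices which are switched on, for both sides -/
abbrev Wd (n : ℕ) : Type :=
  Bool → Dat (Fin (aN n) → Bool) (hN n) (2 * hN n) × Finset (Fin (aN n) → Bool)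

/-- the graphs -/
abbrev Gr : Type := ∀ n, Ix (hN n) → (Fin (aN n) → Bool) → (Fin (aN n) → Bool)

variable (nb : Gr)

/-- the table with the number `i` of one side -/
noncomputable def tb (n : ℕ) (w : Dat (Fin (aN n) → Bool) (hN n) (2 * hN n) ×
    Finset (Fin (aN n) → Bool)) (i : ℕ) (c : Bool) (x : Fin (bN n) → Bool) : Bool :=
  if i = 0 then tS (nb n) w.1 w.2 x
  else if i = 1 then tD w.1 w.2 x
  else if h : i - 2 < bN n then c && xor (x ⟨i - 2, h⟩) (oth (nb n) w.1 w.2 x ⟨i - 2, h⟩)
  else false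

/-- the table for the length with the offset `j` -/
noncomputable def tab (n : ℕ) (w : Wd n) (j : ℕ) (c : Bool) (x : Fin (bN n) → Bool) : Bool :=
  tb nb n (w (decide (j % 2 = 1))) (j / 2) c x

open scoped Classical in
/-- the oracle on the strings which start with a zero -/
noncomputable def hid (W : ∀ n, Wd n) (y : List Bool) : Bool :=
  if y.length = 6 then
    y.getD 0 false && y.getD 1 false && y.getD 2 false && y.getD 3 false && y.getD 4 false &&
      !y.getD 5 false
  else if h : ∃ n, bN n + 2 = Nat.sqrt y.length then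
    tab nb h.choose (W h.choose) (y.length - (bN h.choose + 2) ^ 2) (y.getD 0 false)
      (fun t => y.getD (t + 1) false)
  else false

/-- the oracle -/
noncomputable def orc (B : Oracle) (W : ∀ n, Wd n) : Oracle
  | [] => false
  | true :: y => B y
  | false :: y => hid nb W y

/-- the padding -/
def pd (s : Bool) (n i : ℕ) : ℕ := (bN n + 2) ^ 2 - (1 + bN n) + (2 * i + s.toNat)

theorem sq_ge (n : ℕ) : 1 + bN n ≤ (bN n + 2) ^ 2 := by nlinarith [Nat.zero_le (bN n)]

theorem sqrt_len {n j : ℕ} (hj : j ≤ 2 * (bN n + 2)) :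
    Nat.sqrt ((bN n + 2) ^ 2 + j) = bN n + 2 := by
  rw [sq]
  exact Nat.sqrt_add_eq _ (by omega)

variable {nb}

theorem hid_len {W : ∀ n, Wd n} {y : List Bool} {n j : ℕ} (hj : j ≤ 2 * (bN n + 2))
    (hy : y.length = (bN n + 2) ^ 2 + j) :
    hid nb W y = tab nb n (W n) j (y.getD 0 false) (fun t => y.getD (t + 1) false) := by
  have h1 : Nat.sqrt y.length = bN n + 2 := by rw [hy]; exact sqrt_len hj
  have h6 : y.length ≠ 6 := by
    have := ten_le_bN n
    rw [hy]
    nlinarith
  have hex : ∃ m, bN m + 2 = Nat.sqrt y.length := ⟨n, h1.symm⟩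
  have hc : hex.choose = n := bN_inj (by have := hex.choose_spec; omega)
  unfold hid
  rw [if_neg h6, dif_pos hex]
  generalize hex.choose = k at hc
  subst hc
  rw [hy, Nat.add_sub_cancel_left]

theorem hid_congr {W W' : ∀ n, Wd n} {y : List Bool}
    (h : ∀ n, (bN n + 2) ^ 2 ≤ y.length → W n = W' n) : hid nb W y = hid nb W' y := by
  unfold hid
  split_ifs with h1 h2
  · rfl
  · rw [h]
    have h3 := h2.choose_spec
    rw [h3, sq]
    exact Nat.sqrt_le _
  · rfl

theorem orc_congr {B : Oracle} {W W' : ∀ n, Wd n} {y : List Bool}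
    (h : ∀ n, (bN n + 2) ^ 2 ≤ y.length → W n = W' n) : orc nb B W y = orc nb B W' y := by
  rcases y with _ | ⟨_ | _, y⟩
  · rfl
  · exact hid_congr fun n hn => h n (hn.trans (by simp))
  · rfl

/-- outside of the strings of one level, the oracle does not depend on this level -/
theorem orc_congr' {B : Oracle} {W W' : ∀ n, Wd n} {y : List Bool} {n : ℕ}
    (hW : ∀ k, k ≠ n → W k = W' k)
    (hy : ∀ y', y = false :: y' → ∀ j ≤ 2 * (bN n + 2), y'.length ≠ (bN n + 2) ^ 2 + j) :
    orc nb B W y = orc nb B W' y := by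
  rcases y with _ | ⟨_ | _, y⟩
  · rfl
  · show hid nb W y = hid nb W' y
    unfold hid
    split_ifs with h1 h2
    · rfl
    · have h3 := h2.choose_spec
      have : h2.choose ≠ n := by
        intro h4
        rw [h4] at h3
        have h5 := Nat.sqrt_le y.length
        have h6 := Nat.sqrt_lt_self (n := y.length)
        have h7 := Nat.lt_succ_sqrt y.length
        rw [← h3] at h5 h7
        refine hy y rfl (y.length - (bN n + 2) ^ 2) ?_ ?_
        · have : (bN n + 2 + 1) * (bN n + 2 + 1) = (bN n + 2) ^ 2 + 2 * (bN n + 2) + 1 := by ring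
          simp only [Nat.succ_eq_add_one] at h7
          omega
        · rw [sq]; omega
      rw [hW _ this]
    · rfl
  · rfl

theorem qs_eq {B : ℕ} (c : Bool) (x : Fin B → Bool) (pad : ℕ) :
    qs c x pad = false :: (c :: (List.ofFn x ++ List.replicate pad false)) := rfl

theorem orc_qs {B : Oracle} {W : ∀ n, Wd n} {n i : ℕ} (s c : Bool) (hi : i ≤ bN n + 1)
    (x : Fin (bN n) → Bool) :
    orc nb B W (qs c x (pd s n i)) = tb nb n (W n s) i c x := by
  rw [qs_eq]
  show hid nb W _ = _
  have hs : s.toNat ≤ 1 := by cases s <;> simp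
  have h1 := sq_ge n
  rw [hid_len (n := n) (j := 2 * i + s.toNat) (by omega) (by
    simp only [List.length_cons, List.length_append, List.length_ofFn, List.length_replicate, pd]
    omega)]
  unfold tab
  have e1 : (2 * i + s.toNat) / 2 = i := by cases s <;> simp <;> omega
  have e2 : decide ((2 * i + s.toNat) % 2 = 1) = s := by
    cases s
    · simp
    · simp
  rw [e1, e2]
  congr 1
  funext t
  simp only [List.getD_cons_succ]
  rw [List.getD_append _ _ _ _ (by simp)]
  rw [List.getD_eq_getElem _ _ (by simp)]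
  simp

theorem orc_and {B : Oracle} {W : ∀ n, Wd n} (f₁ f₂ f₃ f₄ f₅ c : Bool) :
    orc nb B W [false, f₁, f₂, f₃, f₄, f₅, c] = (f₁ && f₂ && f₃ && f₄ && f₅ && !c) := rfl

end Pool.Agent.K7x.QC
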