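import Pool.Agent.K7x.QC.Defs
import Pool.Agent.H9x.Q.Size
import Mathlib.Data.Matrix.Mul
import Mathlib.Data.ZMod.Basic

/-!
# A classical oracle for `QMA` versus `QCMA`: definitions and statements of the pieces

(Project K7x/QC, helper7, for MP_36f78e_lc.) Every piece is a `def P_... : Prop` below, with its
paper proof in the docstring; please prove `theorem p_... : P_...` in your own file
`Pool/Agent/K7x/QC/<Piece>.lean` (`import Pool.Agent.K7x.QC.Stm`), do not edit this file.

The idea. There is a graph on the bit strings `v` of length `a`, in which every vertex `v` has one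
neighbour `nb i v` for every `i ∈ F_2^h`, and of high girth. Every vertex `v` has a secret affine
subspace `X_v` of dimension `h` in `F_2^m` (`m = 2 h`), with a secret affine bijection `ev (Ω v)` from
`F_2^h` to `X_v`: the element `ev (Ω v) i` is the port of `v` for the edge from `v` to `nb i v`. The
oracle tells for a pair `(v, z)` whether `z` is a port of `v`, and in this case the other end
`(nb i v, ev (Ω (nb i v)) i)` of the edge, and whether `y` is orthogonal to the direction of `X_v`. The
uniform superposition of all `(v, z)`, `z ∈ X_v`, is a quantum witness. If all this is true only near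
a small set `F` of vertices, there is no witness. A classical witness can help only for few vertices.
-/

set_option autoImplicit false

namespace Pool.Agent.K7x.QC

open Finset Pool.Agent.NPC Pool.Agent.H620R2.Gauge Pool.Agent.H9x.Q

/-! ### The graph -/

/-- the names of the edges at a vertex -/
abbrev Ix (h : ℕ) : Type := Fin h → ZMod 2

section Graph

variable {V I : Type} [Fintype V] [DecidableEq V] [Fintype I] [DecidableEq I]

/-- twice the number of the edges inside `W` -/
def inner (nb : I → V → V) (W : Finset V) : ℕ :=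
  #{p ∈ W ×ˢ (univ : Finset I) | nb p.2 p.1 ∈ W}

/-- `nb i` is an involution without fixed points, different `i` lead to different neighbours, and
every set of less than `2 ^ r` vertices has average degree at most four -/
structure Good (r : ℕ) (nb : I → V → V) : Prop where
  invol : ∀ i v, nb i (nb i v) = v
  ne : ∀ i v, nb i v ≠ v
  inj : ∀ v i j, nb i v = nb j v → i = j
  sparse : ∀ W : Finset V, #W < 2 ^ r → inner nb W ≤ 4 * #W

/-- every vertex outside of `F` has at most two neighbours in `F` -/
def Closed (nb : I → V → V) (F : Finset V) : Prop := ∀ v ∉ F, #{i | nb i v ∈ F} ≤ 2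

/-- `F` arises from `j` vertices by adding vertices with at least three neighbours in the set -/
def Bud (nb : I → V → V) (F : Finset V) (j : ℕ) : Prop := 6 * #F ≤ inner nb F + 6 * j

end Graph

/-- **Piece GRAPH.** (a) Let `K = GaloisField 2 N` (it has `2 ^ N` elements), `x : Ix N → K` an
injection (`Fintype.card (Ix N) = 2 ^ N`), `g = 2 N`. Vertices: sequences `X_1, …, X_g` of `2 × 2`
matrices over `K`, with `X_0 = 1`; there are `2 ^ (N * 4 * 2 N) = 2 ^ (8 N ^ 2)` of them, so they are
equivalent to `Fin (8 * N ^ 2) → Bool`. Let `M_i = !![x i, 1; (x i) ^ 2, x i]`; `M_i ^ 2 = 0` and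
`M_i M_j = (x i + x j) • a_i b_jᵀ` where `a_i = (1, x i)`, `b_i = (x i, 1)`. Neighbours:
`(nb i X)_j = X_j + X_{j-1} M_i`, i.e. multiplication of `1 + X_1 t + X_2 t ^ 2 + …` with
`1 + M_i t` modulo `t ^ (g + 1)`. This is an involution without fixed points (look at `X_1`), and
`nb i X = nb j X` gives `M_i = M_j` and `i = j`.
(b) GIRTH: for every nonempty list `l` of indices of length at most `g` in which consecutive elements
are different, `l.foldl (fun X i => nb i X) X ≠ X`: with `W = ∏ (1 + M_i t)` (a polynomial over the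
matrix ring, or just its coefficients `W_k`), `(foldl … X)_j = ∑_{p+q=j} X_p W_q` for `j ≤ g`; if it is
`X_j` for all `j ≤ g` then by strong induction `W_q = 0` for `1 ≤ q ≤ g`; but the coefficient of
`t ^ r`, `r` the length of `l`, is `M_{i_1} ⋯ M_{i_r} = ∏ (x i_k + x i_{k+1}) • a_{i_1} b_{i_r}ᵀ ≠ 0`.
(c) GROWTH: if `W ≠ ∅` is a set of vertices each of which has at least three `i` with `nb i v ∈ W`,
then `2 ^ N ≤ #W`: for a vertex `v ∈ W` and the last used index there are two further different
indices leading to vertices of `W`, so every `b : Fin N → Bool` (or list of `N` Booleans) describes a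
path in `W` without turning back from a fixed `v₀ ∈ W`; different `b` have different ends: else,
from the place where they separate, one path backwards and the other one forwards is a closed path
as in (b), of length at most `2 N = g`.
(d) SPARSE, by induction on `#W`: if some `v ∈ W` has at most two `i` with `nb i v ∈ W`, remove it
(`inner` decreases by at most four); else (c) contradicts `#W < 2 ^ N`. -/
def P_graph : Prop := ∀ N : ℕ, 1 ≤ N →
  ∃ nb : Ix N → (Fin (8 * N ^ 2) → Bool) → (Fin (8 * N ^ 2) → Bool), Good N nb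

/-- **Piece CLOSE.** `Bud nb F j` and `#F < 2 ^ r` give `6 #F ≤ inner F + 6 j ≤ 4 #F + 6 j`, so
`#F ≤ 3 j`. Take `F' ⊇ F` with `Bud nb F' j` and `#F' < 2 ^ r` with as many elements as possible. If
some `v ∉ F'` had three `i` with `nb i v ∈ F'`, then `insert v F'` would have `inner` larger by at
least six (the pairs `(v, i)` and `(nb i v, i)`), so `Bud nb (insert v F') j`, and
`#(insert v F') ≤ 3 j + 1 ≤ 2 ^ r`; if it is less than `2 ^ r` this contradicts the choice of `F'`;
and if `#F' = 3 j` then `Bud` fails for `insert v F'` whenever `#(insert v F') < 2 ^ r`. (So assume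
`3 * j + 1 < 2 ^ r`.) -/
def P_close : Prop := ∀ {V I : Type} [Fintype V] [DecidableEq V] [Fintype I] [DecidableEq I]
    (nb : I → V → V) (r j : ℕ) (F : Finset V), Good r nb → Bud nb F j → #F < 2 ^ r →
    3 * j + 1 < 2 ^ r → ∃ F' : Finset V, F ⊆ F' ∧ Closed nb F' ∧ Bud nb F' j ∧ #F' ≤ 3 * j

/-! ### The ports -/

/-- the parameters of an affine map from `F_2^h` to `F_2^m` -/
abbrev Par (h m : ℕ) : Type := (Fin m → ZMod 2) × Matrix (Fin m) (Fin h) (ZMod 2)

/-- the affine map with the parameters `p` -/
def ev {h m : ℕ} (p : Par h m) (i : Ix h) : Fin m → ZMod 2 := p.1 + p.2.mulVec i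

/-- the affine map is injective -/
def Inj {h m : ℕ} (p : Par h m) : Prop := Function.Injective (ev p)

/-- `y` is orthogonal to the direction of the image of the affine map -/
def Perp {h m : ℕ} (p : Par h m) (y : Fin m → ZMod 2) : Prop :=
  ∀ i j, y ⬝ᵥ ev p i = y ⬝ᵥ ev p j

/-- `p` is injective and has the same values as `p₀` on `J` -/
def Cons {h m : ℕ} (p₀ : Par h m) (J : Finset (Ix h)) (p : Par h m) : Prop :=
  Inj p ∧ ∀ i ∈ J, ev p i = ev p₀ i

open scoped Classical in
/-- **Piece AFF.** Among the affine injections with at most two given values, few have a given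
further value, and few have a given orthogonal vector.
Let `All` be the set of ALL parameters `p` (injective or not) with `ev p i = ev p₀ i` for `i ∈ J`.
(1) For `J' ⊇ J` with `#J' ≤ 2` and `i ∉ J'` there is a linear functional-plus-constant
`λ : Ix h → ZMod 2` (`λ k = f ⬝ᵥ k + c`) with `λ i = 1` and `λ = 0` on `J'` (three different points of
`F_2^h` are affinely independent: for `a = j₁ - j₂ ≠ 0`, `b = i - j₁ ∉ {0, a}` there is `f` with
`f ⬝ᵥ a = 0`, `f ⬝ᵥ b = 1`: if `b_k = 1`, `a_k = 0` take the coordinate `k`; else choose `k` with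
`b_k = a_k = 1` and `l` with `a_l ≠ b_l`, and take the coordinate `l` or the sum of the coordinates
`k` and `l`).
(2) For `w : Fin m → ZMod 2`, adding `w • λ` (parameters `(c • w, vecMulVec w f)`) maps `All` to
itself and shifts the value at `i` by `w`; so at most `#All / 2 ^ m` elements of `All` have a given
value at `i ∉ J`, or the same value at `i` and at `i₀` if `#(insert i₀ J) ≤ 2`, `i ∉ insert i₀ J`.
(3) `2 * #{p | Cons p₀ J p} ≥ #All`: if `p ∈ All` is not injective then, with `i₀ ∈ J` (`i₀ = 0` if `J`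
is empty), `ev p i = ev p i₀` for some `i ≠ i₀` (affine), and `i ∉ J` (as `p₀` is injective); by (2)
these are at most `2 ^ h * #All / 2 ^ m ≤ #All / 2` parameters.
(4) first claim: by (2), summing over `i ∉ J`, at most `2 ^ h * #All / 2 ^ m` elements of `All`.
(5) second claim: let `J ⊆ J'`, `1 ≤ #J' ≤ 2`, `j₀ ∈ J'` and `a` the difference of the elements of `J'`
(or `0`). There are at least `2 ^ (h - 1)` vectors `f` with `f ⬝ᵥ a = 0` (an involution `f ↦ f + e_k` if
`a_k = 1`); choose `u` with `y ⬝ᵥ u = 1`; `(p, f) ↦ p + u • (k ↦ f ⬝ᵥ (k - j₀))` is an injection from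
`{p ∈ All | Perp p y} × {f | f ⬝ᵥ a = 0}` to `All` (`f` is read off from `y ⬝ᵥ` of the values). -/
def P_aff : Prop := ∀ (h m : ℕ), h + 1 ≤ m → ∀ (J : Finset (Ix h)), #J ≤ 2 → ∀ p₀ : Par h m, Inj p₀ →
  (∀ z, #{p | Cons p₀ J p ∧ ∃ i ∉ J, ev p i = z} * 2 ^ m ≤
    2 ^ (h + 1) * #{p : Par h m | Cons p₀ J p}) ∧
  (∀ y, y ≠ 0 → #{p | Cons p₀ J p ∧ Perp p y} * 2 ^ h ≤ 4 * #{p : Par h m | Cons p₀ J p})

/-! ### The secrets, and what is visible near a set of vertices -/

/-- the secrets -/
abbrev Dat (V : Type) (h m : ℕ) : Type := V → Par h m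

section Core

variable {V : Type} [Fintype V] [DecidableEq V] {h m : ℕ}

/-- the two families of secrets look the same near `F` -/
def Agr (nb : Ix h → V → V) (F : Finset V) (Ω Ω' : Dat V h m) : Prop :=
  (∀ v ∈ F, Ω v = Ω' v) ∧ ∀ v i, nb i v ∈ F → ev (Ω v) i = ev (Ω' v) i

/-- the places where the oracle for the whole graph differs from the one which is restricted to the
edges which have an end in `F`: `(false, v, z)` where `z` is the port of an edge from `v ∉ F` to a
vertex outside of `F`, and `(true, v, y)` where `v ∉ F` and `y ≠ 0` is orthogonal to the direction -/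
def Live (nb : Ix h → V → V) (F : Finset V) (Ω : Dat V h m)
    (l : Bool × V × (Fin m → ZMod 2)) : Prop :=
  l.2.1 ∉ F ∧ if l.1 then l.2.2 ≠ 0 ∧ Perp (Ω l.2.1) l.2.2 else
    ∃ i, nb i l.2.1 ∉ F ∧ ev (Ω l.2.1) i = l.2.2

end Core

open scoped Classical in
/-- **Piece CORE** (uses `P_close` and `P_aff`). Density increment. For `F` with `Bud nb F j` and
`Closed nb F` and `Ω₀ ∈ All` (`All` the `Ω` with `Inj (Ω v)` for all `v`) let
`cls F Ω₀ = {Ω ∈ All | Agr nb F Ω Ω₀}`, `d F Ω₀ = #(E ∩ cls F Ω₀) / #(cls F Ω₀)`. Call `(F, Ω₀, j)` reachable if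
moreover `d F Ω₀ * 2 ^ ℓ ≥ 2 ^ j`. `(∅, Ω₀, 0)` is reachable (for any `Ω₀ ∈ E`). As `d ≤ 1`, `j ≤ ℓ`. Take a
reachable triple with maximal `j`; then `#F ≤ 3 j`; we may assume `Ω₀ ∈ E` (replace it by an element of
`E ∩ cls F Ω₀`, the class does not change). Suppose for a place `l` (with `v = l.2.1 ∉ F`)
`#{Ω ∈ E | Agr ∧ Live} > δ #{Ω ∈ E | Agr}`. Let `F' ⊇ insert v F` be closed with `Bud nb F' (j + 1)`
(`Bud nb (insert v F) (j + 1)` holds since `inner` is monotone; `P_close`). The classes of `F'` refine the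
class of `F`, and `Live nb F Ω l` depends only on `Ω v` and on `F`, so it is constant on the classes
of `F'`. By `P_aff` (for the column `v`, with `J = {i | nb i v ∈ F}`, `#J ≤ 2`; the class is a product
over the vertices), `#{Ω ∈ cls F Ω₀ | Live nb F Ω l} ≤ (4 / 2 ^ h) * #(cls F Ω₀)` (for a port place:
`Live` says `ev (Ω v) i = z` with `i ∉ J`; `2 ^ (h + 1) / 2 ^ m ≤ 4 / 2 ^ h`). So
`#(E ∩ cls ∩ Live) > δ d #cls ≥ δ d (2 ^ h / 4) #(cls ∩ Live) ≥ 2 d #(cls ∩ Live)`, and some class
`cls F' Ω₁` contained in `cls ∩ Live` has `d F' Ω₁ ≥ 2 d F Ω₀`: `(F', Ω₁, j + 1)` is reachable. -/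
def P_core : Prop := ∀ {V : Type} [Fintype V] [DecidableEq V] (h m r ℓ : ℕ)
    (nb : Ix h → V → V) (E : Finset (Dat V h m)) (δ : ℝ), Good r nb → 1 ≤ h → 2 * h ≤ m →
    (∀ Ω ∈ E, ∀ v, Inj (Ω v)) → E.Nonempty →
    #{Ω : Dat V h m | ∀ v, Inj (Ω v)} ≤ 2 ^ ℓ * #E → 3 * (ℓ + 1) + 1 < 2 ^ r → 8 / 2 ^ h ≤ δ →
    ∃ (F : Finset V) (Ω₀ : Dat V h m), Ω₀ ∈ E ∧ #F ≤ 3 * ℓ ∧
      ∀ l, (#{Ω ∈ E | Agr nb F Ω Ω₀ ∧ Live nb F Ω l} : ℝ) ≤ δ * #{Ω ∈ E | Agr nb F Ω Ω₀}

/-! ### The tests -/

/-- the Hadamard transform of a function of `m` bits -/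
noncomputable def hadT {m : ℕ} (φ : (Fin m → Bool) → ℂ) (z : Fin m → Bool) : ℂ :=
  (∑ y : Fin m → Bool, (∏ k, if z k && y k then (-1 : ℂ) else 1) * φ y) / (Real.sqrt 2 : ℂ) ^ m

/-- bits as elements of `F_2` -/
def toZ {m : ℕ} (z : Fin m → Bool) : Fin m → ZMod 2 := fun k => if z k then 1 else 0

/-- elements of `F_2` as bits -/
def ofZ {m : ℕ} (z : Fin m → ZMod 2) : Fin m → Bool := fun k => decide (z k = 1)

open scoped Classical in
/-- **Piece TEST.** (1) Primal membership, Hadamard transform, dual membership, Hadamard transform is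
the projection to the uniform superposition of the affine subspace. By linearity the left side is
`∑_{z' ∈ X} φ z' (1 / 2 ^ m) ∑_{y : Perp p y} (-1) ^ (y ⬝ᵥ (z + z'))`; for `z' ∈ X` the inner sum is the number
of `y` with `Perp p y` if `z ∈ X` and zero otherwise (if `z ∉ X` there is, by duality of subspaces of
`F_2^m`, a `y` which is orthogonal to the direction with `y ⬝ᵥ (z + z') = 1`; shift by it), and the number of
the orthogonal `y` is `2 ^ (m - h)`. (2) and (3) are easy. -/
def P_test : Prop :=
  (∀ (h m : ℕ) (p : Par h m), Inj p → ∀ (φ : (Fin m → Bool) → ℂ) (z : Fin m → Bool),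
    hadT (fun y => if Perp p (toZ y) then
      hadT (fun z' => if ∃ i, ev p i = toZ z' then φ z' else 0) y else 0) z =
    if ∃ i, ev p i = toZ z then (∑ z', if ∃ i, ev p i = toZ z' then φ z' else 0) / 2 ^ h else 0) ∧
  (∀ (m : ℕ) (φ : (Fin m → Bool) → ℂ) (z : Fin m → Bool),
    hadT (fun y => if toZ y = 0 then hadT φ y else 0) z = (∑ z', φ z') / 2 ^ m) ∧
  (∀ (m : ℕ) (φ : (Fin m → Bool) → ℂ), ∑ z, ‖hadT φ z‖ ^ 2 = ∑ z, ‖φ z‖ ^ 2)

section Tables

variable {a h m : ℕ}

/-- the vertex -/
def vp (x : Fin (a + m) → Bool) : Fin a → Bool := fun k => x (Fin.castAdd m k)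

/-- the vector, as bits -/
def zq (x : Fin (a + m) → Bool) : Fin m → Bool := fun k => x (Fin.natAdd a k)

variable (nb : Ix h → (Fin a → Bool) → (Fin a → Bool)) (Ω : Dat (Fin a → Bool) h m)
  (U : Finset (Fin a → Bool))

/-- `x = (v, z)`, where `z` is the port of `v` for the edge `i`, which has an end in `U` -/
def IsPt (x : Fin (a + m) → Bool) (i : Ix h) : Prop :=
  ev (Ω (vp x)) i = toZ (zq x) ∧ (vp x ∈ U ∨ nb i (vp x) ∈ U)

open scoped Classical in
/-- the table of the ports -/
noncomputable def tS (x : Fin (a + m) → Bool) : Bool := decide (∃ i, IsPt nb Ω U x i)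

open scoped Classical in
/-- the table of the orthogonal vectors -/
noncomputable def tD (x : Fin (a + m) → Bool) : Bool :=
  decide (toZ (zq x) = 0 ∨ (vp x ∈ U ∧ Perp (Ω (vp x)) (toZ (zq x))))

open scoped Classical in
/-- the other end of the edge -/
noncomputable def oth (x : Fin (a + m) → Bool) : Fin (a + m) → Bool :=
  if hx : ∃ i, IsPt nb Ω U x i then
    Fin.append (nb hx.choose (vp x)) (ofZ (ev (Ω (nb hx.choose (vp x))) hx.choose))
  else x

end Tables

section Ops

variable {a m : ℕ}

/-- the Hadamard transform of the last `m` bits -/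
noncomputable def hadZ (φ : (Fin (a + m) → Bool) → ℂ) (x : Fin (a + m) → Bool) : ℂ :=
  hadT (fun y => φ (Fin.append (vp x) y)) (zq x)

/-- the first test, `S` and `D` are the tables of the ports and of the orthogonal vectors -/
noncomputable def kA (S D : (Fin (a + m) → Bool) → Bool) (φ : (Fin (a + m) → Bool) → ℂ) :
    (Fin (a + m) → Bool) → ℂ :=
  hadZ fun y => if D y then hadZ (fun x => if S x then φ x else 0) y else 0

/-- the second test, `σ` is the other end -/
noncomputable def kB (S : (Fin (a + m) → Bool) → Bool)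
    (σ : (Fin (a + m) → Bool) → (Fin (a + m) → Bool)) (φ : (Fin (a + m) → Bool) → ℂ) :
    (Fin (a + m) → Bool) → ℂ := fun x => if S x then (φ x + φ (σ x)) / 2 else 0

/-- the three tests -/
noncomputable def kV (S D : (Fin (a + m) → Bool) → Bool)
    (σ : (Fin (a + m) → Bool) → (Fin (a + m) → Bool)) (φ : (Fin (a + m) → Bool) → ℂ) :
    (Fin (a + m) → Bool) → ℂ := kA S D (kB S σ (kA S D φ))

end Ops

/-- **Piece NORM** (uses `P_test`). `m = 2 h`. Here `V` is the set of vertices `Fin a → Bool`,
`S = tS nb Ω U`, `D = tD Ω U`, `σ = oth nb Ω U`.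
(0) `σ` maps `{x | S x}` to itself and is an involution there: if `IsPt x i` (there is only one such `i`,
by injectivity) then `σ x` has vertex `nb i v`, vector `ev (Ω (nb i v)) i`, and `IsPt (σ x) i`.
(1) Completeness, `U = univ`: `φ x = c` if `S x` and `0` otherwise, with `c = 1 / √(2 ^ (a + h))` (for every `v`
there are `2 ^ h` ports) is fixed by `kA` (`P_test`, part 1) and by `kB`.
(2) Soundness, `1000 * #U ≤ 2 ^ h`: for `v ∈ U`, `S (v, z)` iff `z` is one of the `2 ^ h` ports of `v`, and
`(kA φ) (v, ·)` is the projection of `φ (v, ·)` to the uniform superposition `|X_v⟩` of the ports, by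
`P_test` (1). For `v ∉ U`, `D (v, y)` iff `y = 0`, and `S (v, z)` for at most `#U` vectors `z` (`nb · v` is
injective), so by `P_test` (2) `(kA φ) (v, z) = 2 ^ (- m) ∑_{z'} φ (v, z')` over these vectors, the norm of
this part of `kA φ` is at most `√(#U / 2 ^ m)` times the norm of `φ`, which is at most
`√(1 / 2000)` (`U = ∅`: zero; else `2 ^ h ≥ 1000`). Write `kA = P + R` (`P` the part with `v ∈ U`); `P`,
`R`, `kA`, `kB` do not increase the norm. `P kB P`: if `P φ = ∑_{v ∈ U} β_v |v⟩ |X_v⟩`, then
`P kB P φ = ∑_{v ∈ U} γ_v |v⟩ |X_v⟩`, `γ_v = (β_v + 2 ^ (- h) ∑_{i : nb i v ∈ U} β_{nb i v}) / 2`, and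
`|γ_v| ≤ (|β_v| + 2 ^ (- h) ∑_{u ∈ U} |β_u|) / 2`, so its norm is at most `(1 + #U / 2 ^ h) / 2 ≤ 0.5005` times
the norm of `φ`. `kV = P kB P + P kB R + R kB kA`, so its norm is at most
`0.5005 + 2 √(1 / 2000) ≤ 0.5453`, and the square of this is less than `0.3`. -/
def P_norm : Prop := ∀ (a h : ℕ) (nb : Ix h → (Fin a → Bool) → (Fin a → Bool)) (r : ℕ), Good r nb →
  ∀ (Ω : Dat (Fin a → Bool) h (2 * h)), (∀ v, Inj (Ω v)) →
  (∀ U x, tS nb Ω U x = true → tS nb Ω U (oth nb Ω U x) = true ∧
    oth nb Ω U (oth nb Ω U x) = x) ∧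
  (∃ φ : (Fin (a + 2 * h) → Bool) → ℂ, ∑ x, ‖φ x‖ ^ 2 = 1 ∧
    ∑ x, ‖kV (tS nb Ω univ) (tD Ω univ) (oth nb Ω univ) φ x‖ ^ 2 = 1) ∧
  (∀ U : Finset (Fin a → Bool), 1000 * #U ≤ 2 ^ h → ∀ φ : (Fin (a + 2 * h) → Bool) → ℂ,
    ∑ x, ‖φ x‖ ^ 2 = 1 →
      ∑ x, ‖kV (tS nb Ω U) (tD Ω U) (oth nb Ω U) φ x‖ ^ 2 ≤ 1 / 3)

/-! ### The circuit. Qubits: the input `0, …, n - 1`, the answer `n`, the witness
`n + 1, …, n + B` (`B = a + m`), a zero `n + 1 + B`, the control `n + 2 + B`, five flags
`n + 3 + B, …, n + 7 + B`, and a register `n + 8 + B, …, n + 7 + 2 B`. -/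

/-- the list of the qubits of a question: the zero qubit, the control `c`, the witness register, and
`pad` times the zero qubit -/
def lq (n B c pad : ℕ) : List ℕ :=
  (n + 1 + B) :: c :: (((List.range B).map fun t => n + 1 + t) ++ List.replicate pad (n + 1 + B))

/-- Hadamard gates on the last `m` qubits of the witness register -/
def cH (n a m : ℕ) : List Gate := (List.range m).map fun t => Gate.had (n + 1 + a + t)

/-- the first test with the flags `f` and `g` -/
def cA (n a m : ℕ) (pd : ℕ → ℕ) (f g : ℕ) : List Gate :=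
  Gate.query (lq n (a + m) (n + 1 + (a + m)) (pd 0)) f :: (cH n a m ++
    (Gate.query (lq n (a + m) (n + 1 + (a + m)) (pd 1)) g :: cH n a m))

/-- the differences between the witness register and the other end, if the control is one -/
def cQ (n B : ℕ) (pd : ℕ → ℕ) : List Gate :=
  (List.range B).map fun t => Gate.query (lq n B (n + 2 + B) (pd (2 + t))) (n + 8 + B + t)

/-- the second test -/
def cB (n B : ℕ) (pd : ℕ → ℕ) : List Gate :=
  Gate.query (lq n B (n + 1 + B) (pd 0)) (n + 5 + B) :: Gate.had (n + 2 + B) :: (cQ n B pd ++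
    (((List.range B).map fun t => Gate.cnot (n + 8 + B + t) (n + 1 + t)) ++ (cQ n B pd ++
      [Gate.had (n + 2 + B)])))

/-- the circuit -/
def cV (n a m : ℕ) (pd : ℕ → ℕ) : List Gate :=
  cA n a m pd (n + 3 + (a + m)) (n + 4 + (a + m)) ++ (cB n (a + m) pd ++
    (cA n a m pd (n + 6 + (a + m)) (n + 7 + (a + m)) ++
      [Gate.query [n + 1 + (a + m), n + 3 + (a + m), n + 4 + (a + m), n + 5 + (a + m),
        n + 6 + (a + m), n + 7 + (a + m), n + 2 + (a + m)] n]))

/-- the string of a question -/
def qs {B : ℕ} (c : Bool) (x : Fin B → Bool) (pad : ℕ) : List Bool :=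
  false :: c :: (List.ofFn x ++ List.replicate pad false)

/-- **Piece CIRC.** The acceptance probability of the circuit. Suggestion: (1) LOCALITY lemma: if no
gate of `C` has its target (`had q`, `cnot _ q`, `query _ q`) in a set `Q` of qubits, and two states
agree on all basis states which agree with `z` on `Q`, then `run A C` of the two states agree at `z`.
So, to find the final amplitude at a basis state `z` with all five flags `1` and the control `0`,
one may, after each test, replace the state by its part with the flags of this test equal to `1`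
(resp. the control equal to `0`). (2) For `φ` and a pattern of the flags let `S_f φ` be the state
with `x` in the input qubits, `0` in the answer qubit, `φ` in the witness register, the flags `f`,
and zeros elsewhere. The first test maps `S_f φ` (flags of this test `0`) to a state whose part with
both flags `1` is `S_{f'} (kA S D φ)`. The second test: after the first gate, on the part with flag
`1` all `x` satisfy `S x`; `had`, the questions (the differences `c && (x ⊕ σ x)` are added to the
register, whose qubits are `0`), the controlled negations (the witness register becomes `σ x` if the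
control is `1`), the questions again (they clear the register since `σ (σ x) = x` on `S`), `had`:
the part with control `0` is `S_{f'} (kB S σ φ)`. (3) The last gate sets the answer qubit exactly on
the part with all flags `1` and control `0`. -/
def P_circ : Prop := ∀ (n a m M : ℕ) (pd : ℕ → ℕ) (A : Oracle) (S D : (Fin (a + m) → Bool) → Bool)
    (σ : (Fin (a + m) → Bool) → (Fin (a + m) → Bool)) (x : List Bool)
    (φ : Basis (a + m) → ℂ), x.length = n → n + 8 + 2 * (a + m) ≤ M →
  (∀ c y, A (qs c y (pd 0)) = S y) →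
  (∀ c y, A (qs c y (pd 1)) = D y) →
  (∀ (t : Fin (a + m)) c y, A (qs c y (pd (2 + t))) = (c && xor (y t) (σ y t))) →
  (∀ f₁ f₂ f₃ f₄ f₅ c : Bool, A [false, f₁, f₂, f₃, f₄, f₅, c] =
    (f₁ && f₂ && f₃ && f₄ && f₅ && !c)) →
  (∀ y, S y = true → S (σ y) = true ∧ σ (σ y) = y) →
  accS A (cV n a m pd) n (start M (a + m) x φ) = ∑ y, ‖kV S D σ φ y‖ ^ 2

end Pool.Agent.K7x.QC
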