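import Pool.Agent.K7x.QC.Ver
import Pool.Agent.K7x.QC.Norm
import Pool.Agent.K7x.QC.DefsS

/-!
# Both sides have subset states as witnesses
-/

set_option autoImplicit false

namespace Pool.Agent.K7x.QC

open Finset Pool.Agent.NPC Pool.Agent.H620R2.Gauge Pool.Agent.H9x.Q

variable {nb : Gr}

/-- the number of the ports -/
theorem card_ports (ht : P_test) {a h m : ℕ} {nb : Ix h → (Fin a → Bool) → (Fin a → Bool)}
    {Ω : Dat (Fin a → Bool) h m} (hΩ : ∀ v, Inj (Ω v)) :
    #{x : Fin (a + m) → Bool | tS nb Ω univ x = true} = 2 ^ (a + h) := by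
  classical
  have h1 := (NormP.complete_uni (nb := nb) ht hΩ).1
  unfold NormP.uni at h1
  set S : Finset (Fin (a + m) → Bool) := {x | tS nb Ω univ x = true} with hS
  have h2 : ∑ x : Fin (a + m) → Bool,
      ‖(if tS nb Ω univ x = true then (((Real.sqrt (2 ^ (a + h)))⁻¹ : ℝ) : ℂ) else 0)‖ ^ 2 =
      #S * (2 ^ (a + h))⁻¹ := by
    rw [← nsmul_eq_mul, ← sum_const, hS, sum_filter]
    refine sum_congr rfl fun x _ => ?_
    split_ifs
    · rw [Complex.norm_real, Real.norm_eq_abs, sq_abs, inv_pow, Real.sq_sqrt (by positivity)]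
    · simp
  rw [h2] at h1
  have h3 : (0 : ℝ) < 2 ^ (a + h) := by positivity
  have h4 : (#S : ℝ) = 2 ^ (a + h) := by
    field_simp at h1
    exact h1
  exact_mod_cast h4

theorem isSubsetState_uni (ht : P_test) {a h m : ℕ}
    {nb : Ix h → (Fin a → Bool) → (Fin a → Bool)} {Ω : Dat (Fin a → Bool) h m}
    (hΩ : ∀ v, Inj (Ω v)) : IsSubsetState (NormP.uni nb Ω) := by
  classical
  refine ⟨({x | tS nb Ω univ x = true} : Finset (Fin (a + m) → Bool)), ?_, fun z => ?_⟩
  · rw [← card_pos, card_ports ht hΩ]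
    positivity
  · rw [card_ports ht hΩ]
    unfold NormP.uni
    have hm : z ∈ ({x | tS nb Ω univ x = true} : Finset (Fin (a + m) → Bool)) ↔
        tS nb Ω univ z = true := by
      rw [mem_filter]
      exact ⟨fun h => h.2, fun h => ⟨mem_univ _, h⟩⟩
    by_cases hz : tS nb Ω univ z = true
    · rw [if_pos hz, if_pos (hm.2 hz), one_div]
      push_cast
      rfl
    · rw [if_neg hz, if_neg fun h => hz (hm.1 h)]

theorem isOSQMA1 (hc : P_circ) (ht : P_test) (hn : P_norm) (hnb : ∀ n, Good (hN n) (nb n))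
    (B : Oracle) {W : ∀ n, Wd n} (hW : ∀ n, Legit n (W n)) (s : Bool) :
    IsOSQMA1 (orc nb B W) (lang W s) := by
  refine ⟨ver s, fun x => ?_⟩
  have hk : (ver s).wit.eval x.length = aN x.length + 2 * hN x.length := by
    simp [ver, pa_eval, pm_eval]
  have hM : x.length + 8 + 2 * (aN x.length + 2 * hN x.length) ≤ (ver s).qubits x.length := by
    unfold Verifier.qubits
    rw [hk]
    simp only [ver, Polynomial.eval_add, pa_eval, pm_eval, Polynomial.eval_C]
    omega
  obtain ⟨_, -, h2⟩ := hn _ _ _ _ (hnb x.length) _ ((hW x.length).1 s)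
  unfold Verifier.acc
  have e : (ver s).circ x.length = cV x.length (aN x.length) (2 * hN x.length) (pd s x.length) := rfl
  rw [e]
  generalize (ver s).qubits x.length = M at hM ⊢
  generalize (ver s).wit.eval x.length = k at hk ⊢
  subst hk
  constructor
  · intro hx
    refine ⟨NormP.uni (nb x.length) (W x.length s).1, isSubsetState_uni ht ((hW x.length).1 s), ?_⟩
    rw [acc_val hc hn hnb B hW s x _ hM]
    have hx' : (W x.length s).2 = univ := hx
    rw [hx']
    exact (NormP.complete_uni ht ((hW x.length).1 s)).2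
  · intro hx φ hφ
    rw [acc_val hc hn hnb B hW s x φ hM]
    refine h2 _ ?_ φ hφ
    obtain ⟨_, r, h5, h6⟩ := hW x.length
    have hx' : (W x.length s).2 ≠ univ := hx
    have : r = !s := by
      cases s <;> cases r <;> simp_all
    subst this
    rw [Bool.not_not] at h6
    exact h6

end Pool.Agent.K7x.QC
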