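import Pool.Agent.K7x.QC.Fool
import Pool.Agent.K7x.QC.Stm2

/-!
# Nonadaptive questions to verifiers with classical witnesses are fooled at one level
-/

set_option autoImplicit false

namespace Pool.Agent.K7x.QC

open Finset Pool.Agent.NPC Pool.Agent.H620R2.Gauge Pool.Agent.H9x.Q
open Pool.Agent.R562.QH (nrm nrm_sq nrm_nonneg nrm_add_le nrm_congr)

/-- Finitely many circuits with their start states, for every witness. -/
structure Runs (k : ℕ) : Type 1 where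
  C : Fin k → List Gate
  M : Fin k → ℕ
  q : Fin k → ℕ
  K : Fin k → Type
  fin : ∀ i, Fintype (K i)
  non : ∀ i, Nonempty (K i)
  ψ : ∀ i, K i → Basis (M i) → ℂ
  nrm_ψ : ∀ i κ, nrm (ψ i κ) = 1

attribute [instance] Runs.fin Runs.non

variable {k : ℕ}

/-- the acceptance probability -/
noncomputable def Runs.acc (X : Runs k) (A : Oracle) (i : Fin k) (κ : X.K i) : ℝ :=
  accS A (X.C i) (X.q i) (X.ψ i κ)

open scoped Classical in
/-- **Many members of a family of oracles are not noticed by any of the runs.** -/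
theorem multi_close (X : Runs k) {T Bd : ℕ} (hT : ∀ i, (X.C i).length ≤ T)
    (hBd : ∀ i, Short Bd (X.C i)) {ι : Type} (S : Finset ι) (A : Oracle) (F : ι → Oracle) (δ : ℝ)
    (hδ : 0 < δ)
    (hK : ∀ y : List Bool, ((S.filter fun i => F i y ≠ A y).card : ℝ) ≤ δ * #S)
    (u : ∀ i, X.K i) (Y : Finset (Fin k)) :
    4 * #{ω ∈ S | ∃ i ∈ Y, 8 * (T + 1) * Real.sqrt ((k + 1) * δ) <
      |X.acc (F ω) i (u i) - X.acc A i (u i)|} ≤ #S := by
  set bad := {ω ∈ S | ∃ i ∈ Y, 8 * (T + 1) * Real.sqrt ((k + 1) * δ) <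
      |X.acc (F ω) i (u i) - X.acc A i (u i)|} with hbad
  -- the total weight
  have h1 : ∀ i, ∑ ω : {ω // ω ∈ S}, tot A (F ω.1) (X.C i) (X.ψ i (u i)) ≤ T * (δ * #S) := by
    intro i
    have h2 := sum_tot (ι := {ω // ω ∈ S}) A (fun ω => F ω.1) (δ * #S) Bd (by positivity)
      (fun y _ => by
        refine le_trans ?_ (hK y)
        norm_cast
        refine card_le_card_of_injOn (fun ω : {ω // ω ∈ S} => ω.1) (fun ω hω => ?_)
          (fun ω _ ω' _ h => Subtype.ext h)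
        exact mem_coe.2 (mem_filter.2 ⟨ω.2, (mem_filter.1 (mem_coe.1 hω)).2⟩))
      (X.C i) (hBd i) (X.ψ i (u i))
    have hψ2 : ∑ z, ‖X.ψ i (u i) z‖ ^ 2 = 1 := by rw [← nrm_sq, X.nrm_ψ, one_pow]
    rw [hψ2, mul_one] at h2
    refine h2.trans ?_
    have h3 : ((X.C i).length : ℝ) ≤ T := by exact_mod_cast hT i
    exact mul_le_mul_of_nonneg_right h3 (by positivity)
  have h2 : ∀ i, ∑ ω ∈ S, tot A (F ω) (X.C i) (X.ψ i (u i)) ≤ T * (δ * #S) := by
    intro i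
    refine le_trans (le_of_eq ?_) (h1 i)
    rw [← sum_coe_sort]
  -- a bad member has large weight
  have h3 : ∀ ω ∈ bad, 4 * ((k + 1) * (T + 1)) * δ ≤
      ∑ i, tot A (F ω) (X.C i) (X.ψ i (u i)) := by
    intro ω hω
    obtain ⟨i, hi, h4⟩ := (mem_filter.1 hω).2
    refine le_trans ?_ (single_le_sum (f := fun i => tot A (F ω) (X.C i) (X.ψ i (u i)))
      (fun i _ => tot_nonneg _ _ _ _) (mem_univ i))
    by_contra h5
    push Not at h5
    have h6 := accS_diff A (F ω) (X.C i) (X.q i) (X.ψ i (u i)) (X.nrm_ψ i (u i))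
    have h7 := hybrid A (F ω) (X.C i) (X.ψ i (u i))
    have h8 : ((X.C i).length : ℝ) ≤ T := by exact_mod_cast hT i
    have h9 : nrm (run (F ω) (X.C i) (X.ψ i (u i)) - run A (X.C i) (X.ψ i (u i))) ^ 2 ≤
        (4 * (T + 1) * Real.sqrt ((k + 1) * δ)) ^ 2 := by
      refine h7.trans ?_
      rw [mul_pow, Real.sq_sqrt (by positivity)]
      have h10 := tot_nonneg A (F ω) (X.C i) (X.ψ i (u i))
      have hT0 : (0 : ℝ) ≤ T := Nat.cast_nonneg _
      calc 4 * ((X.C i).length : ℝ) * tot A (F ω) (X.C i) (X.ψ i (u i)) ≤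
          4 * (T + 1) * (4 * ((k + 1) * (T + 1)) * δ) := by
            refine mul_le_mul ?_ h5.le h10 (by positivity)
            linarith
        _ = (4 * (T + 1)) ^ 2 * ((k + 1) * δ) := by ring
    have h11 := abs_le_of_sq_le_sq h9 (by positivity)
    have h12 := le_abs_self (nrm (run (F ω) (X.C i) (X.ψ i (u i)) - run A (X.C i) (X.ψ i (u i))))
    unfold Runs.acc at h4
    linarith
  have h4 : (bad.card : ℝ) * (4 * ((k + 1) * (T + 1)) * δ) ≤ k * (T * (δ * #S)) := by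
    calc (bad.card : ℝ) * (4 * ((k + 1) * (T + 1)) * δ) = ∑ _ω ∈ bad, 4 * ((k + 1) * (T + 1)) * δ := by
          rw [sum_const, nsmul_eq_mul]
      _ ≤ ∑ ω ∈ bad, ∑ i, tot A (F ω) (X.C i) (X.ψ i (u i)) := sum_le_sum h3
      _ ≤ ∑ ω ∈ S, ∑ i, tot A (F ω) (X.C i) (X.ψ i (u i)) :=
          sum_le_sum_of_subset_of_nonneg (filter_subset _ _) fun ω _ _ =>
            sum_nonneg fun i _ => tot_nonneg _ _ _ _
      _ = ∑ i, ∑ ω ∈ S, tot A (F ω) (X.C i) (X.ψ i (u i)) := sum_comm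
      _ ≤ ∑ _i : Fin k, T * (δ * #S) := sum_le_sum fun i _ => h2 i
      _ = k * (T * (δ * #S)) := by rw [sum_const, card_univ, Fintype.card_fin, nsmul_eq_mul]
  have hT0 : (0 : ℝ) ≤ T := Nat.cast_nonneg _
  have hk0 : (0 : ℝ) ≤ k := Nat.cast_nonneg _
  have hS0 : (0 : ℝ) ≤ #S := Nat.cast_nonneg _
  have h5 : (bad.card : ℝ) * 4 * (((k + 1) * (T + 1)) * δ) ≤ #S * (((k + 1) * (T + 1)) * δ) := by
    have h6 : (k : ℝ) * T ≤ (k + 1) * (T + 1) := by nlinarith
    have h7 : (k : ℝ) * (T * (δ * #S)) ≤ #S * (((k + 1) * (T + 1)) * δ) := by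
      have := mul_le_mul_of_nonneg_right h6 (mul_nonneg hδ.le hS0)
      nlinarith
    nlinarith
  have h6 : (0 : ℝ) < ((k + 1) * (T + 1)) * δ := by positivity
  have h7 : (bad.card : ℝ) * 4 ≤ #S := le_of_mul_le_mul_right h5 h6
  have h8 : bad.card * 4 ≤ #S := by exact_mod_cast h7
  omega

variable {nb : Gr} {n : ℕ}

/-- the vertices at level `n` -/
abbrev Vn (n : ℕ) : Type := Fin (aN n) → Bool

/-- the secrets of one side at level `n` -/
abbrev Dn (n : ℕ) : Type := Dat (Vn n) (hN n) (2 * hN n)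

/-- the world in which only the vertices of `F` are switched on -/
def bare (Ω : Bool → Dn n) (F : Bool → Finset (Vn n)) : Wd n := fun b => (Ω b, F b)

/-- the oracle in which level `n` is `w` -/
noncomputable def lev (nb : Gr) (B : Oracle) (W : ∀ n, Wd n) (n : ℕ) (w : Wd n) : Oracle :=
  orc nb B (Function.update W n w)

/-- the state of the construction: the questions in `Y` have an accepted witness already if only the
vertices of `F` are switched on -/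
def State (nb : Gr) (B : Oracle) (W : ∀ n, Wd n) (n : ℕ) (X : Runs k) (η : ℝ) (ℓ' : ℕ)
    (Y : Finset (Fin k)) : Prop :=
  ∃ (Ω : Bool → Dn n) (F : Bool → Finset (Vn n)) (j : Bool → ℕ) (u : ∀ i, X.K i),
    (∀ b v, Inj (Ω b v)) ∧ (∀ b, Closed (nb n) (F b)) ∧ (∀ b, Bud (nb n) (F b) (j b)) ∧
    (∀ b, #(F b) ≤ 3 * j b) ∧ (∀ b, j b ≤ #Y * ℓ') ∧
    ∀ i ∈ Y, 2 / 3 - 2 * #Y * η ≤ X.acc (lev nb B W n (bare Ω F)) i (u i)

open scoped Classical in
/-- the class of `Ω` near `F` -/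
noncomputable def clsT (nb : Gr) (n : ℕ) (F : Finset (Vn n)) (Ω : Dn n) : Finset (Dn n) :=
  {Ω' : Dn n | (∀ v, Inj (Ω' v)) ∧ Agr (nb n) F Ω' Ω}

theorem mem_clsT {F : Finset (Vn n)} {Ω Ω' : Dn n} :
    Ω' ∈ clsT nb n F Ω ↔ (∀ v, Inj (Ω' v)) ∧ Agr (nb n) F Ω' Ω := by
  classical
  unfold clsT
  exact ⟨fun h => (Finset.mem_filter.1 h).2, fun h => Finset.mem_filter.2 ⟨mem_univ _, h⟩⟩

/-- The oracles for the full side and for the near part differ only at live places. -/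
theorem lev_ne (hnb : Good (hN n) (nb n)) {B : Oracle} {W : ∀ n, Wd n} {w : Wd n} {b : Bool}
    {F : Finset (Vn n)} {Ω Ω' : Dn n} (hag : Agr (nb n) F Ω' Ω) {y : List Bool}
    (h : lev nb B W n (Function.update w b (Ω', univ)) y ≠
      lev nb B W n (Function.update w b (Ω, F)) y) :
    ∃ (_ : b = decide ((y.tail.length - (bN n + 2) ^ 2) % 2 = 1)), Live (nb n) F Ω'
      (plc ((y.tail.length - (bN n + 2) ^ 2) / 2) (fun t : Fin (bN n) => y.tail.getD (t + 1) false)) := by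
  have h1 := orc_ne h
  set j := y.tail.length - (bN n + 2) ^ 2 with hj
  set c := y.tail.getD 0 false with hc
  set x : Fin (bN n) → Bool := fun t => y.tail.getD (t + 1) false with hx
  by_contra hcon
  push Not at hcon
  refine h1 ?_
  unfold tab
  by_cases hb : b = decide (j % 2 = 1)
  · rw [← hb, Function.update_self, Function.update_self]
    rw [tb_mono (subset_univ F) (j / 2) c x (hcon hb)]
    exact tb_agr hnb.invol hag _ _ _
  · rw [Function.update_of_ne (Ne.symm hb), Function.update_of_ne (Ne.symm hb)]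

open scoped Classical in
theorem card_lev_ne (hnb : Good (hN n) (nb n)) {B : Oracle} {W : ∀ n, Wd n} {w : Wd n} {b : Bool}
    {F : Finset (Vn n)} {Ω : Dn n} {S : Finset (Dn n)} (hS : ∀ Ω' ∈ S, Agr (nb n) F Ω' Ω) {δ : ℝ}
    (hδ : ∀ l, (#{Ω' ∈ S | Live (nb n) F Ω' l} : ℝ) ≤ δ * #S) (y : List Bool) :
    ((S.filter fun Ω' => lev nb B W n (Function.update w b (Ω', univ)) y ≠
      lev nb B W n (Function.update w b (Ω, F)) y).card : ℝ) ≤ δ * #S := by
  refine le_trans ?_ (hδ (plc ((y.tail.length - (bN n + 2) ^ 2) / 2)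
    (fun t : Fin (bN n) => y.tail.getD (t + 1) false)))
  norm_cast
  refine card_le_card fun Ω' hΩ' => ?_
  rw [mem_filter] at hΩ' ⊢
  exact ⟨hΩ'.1, (lev_ne hnb (hS _ hΩ'.1) hΩ'.2).2⟩

theorem bare_update {Ω : Bool → Dn n} {F : Bool → Finset (Vn n)} {b : Bool} {Ω₀ : Dn n}
    {F' : Finset (Vn n)} :
    bare (Function.update Ω b Ω₀) (Function.update F b F') =
      Function.update (bare Ω F) b (Ω₀, F') := by
  funext r
  unfold bare
  by_cases h : r = b
  · subst h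
    simp only [Function.update_self]
  · simp only [Function.update_of_ne h]

theorem bare_update_self {Ω : Bool → Dn n} {F : Bool → Finset (Vn n)} {b : Bool} :
    Function.update (bare Ω F) b (Ω b, F b) = bare Ω F := by
  funext r
  unfold bare
  by_cases h : r = b
  · subst h
    simp only [Function.update_self]
  · simp only [Function.update_of_ne h]

open scoped Classical in
/-- **One step.** -/
theorem step (hfew : P_few) (hcore : P_core2) (hnb : Good (hN n) (nb n)) (B : Oracle)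
    (W : ∀ n, Wd n) (X : Runs k) {T Bd : ℕ} (hT : ∀ i, (X.C i).length ≤ T)
    (hBd : ∀ i, Short Bd (X.C i)) {ℓ ℓ' : ℕ} (hK : ∀ i, Fintype.card (X.K i) ≤ 2 ^ ℓ)
    (hℓ' : 2 * k * 2 ^ ℓ ≤ 2 ^ ℓ') (h1 : 3000 * ((k + 1) * (ℓ' + 2)) ≤ 2 ^ hN n) {η : ℝ}
    (hη : 8 * (T + 1) * Real.sqrt ((k + 1) * (8 / 2 ^ hN n)) ≤ η) (hη2 : (2 * k + 3) * η < 1 / 3)
    (s : Bool) (Rr : (Fin k → Prop) → Prop)
    (hP : ∀ w, Legit n w → (∀ i, (∃ κ, 2 / 3 ≤ X.acc (lev nb B W n w) i κ) ∨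
      ∀ κ, X.acc (lev nb B W n w) i κ ≤ 1 / 3) ∧
      ((w s).2 = univ ↔ Rr fun i => ∃ κ, 2 / 3 ≤ X.acc (lev nb B W n w) i κ))
    (Y : Finset (Fin k)) (hY : State nb B W n X η ℓ' Y) :
    ∃ Y', #Y' = #Y + 1 ∧ State nb B W n X η ℓ' Y' := by
  obtain ⟨Ω, F, j, u, hinj, hcl, hbud, hF, hj, hacc⟩ := hY
  have hhN : 1 ≤ hN n := by unfold hN; omega
  have hYk : #Y ≤ k := by
    have := card_le_univ Y
    rwa [Fintype.card_fin] at this
  have hYk' : (#Y : ℝ) ≤ k := by exact_mod_cast hYk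
  set δ : ℝ := 8 / 2 ^ hN n with hδ
  have hδ0 : 0 < δ := by positivity
  have hη0 : 0 ≤ η := le_trans (by positivity) hη
  have hjk : ∀ b, j b ≤ k * ℓ' := fun b => (hj b).trans (Nat.mul_le_mul_right _ hYk)
  have hFs : ∀ b, 1000 * #(F b) ≤ 2 ^ hN n := by
    intro b
    have h2 := hF b
    have h3 := hjk b
    nlinarith
  -- the worlds
  set Wb : Bool → Dn n → Wd n := fun b Ω' => Function.update (bare Ω F) b (Ω', univ) with hWb
  have hself : ∀ b, Ω b ∈ clsT nb n (F b) (Ω b) := fun b =>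
    mem_clsT.2 ⟨hinj b, fun v _ => rfl, fun v i _ => rfl⟩
  have hleg : ∀ b, ∀ Ω' ∈ clsT nb n (F b) (Ω b), Legit n (Wb b Ω') := by
    intro b Ω' hΩ'
    refine ⟨fun r v => ?_, b, by rw [hWb]; simp, ?_⟩
    · rw [hWb]
      by_cases h : r = b
      · subst h
        simp only [Function.update_self]
        exact (mem_clsT.1 hΩ').1 v
      · simp only [Function.update_of_ne h]
        exact hinj r v
    · rw [hWb]
      simp only [Function.update_of_ne (show (!b) ≠ b by cases b <;> simp)]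
      exact hFs _
  -- the bad members of the classes
  have hbad : ∀ b, 4 * #{Ω' ∈ clsT nb n (F b) (Ω b) | ∃ i ∈ Y,
      8 * (T + 1) * Real.sqrt ((k + 1) * δ) < |X.acc (lev nb B W n (Wb b Ω')) i (u i) -
        X.acc (lev nb B W n (bare Ω F)) i (u i)|} ≤ #(clsT nb n (F b) (Ω b)) := by
    intro b
    refine multi_close X hT hBd (clsT nb n (F b) (Ω b)) _
      (fun Ω' => lev nb B W n (Wb b Ω')) δ hδ0 (fun y => ?_) u Y
    have h2 := card_lev_ne (B := B) (W := W) (w := bare Ω F) (b := b) hnb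
      (F := F b) (Ω := Ω b) (S := clsT nb n (F b) (Ω b)) (fun Ω' h => (mem_clsT.1 h).2) (δ := δ)
      (fun l => ?_) y
    · rw [bare_update_self] at h2
      exact h2
    · have h3 := hfew (hN n) (2 * hN n) (hN n) (nb n) (F b) (Ω b) hnb hhN le_rfl (hinj b) (hcl b) l
      have h4 : #{Ω' ∈ clsT nb n (F b) (Ω b) | Live (nb n) (F b) Ω' l} * 2 ^ hN n ≤
          4 * #(clsT nb n (F b) (Ω b)) := by
        refine le_trans (le_of_eq ?_) h3
        congr 2
        ext Ω'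
        simp only [clsT, mem_filter, mem_univ, true_and, and_assoc]
      have h5 : (#{Ω' ∈ clsT nb n (F b) (Ω b) | Live (nb n) (F b) Ω' l} : ℝ) * 2 ^ hN n ≤
          4 * #(clsT nb n (F b) (Ω b)) := by exact_mod_cast h4
      rw [hδ, div_mul_eq_mul_div, le_div_iff₀ (by positivity)]
      have : (0 : ℝ) ≤ #(clsT nb n (F b) (Ω b)) := Nat.cast_nonneg _
      linarith
  set G : Bool → Finset (Dn n) := fun b => {Ω' ∈ clsT nb n (F b) (Ω b) | ∀ i ∈ Y,
      |X.acc (lev nb B W n (Wb b Ω')) i (u i) - X.acc (lev nb B W n (bare Ω F)) i (u i)| ≤ η} with hG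
  have hGc : ∀ b, #(clsT nb n (F b) (Ω b)) ≤ 2 * #(G b) ∧ 0 < #(G b) := by
    intro b
    have h2 := hbad b
    set N := {Ω' ∈ clsT nb n (F b) (Ω b) | ∃ i ∈ Y,
      8 * (T + 1) * Real.sqrt ((k + 1) * δ) < |X.acc (lev nb B W n (Wb b Ω')) i (u i) -
        X.acc (lev nb B W n (bare Ω F)) i (u i)|} with hN
    have h3 : clsT nb n (F b) (Ω b) ⊆ G b ∪ N := by
      intro Ω' hΩ'
      rw [mem_union]
      by_cases h4 : ∃ i ∈ Y, 8 * (T + 1) * Real.sqrt ((k + 1) * δ) <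
          |X.acc (lev nb B W n (Wb b Ω')) i (u i) - X.acc (lev nb B W n (bare Ω F)) i (u i)|
      · exact Or.inr (mem_filter.2 ⟨hΩ', h4⟩)
      · push Not at h4
        exact Or.inl (mem_filter.2 ⟨hΩ', fun i hi => (h4 i hi).trans hη⟩)
    have h4 := (card_le_card h3).trans (card_union_le _ _)
    have h5 : 0 < #(clsT nb n (F b) (Ω b)) := card_pos.2 ⟨_, hself b⟩
    omega
  -- the questions in `Y` are answered with yes in the good worlds
  have hyes : ∀ b, ∀ Ω' ∈ G b, ∀ i ∈ Y,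
      2 / 3 - (2 * #Y + 1) * η ≤ X.acc (lev nb B W n (Wb b Ω')) i (u i) := by
    intro b Ω' hΩ' i hi
    have h2 := abs_le.1 ((mem_filter.1 hΩ').2 i hi)
    have h3 := hacc i hi
    linarith [h2.1]
  have hyes' : ∀ b, ∀ Ω' ∈ G b, ∀ i ∈ Y, ∃ κ, 2 / 3 ≤ X.acc (lev nb B W n (Wb b Ω')) i κ := by
    intro b Ω' hΩ' i hi
    rcases (hP _ (hleg b Ω' (mem_filter.1 hΩ').1)).1 i with h2 | h2
    · exact h2
    · exfalso
      have h3 := h2 (u i)
      have h4 := hyes b Ω' hΩ' i hi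
      nlinarith
  -- some question outside of `Y` is answered with yes
  obtain ⟨b, hb⟩ : ∃ b, ∀ Ω' ∈ G b, ∃ p : (i : Fin k) × X.K i, p.1 ∉ Y ∧
      2 / 3 ≤ X.acc (lev nb B W n (Wb b Ω')) p.1 p.2 := by
    by_contra hno
    push Not at hno
    have key : ∀ b, ∃ Ω' ∈ G b, (fun i => ∃ κ, 2 / 3 ≤ X.acc (lev nb B W n (Wb b Ω')) i κ) =
        fun i => i ∈ Y := by
      intro b
      obtain ⟨Ω', hΩ', h2⟩ := hno b
      refine ⟨Ω', hΩ', funext fun i => propext ⟨fun ⟨κ, hκ⟩ => ?_, fun hi => hyes' b Ω' hΩ' i hi⟩⟩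
      by_contra hi
      exact absurd hκ (not_le.2 (h2 ⟨i, κ⟩ hi))
    obtain ⟨Ω₁, hΩ₁, e1⟩ := key s
    obtain ⟨Ω₂, hΩ₂, e2⟩ := key (!s)
    have h2 := (hP _ (hleg s Ω₁ (mem_filter.1 hΩ₁).1)).2
    have h3 := (hP _ (hleg (!s) Ω₂ (mem_filter.1 hΩ₂).1)).2
    rw [e1] at h2
    rw [e2] at h3
    have h4 : (Wb s Ω₁ s).2 = univ := by rw [hWb]; simp
    have h5 : (Wb (!s) Ω₂ s).2 ≠ univ := by
      rw [hWb]
      simp only [Function.update_of_ne (show s ≠ (!s) by cases s <;> simp)]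
      intro h
      exact univ_big n (h ▸ hFs s)
    exact h5 (h3.2 (h2.1 h4))
  -- pigeonhole
  have hcardS : Fintype.card ((i : Fin k) × X.K i) ≤ k * 2 ^ ℓ := by
    rw [Fintype.card_sigma]
    calc ∑ i, Fintype.card (X.K i) ≤ ∑ _i : Fin k, 2 ^ ℓ := sum_le_sum fun i _ => hK i
      _ = k * 2 ^ ℓ := by rw [sum_const, card_univ, Fintype.card_fin, smul_eq_mul]
  obtain ⟨p, hpY, hpE⟩ : ∃ p : (i : Fin k) × X.K i, p.1 ∉ Y ∧ #(G b) ≤ k * 2 ^ ℓ *
      #{Ω' ∈ G b | 2 / 3 ≤ X.acc (lev nb B W n (Wb b Ω')) p.1 p.2} := by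
    by_contra hno
    push Not at hno
    set P : Finset ((i : Fin k) × X.K i) := {p | p.1 ∉ Y} with hPdef
    have e1 : #(G b) ≤ ∑ p ∈ P, #{Ω' ∈ G b | 2 / 3 ≤ X.acc (lev nb B W n (Wb b Ω')) p.1 p.2} := by
      refine (card_le_card (t := P.biUnion fun p => {Ω' ∈ G b | 2 / 3 ≤
        X.acc (lev nb B W n (Wb b Ω')) p.1 p.2}) fun Ω' hΩ' => ?_).trans card_biUnion_le
      obtain ⟨p, hp1, hp2⟩ := hb Ω' hΩ'
      exact mem_biUnion.2 ⟨p, mem_filter.2 ⟨mem_univ _, hp1⟩, mem_filter.2 ⟨hΩ', hp2⟩⟩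
    have hPne : P.Nonempty := by
      obtain ⟨Ω', hΩ'⟩ := card_pos.1 (hGc b).2
      obtain ⟨p, hp1, hp2⟩ := hb Ω' hΩ'
      exact ⟨p, mem_filter.2 ⟨mem_univ _, hp1⟩⟩
    have e2 : ∑ p ∈ P, k * 2 ^ ℓ * #{Ω' ∈ G b | 2 / 3 ≤
        X.acc (lev nb B W n (Wb b Ω')) p.1 p.2} < ∑ _p ∈ P, #(G b) :=
      sum_lt_sum_of_nonempty hPne fun p hp => hno p (mem_filter.1 hp).2
    rw [← mul_sum, sum_const, smul_eq_mul] at e2
    have e3 : k * 2 ^ ℓ * #(G b) ≤ k * 2 ^ ℓ * ∑ p ∈ P, #{Ω' ∈ G b | 2 / 3 ≤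
        X.acc (lev nb B W n (Wb b Ω')) p.1 p.2} := Nat.mul_le_mul_left _ e1
    have e4 : #P ≤ k * 2 ^ ℓ := (card_le_univ P).trans hcardS
    have e5 : #P * #(G b) ≤ k * 2 ^ ℓ * #(G b) := Nat.mul_le_mul_right _ e4
    omega
  obtain ⟨i₀, κ₀⟩ := p
  simp only at hpY hpE
  set E := {Ω' ∈ G b | 2 / 3 ≤ X.acc (lev nb B W n (Wb b Ω')) i₀ κ₀} with hE
  have hEc : #(clsT nb n (F b) (Ω b)) ≤ 2 ^ ℓ' * #E := by
    calc #(clsT nb n (F b) (Ω b)) ≤ 2 * #(G b) := (hGc b).1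
      _ ≤ 2 * (k * 2 ^ ℓ * #E) := Nat.mul_le_mul_left _ hpE
      _ = 2 * k * 2 ^ ℓ * #E := by ring
      _ ≤ 2 ^ ℓ' * #E := Nat.mul_le_mul_right _ hℓ'
  have hEne : E.Nonempty := by
    rw [← card_pos]
    have h2 : 0 < #(clsT nb n (F b) (Ω b)) := card_pos.2 ⟨_, hself b⟩
    by_contra h0
    have h0' : #E = 0 := by omega
    rw [h0'] at hEc
    omega
  have hEcls : ∀ Ω' ∈ E, Ω' ∈ clsT nb n (F b) (Ω b) := fun Ω' h =>
    (mem_filter.1 (mem_filter.1 h).1).1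
  obtain ⟨F', Ω₀, j', hFF', hcl', hbud', hj', hF', hΩ₀, hlive⟩ := hcore (hN n) (2 * hN n) (hN n) ℓ'
    (j b) (nb n) (F b) (Ω b) E δ hnb hhN le_rfl (hinj b) (hbud b) (hcl b) (hF b)
    (fun Ω' h => mem_clsT.1 (hEcls Ω' h)) hEne hEc (by have := hjk b; nlinarith) le_rfl
  set S := {Ω' ∈ E | Agr (nb n) F' Ω' Ω₀} with hS
  have hSne : 0 < #S := card_pos.2 ⟨Ω₀, mem_filter.2 ⟨hΩ₀, fun v _ => rfl, fun v i _ => rfl⟩⟩
  set u' : ∀ i, X.K i := Function.update u i₀ κ₀ with hu'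
  have hclose := multi_close X hT hBd S (lev nb B W n (Function.update (bare Ω F) b (Ω₀, F')))
    (fun Ω' => lev nb B W n (Wb b Ω')) δ hδ0 (fun y => card_lev_ne hnb
      (fun Ω' h => (mem_filter.1 h).2) (fun l => by
        refine le_trans (le_of_eq ?_) (hlive l)
        congr 2
        ext Ω'
        simp only [hS, mem_filter, and_assoc]) y) u' (insert i₀ Y)
  obtain ⟨Ω', hΩ'S, hΩ'⟩ : ∃ Ω' ∈ S, ∀ i ∈ insert i₀ Y,
      |X.acc (lev nb B W n (Wb b Ω')) i (u' i) -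
        X.acc (lev nb B W n (Function.update (bare Ω F) b (Ω₀, F'))) i (u' i)| ≤ η := by
    by_contra hno
    push Not at hno
    have h2 : S ⊆ {ω ∈ S | ∃ i ∈ insert i₀ Y, 8 * (T + 1) * Real.sqrt ((k + 1) * δ) <
        |X.acc (lev nb B W n (Wb b ω)) i (u' i) -
          X.acc (lev nb B W n (Function.update (bare Ω F) b (Ω₀, F'))) i (u' i)|} := by
      intro Ω' h
      obtain ⟨i, hi, h3⟩ := hno Ω' h
      exact mem_filter.2 ⟨h, i, hi, hη.trans_lt h3⟩
    have h3 := card_le_card h2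
    omega
  have hΩ'E : Ω' ∈ E := (mem_filter.1 hΩ'S).1
  have hcardY : #(insert i₀ Y) = #Y + 1 := card_insert_of_notMem hpY
  refine ⟨insert i₀ Y, hcardY, Function.update Ω b Ω₀, Function.update F b F',
    Function.update j b j', u', ?_, ?_, ?_, ?_, ?_, ?_⟩
  · intro r v
    by_cases h : r = b
    · subst h
      rw [Function.update_self]
      exact (mem_clsT.1 (hEcls _ hΩ₀)).1 v
    · rw [Function.update_of_ne h]
      exact hinj r v
  · intro r
    by_cases h : r = b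
    · subst h
      rw [Function.update_self]
      exact hcl'
    · rw [Function.update_of_ne h]
      exact hcl r
  · intro r
    by_cases h : r = b
    · subst h
      rw [Function.update_self, Function.update_self]
      exact hbud'
    · rw [Function.update_of_ne h, Function.update_of_ne h]
      exact hbud r
  · intro r
    by_cases h : r = b
    · subst h
      rw [Function.update_self, Function.update_self]
      exact hF'
    · rw [Function.update_of_ne h, Function.update_of_ne h]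
      exact hF r
  · intro r
    rw [hcardY, Nat.add_mul, Nat.one_mul]
    by_cases h : r = b
    · subst h
      rw [Function.update_self]
      have := hj r
      omega
    · rw [Function.update_of_ne h]
      have := hj r
      omega
  · intro i hi
    rw [bare_update, hcardY]
    push_cast
    have h2 := abs_le.1 (hΩ' i hi)
    by_cases h : i = i₀
    · subst h
      have h3 : 2 / 3 ≤ X.acc (lev nb B W n (Wb b Ω')) i (u' i) := by
        rw [hu', Function.update_self]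
        exact (mem_filter.1 hΩ'E).2
      have h4 : (0 : ℝ) ≤ #Y := Nat.cast_nonneg _
      nlinarith [h2.2]
    · have h3 : u' i = u i := by rw [hu', Function.update_of_ne h]
      have h4 := hyes b Ω' (mem_filter.1 hΩ'E).1 i (by
        rcases mem_insert.1 hi with h5 | h5
        · exact absurd h5 h
        · exact h5)
      rw [h3] at h2 ⊢
      linarith [h2.2]

/-- **Nonadaptive questions are fooled by a world of one level.** -/
theorem fool2 (hfew : P_few) (hcore : P_core2) (hnb : Good (hN n) (nb n)) (B : Oracle)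
    (W : ∀ n, Wd n) (X : Runs k) {T Bd : ℕ} (hT : ∀ i, (X.C i).length ≤ T)
    (hBd : ∀ i, Short Bd (X.C i)) {ℓ ℓ' : ℕ} (hK : ∀ i, Fintype.card (X.K i) ≤ 2 ^ ℓ)
    (hℓ' : 2 * k * 2 ^ ℓ ≤ 2 ^ ℓ') (h1 : 3000 * ((k + 1) * (ℓ' + 2)) ≤ 2 ^ hN n)
    (h2 : 5000 * ((2 * k + 3) * (T + 1) * (k + 1)) ^ 2 < 2 ^ hN n)
    (s : Bool) (Rr : (Fin k → Prop) → Prop) :
    ∃ w, Legit n w ∧ ((∀ i, (∃ κ, 2 / 3 ≤ X.acc (lev nb B W n w) i κ) ∨
      ∀ κ, X.acc (lev nb B W n w) i κ ≤ 1 / 3) →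
      ¬ ((w s).2 = univ ↔ Rr fun i => ∃ κ, 2 / 3 ≤ X.acc (lev nb B W n w) i κ)) := by
  by_contra hcon
  push Not at hcon
  set η : ℝ := 8 * (T + 1) * Real.sqrt ((k + 1) * (8 / 2 ^ hN n)) with hη
  have hη0 : 0 ≤ η := by positivity
  have hη2 : (2 * k + 3) * η < 1 / 3 := by
    have e1 : ((2 * k + 3) * η) ^ 2 < (1 / 3) ^ 2 := by
      rw [hη, mul_pow, mul_pow, Real.sq_sqrt (by positivity)]
      have h3 : (5000 : ℝ) * ((2 * k + 3) * (T + 1) * (k + 1)) ^ 2 < 2 ^ hN n := by exact_mod_cast h2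
      have h4 : (0 : ℝ) < 2 ^ hN n := by positivity
      have hk0 : (0 : ℝ) ≤ k := Nat.cast_nonneg _
      have hT0 : (0 : ℝ) ≤ T := Nat.cast_nonneg _
      have e2 : (2 * (k : ℝ) + 3) ^ 2 * ((8 * (T + 1)) ^ 2 * ((k + 1) * (8 / 2 ^ hN n))) =
          512 * ((2 * k + 3) ^ 2 * (T + 1) ^ 2 * (k + 1)) / 2 ^ hN n := by
        field_simp
        ring
      rw [e2, div_lt_iff₀ h4]
      have h5 : ((2 * (k : ℝ) + 3) ^ 2 * (T + 1) ^ 2 * (k + 1)) ≤
          ((2 * k + 3) * (T + 1) * (k + 1)) ^ 2 := by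
        have h6 : (0 : ℝ) ≤ (2 * (k : ℝ) + 3) ^ 2 * (T + 1) ^ 2 := by positivity
        have h7 : (k : ℝ) + 1 ≤ (k + 1) ^ 2 := by nlinarith
        calc ((2 * (k : ℝ) + 3) ^ 2 * (T + 1) ^ 2 * (k + 1)) ≤
            (2 * (k : ℝ) + 3) ^ 2 * (T + 1) ^ 2 * (k + 1) ^ 2 := mul_le_mul_of_nonneg_left h7 h6
          _ = _ := by ring
      nlinarith
    have e2 := abs_lt_of_sq_lt_sq e1 (by norm_num)
    exact (le_abs_self _).trans_lt e2
  have hP : ∀ w, Legit n w → (∀ i, (∃ κ, 2 / 3 ≤ X.acc (lev nb B W n w) i κ) ∨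
      ∀ κ, X.acc (lev nb B W n w) i κ ≤ 1 / 3) ∧
      ((w s).2 = univ ↔ Rr fun i => ∃ κ, 2 / 3 ≤ X.acc (lev nb B W n w) i κ) :=
    fun w hw => hcon w hw
  have hbase : State nb B W n X η ℓ' ∅ := by
    obtain ⟨p₀, hp₀⟩ := exists_inj (hN n) (2 * hN n) (by omega)
    refine ⟨fun _ _ => p₀, fun _ => ∅, fun _ => 0, fun i => Classical.choice (X.non i),
      fun _ _ => hp₀, fun _ v _ => by simp, fun _ => by simp [Bud], fun _ => by simp,
      fun _ => by simp, fun i hi => by simp at hi⟩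
  have key : ∀ t, ∃ Y : Finset (Fin k), #Y = t ∧ State nb B W n X η ℓ' Y := by
    intro t
    induction t with
    | zero => exact ⟨∅, rfl, hbase⟩
    | succ t ih =>
      obtain ⟨Y, rfl, hY⟩ := ih
      exact step hfew hcore hnb B W X hT hBd hK hℓ' h1 le_rfl hη2 s Rr hP Y hY
  obtain ⟨Y, hY, -⟩ := key (k + 1)
  have := card_le_univ Y
  rw [Fintype.card_fin] at this
  omega

end Pool.Agent.K7x.QC
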