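import Pool.Agent.K7x.QC.Orc
import Pool.Agent.H9x.RT.Fam

/-!
# The verifiers for both sides
-/

set_option autoImplicit false

namespace Pool.Agent.K7x.QC

open Finset Pool.Agent.NPC Pool.Agent.H620R2.Gauge Pool.Agent.H9x.Q
open Pool.Agent.H9x.RT (poly_had poly_cnot poly_query)

section Poly

variable {α : Type} [TEnc α]

theorem poly_replicate {β : Type} [TEnc β] {n : α → ℕ} {b : α → β} (hn : UPoly n) (hb : Poly b) :
    Poly (fun a => List.replicate (n a) (b a)) :=
  (NPC.Poly.map (F := fun a _ => b a) hn.range (hb.comp (Poly.fst Poly.id))).congr fun a => by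
    simp

theorem poly_lq {n B c pad : α → ℕ} (hn : UPoly n) (hB : UPoly B) (hc : Poly c) (hp : UPoly pad) :
    Poly (fun a => lq (n a) (B a) (c a) (pad a)) := by
  unfold lq
  have hz : Poly (fun a => n a + 1 + B a) := Poly.add (Poly.add hn.toPoly (NPC.Poly.const 1)) hB.toPoly
  refine Poly.cons hz (Poly.cons hc (Poly.append (NPC.Poly.map (F := fun a t => n a + 1 + t) hB.range
    ?_) (poly_replicate hp hz)))
  exact Poly.add (Poly.add (hn.toPoly.comp (Poly.fst Poly.id)) (NPC.Poly.const 1)) (Poly.snd Poly.id)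

theorem poly_cH {n a m : α → ℕ} (hn : Poly n) (ha : Poly a) (hm : UPoly m) :
    Poly (fun u => cH (n u) (a u) (m u)) := by
  unfold cH
  exact NPC.Poly.map (UPoly.range hm) (poly_had (Poly.add (Poly.add (Poly.add
    (hn.comp (Poly.fst Poly.id)) (NPC.Poly.const 1)) (ha.comp (Poly.fst Poly.id)))
    (Poly.snd Poly.id)))

variable {n a m f g : α → ℕ} {p : α → ℕ → ℕ}

theorem poly_cA (hn : UPoly n) (ha : UPoly a) (hm : UPoly m) (h0 : UPoly fun u => p u 0)
    (h1 : UPoly fun u => p u 1) (hf : Poly f) (hg : Poly g) :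
    Poly (fun u => cA (n u) (a u) (m u) (p u) (f u) (g u)) := by
  unfold cA
  have hB := UPoly.add ha hm
  have hz : Poly (fun u => n u + 1 + (a u + m u)) :=
    Poly.add (Poly.add hn.toPoly (NPC.Poly.const 1)) hB.toPoly
  have hH := poly_cH hn.toPoly ha.toPoly hm
  exact Poly.cons (poly_query (poly_lq hn hB hz h0) hf) (Poly.append hH
    (Poly.cons (poly_query (poly_lq hn hB hz h1) hg) hH))

theorem cQ_eq (n B : ℕ) (pd : ℕ → ℕ) : cQ n B pd =
    (List.range B).map fun t => Gate.query (lq n B (n + 2 + B) (pd (2 + min t B))) (n + 8 + B + t) := by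
  unfold cQ
  refine List.map_congr_left fun t ht => ?_
  rw [min_eq_left (List.mem_range.1 ht).le]

theorem poly_cQ {B : α → ℕ} {c s : α → ℕ} (hn : UPoly n) (hB : UPoly B) (hc : UPoly c)
    (hs : UPoly s) (hp : ∀ u i, p u i = c u + (2 * i + s u)) :
    Poly (fun u => cQ (n u) (B u) (p u)) := by
  have h1 : ∀ u, cQ (n u) (B u) (p u) = (List.range (B u)).map fun t =>
      Gate.query (lq (n u) (B u) (n u + 2 + B u) (c u + (2 * (2 + min t (B u)) + s u)))
        (n u + 8 + B u + t) := by
    intro u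
    rw [cQ_eq]
    refine List.map_congr_left fun t _ => ?_
    rw [hp]
  refine Poly.congr ?_ fun u => (h1 u).symm
  have hn' : UPoly (fun q : α × ℕ => n q.1) := hn.comp (Poly.fst Poly.id)
  have hB' : UPoly (fun q : α × ℕ => B q.1) := hB.comp (Poly.fst Poly.id)
  have hc' : UPoly (fun q : α × ℕ => c q.1) := hc.comp (Poly.fst Poly.id)
  have hs' : UPoly (fun q : α × ℕ => s q.1) := hs.comp (Poly.fst Poly.id)
  have hmin : UPoly (fun q : α × ℕ => min q.2 (B q.1)) :=
    UPoly.of_le (Poly.min (Poly.snd Poly.id) hB'.toPoly) hB' fun q => min_le_right _ _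
  refine NPC.Poly.map (F := fun u t => Gate.query (lq (n u) (B u) (n u + 2 + B u)
    (c u + (2 * (2 + min t (B u)) + s u))) (n u + 8 + B u + t)) hB.range
    (poly_query (poly_lq hn' hB' ?_ ?_) ?_)
  · exact Poly.add (Poly.add hn'.toPoly (NPC.Poly.const 2)) hB'.toPoly
  · exact UPoly.add hc' (UPoly.add (UPoly.mul (UPoly.const 2) (UPoly.add (UPoly.const 2) hmin)) hs')
  · exact Poly.add (Poly.add (Poly.add hn'.toPoly (NPC.Poly.const 8)) hB'.toPoly) (Poly.snd Poly.id)

theorem poly_cB {B : α → ℕ} {c s : α → ℕ} (hn : UPoly n) (hB : UPoly B) (hc : UPoly c)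
    (hs : UPoly s) (hp : ∀ u i, p u i = c u + (2 * i + s u)) :
    Poly (fun u => cB (n u) (B u) (p u)) := by
  have hQ := poly_cQ hn hB hc hs hp
  have h0 : UPoly fun u => p u 0 := (UPoly.add hc hs).congr fun u => by
    show List.replicate (c u + s u) () = List.replicate (p u 0) ()
    rw [hp, Nat.mul_zero, Nat.zero_add]
  unfold cB
  have hz : Poly (fun u => n u + 1 + B u) :=
    Poly.add (Poly.add hn.toPoly (NPC.Poly.const 1)) hB.toPoly
  have h2 : Poly (fun u => n u + 2 + B u) :=
    Poly.add (Poly.add hn.toPoly (NPC.Poly.const 2)) hB.toPoly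
  have h5 : Poly (fun u => n u + 5 + B u) :=
    Poly.add (Poly.add hn.toPoly (NPC.Poly.const 5)) hB.toPoly
  have hn' : Poly (fun q : α × ℕ => n q.1) := hn.toPoly.comp (Poly.fst Poly.id)
  have hB' : Poly (fun q : α × ℕ => B q.1) := hB.toPoly.comp (Poly.fst Poly.id)
  refine Poly.cons (poly_query (poly_lq hn hB hz h0) h5) (Poly.cons (poly_had h2)
    (Poly.append hQ (Poly.append (NPC.Poly.map (F := fun u t => Gate.cnot (n u + 8 + B u + t)
      (n u + 1 + t)) hB.range (poly_cnot ?_ ?_)) (Poly.append hQ (Poly.cons (poly_had h2)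
      (NPC.Poly.const []))))))
  · exact Poly.add (Poly.add (Poly.add hn' (NPC.Poly.const 8)) hB') (Poly.snd Poly.id)
  · exact Poly.add (Poly.add hn' (NPC.Poly.const 1)) (Poly.snd Poly.id)

theorem poly_cV {c s : α → ℕ} (hn : UPoly n) (ha : UPoly a) (hm : UPoly m) (hc : UPoly c)
    (hs : UPoly s) (hp : ∀ u i, p u i = c u + (2 * i + s u)) :
    Poly (fun u => cV (n u) (a u) (m u) (p u)) := by
  have hB := UPoly.add ha hm
  have h0 : UPoly fun u => p u 0 := (UPoly.add hc hs).congr fun u => by
    show List.replicate (c u + s u) () = List.replicate (p u 0) ()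
    rw [hp, Nat.mul_zero, Nat.zero_add]
  have h1 : UPoly fun u => p u 1 :=
    (UPoly.add hc (UPoly.add (UPoly.const 2) hs)).congr fun u => by
      show List.replicate (c u + (2 + s u)) () = List.replicate (p u 1) ()
      rw [hp]
  have hk : ∀ k, Poly (fun u => n u + k + (a u + m u)) := fun k =>
    Poly.add (Poly.add hn.toPoly (NPC.Poly.const k)) hB.toPoly
  unfold cV
  refine Poly.append (poly_cA hn ha hm h0 h1 (hk 3) (hk 4)) (Poly.append
    (poly_cB hn hB hc hs hp) (Poly.append (poly_cA hn ha hm h0 h1 (hk 6) (hk 7)) (Poly.cons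
    (poly_query ?_ hn.toPoly) (NPC.Poly.const []))))
  exact Poly.cons (hk 1) (Poly.cons (hk 3) (Poly.cons (hk 4) (Poly.cons (hk 5) (Poly.cons (hk 6)
    (Poly.cons (hk 7) (Poly.cons (hk 2) (NPC.Poly.const [])))))))

end Poly

/-- the polynomial `a` -/
noncomputable def pa : Polynomial ℕ := Polynomial.C 8 * (Polynomial.X + Polynomial.C 1) ^ 2

/-- the polynomial `2 h` -/
noncomputable def pm : Polynomial ℕ := Polynomial.C 2 * (Polynomial.X + Polynomial.C 1)

theorem pa_eval (n : ℕ) : pa.eval n = aN n := by simp [pa, aN]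

theorem pm_eval (n : ℕ) : pm.eval n = 2 * hN n := by simp [pm, hN]

theorem poly_circ (s : Bool) : PolyTime (fun u : List Bool =>
    bits (cV u.length (aN u.length) (2 * hN u.length) (pd s u.length))) := by
  have hlen : UPoly (fun u : List Bool => u.length) := UPoly.length Poly.id
  have ha : UPoly (fun u : List Bool => aN u.length) :=
    (hlen.eval pa).congr fun u => by simp only [pa_eval]
  have hm : UPoly (fun u : List Bool => 2 * hN u.length) :=
    (hlen.eval pm).congr fun u => by simp only [pm_eval]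
  have hb : UPoly (fun u : List Bool => bN u.length) := UPoly.add ha hm
  have h2 : UPoly (fun u : List Bool => (bN u.length + 2) ^ 2) :=
    (UPoly.mul (UPoly.add hb (UPoly.const 2)) (UPoly.add hb (UPoly.const 2))).congr fun u => by
      simp only [sq]
  have h3 : UPoly (fun u : List Bool => (bN u.length + 2) ^ 2 - (1 + bN u.length)) :=
    UPoly.of_le (Poly.sub h2.toPoly (UPoly.add (UPoly.const 1) hb).toPoly) h2 fun u =>
      Nat.sub_le _ _
  exact polyTime_bits (poly_cV hlen ha hm h3 (UPoly.const s.toNat) fun u i => rfl)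

/-- the verifier for one side -/
noncomputable def ver (s : Bool) : Verifier where
  circ n := cV n (aN n) (2 * hN n) (pd s n)
  poly := poly_circ s
  wit := pa + pm
  anc := pa + pm + Polynomial.C 7

variable {nb : Gr}

/-- The numbers of a level are as they should be: the maps are injective, one side is switched on
and on the other one only few vertices are switched on. -/
def Legit (n : ℕ) (w : Wd n) : Prop :=
  (∀ s v, Inj ((w s).1 v)) ∧ ∃ s, (w s).2 = univ ∧ 1000 * #(w (!s)).2 ≤ 2 ^ (hN n)

/-- the language of one side -/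
def lang (W : ∀ n, Wd n) (s : Bool) : Set (List Bool) := {x | (W x.length s).2 = univ}

theorem univ_big (n : ℕ) : ¬ 1000 * #(univ : Finset (Fin (aN n) → Bool)) ≤ 2 ^ (hN n) := by
  rw [card_univ, Fintype.card_fun, Fintype.card_bool, Fintype.card_fin, not_le]
  have h1 : 2 ^ hN n ≤ 2 ^ aN n := Nat.pow_le_pow_right (by norm_num) (by
    unfold hN aN
    nlinarith)
  have h2 : 0 < 2 ^ aN n := by positivity
  omega

theorem lang_not {W : ∀ n, Wd n} (hW : ∀ n, Legit n (W n)) (s : Bool) :
    lang W (!s) = (lang W s)ᶜ := by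
  ext x
  obtain ⟨_, r, h1, h2⟩ := hW x.length
  have h3 : (W x.length (!r)).2 ≠ univ := fun h => univ_big x.length (h ▸ h2)
  show (W x.length (!s)).2 = univ ↔ ¬ (W x.length s).2 = univ
  cases s <;> cases r <;> simp_all

theorem acc_val (hc : P_circ) (hn : P_norm) (hnb : ∀ n, Good (hN n) (nb n)) (B : Oracle)
    {W : ∀ n, Wd n} (hW : ∀ n, Legit n (W n)) (s : Bool) (x : List Bool)
    (φ : Basis (aN x.length + 2 * hN x.length) → ℂ) {M : ℕ}
    (hM : x.length + 8 + 2 * (aN x.length + 2 * hN x.length) ≤ M) :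
    accS (orc nb B W) (cV x.length (aN x.length) (2 * hN x.length) (pd s x.length)) x.length
      (start M _ x φ) =
    ∑ y, ‖kV (tS (nb x.length) (W x.length s).1 (W x.length s).2)
          (tD (W x.length s).1 (W x.length s).2)
          (oth (nb x.length) (W x.length s).1 (W x.length s).2) φ y‖ ^ 2 := by
  refine hc _ _ _ _ _ _ _ _ _ _ _ rfl hM ?_ ?_ ?_ (fun _ _ _ _ _ _ => orc_and _ _ _ _ _ _) ?_
  · intro c y
    exact orc_qs s c (by omega) y
  · intro c y
    exact orc_qs s c (by have := ten_le_bN x.length; omega) y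
  · intro t c y
    have ht : (t : ℕ) < bN x.length := t.2
    refine (orc_qs (n := x.length) (i := 2 + t) s c (by omega) y).trans ?_
    unfold tb
    rw [if_neg (by omega), if_neg (by omega), dif_pos (by omega)]
    simp only [Nat.add_sub_cancel_left]
    rfl
  · intro y hy
    exact (hn _ _ _ _ (hnb x.length) _ ((hW x.length).1 s)).1 _ y hy

theorem isQMA1 (hc : P_circ) (hn : P_norm) (hnb : ∀ n, Good (hN n) (nb n)) (B : Oracle)
    {W : ∀ n, Wd n} (hW : ∀ n, Legit n (W n)) (s : Bool) : IsQMA1 (orc nb B W) (lang W s) := by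
  refine ⟨ver s, fun x => ?_⟩
  have hk : (ver s).wit.eval x.length = aN x.length + 2 * hN x.length := by
    simp [ver, pa_eval, pm_eval]
  have hM : x.length + 8 + 2 * (aN x.length + 2 * hN x.length) ≤ (ver s).qubits x.length := by
    unfold Verifier.qubits
    rw [hk]
    simp only [ver, Polynomial.eval_add, pa_eval, pm_eval, Polynomial.eval_C]
    omega
  obtain ⟨_, h1, h2⟩ := hn _ _ _ _ (hnb x.length) _ ((hW x.length).1 s)
  unfold Verifier.acc
  have e : (ver s).circ x.length = cV x.length (aN x.length) (2 * hN x.length) (pd s x.length) := rfl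
  rw [e]
  generalize (ver s).qubits x.length = M at hM ⊢
  generalize (ver s).wit.eval x.length = k at hk ⊢
  subst hk
  constructor
  · intro hx
    obtain ⟨φ, h3, h4⟩ := h1
    refine ⟨φ, h3, ?_⟩
    rw [acc_val hc hn hnb B hW s x φ hM]
    have hx' : (W x.length s).2 = univ := hx
    rw [hx']
    exact h4
  · intro hx φ hφ
    rw [acc_val hc hn hnb B hW s x φ hM]
    refine h2 _ ?_ φ hφ
    obtain ⟨_, r, h5, h6⟩ := hW x.length
    have hx' : (W x.length s).2 ≠ univ := hx
    have : r = !s := by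
      cases s <;> cases r <;> simp_all
    subst this
    rw [Bool.not_not] at h6
    exact h6

end Pool.Agent.K7x.QC
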