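import Pool.Agent.K7x.QC.Diag

/-!
# The oracle
-/

set_option autoImplicit false

namespace Pool.Agent.K7x.QC

open Finset Filter Pool.Agent.NPC Pool.Agent.H620R2.Gauge Pool.Agent.H9x.Q
open Pool.Agent.R562.QH (nrm nrm_sq nrm_nonneg nrm_add_le nrm_congr)

theorem start_ket {m k : ℕ} (x : List Bool) (b : Basis k) (hm : x.length + 1 + k ≤ m) :
    ∃ z, start m k x (ket b) = ket z := by
  refine ⟨fun i : Fin m => if h : x.length + 1 ≤ (i : ℕ) ∧ (i : ℕ) < x.length + 1 + k then
    b ⟨i - (x.length + 1), by omega⟩ else x.getD i false, ?_⟩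
  funext z
  unfold start ket
  by_cases hz : z = fun i : Fin m => if h : x.length + 1 ≤ (i : ℕ) ∧ (i : ℕ) < x.length + 1 + k then
      b ⟨i - (x.length + 1), by omega⟩ else x.getD i false
  · rw [if_pos hz, if_pos, if_pos]
    · funext j
      rw [hz]
      unfold bit
      rw [dif_pos (by omega)]
      simp only
      rw [dif_pos ⟨by omega, by omega⟩]
      congr 1
      exact Fin.ext (by simp)
    · intro i hi
      unfold bit
      split_ifs with h1
      · rw [hz]
        simp only
        rw [dif_neg (by omega)]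
      · rw [List.getD_eq_default _ _ (by omega)]
  · rw [if_neg hz]
    split_ifs with h1 h2
    · refine absurd ?_ hz
      funext i
      by_cases hi : x.length + 1 ≤ (i : ℕ) ∧ (i : ℕ) < x.length + 1 + k
      · rw [dif_pos hi]
        have h3 := congrFun h2 ⟨i - (x.length + 1), by omega⟩
        rw [← h3]
        unfold bit
        rw [dif_pos (by simp only; omega)]
        congr 1
        exact Fin.ext (by simp only; omega)
      · rw [dif_neg hi]
        have h3 := h1 i (by omega)
        unfold bit at h3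
        rw [dif_pos i.2] at h3
        exact h3
    · rfl
    · rfl

theorem nrm_ket {m : ℕ} (z : Basis m) : nrm (ket z) = 1 := by
  have h1 : nrm (ket z) ^ 2 = 1 := by rw [nrm_sq, ket_norm]
  have h2 := nrm_nonneg (ket z)
  nlinarith [sq_nonneg (nrm (ket z) - 1)]

theorem accS_congr {Bd : ℕ} {A A' : Oracle} (h : ∀ y : List Bool, y.length ≤ Bd → A y = A' y)
    {C : List Gate} (hC : Short Bd C) {m : ℕ} (n : ℕ) (ψ : Basis m → ℂ) :
    accS A C n ψ = accS A' C n ψ := by
  unfold accS
  rw [run_congr h C hC]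

variable {nb : Gr}

/-- the requirement for a verifier with classical witnesses -/
def Req (nb : Gr) (B : Oracle) (F : Verifier) (t : ℕ → ℕ) (s : Bool) (W : ∀ n, Wd n) : Prop :=
  ¬ ∀ x, (x ∈ lang W s → ∃ w : List Bool, 2 / 3 ≤ F.accC (orc nb B W) (padT t x) w) ∧
    (x ∉ lang W s → ∀ w : List Bool, F.accC (orc nb B W) (padT t x) w ≤ 1 / 3)

theorem stage (hcore : P_core) (hnb : ∀ n, Good (hN n) (nb n)) (B : Oracle) (F : Verifier)
    {t : ℕ → ℕ} (ht : (fun n => (t n : ℝ)) =o[atTop] fun n => (n : ℝ)) (s : Bool)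
    (W : ∀ n, Wd n) (n₀ : ℕ) : ∃ n, n₀ ≤ n ∧ ∃ w : Wd n, Legit n w ∧ ∃ m, n < m ∧
      ∀ W' : ∀ n, Wd n, (∀ i < m, W' i = Function.update W n w i) → Req nb B F t s W' := by
  obtain ⟨P, hP⟩ := F.size
  obtain ⟨D, -, hD⟩ := Pool.Agent.H622R2.Exp.YAux.poly_bound P
  obtain ⟨D', -, hD'⟩ := Pool.Agent.H622R2.Exp.YAux.poly_bound F.wit
  obtain ⟨n, hn, hnum⟩ := num ht (D + D') n₀
  set x : List Bool := List.replicate n false with hx
  have hxl : x.length = n := by simp [hx]
  set X := padT t x with hX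
  have hXl : X.length = 2 * n + 1 + 2 ^ t n := by
    rw [hX, padT, length_pairBits, hxl, List.length_replicate]
  have hle : (X.length + 2) ^ D ≤ (X.length + 2) ^ (D + D') :=
    Nat.pow_le_pow_right (by omega) (by omega)
  have hle' : (X.length + 2) ^ D' ≤ (X.length + 2) ^ (D + D') :=
    Nat.pow_le_pow_right (by omega) (by omega)
  obtain ⟨h1, h2⟩ := hnum (F.wit.eval X.length) (F.circ X.length).length
    (by rw [← hXl]; exact (hD' _).trans hle') (by rw [← hXl]; exact ((hP _).1.trans (hD _)).trans hle)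
  have hnrm : ∀ b : Basis (F.wit.eval X.length),
      nrm (start (F.qubits X.length) (F.wit.eval X.length) X (ket b)) = 1 := by
    intro b
    obtain ⟨z, hz⟩ := start_ket (m := F.qubits X.length) X b (by unfold Verifier.qubits; omega)
    rw [hz, nrm_ket]
  obtain ⟨w, hw, hcase⟩ := fool hcore (hnb n) B W (F.circ X.length) (hP X.length).2 X.length
    (fun b => start (F.qubits X.length) (F.wit.eval X.length) X (ket b)) hnrm
    (F.wit.eval X.length) (by rw [Fintype.card_fun, Fintype.card_bool, Fintype.card_fin])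
    h1 h2 s
  refine ⟨n, hn, w, hw, max n (P.eval X.length) + 1, by omega, fun W' hW' hreq => ?_⟩
  have hWn : W' n = w := by
    rw [hW' n (by omega), Function.update_self]
  have hacc : ∀ b : Basis (F.wit.eval X.length), F.acc (orc nb B W') X (ket b) =
      accS (orc nb B (Function.update W n w)) (F.circ X.length) X.length
        (start (F.qubits X.length) (F.wit.eval X.length) X (ket b)) := by
    intro b
    refine accS_congr (fun y hy => orc_congr fun k hk => ?_) (hP X.length).2 _ _
    refine hW' k ?_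
    have h3 := le_bN k
    have h4 : bN k + 2 ≤ (bN k + 2) ^ 2 := by nlinarith [Nat.zero_le (bN k)]
    omega
  have hmem : x ∈ lang W' s ↔ (w s).2 = univ := by
    show (W' x.length s).2 = univ ↔ _
    rw [hxl, hWn]
  rcases hcase with ⟨h3, h4⟩ | ⟨h3, b, h4⟩
  · obtain ⟨v, hv⟩ := (hreq x).1 (hmem.2 h3)
    rw [← hX] at hv
    have h5 := h4 fun i => v.getD i false
    rw [← hacc] at h5
    exact absurd hv (not_le.2 h5)
  · have h5 := (hreq x).2 (fun h => h3 (hmem.1 h)) (List.ofFn b)
    rw [← hX] at h5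
    unfold Verifier.accC at h5
    have e : (fun i : Fin (F.wit.eval X.length) => (List.ofFn b).getD i false) = b := by
      funext i
      rw [List.getD_eq_getElem _ _ (by simp)]
      simp
    rw [e, hacc] at h5
    exact absurd h5 (not_le.2 h4)

theorem world (hgr : P_graph) (hcore : P_core) (hcirc : P_circ) (hnorm : P_norm) (B : Oracle) :
    ∃ A : Oracle, Reduces {y | B y = true} {y | A y = true} ∧ ∃ L : Set (List Bool),
      IsQMA1 A L ∧ IsQMA1 A Lᶜ ∧ ∀ t : ℕ → ℕ, Computable t →
        ((fun n => (t n : ℝ)) =o[atTop] fun n => (n : ℝ)) →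
          ¬ IsQCMATime t A L ∧ ¬ IsQCMATime t A Lᶜ := by
  obtain ⟨nb, hnb'⟩ : ∃ nb : Gr, ∀ n, Good (hN n) (nb n) := by
    choose nb hnb using fun n : ℕ => hgr (n + 1) (by omega)
    exact ⟨nb, hnb⟩
  let κ := Verifier × {t : ℕ → ℕ // Computable t} × Bool
  have hc : Countable κ := inferInstance
  obtain ⟨e, he⟩ := hc.exists_injective_nat
  obtain ⟨p₀, hp₀⟩ : ∃ p : ∀ n, Par (hN n) (2 * hN n), ∀ n, Inj (p n) := by
    choose p hp using fun n => exists_inj (hN n) (2 * hN n) (by omega)
    exact ⟨p, hp⟩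
  obtain ⟨W, hW, hR⟩ := diag (X := Wd) (fun n => {w | Legit n w})
    (fun n => mk true (fun _ => p₀ n, univ) (fun _ => p₀ n, ∅))
    (fun n => ⟨fun s v => by unfold mk; split_ifs <;> exact hp₀ n, true, by simp, by
      rw [mk_not]; simp⟩)
    (fun k W => ∀ (F : Verifier) (t : {t : ℕ → ℕ // Computable t}) (s : Bool), e (F, t, s) = k →
      ((fun n => (t.1 n : ℝ)) =o[atTop] fun n => (n : ℝ)) → Req nb B F t.1 s W)
    (fun k W n₀ hW => by
      by_cases hk : ∃ (F : Verifier) (t : {t : ℕ → ℕ // Computable t}) (s : Bool), e (F, t, s) = k ∧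
          ((fun n => (t.1 n : ℝ)) =o[atTop] fun n => (n : ℝ))
      · obtain ⟨F, t, s, hk, ht⟩ := hk
        obtain ⟨n, hn, w, hw, m, hm, h⟩ := stage hcore hnb' B F ht s W n₀
        refine ⟨n, hn, w, hw, m, hm, fun W' hW' F' t' s' hk' ht' => ?_⟩
        have := he (hk'.trans hk.symm)
        obtain ⟨rfl, h2⟩ := Prod.ext_iff.1 this
        obtain ⟨h3, h4⟩ := Prod.ext_iff.1 h2
        simp only at h3 h4
        subst h3 h4
        exact h W' hW'
      · refine ⟨n₀, le_rfl, W n₀, hW n₀, n₀ + 1, by omega, fun W' _ F' t' s' hk' ht' => ?_⟩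
        exact absurd ⟨F', t', s', hk', ht'⟩ hk)
  refine ⟨orc nb B W, ?_, lang W true, isQMA1 hcirc hnorm hnb' B hW true, ?_, fun t ht ho => ?_⟩
  · refine ⟨fun y => true :: y, ?_, fun y => ?_⟩
    · exact Pool.Agent.H622R2.polyTime_of_poly_list (Poly.cons (NPC.Poly.const true) Poly.id)
    · exact Iff.rfl
  · have h := isQMA1 hcirc hnorm hnb' B hW false
    have e2 := lang_not hW true
    rw [← e2]
    exact h
  · constructor
    · rintro ⟨F, hF⟩
      exact hR _ F ⟨t, ht⟩ true rfl ho hF
    · rintro ⟨F, hF⟩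
      have e2 := lang_not hW true
      rw [← e2] at hF
      exact hR _ F ⟨t, ht⟩ false rfl ho hF

end Pool.Agent.K7x.QC
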