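import Pool.Agent.K7x.QC.World
import Pool.Agent.K7x.QC.Tt
import Pool.Agent.K7x.QC.DefsT

/-!
# The oracle, with nonadaptive questions
-/

set_option autoImplicit false

namespace Pool.Agent.K7x.QC

open Finset Filter Pool.Agent.NPC Pool.Agent.H620R2.Gauge Pool.Agent.H9x.Q Pool.Agent.H622R2
open Pool.Agent.R562.QH (nrm nrm_sq nrm_nonneg nrm_add_le nrm_congr)

/-- the number and the lengths of the questions are polynomially bounded -/
theorem quest_size {Q : List Bool → List (List Bool)} (hQ : PolyTime (fun u => bits (Q u))) :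
    ∃ P : Polynomial ℕ, ∀ u, (Q u).length ≤ P.eval u.length ∧
      ∀ q ∈ Q u, q.length ≤ P.eval u.length := by
  obtain ⟨p, hp⟩ := (poly_of_polyTime hQ).sz_le
  refine ⟨p.comp (Polynomial.C 4 * Polynomial.X + Polynomial.C 1), fun u => ?_⟩
  have h1 : sz (Q u) ≤ (p.comp (Polynomial.C 4 * Polynomial.X + Polynomial.C 1)).eval u.length := by
    have h2 := hp u
    have h3 := sz_listBool_ge (bits (Q u))
    rw [bits_length] at h3
    have h4 := eval_mono p (sz_listBool_le u)
    simp only [Polynomial.eval_comp, Polynomial.eval_add, Polynomial.eval_mul, Polynomial.eval_C,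
      Polynomial.eval_X]
    omega
  refine ⟨(length_lt_sz _).le.trans h1, fun q hq => ?_⟩
  have h5 : sz q < sz (Q u) := sz_le_of_mem hq
  have h8 := length_lt_sz q
  omega

variable {nb : Gr}

/-- the runs for a list of questions -/
noncomputable def runsOf (F : Verifier) (ql : List (List Bool)) : Runs ql.length where
  C i := F.circ (ql.get i).length
  M i := F.qubits (ql.get i).length
  q i := (ql.get i).length
  K i := Basis (F.wit.eval (ql.get i).length)
  fin i := inferInstance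
  non i := inferInstance
  ψ i κ := start (F.qubits (ql.get i).length) (F.wit.eval (ql.get i).length) (ql.get i) (ket κ)
  nrm_ψ i κ := by
    obtain ⟨z, hz⟩ := start_ket (m := F.qubits (ql.get i).length) (ql.get i) κ
      (by unfold Verifier.qubits; omega)
    rw [hz, nrm_ket]

theorem runs_acc (F : Verifier) (ql : List (List Bool)) (A : Oracle) (i : Fin ql.length)
    (κ : Basis (F.wit.eval (ql.get i).length)) :
    (runsOf F ql).acc A i κ = F.acc A (ql.get i) (ket κ) := rfl

theorem yes_iff (F : Verifier) (A : Oracle) (q : List Bool) :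
    F.Yes A q ↔ ∃ κ : Basis (F.wit.eval q.length), 2 / 3 ≤ F.acc A q (ket κ) := by
  constructor
  · rintro ⟨w, hw⟩
    exact ⟨_, hw⟩
  · rintro ⟨κ, hκ⟩
    refine ⟨List.ofFn κ, ?_⟩
    unfold Verifier.accC
    have e : (fun i : Fin (F.wit.eval q.length) => (List.ofFn κ).getD i false) = κ := by
      funext i
      rw [List.getD_eq_getElem _ _ (by simp)]
      simp
    rw [e]
    exact hκ

theorem no_imp (F : Verifier) (A : Oracle) (q : List Bool) (h : F.No A q)
    (κ : Basis (F.wit.eval q.length)) : F.acc A q (ket κ) ≤ 1 / 3 := by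
  have h1 := h (List.ofFn κ)
  unfold Verifier.accC at h1
  have e : (fun i : Fin (F.wit.eval q.length) => (List.ofFn κ).getD i false) = κ := by
    funext i
    rw [List.getD_eq_getElem _ _ (by simp)]
    simp
  rw [e] at h1
  exact h1

open scoped Classical in
/-- the requirement for nonadaptive questions -/
def ReqT (nb : Gr) (B : Oracle) (F : Verifier) (Q : List Bool → List (List Bool))
    (R : List Bool → List Bool) (t : ℕ → ℕ) (W : ∀ n, Wd n) : Prop :=
  ¬ ∀ x, (∀ q ∈ Q (padT t x), F.Yes (orc nb B W) q ∨ F.No (orc nb B W) q) ∧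
    (x ∈ lang W true ↔ R (pairBits (padT t x) ((Q (padT t x)).map fun q =>
      decide (F.Yes (orc nb B W) q))) = [true])

open scoped Classical in
theorem stage2 (hfew : P_few) (hcore : P_core2) (hnb : ∀ n, Good (hN n) (nb n)) (B : Oracle)
    (F : Verifier) {Q : List Bool → List (List Bool)} (hQ : PolyTime (fun u => bits (Q u)))
    (R : List Bool → List Bool)
    {t : ℕ → ℕ} (ht : (fun n => (t n : ℝ)) =o[atTop] fun n => (n : ℝ))
    (W : ∀ n, Wd n) (n₀ : ℕ) : ∃ n, n₀ ≤ n ∧ ∃ w : Wd n, Legit n w ∧ ∃ m, n < m ∧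
      ∀ W' : ∀ n, Wd n, (∀ i < m, W' i = Function.update W n w i) → ReqT nb B F Q R t W' := by
  obtain ⟨P, hP⟩ := F.size
  obtain ⟨S, hS⟩ := quest_size hQ
  -- a polynomial which bounds everything
  set Z : Polynomial ℕ := (Polynomial.C 2 * S + Polynomial.C 3) * (P.comp S + Polynomial.C 1) *
    (S + Polynomial.C 1) + (S + Polynomial.C 1) * (S + F.wit.comp S + Polynomial.C 3) with hZ
  obtain ⟨D, -, hD⟩ := Pool.Agent.H622R2.Exp.YAux.poly_bound Z
  obtain ⟨n, hn, hnum⟩ := num ht D n₀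
  set x : List Bool := List.replicate n false with hx
  have hxl : x.length = n := by simp [hx]
  set X := padT t x with hX
  have hXl : X.length = 2 * n + 1 + 2 ^ t n := by
    rw [hX, padT, length_pairBits, hxl, List.length_replicate]
  set ql := Q X with hql
  set k := ql.length with hk
  set σ := S.eval X.length with hσ
  have hkσ : k ≤ σ := (hS X).1
  have hqσ : ∀ i : Fin ql.length, (ql.get i).length ≤ σ := fun i => (hS X).2 _ (List.get_mem ql i)
  set T := P.eval σ with hT
  set ℓ := F.wit.eval σ with hℓ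
  have hZe : Z.eval X.length = (2 * σ + 3) * (T + 1) * (σ + 1) + (σ + 1) * (σ + ℓ + 3) := by
    simp only [hZ, Polynomial.eval_add, Polynomial.eval_mul, Polynomial.eval_C, Polynomial.eval_comp,
      ← hσ, ← hT, ← hℓ]
  have hZD : Z.eval X.length ≤ (2 * n + 1 + 2 ^ t n + 2) ^ D := by
    rw [← hXl]
    exact hD _
  obtain ⟨h1, h2⟩ := hnum ((k + 1) * (k + ℓ + 3)) ((2 * k + 3) * (T + 1) * (k + 1))
    (by
      refine le_trans ?_ hZD
      rw [hZe]
      have : (k + 1) * (k + ℓ + 3) ≤ (σ + 1) * (σ + ℓ + 3) := Nat.mul_le_mul (by omega) (by omega)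
      omega)
    (by
      refine le_trans ?_ hZD
      rw [hZe]
      have : (2 * k + 3) * (T + 1) * (k + 1) ≤ (2 * σ + 3) * (T + 1) * (σ + 1) :=
        Nat.mul_le_mul (Nat.mul_le_mul (by omega) le_rfl) (by omega)
      omega)
  have hTl : ∀ i : Fin k, ((runsOf F ql).C i).length ≤ T := fun i =>
    (hP _).1.trans (eval_mono P (hqσ i))
  have hBd : ∀ i : Fin k, Short T ((runsOf F ql).C i) := fun i l r h =>
    ((hP _).2 l r h).trans (eval_mono P (hqσ i))
  have hK : ∀ i : Fin k, Fintype.card ((runsOf F ql).K i) ≤ 2 ^ ℓ := by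
    intro i
    show Fintype.card (Basis (F.wit.eval (ql.get i).length)) ≤ 2 ^ ℓ
    rw [Fintype.card_fun, Fintype.card_bool, Fintype.card_fin]
    exact Nat.pow_le_pow_right (by norm_num) (eval_mono F.wit (hqσ i))
  have hℓ' : 2 * k * 2 ^ ℓ ≤ 2 ^ (k + ℓ + 1) := by
    have h3 : k ≤ 2 ^ k := Nat.lt_two_pow_self.le
    calc 2 * k * 2 ^ ℓ ≤ 2 * 2 ^ k * 2 ^ ℓ := by gcongr
      _ = 2 ^ (k + ℓ + 1) := by ring
  obtain ⟨w, hw, hcase⟩ := fool2 hfew hcore (hnb n) B W (runsOf F ql) hTl hBd hK hℓ'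
    (by
      show 3000 * ((k + 1) * (k + ℓ + 1 + 2)) ≤ 2 ^ (n + 1)
      have : 3000 * ((k + 1) * (k + ℓ + 1 + 2)) = 3000 * ((k + 1) * (k + ℓ + 3)) := by ring
      omega) (by unfold hN; exact h2) true
    (fun Y => R (pairBits X (List.ofFn fun i => decide (Y i))) = [true])
  refine ⟨n, hn, w, hw, max n T + 1, by omega, fun W' hW' hreq => ?_⟩
  have hWn : W' n = w := by
    rw [hW' n (by omega), Function.update_self]
  have hacc : ∀ (i : Fin k) (κ : Basis (F.wit.eval (ql.get i).length)),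
      F.acc (orc nb B W') (ql.get i) (ket κ) = (runsOf F ql).acc (lev nb B W n w) i κ := by
    intro i κ
    refine accS_congr (Bd := T) (fun y hy => orc_congr fun k' hk' => ?_) (hBd i) _ _
    refine hW' k' ?_
    have h3 := le_bN k'
    have h4 : bN k' + 2 ≤ (bN k' + 2) ^ 2 := by nlinarith [Nat.zero_le (bN k')]
    omega
  have hmem : x ∈ lang W' true ↔ (w true).2 = univ := by
    show (W' x.length true).2 = univ ↔ _
    rw [hxl, hWn]
  obtain ⟨hr1, hr2⟩ := hreq x
  rw [← hX, ← hql] at hr1 hr2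
  have hyes : ∀ i : Fin k, F.Yes (orc nb B W') (ql.get i) ↔
      ∃ κ, 2 / 3 ≤ (runsOf F ql).acc (lev nb B W n w) i κ := by
    intro i
    rw [yes_iff]
    exact exists_congr fun κ => by rw [hacc]
  refine hcase (fun i => ?_) ?_
  · rcases hr1 (ql.get i) (List.get_mem ql i) with h | h
    · exact Or.inl ((hyes i).1 h)
    · exact Or.inr fun κ => (hacc i κ).symm.le.trans (no_imp F _ _ h κ)
  · rw [← hmem, hr2]
    have e : (ql.map fun q => decide (F.Yes (orc nb B W') q)) =
        List.ofFn fun i : Fin k => decide (∃ κ, 2 / 3 ≤ (runsOf F ql).acc (lev nb B W n w) i κ) := by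
      refine List.ext_getElem (by simp [hk]) fun i hi hi' => ?_
      rw [List.getElem_map, List.getElem_ofFn]
      exact decide_eq_decide.2 (hyes ⟨i, by simpa using hi⟩)
    rw [e]
    refine iff_of_eq (congrArg (fun l => R (pairBits X l) = [true])
      (congrArg List.ofFn (funext fun i => ?_)))
    exact decide_eq_decide.2 Iff.rfl

/-- the requirements -/
abbrev RI : Type :=
  (Verifier × Bool × {t : ℕ → ℕ // Computable t}) ⊕
    (Verifier × {Q : List Bool → List (List Bool) // PolyTime fun u => bits (Q u)} ×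
      {R : List Bool → List Bool // PolyTime R} × {t : ℕ → ℕ // Computable t})

instance : Countable {R : List Bool → List Bool // PolyTime R} := countable_polyTime.to_subtype

instance : Countable {Q : List Bool → List (List Bool) // PolyTime fun u => bits (Q u)} := by
  let G : {Q : List Bool → List (List Bool) // PolyTime fun u => bits (Q u)} →
      {R : List Bool → List Bool // PolyTime R} := fun Q => ⟨fun u => bits (Q.1 u), Q.2⟩
  have hG : Function.Injective G := by
    intro Q Q' h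
    refine Subtype.ext (funext fun u => ?_)
    exact bits_injective (congrFun (Subtype.mk.inj h) u)
  exact hG.countable

/-- what is required -/
def RReq (nb : Gr) (B : Oracle) (W : ∀ n, Wd n) : RI → Prop
  | .inl (F, s, t) => ((fun n => (t.1 n : ℝ)) =o[atTop] fun n => (n : ℝ)) → Req nb B F t.1 s W
  | .inr (F, Q, R, t) =>
    ((fun n => (t.1 n : ℝ)) =o[atTop] fun n => (n : ℝ)) → ReqT nb B F Q.1 R.1 t.1 W

theorem stageR (hcore : P_core) (hfew : P_few) (hcore2 : P_core2)
    (hnb : ∀ n, Good (hN n) (nb n)) (B : Oracle) (r : RI)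
    (W : ∀ n, Wd n) (hW : ∀ n, Legit n (W n)) (n₀ : ℕ) :
    ∃ n, n₀ ≤ n ∧ ∃ w : Wd n, Legit n w ∧ ∃ m, n < m ∧
      ∀ W' : ∀ n, Wd n, (∀ i < m, W' i = Function.update W n w i) → RReq nb B W' r := by
  rcases r with ⟨F, s, t⟩ | ⟨F, Q, R, t⟩
  · by_cases ht : (fun n => (t.1 n : ℝ)) =o[atTop] fun n => (n : ℝ)
    · obtain ⟨n, hn, w, hw, m, hm, h⟩ := stage hcore hnb B F ht s W n₀
      exact ⟨n, hn, w, hw, m, hm, fun W' hW' _ => h W' hW'⟩
    · exact ⟨n₀, le_rfl, W n₀, hW n₀, n₀ + 1, by omega, fun W' _ h => absurd h ht⟩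
  · by_cases ht : (fun n => (t.1 n : ℝ)) =o[atTop] fun n => (n : ℝ)
    · obtain ⟨n, hn, w, hw, m, hm, h⟩ := stage2 hfew hcore2 hnb B F Q.2 R.1 ht W n₀
      exact ⟨n, hn, w, hw, m, hm, fun W' hW' _ => h W' hW'⟩
    · exact ⟨n₀, le_rfl, W n₀, hW n₀, n₀ + 1, by omega, fun W' _ h => absurd h ht⟩

theorem world2 (hgr : P_graph) (hcore : P_core) (hfew : P_few) (hcore2 : P_core2)
    (hcirc : P_circ) (hnorm : P_norm) (B : Oracle) :
    ∃ A : Oracle, Reduces {y | B y = true} {y | A y = true} ∧ ∃ L : Set (List Bool),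
      IsQMA1 A L ∧ IsQMA1 A Lᶜ ∧ ∀ t : ℕ → ℕ, Computable t →
        ((fun n => (t n : ℝ)) =o[atTop] fun n => (n : ℝ)) →
          ¬ IsQCMATime t A L ∧ ¬ IsQCMATime t A Lᶜ ∧ ¬ IsTTQCMATime t A L := by
  obtain ⟨nb, hnb'⟩ : ∃ nb : Gr, ∀ n, Good (hN n) (nb n) := by
    choose nb hnb using fun n : ℕ => hgr (n + 1) (by omega)
    exact ⟨nb, hnb⟩
  have hc : Countable RI := inferInstance
  obtain ⟨e, he⟩ := hc.exists_injective_nat
  obtain ⟨p₀, hp₀⟩ : ∃ p : ∀ n, Par (hN n) (2 * hN n), ∀ n, Inj (p n) := by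
    choose p hp using fun n => exists_inj (hN n) (2 * hN n) (by omega)
    exact ⟨p, hp⟩
  obtain ⟨W, hW, hR⟩ := diag (X := Wd) (fun n => {w | Legit n w})
    (fun n => mk true (fun _ => p₀ n, univ) (fun _ => p₀ n, ∅))
    (fun n => ⟨fun s v => by unfold mk; split_ifs <;> exact hp₀ n, true, by simp, by
      rw [mk_not]; simp⟩)
    (fun k W => ∀ r, e r = k → RReq nb B W r)
    (fun k W n₀ hW => by
      by_cases hk : ∃ r, e r = k
      · obtain ⟨r, hr⟩ := hk
        obtain ⟨n, hn, w, hw, m, hm, h⟩ := stageR hcore hfew hcore2 hnb' B r W hW n₀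
        refine ⟨n, hn, w, hw, m, hm, fun W' hW' r' hr' => ?_⟩
        have := he (hr'.trans hr.symm)
        subst this
        exact h W' hW'
      · exact ⟨n₀, le_rfl, W n₀, hW n₀, n₀ + 1, by omega, fun W' _ r' hr' =>
          absurd ⟨r', hr'⟩ hk⟩)
  refine ⟨orc nb B W, ?_, lang W true, isQMA1 hcirc hnorm hnb' B hW true, ?_, fun t ht ho => ?_⟩
  · exact ⟨fun y => true :: y,
      Pool.Agent.H622R2.polyTime_of_poly_list (Poly.cons (NPC.Poly.const true) Poly.id),
      fun y => Iff.rfl⟩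
  · have h := isQMA1 hcirc hnorm hnb' B hW false
    have e2 := lang_not hW true
    rw [← e2]
    exact h
  · refine ⟨?_, ?_, ?_⟩
    · rintro ⟨F, hF⟩
      exact hR _ (.inl (F, true, ⟨t, ht⟩)) rfl ho hF
    · rintro ⟨F, hF⟩
      have e2 := lang_not hW true
      rw [← e2] at hF
      exact hR _ (.inl (F, false, ⟨t, ht⟩)) rfl ho hF
    · rintro ⟨F, Q, R, hQ, hR', hF⟩
      exact hR _ (.inr (F, ⟨Q, hQ⟩, ⟨R, hR'⟩, ⟨t, ht⟩)) rfl ho hF

end Pool.Agent.K7x.QC
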