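import Pool.Agent.K7x.QC.World2
import Pool.Agent.K7x.QC.Ad4
import Pool.Agent.K7x.QC.DefsP
import Pool.Agent.H622R2.Exp.A1

/-!
# The oracle, with adaptive questions
-/

set_option autoImplicit false

namespace Pool.Agent.K7x.QC

open Finset Filter Pool.Agent.NPC Pool.Agent.H620R2.Gauge Pool.Agent.H9x.Q Pool.Agent.H622R2
open Pool.Agent.R562.QH (nrm nrm_sq nrm_nonneg nrm_add_le nrm_congr)

/-- the runs of a verifier -/
noncomputable def rnsOf (F : Verifier) : Rns (List Bool) where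
  C q := F.circ q.length
  M q := F.qubits q.length
  q q := q.length
  K q := Basis (F.wit.eval q.length)
  fin q := inferInstance
  non q := inferInstance
  ψ q κ := start (F.qubits q.length) (F.wit.eval q.length) q (ket κ)
  nrm_ψ q κ := by
    obtain ⟨z, hz⟩ := start_ket (m := F.qubits q.length) q κ (by unfold Verifier.qubits; omega)
    rw [hz, nrm_ket]

theorem rns_acc (F : Verifier) (A : Oracle) (q : List Bool) (κ : Basis (F.wit.eval q.length)) :
    (rnsOf F).acc A q κ = F.acc A q (ket κ) := rfl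

/-- the next question -/
def askOf (M : Alg) (x : List Bool) (k : ℕ) (α : List Bool) : Option (List Bool) :=
  if α.length < k then
    match M.D (pairBits x α) with
    | false :: q => some q
    | _ => none
  else none

/-- acceptance after the answers `α` -/
def acceptOf (M : Alg) (x : List Bool) (k : ℕ) (α : List Bool) : Prop :=
  α.length < k ∧ M.D (pairBits x α) = [true, true]

theorem askOf_some {M : Alg} {x : List Bool} {k : ℕ} {α q : List Bool}
    (h : askOf M x k α = some q) : α.length < k ∧ M.D (pairBits x α) = false :: q := by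
  unfold askOf at h
  split_ifs at h with h1
  refine ⟨h1, ?_⟩
  split at h
  · rename_i q' hq
    rw [hq]
    cases h
    rfl
  · cases h

open scoped Classical in
theorem follow {M : Alg} {X : Rns (List Bool)} {A O : Oracle} {G : List Bool → Prop}
    {x : List Bool} {k : ℕ}
    (hO : ∀ α q, askOf M x k α = some q → O q = decide (X.Yes A q)) {β : List Bool}
    (h : Pth X (askOf M x k) A β) : β.length ≤ k ∧
      (Asks M O G x k [] → Asks M O G x (k - β.length) β) ∧
      M.run O x k [] = M.run O x (k - β.length) β := by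
  induction h with
  | nil => exact ⟨Nat.zero_le _, fun h => h, rfl⟩
  | @snoc α q h1 h2 ih =>
    obtain ⟨h3, h4⟩ := askOf_some h2
    obtain ⟨i1, i2, i3⟩ := ih
    have e : k - α.length = (k - (α ++ [decide (X.Yes A q)]).length) + 1 := by
      rw [List.length_append, List.length_singleton]
      omega
    rw [e] at i2 i3
    refine ⟨by rw [List.length_append, List.length_singleton]; omega, fun h5 => ?_, ?_⟩
    · have h6 := i2 h5
      simp only [Asks, h4] at h6
      rw [hO α q h2] at h6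
      exact h6.2
    · rw [i3]
      simp only [Alg.run, h4]
      rw [hO α q h2]

open scoped Classical in
theorem follow_prom {M : Alg} {X : Rns (List Bool)} {A O : Oracle} {G : List Bool → Prop}
    {x : List Bool} {k : ℕ}
    (hO : ∀ α q, askOf M x k α = some q → O q = decide (X.Yes A q)) {β q : List Bool}
    (h : Pth X (askOf M x k) A β) (hq : askOf M x k β = some q) (ha : Asks M O G x k []) :
    G q := by
  obtain ⟨-, h1, -⟩ := follow (G := G) hO h
  obtain ⟨h3, h4⟩ := askOf_some hq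
  have h5 := h1 ha
  obtain ⟨m, hm⟩ : ∃ m, k - β.length = m + 1 := ⟨k - β.length - 1, by omega⟩
  rw [hm] at h5
  simp only [Asks, h4] at h5
  exact h5.1

open scoped Classical in
theorem follow_fin {M : Alg} {X : Rns (List Bool)} {A O : Oracle}
    {x : List Bool} {k : ℕ}
    (hO : ∀ α q, askOf M x k α = some q → O q = decide (X.Yes A q)) {β : List Bool}
    (h : Pth X (askOf M x k) A β) (hq : askOf M x k β = none) :
    M.run O x k [] = some [true] ↔ acceptOf M x k β := by
  obtain ⟨h0, -, h1⟩ := follow (G := fun _ => True) hO h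
  rw [h1]
  unfold acceptOf
  by_cases h2 : β.length < k
  · obtain ⟨m, hm⟩ : ∃ m, k - β.length = m + 1 := ⟨k - β.length - 1, by omega⟩
    rw [hm]
    unfold askOf at hq
    rw [if_pos h2] at hq
    rcases hD : M.D (pairBits x β) with _ | ⟨_ | _, z⟩
    · simp [Alg.run, hD]
    · rw [hD] at hq
      cases hq
    · simp [Alg.run, hD, h2]
  · have : k - β.length = 0 := by omega
    rw [this]
    simp [Alg.run, h2]

theorem num3 {t : ℕ → ℕ} (ht : (fun n => (t n : ℝ)) =o[atTop] fun n => (n : ℝ)) (k : ℕ) (n₀ : ℕ) :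
    ∃ n, n₀ ≤ n ∧ 100 ≤ n ∧ (2 * n + 1 + 2 ^ t n + 2) ^ k < 2 ^ ((n + 1) / 8) := by
  set j : ℕ := 16 * (k + 1) with hj
  have hj0 : (0 : ℝ) < 1 / j := by
    have : 0 < j := by omega
    positivity
  have h1 := ht.bound hj0
  have h2 : ∀ᶠ u : ℕ in atTop, 2 * (j * (u + 1)) + 3 ≤ 2 ^ u := by
    have h3 : Tendsto (fun u : ℕ => (u : ℝ) / 2 ^ u) atTop (nhds 0) := by
      have := tendsto_pow_const_div_const_pow_of_one_lt 1 (r := (2 : ℝ)) (by norm_num)
      simpa using this
    have h4 := h3.eventually (gt_mem_nhds (show (0 : ℝ) < 1 / (4 * j + 4) by positivity))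
    filter_upwards [h4, eventually_ge_atTop 3] with u h5 h6
    have h7 : (0 : ℝ) < 2 ^ u := by positivity
    rw [div_lt_iff₀ h7, div_mul_eq_mul_div, one_mul, lt_div_iff₀ (by positivity)] at h5
    have h8 : (u : ℝ) * (4 * j + 4) = ((u * (4 * j + 4) : ℕ) : ℝ) := by push_cast; ring
    rw [h8] at h5
    have h9 : u * (4 * j + 4) < 2 ^ u := by exact_mod_cast h5
    nlinarith
  have h3 : ∀ᶠ n : ℕ in atTop, 2 * (j * (n / j + 1)) + 3 ≤ 2 ^ (n / j) := by
    have : Tendsto (fun n : ℕ => n / j) atTop atTop :=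
      Nat.tendsto_div_const_atTop (by omega)
    exact this.eventually h2
  obtain ⟨n, hn⟩ := (((h1.and h3).and (eventually_ge_atTop (n₀ + 100 * j)))).exists
  obtain ⟨⟨hn1, hn2⟩, hn3⟩ := hn
  have hjpos : 0 < j := by omega
  refine ⟨n, by omega, by omega, ?_⟩
  set u := n / j with hu
  have hju : j * u ≤ n := Nat.mul_div_le n j
  have hnu : n < j * (u + 1) := by
    rw [mul_comm]
    exact Nat.lt_mul_of_div_lt (Nat.lt_succ_self _) hjpos
  have htn : t n ≤ u := by
    rw [Real.norm_of_nonneg (Nat.cast_nonneg _), Real.norm_of_nonneg (Nat.cast_nonneg _)] at hn1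
    rw [hu, Nat.le_div_iff_mul_le hjpos]
    have h5 : (t n : ℝ) * j ≤ n := by
      have h6 : (0 : ℝ) < j := by exact_mod_cast hjpos
      rw [one_div, inv_mul_eq_div, le_div_iff₀ h6] at hn1
      exact hn1
    exact_mod_cast h5
  have hu100 : 100 ≤ u := by
    rw [hu, Nat.le_div_iff_mul_le hjpos]
    linarith
  have h2t : 2 ^ t n ≤ 2 ^ u := Nat.pow_le_pow_right (by norm_num) htn
  have hL : 2 * n + 1 + 2 ^ t n + 2 ≤ 2 ^ (u + 1) := by
    rw [pow_succ]
    omega
  calc (2 * n + 1 + 2 ^ t n + 2) ^ k ≤ 2 ^ ((u + 1) * k) := by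
        rw [pow_mul]
        exact Nat.pow_le_pow_left hL k
    _ < 2 ^ ((n + 1) / 8) := by
        refine Nat.pow_lt_pow_right (by norm_num) ?_
        rw [Nat.lt_iff_add_one_le, Nat.le_div_iff_mul_le (by norm_num)]
        rw [hj] at hju
        nlinarith [Nat.zero_le (u * k), Nat.zero_le k]

variable {nb : Gr}

open scoped Classical in
/-- the requirement for adaptive questions -/
def ReqP (nb : Gr) (B : Oracle) (F : Verifier) (M : Alg) (t : ℕ → ℕ) (W : ∀ n, Wd n) : Prop :=
  ¬ ∀ x, Asks M (fun q => decide (F.Yes (orc nb B W) q))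
      (fun q => F.Yes (orc nb B W) q ∨ F.No (orc nb B W) q) (padT t x)
      (M.p.eval (padT t x).length) [] ∧
    (x ∈ lang W true ↔ M.out (fun q => decide (F.Yes (orc nb B W) q)) (padT t x) = some [true])

open scoped Classical in
theorem stage3 (hfew : P_few) (hshr : P_shrink) (hdens : P_dens) (hcore : P_core3)
    (hnb : ∀ n, Good (hN n) (nb n)) (hspa : ∀ n, Spa (hN n / 8) (nb n)) (B : Oracle)
    (F : Verifier) (M : Alg)
    {t : ℕ → ℕ} (ht : (fun n => (t n : ℝ)) =o[atTop] fun n => (n : ℝ))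
    (W : ∀ n, Wd n) (n₀ : ℕ) : ∃ n, n₀ ≤ n ∧ ∃ w : Wd n, Legit n w ∧ ∃ m, n < m ∧
      ∀ W' : ∀ n, Wd n, (∀ i < m, W' i = Function.update W n w i) → ReqP nb B F M t W' := by
  obtain ⟨P, hP⟩ := F.size
  obtain ⟨S, hS⟩ := Pool.Agent.H622R2.Exp.A1.polyTime_length M.poly
  -- polynomials in the length of the padded input
  set pσ : Polynomial ℕ := S.comp (Polynomial.X + M.p) with hpσ
  set pT : Polynomial ℕ := P.comp pσ with hpT
  set pℓ : Polynomial ℕ := F.wit.comp pσ with hpℓ
  set ps : Polynomial ℕ := M.p * (Polynomial.C 288 * pT ^ 2) with hps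
  set pc : Polynomial ℕ := Polynomial.C 2 * Polynomial.X * (Polynomial.X + Polynomial.C 1) * ps +
    M.p * pℓ + Polynomial.C 2 * ps with hpc
  set Z : Polynomial ℕ := (Polynomial.C 4 * (M.p * pc + pc + Polynomial.C 1) + Polynomial.C 1) +
    Polynomial.C 20000 * ((pT + Polynomial.C 1) * (M.p + Polynomial.C 1)) ^ 2 with hZ
  obtain ⟨D, -, hD⟩ := Pool.Agent.H622R2.Exp.YAux.poly_bound Z
  obtain ⟨n, hn, hn100, hnum⟩ := num3 ht D n₀
  set x : List Bool := List.replicate n false with hx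
  have hxl : x.length = n := by simp [hx]
  set X := padT t x with hX
  have hXl : X.length = 2 * n + 1 + 2 ^ t n := by
    rw [hX, padT, length_pairBits, hxl, List.length_replicate]
  set N := X.length with hN'
  set k := M.p.eval N with hk
  set σ := S.eval (N + k) with hσ
  set T := P.eval σ with hT
  set ℓ := F.wit.eval σ with hℓ
  have hZe : Z.eval N = (4 * (k * (2 * N * (N + 1) * (k * (288 * T ^ 2)) + k * ℓ +
      2 * (k * (288 * T ^ 2))) + (2 * N * (N + 1) * (k * (288 * T ^ 2)) + k * ℓ +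
      2 * (k * (288 * T ^ 2))) + 1) + 1) + 20000 * ((T + 1) * (k + 1)) ^ 2 := by
    simp only [hZ, hpc, hps, hpℓ, hpT, hpσ, Polynomial.eval_add, Polynomial.eval_mul,
      Polynomial.eval_pow, Polynomial.eval_C, Polynomial.eval_X, Polynomial.eval_comp, ← hk, ← hσ,
      ← hT, ← hℓ]
  have hZ2 : Z.eval N < 2 ^ (hN n / 8) := by
    refine (hD N).trans_lt ?_
    rw [hXl]
    exact hnum
  have hhN : hN n ≤ N := by
    have h2t : 0 < 2 ^ t n := by positivity
    rw [hXl]
    unfold hN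
    omega
  have hcst : cst n k ℓ T ≤ 2 * N * (N + 1) * (k * (288 * T ^ 2)) + k * ℓ +
      2 * (k * (288 * T ^ 2)) := by
    unfold cst
    gcongr
  have hsz : 4 * (k * cst n k ℓ T + cst n k ℓ T + 1) + 1 < 2 ^ (hN n / 8) := by
    refine lt_of_le_of_lt ?_ hZ2
    rw [hZe]
    have : k * cst n k ℓ T ≤ k * (2 * N * (N + 1) * (k * (288 * T ^ 2)) + k * ℓ +
      2 * (k * (288 * T ^ 2))) := Nat.mul_le_mul_left _ hcst
    omega
  have h20 : 20000 * ((T + 1) * (k + 1)) ^ 2 < 2 ^ hN n := by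
    refine lt_of_le_of_lt ?_ (hZ2.trans_le (Nat.pow_le_pow_right (by norm_num) (Nat.div_le_self _ _)))
    rw [hZe]
    exact Nat.le_add_left _ _
  have hr : 1000 * 2 ^ (hN n / 8) ≤ 2 ^ hN n := by
    calc 1000 * 2 ^ (hN n / 8) ≤ 2 ^ 10 * 2 ^ (hN n / 8) := by gcongr; norm_num
      _ = 2 ^ (10 + hN n / 8) := by rw [pow_add]
      _ ≤ 2 ^ hN n := Nat.pow_le_pow_right (by norm_num) (by unfold hN; omega)
  have hlen : ∀ β q, askOf M X k β = some q → q.length ≤ σ := by
    intro β q hq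
    obtain ⟨h1, h2⟩ := askOf_some hq
    have h3 := hS X β
    rw [h2, List.length_cons] at h3
    have h4 : S.eval (X.length + β.length) ≤ σ := eval_mono S (by omega)
    omega
  obtain ⟨w, hw, hcase⟩ := fool3 (k := k) (T := T) (ℓ := ℓ) (Bd := T) hfew hshr hdens hcore (hnb n)
    (hspa n) B W (rnsOf F) (askOf M X k) (acceptOf M X k)
    (fun α hα => by
      unfold askOf
      rw [if_neg (by omega)])
    (fun β q hq => (hP _).1.trans (eval_mono P (hlen β q hq)))
    (fun β q hq l r h => ((hP _).2 l r h).trans (eval_mono P (hlen β q hq)))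
    (fun β q hq => by
      show Fintype.card (Basis (F.wit.eval q.length)) ≤ 2 ^ ℓ
      rw [Fintype.card_fun, Fintype.card_bool, Fintype.card_fin]
      exact Nat.pow_le_pow_right (by norm_num) (eval_mono F.wit (hlen β q hq))) hr hsz h20 true
  refine ⟨n, hn, w, hw, max n T + 1, by omega, fun W' hW' hreq => hcase ?_⟩
  have hWn : W' n = w := by
    rw [hW' n (by omega), Function.update_self]
  have hacc : ∀ β q, askOf M X k β = some q → ∀ κ : Basis (F.wit.eval q.length),
      F.acc (orc nb B W') q (ket κ) = (rnsOf F).acc (lev nb B W n w) q κ := by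
    intro β q hq κ
    refine accS_congr (Bd := T) (fun y hy => orc_congr fun k' hk' => ?_)
      (fun l r h => ((hP _).2 l r h).trans (eval_mono P (hlen β q hq))) _ _
    refine hW' k' ?_
    have h3 := le_bN k'
    have h4 : bN k' + 2 ≤ (bN k' + 2) ^ 2 := by nlinarith [Nat.zero_le (bN k')]
    omega
  have hyes : ∀ β q, askOf M X k β = some q →
      (F.Yes (orc nb B W') q ↔ (rnsOf F).Yes (lev nb B W n w) q) := by
    intro β q hq
    rw [yes_iff]
    exact exists_congr fun κ => by rw [hacc β q hq]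
  have hO : ∀ β q, askOf M X k β = some q →
      decide (F.Yes (orc nb B W') q) = decide ((rnsOf F).Yes (lev nb B W n w) q) :=
    fun β q hq => decide_eq_decide.2 (hyes β q hq)
  have hmem : x ∈ lang W' true ↔ (w true).2 = univ := by
    show (W' x.length true).2 = univ ↔ _
    rw [hxl, hWn]
  obtain ⟨hr1, hr2⟩ := hreq x
  rw [← hX, ← hN', ← hk] at hr1
  rw [hmem] at hr2
  constructor
  · intro β q hp hq
    rcases follow_prom (O := fun q => decide (F.Yes (orc nb B W') q)) hO hp hq hr1 with h | h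
    · exact Or.inl ((hyes β q hq).1 h)
    · exact Or.inr fun κ => (hacc β q hq κ).symm.le.trans (no_imp F _ _ h κ)
  · intro β hp hq
    rw [hr2]
    exact follow_fin (O := fun q => decide (F.Yes (orc nb B W') q)) hO hp hq

/-- the requirements -/
abbrev RJ : Type :=
  (Verifier × Bool × {t : ℕ → ℕ // Computable t}) ⊕ (Verifier × Alg × {t : ℕ → ℕ // Computable t})

/-- what is required -/
def RReqP (nb : Gr) (B : Oracle) (W : ∀ n, Wd n) : RJ → Prop
  | .inl (F, s, t) => ((fun n => (t.1 n : ℝ)) =o[atTop] fun n => (n : ℝ)) → Req nb B F t.1 s W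
  | .inr (F, M, t) => ((fun n => (t.1 n : ℝ)) =o[atTop] fun n => (n : ℝ)) → ReqP nb B F M t.1 W

theorem stageJ (hcore : P_core) (hfew : P_few) (hshr : P_shrink) (hdens : P_dens)
    (hcore3 : P_core3) (hnb : ∀ n, Good (hN n) (nb n)) (hspa : ∀ n, Spa (hN n / 8) (nb n))
    (B : Oracle) (r : RJ) (W : ∀ n, Wd n) (hW : ∀ n, Legit n (W n)) (n₀ : ℕ) :
    ∃ n, n₀ ≤ n ∧ ∃ w : Wd n, Legit n w ∧ ∃ m, n < m ∧
      ∀ W' : ∀ n, Wd n, (∀ i < m, W' i = Function.update W n w i) → RReqP nb B W' r := by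
  rcases r with ⟨F, s, t⟩ | ⟨F, M, t⟩
  · by_cases ht : (fun n => (t.1 n : ℝ)) =o[atTop] fun n => (n : ℝ)
    · obtain ⟨n, hn, w, hw, m, hm, h⟩ := stage hcore hnb B F ht s W n₀
      exact ⟨n, hn, w, hw, m, hm, fun W' hW' _ => h W' hW'⟩
    · exact ⟨n₀, le_rfl, W n₀, hW n₀, n₀ + 1, by omega, fun W' _ h => absurd h ht⟩
  · by_cases ht : (fun n => (t.1 n : ℝ)) =o[atTop] fun n => (n : ℝ)
    · obtain ⟨n, hn, w, hw, m, hm, h⟩ := stage3 hfew hshr hdens hcore3 hnb hspa B F M ht W n₀
      exact ⟨n, hn, w, hw, m, hm, fun W' hW' _ => h W' hW'⟩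
    · exact ⟨n₀, le_rfl, W n₀, hW n₀, n₀ + 1, by omega, fun W' _ h => absurd h ht⟩

theorem world3 (hgr : P_graph3) (hcore : P_core) (hfew : P_few) (hshr : P_shrink)
    (hdens : P_dens) (hcore3 : P_core3) (hcirc : P_circ) (hnorm : P_norm)
    (ham : ∀ (nb : Gr), (∀ n, Good (hN n) (nb n)) → ∀ (B : Oracle) (W : ∀ n, Wd n),
      (∀ n, Legit n (W n)) → ∀ s, IsAM1 (orc nb B W) (lang W s)) (B : Oracle) :
    ∃ A : Oracle, Reduces {y | B y = true} {y | A y = true} ∧ ∃ L : Set (List Bool),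
      IsQMA1 A L ∧ IsQMA1 A Lᶜ ∧ IsAM1 A L ∧ IsAM1 A Lᶜ ∧ ∀ t : ℕ → ℕ, Computable t →
        ((fun n => (t n : ℝ)) =o[atTop] fun n => (n : ℝ)) →
          ¬ IsQCMATime t A L ∧ ¬ IsQCMATime t A Lᶜ ∧ ¬ IsPQCMATime t A L := by
  obtain ⟨nb, hnb', hspa⟩ : ∃ nb : Gr, (∀ n, Good (hN n) (nb n)) ∧ ∀ n, Spa (hN n / 8) (nb n) := by
    choose nb hnb using fun n : ℕ => hgr (n + 1) (by omega)
    exact ⟨nb, fun n => (hnb n).1, fun n => (hnb n).2⟩
  have hc : Countable RJ := inferInstance
  obtain ⟨e, he⟩ := hc.exists_injective_nat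
  obtain ⟨p₀, hp₀⟩ : ∃ p : ∀ n, Par (hN n) (2 * hN n), ∀ n, Inj (p n) := by
    choose p hp using fun n => exists_inj (hN n) (2 * hN n) (by omega)
    exact ⟨p, hp⟩
  obtain ⟨W, hW, hR⟩ := diag (X := Wd) (fun n => {w | Legit n w})
    (fun n => mk true (fun _ => p₀ n, univ) (fun _ => p₀ n, ∅))
    (fun n => ⟨fun s v => by unfold mk; split_ifs <;> exact hp₀ n, true, by simp, by
      rw [mk_not]; simp⟩)
    (fun k W => ∀ r, e r = k → RReqP nb B W r)
    (fun k W n₀ hW => by
      by_cases hk : ∃ r, e r = k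
      · obtain ⟨r, hr⟩ := hk
        obtain ⟨n, hn, w, hw, m, hm, h⟩ := stageJ hcore hfew hshr hdens hcore3 hnb' hspa B r W hW n₀
        refine ⟨n, hn, w, hw, m, hm, fun W' hW' r' hr' => ?_⟩
        have := he (hr'.trans hr.symm)
        subst this
        exact h W' hW'
      · exact ⟨n₀, le_rfl, W n₀, hW n₀, n₀ + 1, by omega, fun W' _ r' hr' =>
          absurd ⟨r', hr'⟩ hk⟩)
  have e2 := lang_not hW true
  have h3 := isQMA1 hcirc hnorm hnb' B hW false
  have h4 := ham nb hnb' B W hW false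
  rw [show false = !true from rfl, e2] at h3 h4
  refine ⟨orc nb B W, ?_, lang W true, isQMA1 hcirc hnorm hnb' B hW true, h3,
    ham nb hnb' B W hW true, h4, fun t ht ho => ?_⟩
  · exact ⟨fun y => true :: y,
      Pool.Agent.H622R2.polyTime_of_poly_list (Poly.cons (NPC.Poly.const true) Poly.id),
      fun y => Iff.rfl⟩
  · refine ⟨?_, ?_, ?_⟩
    · rintro ⟨F, hF⟩
      exact hR _ (.inl (F, true, ⟨t, ht⟩)) rfl ho hF
    · rintro ⟨F, hF⟩
      rw [← e2] at hF
      exact hR _ (.inl (F, false, ⟨t, ht⟩)) rfl ho hF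
    · rintro ⟨F, M, hF⟩
      exact hR _ (.inr (F, M, ⟨t, ht⟩)) rfl ho hF

end Pool.Agent.K7x.QC
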