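import Pool.Agent.K7x.QC.World3
import Pool.Agent.K7x.QC.Tt2
import Pool.Agent.K7x.QC.DefsR
import Pool.Agent.K7x.QC.Sub

/-!
# The oracle: subset states as witnesses, and questions outside of the promise
-/

set_option autoImplicit false

namespace Pool.Agent.K7x.QC

open Finset Filter Pool.Agent.NPC Pool.Agent.H620R2.Gauge Pool.Agent.H9x.Q Pool.Agent.H622R2
open Pool.Agent.R562.QH (nrm nrm_sq nrm_nonneg nrm_add_le nrm_congr)

variable {nb : Gr}

/-- the requirement for nonadaptive questions -/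
def ReqN (nb : Gr) (B : Oracle) (F : Verifier) (Q : List Bool → List (List Bool))
    (R : List Bool → List Bool) (t : ℕ → ℕ) (W : ∀ n, Wd n) : Prop :=
  ¬ ∀ x a, List.Forall₂ (fun q c => (F.Yes (orc nb B W) q → c = true) ∧
      (F.No (orc nb B W) q → c = false)) (Q (padT t x)) a →
    (x ∈ lang W true ↔ R (pairBits (padT t x) a) = [true])

open scoped Classical in
theorem stage4 (hfew : P_few) (hcore : P_core2) (hnb : ∀ n, Good (hN n) (nb n)) (B : Oracle)
    (F : Verifier) {Q : List Bool → List (List Bool)} (hQ : PolyTime (fun u => bits (Q u)))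
    (R : List Bool → List Bool)
    {t : ℕ → ℕ} (ht : (fun n => (t n : ℝ)) =o[atTop] fun n => (n : ℝ))
    (W : ∀ n, Wd n) (n₀ : ℕ) : ∃ n, n₀ ≤ n ∧ ∃ w : Wd n, Legit n w ∧ ∃ m, n < m ∧
      ∀ W' : ∀ n, Wd n, (∀ i < m, W' i = Function.update W n w i) → ReqN nb B F Q R t W' := by
  obtain ⟨P, hP⟩ := F.size
  obtain ⟨S, hS⟩ := quest_size hQ
  -- a polynomial which bounds everything
  set Z : Polynomial ℕ := Polynomial.C 4 * ((Polynomial.C 2 * S + Polynomial.C 3) *
    (P.comp S + Polynomial.C 1) *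
    (S + Polynomial.C 1) + (S + Polynomial.C 1) * (S + F.wit.comp S + Polynomial.C 3)) with hZ
  obtain ⟨D, -, hD⟩ := Pool.Agent.H622R2.Exp.YAux.poly_bound Z
  obtain ⟨n, hn, hnum⟩ := num ht D n₀
  set x : List Bool := List.replicate n false with hx
  have hxl : x.length = n := by simp [hx]
  set X := padT t x with hX
  have hXl : X.length = 2 * n + 1 + 2 ^ t n := by
    rw [hX, padT, length_pairBits, hxl, List.length_replicate]
  set ql := Q X with hql
  set k := ql.length with hk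
  set σ := S.eval X.length with hσ
  have hkσ : k ≤ σ := (hS X).1
  have hqσ : ∀ i : Fin ql.length, (ql.get i).length ≤ σ := fun i => (hS X).2 _ (List.get_mem ql i)
  set T := P.eval σ with hT
  set ℓ := F.wit.eval σ with hℓ
  have hZe : Z.eval X.length = 4 * ((2 * σ + 3) * (T + 1) * (σ + 1) + (σ + 1) * (σ + ℓ + 3)) := by
    simp only [hZ, Polynomial.eval_add, Polynomial.eval_mul, Polynomial.eval_C, Polynomial.eval_comp,
      ← hσ, ← hT, ← hℓ]
  have hZD : Z.eval X.length ≤ (2 * n + 1 + 2 ^ t n + 2) ^ D := by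
    rw [← hXl]
    exact hD _
  obtain ⟨h1, h2⟩ := hnum ((k + 1) * (k + ℓ + 3)) (2 * ((2 * k + 3) * (T + 1) * (k + 1)))
    (by
      refine le_trans ?_ hZD
      rw [hZe]
      have : (k + 1) * (k + ℓ + 3) ≤ (σ + 1) * (σ + ℓ + 3) := Nat.mul_le_mul (by omega) (by omega)
      omega)
    (by
      refine le_trans ?_ hZD
      rw [hZe]
      have : (2 * k + 3) * (T + 1) * (k + 1) ≤ (2 * σ + 3) * (T + 1) * (σ + 1) :=
        Nat.mul_le_mul (Nat.mul_le_mul (by omega) le_rfl) (by omega)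
      omega)
  have hTl : ∀ i : Fin k, ((runsOf F ql).C i).length ≤ T := fun i =>
    (hP _).1.trans (eval_mono P (hqσ i))
  have hBd : ∀ i : Fin k, Short T ((runsOf F ql).C i) := fun i l r h =>
    ((hP _).2 l r h).trans (eval_mono P (hqσ i))
  have hK : ∀ i : Fin k, Fintype.card ((runsOf F ql).K i) ≤ 2 ^ ℓ := by
    intro i
    show Fintype.card (Basis (F.wit.eval (ql.get i).length)) ≤ 2 ^ ℓ
    rw [Fintype.card_fun, Fintype.card_bool, Fintype.card_fin]
    exact Nat.pow_le_pow_right (by norm_num) (eval_mono F.wit (hqσ i))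
  have hℓ' : 2 * k * 2 ^ ℓ ≤ 2 ^ (k + ℓ + 1) := by
    have h3 : k ≤ 2 ^ k := Nat.lt_two_pow_self.le
    calc 2 * k * 2 ^ ℓ ≤ 2 * 2 ^ k * 2 ^ ℓ := by gcongr
      _ = 2 ^ (k + ℓ + 1) := by ring
  obtain ⟨w, hw, a, ha, hcase⟩ := foolR hfew hcore (hnb n) B W (runsOf F ql) hTl hBd hK hℓ'
    (by
      show 3000 * ((k + 1) * (k + ℓ + 1 + 2)) ≤ 2 ^ (n + 1)
      have : 3000 * ((k + 1) * (k + ℓ + 1 + 2)) = 3000 * ((k + 1) * (k + ℓ + 3)) := by ring
      omega) (by
      show 20000 * ((2 * k + 3) * (T + 1) * (k + 1)) ^ 2 < 2 ^ (n + 1)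
      refine lt_of_eq_of_lt ?_ h2
      ring) true
    (fun Y => R (pairBits X (List.ofFn fun i => decide (Y i))) = [true])
  refine ⟨n, hn, w, hw, max n T + 1, by omega, fun W' hW' hreq => ?_⟩
  have hWn : W' n = w := by
    rw [hW' n (by omega), Function.update_self]
  have hacc : ∀ (i : Fin k) (κ : Basis (F.wit.eval (ql.get i).length)),
      F.acc (orc nb B W') (ql.get i) (ket κ) = (runsOf F ql).acc (lev nb B W n w) i κ := by
    intro i κ
    refine accS_congr (Bd := T) (fun y hy => orc_congr fun k' hk' => ?_) (hBd i) _ _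
    refine hW' k' ?_
    have h3 := le_bN k'
    have h4 : bN k' + 2 ≤ (bN k' + 2) ^ 2 := by nlinarith [Nat.zero_le (bN k')]
    omega
  have hmem : x ∈ lang W' true ↔ (w true).2 = univ := by
    show (W' x.length true).2 = univ ↔ _
    rw [hxl, hWn]
  have hyes : ∀ i : Fin k, F.Yes (orc nb B W') (ql.get i) ↔
      ∃ κ, 2 / 3 ≤ (runsOf F ql).acc (lev nb B W n w) i κ := by
    intro i
    rw [yes_iff]
    exact exists_congr fun κ => by rw [hacc]
  have h3 := hreq x (List.ofFn fun i : Fin k => decide (a i)) (by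
    rw [← hX, ← hql, List.forall₂_iff_get]
    refine ⟨by simp [hk], fun i h₁ h₂ => ?_⟩
    have e : (List.ofFn fun i : Fin k => decide (a i)).get ⟨i, h₂⟩ = decide (a ⟨i, h₁⟩) := by
      simp
    rw [e]
    obtain ⟨h4, h5⟩ := ha ⟨i, h₁⟩
    refine ⟨fun h => decide_eq_true (h4 ((hyes ⟨i, h₁⟩).1 h)), fun h => decide_eq_false (h5 ?_)⟩
    intro κ
    exact (hacc ⟨i, h₁⟩ κ).symm.le.trans (no_imp F _ _ h κ))
  rw [← hX, hmem] at h3
  exact hcase h3

/-- the requirements -/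
abbrev RL : Type := RJ ⊕
    (Verifier × {Q : List Bool → List (List Bool) // PolyTime fun u => bits (Q u)} ×
      {R : List Bool → List Bool // PolyTime R} × {t : ℕ → ℕ // Computable t})

/-- what is required -/
def RReqN (nb : Gr) (B : Oracle) (W : ∀ n, Wd n) : RL → Prop
  | .inl r => RReqP nb B W r
  | .inr (F, Q, R, t) =>
    ((fun n => (t.1 n : ℝ)) =o[atTop] fun n => (n : ℝ)) → ReqN nb B F Q.1 R.1 t.1 W

/-- **The theorem.** -/
theorem world4 (hgr : P_graph3) (hcore : P_core) (hfew : P_few) (hcore2 : P_core2)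
    (hshr : P_shrink) (hdens : P_dens) (hcore3 : P_core3) (hcirc : P_circ) (htest : P_test)
    (hnorm : P_norm)
    (ham : ∀ (nb : Gr), (∀ n, Good (hN n) (nb n)) → ∀ (B : Oracle) (W : ∀ n, Wd n),
      (∀ n, Legit n (W n)) → ∀ s, IsAM1 (orc nb B W) (lang W s)) (B : Oracle) :
    ∃ A : Oracle, Reduces {y | B y = true} {y | A y = true} ∧ ∃ L : Set (List Bool),
      IsOSQMA1 A L ∧ IsOSQMA1 A Lᶜ ∧ IsAM1 A L ∧ IsAM1 A Lᶜ ∧ ∀ t : ℕ → ℕ, Computable t →
        ((fun n => (t n : ℝ)) =o[atTop] fun n => (n : ℝ)) →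
          ¬ IsQCMATime t A L ∧ ¬ IsQCMATime t A Lᶜ ∧ ¬ IsPQCMATime t A L ∧
            ¬ IsNAQCMATime t A L := by
  obtain ⟨nb, hnb', hspa⟩ : ∃ nb : Gr, (∀ n, Good (hN n) (nb n)) ∧ ∀ n, Spa (hN n / 8) (nb n) := by
    choose nb hnb using fun n : ℕ => hgr (n + 1) (by omega)
    exact ⟨nb, fun n => (hnb n).1, fun n => (hnb n).2⟩
  have hc : Countable RL := inferInstance
  obtain ⟨e, he⟩ := hc.exists_injective_nat
  obtain ⟨p₀, hp₀⟩ : ∃ p : ∀ n, Par (hN n) (2 * hN n), ∀ n, Inj (p n) := by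
    choose p hp using fun n => exists_inj (hN n) (2 * hN n) (by omega)
    exact ⟨p, hp⟩
  obtain ⟨W, hW, hR⟩ := diag (X := Wd) (fun n => {w | Legit n w})
    (fun n => mk true (fun _ => p₀ n, univ) (fun _ => p₀ n, ∅))
    (fun n => ⟨fun s v => by unfold mk; split_ifs <;> exact hp₀ n, true, by simp, by
      rw [mk_not]; simp⟩)
    (fun k W => ∀ r, e r = k → RReqN nb B W r)
    (fun k W n₀ hW => by
      by_cases hk : ∃ r, e r = k
      · obtain ⟨r, hr⟩ := hk
        suffices h : ∃ n, n₀ ≤ n ∧ ∃ w : Wd n, Legit n w ∧ ∃ m, n < m ∧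
            ∀ W' : ∀ n, Wd n, (∀ i < m, W' i = Function.update W n w i) → RReqN nb B W' r by
          obtain ⟨n, hn, w, hw, m, hm, h⟩ := h
          refine ⟨n, hn, w, hw, m, hm, fun W' hW' r' hr' => ?_⟩
          have := he (hr'.trans hr.symm)
          subst this
          exact h W' hW'
        rcases r with r | ⟨F, Q, R, t⟩
        · exact stageJ hcore hfew hshr hdens hcore3 hnb' hspa B r W hW n₀
        · by_cases ht : (fun n => (t.1 n : ℝ)) =o[atTop] fun n => (n : ℝ)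
          · obtain ⟨n, hn, w, hw, m, hm, h⟩ := stage4 hfew hcore2 hnb' B F Q.2 R.1 ht W n₀
            exact ⟨n, hn, w, hw, m, hm, fun W' hW' _ => h W' hW'⟩
          · exact ⟨n₀, le_rfl, W n₀, hW n₀, n₀ + 1, by omega, fun W' _ h => absurd h ht⟩
      · exact ⟨n₀, le_rfl, W n₀, hW n₀, n₀ + 1, by omega, fun W' _ r' hr' =>
          absurd ⟨r', hr'⟩ hk⟩)
  have e2 := lang_not hW true
  have h3 := isOSQMA1 hcirc htest hnorm hnb' B hW false
  have h4 := ham nb hnb' B W hW false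
  rw [show false = !true from rfl, e2] at h3 h4
  refine ⟨orc nb B W, ?_, lang W true, isOSQMA1 hcirc htest hnorm hnb' B hW true, h3,
    ham nb hnb' B W hW true, h4, fun t ht ho => ?_⟩
  · exact ⟨fun y => true :: y,
      Pool.Agent.H622R2.polyTime_of_poly_list (Poly.cons (NPC.Poly.const true) Poly.id),
      fun y => Iff.rfl⟩
  · refine ⟨?_, ?_, ?_, ?_⟩
    · rintro ⟨F, hF⟩
      exact hR _ (.inl (.inl (F, true, ⟨t, ht⟩))) rfl ho hF
    · rintro ⟨F, hF⟩
      rw [← e2] at hF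
      exact hR _ (.inl (.inl (F, false, ⟨t, ht⟩))) rfl ho hF
    · rintro ⟨F, M, hF⟩
      exact hR _ (.inl (.inr (F, M, ⟨t, ht⟩))) rfl ho hF
    · rintro ⟨F, Q, R, hQ, hR', h⟩
      exact hR _ (.inr (F, ⟨Q, hQ⟩, ⟨R, hR'⟩, ⟨t, ht⟩)) rfl ho h

end Pool.Agent.K7x.QC
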